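import Pool.Agent.Lib.MP_a260de_nt.CN3.SpecM

/-!
MP_a260de_nt, PROJECT CN, part A, strong version: the value β = 0.39.
-/

namespace Pool.Agent.Lib.MP_a260de_nt.CN3

theorem tA3 (h : S_Sec3) : S_A3 := by
  refine h ((39 : ℝ) / 100) (by norm_num) (by norm_num) ?_
  have h1 : (1 : ℝ) / (2 * (39 / 100)) < Real.exp (1 / 4) := by
    have h2 := Real.sum_le_exp_of_nonneg (x := (1 : ℝ) / 4) (by norm_num) 4
    refine lt_of_lt_of_le ?_ h2
    norm_num [Finset.sum_range_succ, Nat.factorial]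
  have h3 : Real.log ((1 : ℝ) / (2 * (39 / 100))) < 1 / 4 := by
    rw [Real.log_lt_iff_lt_exp (by norm_num)]
    exact h1
  linarith

end Pool.Agent.Lib.MP_a260de_nt.CN3
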