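import Pool.Agent.Lib.MP_a260de_nt.CN3.SpecM

/-!
MP_a260de_nt, PROJECT CN, part A, strong version, module Big: the triples with large k, assembly.
-/

namespace Pool.Agent.Lib.MP_a260de_nt.CN3

open Finset Pool.Agent.Lib.MP_a260de_nt.CN.A Filter

namespace Big

private theorem flo {a b : ℝ} (ha : 0 < a) (hab : a < b) :
    ∀ᶠ z : ℝ in atTop, z ^ a ≤ (⌊z ^ b⌋₊ : ℝ) := by
  filter_upwards [(tendsto_rpow_atTop (sub_pos.2 hab)).eventually_ge_atTop 2,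
    eventually_ge_atTop 1] with z h1 h2
  have h3 : z ^ b = z ^ a * z ^ (b - a) := by
    rw [← Real.rpow_add (by linarith)]
    congr 1
    ring
  have h4 : 1 ≤ z ^ a := Real.one_le_rpow h2 ha.le
  have h5 : z ^ b < (⌊z ^ b⌋₊ : ℝ) + 1 := Nat.lt_floor_add_one _
  have h6 : z ^ a * 2 ≤ z ^ a * z ^ (b - a) := mul_le_mul_of_nonneg_left h1 (by linarith)
  linarith

private theorem half {b : ℝ} (hb : 0 < b) : ∀ᶠ z : ℝ in atTop, z ^ b / 2 ≤ (⌊z ^ b⌋₊ : ℝ) := by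
  filter_upwards [(tendsto_rpow_atTop hb).eventually_ge_atTop 2] with z h1
  have h5 : z ^ b < (⌊z ^ b⌋₊ : ℝ) + 1 := Nat.lt_floor_add_one _
  linarith

/-- the choice of the small parameter -/
private theorem choose_t {κ η Λ ε : ℝ} (hε : 0 < ε) :
    ∃ t : ℝ, 0 < t ∧ t < 1 / 2 ∧
      (1 + κ) * (1 + t) * (Λ + t) / ((1 - t) ^ 2 * (1 / 4 - η)) ≤
        (1 + κ) * (4 / (1 - 4 * η)) * Λ + ε := by
  have hc : ContinuousAt (fun t : ℝ => (1 + κ) * (1 + t) * (Λ + t) *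
      (4 / (1 - 4 * η)) / (1 - t) ^ 2) 0 := by
    refine ContinuousAt.div ?_ ?_ (by norm_num)
    · fun_prop
    · fun_prop
  have h0 : (1 + κ) * (1 + (0 : ℝ)) * (Λ + 0) * (4 / (1 - 4 * η)) / (1 - 0) ^ 2 <
      (1 + κ) * (4 / (1 - 4 * η)) * Λ + ε := by
    have : (1 + κ) * (1 + (0 : ℝ)) * (Λ + 0) * (4 / (1 - 4 * η)) / (1 - 0) ^ 2 =
      (1 + κ) * (4 / (1 - 4 * η)) * Λ := by ring
    linarith
  have h1 := hc.eventually_lt_const h0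
  have h2 : ∀ᶠ t : ℝ in nhdsWithin 0 (Set.Ioi 0), (1 + κ) * (1 + t) * (Λ + t) *
      (4 / (1 - 4 * η)) / (1 - t) ^ 2 < (1 + κ) * (4 / (1 - 4 * η)) * Λ + ε :=
    h1.filter_mono nhdsWithin_le_nhds
  have h3 : ∀ᶠ t : ℝ in nhdsWithin 0 (Set.Ioi 0), t ∈ Set.Ioo (0 : ℝ) (1 / 2) :=
    Ioo_mem_nhdsGT (by norm_num)
  obtain ⟨t, ht1, ht2⟩ := (h2.and h3).exists
  refine ⟨t, ht2.1, ht2.2, le_trans (le_of_eq ?_) ht1.le⟩
  have e1 : (1 : ℝ) / 4 - η = (1 - 4 * η) / 4 := by ring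
  rw [e1, div_eq_mul_inv, mul_inv, inv_div, div_eq_mul_inv _ ((1 - t) ^ 2)]
  ring

/-- the algebra of the main term -/
private theorem alg {P T H S E N z Lz c l2 a b t κ q Λ D : ℝ} (hS : 0 ≤ S) (hE : 0 ≤ E) (hN : 0 ≤ N)
    (hT0 : 0 ≤ T) (hκ : 0 < κ) (ht : 0 < t) (ht1 : t < 1 / 2) (hc : 1 ≤ c) (hl2 : 0 < l2) (hq : 0 < q)
    (hL : 0 < Lz) (hΛ : 0 ≤ Λ) (ha : a ≤ (1 + t) * l2) (hb : b ≤ Λ + t) (hb0 : 0 ≤ b)
    (hP : P ≤ (1 + κ) * E * S) (hT : T ≤ N * (a * b)) (hD : (1 - t) * (q * Lz) ≤ D)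
    (hH : (1 - t) * D ≤ c * H) (hEN : E * N ≤ z) :
    P * T / H ≤ (1 + κ) * (1 + t) * (Λ + t) / ((1 - t) ^ 2 * q) * c * l2 * (z / Lz) * S := by
  have ht2 : 0 < 1 - t := by linarith
  have h1 : T ≤ N * ((1 + t) * l2 * (Λ + t)) :=
    hT.trans (mul_le_mul_of_nonneg_left (mul_le_mul ha hb hb0 (by positivity)) hN)
  have hPT : P * T ≤ z * ((1 + κ) * S * ((1 + t) * l2 * (Λ + t))) := by
    have h2 : P * T ≤ (1 + κ) * E * S * (N * ((1 + t) * l2 * (Λ + t))) :=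
      mul_le_mul hP h1 hT0 (by positivity)
    have h3 : (1 + κ) * E * S * (N * ((1 + t) * l2 * (Λ + t))) =
        E * N * ((1 + κ) * S * ((1 + t) * l2 * (Λ + t))) := by ring
    rw [h3] at h2
    exact h2.trans (mul_le_mul_of_nonneg_right hEN (by positivity))
  have hz : 0 ≤ z := le_trans (by positivity) hEN
  have hV : 0 < (1 - t) * ((1 - t) * (q * Lz)) / c := by positivity
  have hVH : (1 - t) * ((1 - t) * (q * Lz)) / c ≤ H := by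
    rw [div_le_iff₀ (by linarith)]
    have := mul_le_mul_of_nonneg_left hD ht2.le
    linarith
  have h4 : P * T / H ≤ z * ((1 + κ) * S * ((1 + t) * l2 * (Λ + t))) /
      ((1 - t) * ((1 - t) * (q * Lz)) / c) :=
    div_le_div₀ (by positivity) hPT hV hVH
  refine h4.trans (le_of_eq ?_)
  have hc0 : c ≠ 0 := by linarith
  field_simp

/-- the elementary facts for large `z` -/
private theorem basic {β η κ δ ρ C t : ℝ} (hβ : 1 / 4 < β) (hη : 0 < η) (hs : β + η < 1 / 2)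
    (hκ : 0 < κ) (hκ1 : κ ≤ 1) (hδ : 0 < δ) (hρ : 0 < ρ) (hρη : 2 * ρ ≤ η) (hρδ : ρ < δ)
    (hρθ : ρ < 1 / 2 - β - η) (hρβ : ρ < β) (hC : 0 < C) (ht : 0 < t) :
    ∀ᶠ z : ℝ in atTop, ∀ (n E0 E1 Y K N Δ : ℕ), n = ⌊z⌋₊ → E0 = ⌊z ^ (1 / 2 - β - η)⌋₊ →
      E1 = ⌊(1 + κ) * (E0 : ℝ)⌋₊ → Y = ⌊z ^ β⌋₊ → K = ⌊z ^ δ⌋₊ → N = n / E0 →
      Δ = ⌊z ^ (1 / 4 - η)⌋₊ →
      (n : ℝ) ^ ρ ≤ E0 ∧ E0 < E1 ∧ E1 ≤ 2 * E0 ∧ E1 ≤ n ∧ (n : ℝ) ^ ρ ≤ Y ∧ (n : ℝ) ^ ρ ≤ K ∧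
      (n : ℝ) ^ ρ ≤ N ∧ N ≤ n ∧ 1 ≤ Δ ∧ Δ ≤ Y ∧ (Δ : ℝ) ^ 2 * (n : ℝ) ^ ρ ≤ Real.sqrt ((E0 : ℝ) * N) ∧
      1 ≤ z ∧ 0 < Real.log z ∧ (E0 : ℝ) * N ≤ z ∧ 1 ≤ E0 ∧ (E1 : ℝ) ≤ (1 + κ) * E0 ∧
      (1 - t) * ((1 / 4 - η) * Real.log z) ≤ Real.log Δ ∧ 2 ≤ Y ∧
      C * ((E0 : ℝ) * N / Real.log n ^ (5 : ℝ)) ≤ z / Real.log z ^ 4 := by
  obtain ⟨θ, hθ⟩ : ∃ θ : ℝ, θ = 1 / 2 - β - η := ⟨_, rfl⟩
  rw [← hθ] at hρθ ⊢
  have hθ0 : 0 < θ := hρ.trans hρθ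
  have hθ4 : θ < 1 / 4 := by linarith
  have hq : 0 < 1 / 4 - η := by linarith
  have hlogt : Tendsto (fun z : ℝ => (t * (1 / 4 - η)) * Real.log z) atTop atTop :=
    Real.tendsto_log_atTop.const_mul_atTop (by positivity)
  filter_upwards [eventually_ge_atTop (16 : ℝ), flo hρ hρθ, flo hρ hρβ, flo hρ hρδ,
    half hθ0, half hq, (tendsto_rpow_atTop hθ0).eventually_ge_atTop (4 / κ),
    (tendsto_rpow_atTop hθ0).eventually_ge_atTop 4,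
    (tendsto_rpow_atTop (show (0 : ℝ) < 1 / 2 - θ by linarith)).eventually_ge_atTop 8,
    (tendsto_rpow_atTop (show (0 : ℝ) < β by linarith)).eventually_ge_atTop 4,
    (tendsto_rpow_atTop hq).eventually_ge_atTop 2,
    (tendsto_rpow_atTop (show (0 : ℝ) < 3 / 2 * η by linarith)).eventually_ge_atTop 2,
    (tendsto_rpow_atTop (show (0 : ℝ) < 1 - θ - ρ by linarith)).eventually_ge_atTop 8,
    hlogt.eventually_ge_atTop (Real.log 2), Real.tendsto_log_atTop.eventually_ge_atTop (32 * C),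
    Real.tendsto_log_atTop.eventually_ge_atTop 1] with
    z hz16 hfE hfY hfK hhE hhD hκz hθz h12 hβz hqz hηz h1θ hlz hCz hL1
  intro n E0 E1 Y K N Δ hn hE0 hE1 hY hK hN hΔ
  have hz1 : (1 : ℝ) ≤ z := by linarith
  have hz0 : (0 : ℝ) < z := by linarith
  have hnz : (n : ℝ) ≤ z := by rw [hn]; exact Nat.floor_le hz0.le
  have hzn : z - 1 < (n : ℝ) := by
    rw [hn]
    have := Nat.lt_floor_add_one z
    linarith
  have hnρ : (n : ℝ) ^ ρ ≤ z ^ ρ := Real.rpow_le_rpow (Nat.cast_nonneg n) hnz hρ.le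
  rw [← hE0] at hfE hhE
  rw [← hY] at hfY
  rw [← hK] at hfK
  rw [← hΔ] at hhD
  have hE0z : (E0 : ℝ) ≤ z ^ θ := by
    rw [hE0]
    exact Nat.floor_le (by positivity)
  have hE04 : (2 : ℝ) ≤ (E0 : ℝ) := by linarith
  have hE02 : 2 ≤ E0 := by exact_mod_cast hE04
  have hzθ : z ^ θ * z ^ (1 / 2 - θ) = Real.sqrt z := by
    rw [← Real.rpow_add hz0, Real.sqrt_eq_rpow]
    congr 1
    ring
  have hsq : Real.sqrt z * Real.sqrt z = z := Real.mul_self_sqrt hz0.le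
  have hsq4 : 4 ≤ Real.sqrt z := by
    rw [show (4 : ℝ) = Real.sqrt 16 by
      rw [show (16 : ℝ) = 4 ^ 2 by norm_num, Real.sqrt_sq (by norm_num)]]
    exact Real.sqrt_le_sqrt hz16
  have hθs : 8 * z ^ θ ≤ Real.sqrt z := by
    rw [← hzθ, mul_comm]
    exact mul_le_mul_of_nonneg_left h12 (by positivity)
  have hzθ0 : 0 < z ^ θ := by positivity
  have hs4z : 4 * Real.sqrt z ≤ z := by
    have := mul_le_mul_of_nonneg_right hsq4 (Real.sqrt_nonneg z)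
    rwa [hsq] at this
  have hsn : Real.sqrt z ≤ (n : ℝ) := by linarith
  have hE1le : (E1 : ℝ) ≤ (1 + κ) * E0 := by
    rw [hE1]
    exact Nat.floor_le (by positivity)
  have hE12 : (E1 : ℝ) ≤ 2 * E0 := by
    have := mul_le_mul_of_nonneg_right hκ1 (Nat.cast_nonneg (α := ℝ) E0)
    linarith
  have hE1n : (E1 : ℝ) ≤ n := by linarith
  have hlt : (E0 : ℝ) < E1 := by
    have h1 : (1 + κ) * (E0 : ℝ) < (E1 : ℝ) + 1 := by
      rw [hE1]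
      exact Nat.lt_floor_add_one _
    have h2 : 2 ≤ κ * (E0 : ℝ) := by
      rw [div_le_iff₀ hκ] at hκz
      have : κ * (z ^ θ / 2) ≤ κ * E0 := mul_le_mul_of_nonneg_left hhE hκ.le
      linarith
    linarith
  have hlt' : E0 < E1 := by exact_mod_cast hlt
  have hmod : E0 * N + n % E0 = n := by
    rw [hN]
    exact Nat.div_add_mod n E0
  have hmod2 : n % E0 < E0 := Nat.mod_lt _ (by omega)
  have hmodr : (E0 : ℝ) * N + ((n % E0 : ℕ) : ℝ) = n := by exact_mod_cast hmod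
  have hmodr2 : ((n % E0 : ℕ) : ℝ) ≤ E0 := by exact_mod_cast hmod2.le
  have hmodr3 : (0 : ℝ) ≤ ((n % E0 : ℕ) : ℝ) := Nat.cast_nonneg _
  have hENz : (E0 : ℝ) * N ≤ z := by linarith
  have hENl : z / 2 ≤ (E0 : ℝ) * N := by linarith
  have hzρ1 : 1 ≤ z ^ ρ := Real.one_le_rpow hz1 hρ.le
  have hNl : z ^ ρ ≤ (N : ℝ) := by
    have h1 : z ^ θ * z ^ ρ * z ^ (1 - θ - ρ) = z := by
      rw [← Real.rpow_add hz0, ← Real.rpow_add hz0]
      rw [show θ + ρ + (1 - θ - ρ) = 1 by ring, Real.rpow_one]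
    have h2 : z ^ θ * z ^ ρ * 8 ≤ z := by
      calc z ^ θ * z ^ ρ * 8 ≤ z ^ θ * z ^ ρ * z ^ (1 - θ - ρ) :=
            mul_le_mul_of_nonneg_left h1θ (by positivity)
        _ = z := h1
    have h3 : z ^ θ * z ^ ρ ≤ z ^ θ * (N : ℝ) := by
      have h4 : (E0 : ℝ) * N ≤ z ^ θ * N := mul_le_mul_of_nonneg_right hE0z (Nat.cast_nonneg _)
      have h5 : 0 < z ^ θ * z ^ ρ := by positivity
      linarith
    exact le_of_mul_le_mul_left h3 hzθ0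
  have hΔz : (Δ : ℝ) ≤ z ^ (1 / 4 - η) := by
    rw [hΔ]
    exact Nat.floor_le (by positivity)
  have hΔ1 : (1 : ℝ) ≤ Δ := by linarith
  have hΔ1' : 1 ≤ Δ := by exact_mod_cast hΔ1
  have hΔY : Δ ≤ Y := by
    rw [hΔ, hY]
    exact Nat.floor_le_floor (Real.rpow_le_rpow_of_exponent_le hz1 (by linarith))
  have hY2 : 2 ≤ Y := by
    rw [hY]
    exact Nat.le_floor (by push_cast; linarith)
  have hsqrt : (Δ : ℝ) ^ 2 * (n : ℝ) ^ ρ ≤ Real.sqrt ((E0 : ℝ) * N) := by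
    have h1 : (Δ : ℝ) ^ 2 * (n : ℝ) ^ ρ ≤ (z ^ (1 / 4 - η)) ^ 2 * z ^ ρ :=
      mul_le_mul (pow_le_pow_left₀ (by linarith) hΔz 2) hnρ (by positivity) (by positivity)
    have h2 : (z ^ (1 / 4 - η)) ^ 2 * z ^ ρ * z ^ (3 / 2 * η) ≤ Real.sqrt z := by
      rw [← Real.rpow_natCast (z ^ (1 / 4 - η)) 2, ← Real.rpow_mul hz0.le, ← Real.rpow_add hz0,
        ← Real.rpow_add hz0, Real.sqrt_eq_rpow]
      refine Real.rpow_le_rpow_of_exponent_le hz1 ?_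
      push_cast
      linarith
    have h3 : 0 < (z ^ (1 / 4 - η)) ^ 2 * z ^ ρ := by positivity
    have h4 : (z ^ (1 / 4 - η)) ^ 2 * z ^ ρ * 2 ≤ (z ^ (1 / 4 - η)) ^ 2 * z ^ ρ * z ^ (3 / 2 * η) :=
      mul_le_mul_of_nonneg_left hηz h3.le
    have h5 : Real.sqrt z / 2 ≤ Real.sqrt ((E0 : ℝ) * N) := by
      refine Real.le_sqrt_of_sq_le ?_
      rw [div_pow, Real.sq_sqrt hz0.le]
      linarith
    linarith
  have hlogΔ : (1 - t) * ((1 / 4 - η) * Real.log z) ≤ Real.log Δ := by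
    have h1 : Real.log (z ^ (1 / 4 - η) / 2) ≤ Real.log Δ := Real.log_le_log (by positivity) hhD
    rw [Real.log_div (by positivity) (by norm_num), Real.log_rpow hz0] at h1
    linarith
  have herr : C * ((E0 : ℝ) * N / Real.log n ^ (5 : ℝ)) ≤ z / Real.log z ^ 4 := by
    have h1 : Real.log z / 2 ≤ Real.log n := by
      have := Real.log_le_log (by positivity) hsn
      rwa [Real.log_sqrt hz0.le] at this
    have h2 : (Real.log z / 2) ^ 5 ≤ Real.log n ^ (5 : ℝ) := by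
      rw [show (5 : ℝ) = ((5 : ℕ) : ℝ) by norm_num, Real.rpow_natCast]
      exact pow_le_pow_left₀ (by linarith) h1 5
    have hLpos : 0 < Real.log z := by linarith
    have h3 : (E0 : ℝ) * N / Real.log n ^ (5 : ℝ) ≤ z / (Real.log z / 2) ^ 5 :=
      div_le_div₀ hz0.le hENz (by positivity) h2
    have h4 : C * (z / (Real.log z / 2) ^ 5) ≤ z / Real.log z ^ 4 := by
      have h5 : C * (z / (Real.log z / 2) ^ 5) = (32 * C) / Real.log z * (z / Real.log z ^ 4) := by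
        field_simp
        ring
      rw [h5]
      have h6 : (32 * C) / Real.log z ≤ 1 := (div_le_one hLpos).2 hCz
      have h7 : 0 ≤ z / Real.log z ^ 4 := by positivity
      exact mul_le_of_le_one_left h7 h6
    exact (mul_le_mul_of_nonneg_left h3 hC.le).trans h4
  refine ⟨hnρ.trans hfE, hlt', by exact_mod_cast hE12, by exact_mod_cast hE1n, hnρ.trans hfY,
    hnρ.trans hfK, hnρ.trans hNl, by rw [hN]; exact Nat.div_le_self _ _, hΔ1', hΔY, hsqrt, hz1,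
    by linarith, hENz, by omega, hE1le, hlogΔ, hY2, herr⟩

end Big

open Big in
theorem tBig (hC0 : S_C0s) (hIn2 : S_In2) (hHlo : S_Hlo) (hWup : S_Wup) (hTwo : S_Two) (hMrz : S_Mrz)
    (hInb : S_Inb) : S_Big := by
  intro β η κ δ ε hβ hη hs hκ hκ1 hδ hε
  obtain ⟨Λ, hΛ⟩ : ∃ Λ : ℝ, Λ = Real.log ((1 / 2 + η) / β) := ⟨_, rfl⟩
  have hΛ0 : 0 ≤ Λ := by
    rw [hΛ]
    refine Real.log_nonneg ?_
    rw [le_div_iff₀ (by linarith)]
    linarith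
  obtain ⟨t, ht, ht1, htG⟩ := choose_t (κ := κ) (η := η) (Λ := Λ) hε
  obtain ⟨ρ, hρ⟩ : ∃ ρ : ℝ, ρ = min (min η δ) (min (1 / 2 - β - η) β) / 2 := ⟨_, rfl⟩
  have hm : 0 < min (min η δ) (min (1 / 2 - β - η) β) :=
    lt_min (lt_min hη hδ) (lt_min (by linarith) (by linarith))
  have hρ0 : 0 < ρ := by rw [hρ]; linarith
  have hm1 : min (min η δ) (min (1 / 2 - β - η) β) ≤ η := (min_le_left _ _).trans (min_le_left _ _)
  have hm2 : min (min η δ) (min (1 / 2 - β - η) β) ≤ δ := (min_le_left _ _).trans (min_le_right _ _)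
  have hm3 : min (min η δ) (min (1 / 2 - β - η) β) ≤ 1 / 2 - β - η :=
    (min_le_right _ _).trans (min_le_left _ _)
  have hm4 : min (min η δ) (min (1 / 2 - β - η) β) ≤ β :=
    (min_le_right _ _).trans (min_le_right _ _)
  obtain ⟨C, n0, hC, hTwo⟩ := hTwo 5 ρ (by norm_num) hρ0
  obtain ⟨Y0, hY0⟩ := hIn2 t ht
  obtain ⟨Δ0, hΔ0⟩ := hHlo t ht
  obtain ⟨z1, hz1⟩ := hMrz β η t (by linarith) hη hs ht
  have hfl : ∀ {b : ℝ}, 0 < b → Tendsto (fun z : ℝ => ⌊z ^ b⌋₊) atTop atTop := fun hb =>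
    tendsto_nat_floor_atTop.comp (tendsto_rpow_atTop hb)
  have key : ∀ᶠ z : ℝ in atTop,
      ∑ e ∈ Ep ⌊z ^ (1 / 2 - β - η)⌋₊ ⌊(1 + κ) * (⌊z ^ (1 / 2 - β - η)⌋₊ : ℝ)⌋₊,
        (((bad3 z β e).filter (fun t => z ^ δ < (t.2.1 : ℝ))).card : ℝ) ≤
      ((1 + κ) * (4 / (1 - 4 * η)) * Real.log ((1 / 2 + η) / β) + ε) * c0 * Real.log 2 *
        (z / Real.log z) *
        (∑ e ∈ Ep ⌊z ^ (1 / 2 - β - η)⌋₊ ⌊(1 + κ) * (⌊z ^ (1 / 2 - β - η)⌋₊ : ℝ)⌋₊, 1 / (e : ℝ)) +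
      z / (Real.log z) ^ 4 := by
    filter_upwards [basic hβ hη hs hκ hκ1 hδ hρ0 (by linarith) (by linarith) (by linarith)
      (by linarith) hC ht, (hfl (show (0 : ℝ) < β by linarith)).eventually_ge_atTop Y0,
      (hfl (show (0 : ℝ) < 1 / 4 - η by linarith)).eventually_ge_atTop Δ0,
      tendsto_nat_floor_atTop.eventually_ge_atTop n0, eventually_ge_atTop z1] with
      z hB hYz hΔz hnz hzz1
    obtain ⟨n, hn⟩ : ∃ n : ℕ, n = ⌊z⌋₊ := ⟨_, rfl⟩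
    obtain ⟨E0, hE0⟩ : ∃ n : ℕ, n = ⌊z ^ (1 / 2 - β - η)⌋₊ := ⟨_, rfl⟩
    obtain ⟨E1, hE1⟩ : ∃ n : ℕ, n = ⌊(1 + κ) * (E0 : ℝ)⌋₊ := ⟨_, rfl⟩
    obtain ⟨Y, hY⟩ : ∃ n : ℕ, n = ⌊z ^ β⌋₊ := ⟨_, rfl⟩
    obtain ⟨K, hK⟩ : ∃ n : ℕ, n = ⌊z ^ δ⌋₊ := ⟨_, rfl⟩
    obtain ⟨N, hN⟩ : ∃ m : ℕ, m = n / E0 := ⟨_, rfl⟩
    obtain ⟨Δ, hΔ⟩ : ∃ m : ℕ, m = ⌊z ^ (1 / 4 - η)⌋₊ := ⟨_, rfl⟩
    obtain ⟨b1, b2, b3, b4, b5, b6, b7, b8, b9, b10, b11, b12, b13, b14, b15, b16, b17, b18,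
      b19⟩ := hB n E0 E1 Y K N Δ hn hE0 hE1 hY hK hN hΔ
    have hM := hz1 z hzz1
    have hI := hInb z β δ E0 E1 b12 (by linarith) hδ b15
    have hT2 := hTwo n E0 E1 Y K N Δ (by rw [hn]; exact hnz) b1 b2 b3 b4 b5 b6 b7 b8 b9 b10 b11
    have hA := hY0 Y (by rw [hY]; exact hYz)
    have hH := hΔ0 Δ (by rw [hΔ]; exact hΔz)
    rw [← hn, ← hE0, ← hY, ← hN] at hM
    rw [← hn, ← hY, ← hK, ← hN] at hI
    rw [← hE0, ← hE1]
    have hW := hWup Y K N b18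
    obtain ⟨S, hS⟩ : ∃ S : ℝ, S = ∑ e ∈ Ep E0 E1, 1 / (e : ℝ) := ⟨_, rfl⟩
    have hS0 : 0 ≤ S := by
      rw [hS]
      exact Finset.sum_nonneg fun e _ => by positivity
    have hP : ((Ep E0 E1).card : ℝ) ≤ (1 + κ) * E0 * S := by
      have h1 : ((Ep E0 E1).card : ℝ) * (1 / E1) ≤ S := by
        rw [hS, ← nsmul_eq_mul]
        refine Finset.card_nsmul_le_sum _ _ _ ?_
        intro e he
        simp only [Ep, mem_filter, mem_Ioc] at he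
        have he0 : (0 : ℝ) < (e : ℝ) := by
          have : 0 < e := by omega
          exact_mod_cast this
        exact one_div_le_one_div_of_le he0 (by exact_mod_cast he.1.2)
      have hE1p : (0 : ℝ) < (E1 : ℝ) := by
        have : 0 < E1 := by omega
        exact_mod_cast this
      have h2 : ((Ep E0 E1).card : ℝ) ≤ S * E1 := by
        rw [mul_one_div, div_le_iff₀ hE1p] at h1
        exact h1
      calc ((Ep E0 E1).card : ℝ) ≤ S * E1 := h2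
        _ ≤ S * ((1 + κ) * E0) := mul_le_mul_of_nonneg_left b16 hS0
        _ = (1 + κ) * E0 * S := by ring
    have hmain := alg (P := ((Ep E0 E1).card : ℝ)) (T := ((Tr Y K N).card : ℝ)) (H := HH Δ) (S := S)
      (E := (E0 : ℝ)) (N := (N : ℝ)) (z := z) (Lz := Real.log z) (c := c0) (l2 := Real.log 2)
      (a := ∑ s ∈ Ioc (Y / 2) Y, 1 / (s : ℝ))
      (b := ∑ l ∈ (Ioc Y (2 * N / Y)).filter Nat.Prime, 1 / (l : ℝ)) (t := t) (κ := κ)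
      (q := 1 / 4 - η) (Λ := Λ) (D := Real.log Δ) hS0 (Nat.cast_nonneg _) (Nat.cast_nonneg _)
      (Nat.cast_nonneg _) hκ ht ht1 hC0.2 (Real.log_pos (by norm_num)) (by linarith) b13 hΛ0 hA
      (by rw [hΛ]; exact hM) (Finset.sum_nonneg fun e _ => by positivity) hP hW b17 hH b14
    have hfin : (1 + κ) * (1 + t) * (Λ + t) / ((1 - t) ^ 2 * (1 / 4 - η)) * c0 * Real.log 2 *
        (z / Real.log z) * S ≤
        ((1 + κ) * (4 / (1 - 4 * η)) * Λ + ε) * c0 * Real.log 2 * (z / Real.log z) * S := by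
      have hc0 : 0 ≤ c0 := by linarith [hC0.2]
      have hl2 : 0 < Real.log 2 := Real.log_pos (by norm_num)
      have h1 : 0 ≤ c0 * Real.log 2 * (z / Real.log z) * S := by positivity
      have h2 := mul_le_mul_of_nonneg_right htG h1
      linarith
    rw [← hΛ, ← hS]
    linarith
  obtain ⟨z0, hz0⟩ := eventually_atTop.1 key
  exact ⟨z0, hz0⟩

end Pool.Agent.Lib.MP_a260de_nt.CN3
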