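import Pool.Agent.Lib.MP_a260de_nt.CN3.SpecM

/-!
MP_a260de_nt, PROJECT CN, part A, strong version: the numbers in an interval coprime to D.
-/

namespace Pool.Agent.Lib.MP_a260de_nt.CN3

open Finset Pool.Agent.Lib.MP_a260de_nt.CN.A

/-- the Möbius function with real values -/
private noncomputable def Cop_mu (g : ℕ) : ℝ := ((ArithmeticFunction.moebius g : ℤ) : ℝ)

private lemma Cop_ind (s D : ℕ) (hD : 1 ≤ D) :
    (if s.Coprime D then (1 : ℝ) else 0) =
      ∑ g ∈ D.divisors, (if g ∣ s then Cop_mu g else 0) := by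
  have h1 : ∑ g ∈ (s.gcd D).divisors, (ArithmeticFunction.moebius g : ℤ) =
      if s.gcd D = 1 then 1 else 0 := by
    rw [← ArithmeticFunction.coe_mul_zeta_apply, ArithmeticFunction.moebius_mul_coe_zeta,
      ArithmeticFunction.one_apply]
  have h2 : (s.gcd D).divisors = D.divisors.filter (fun g => g ∣ s) := by
    ext g
    simp only [Nat.mem_divisors, mem_filter, Nat.dvd_gcd_iff]
    have h3 : s.gcd D ≠ 0 := (Nat.gcd_pos_of_pos_right s (by omega)).ne'
    have h4 : D ≠ 0 := by omega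
    tauto
  rw [h2, Finset.sum_filter] at h1
  have h6 : ((∑ g ∈ D.divisors, (if g ∣ s then ArithmeticFunction.moebius g else 0) : ℤ) : ℝ) =
      ((if s.gcd D = 1 then 1 else 0 : ℤ) : ℝ) := by rw [h1]
  rw [Int.cast_sum] at h6
  simp only [Int.cast_ite, Int.cast_zero, Int.cast_one] at h6
  exact h6.symm

private lemma Cop_cnt (g a b : ℕ) (hg : 1 ≤ g) (hab : a ≤ b) :
    |(((Ioc a b).filter (fun s => g ∣ s)).card : ℝ) - ((b : ℝ) - a) / g| ≤ 1 := by
  have h1 : a / g + ((Ioc a b).filter (fun s => g ∣ s)).card = b / g := by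
    have h2 := Nat.Ioc_filter_dvd_card_eq_div b g
    have h3 := Nat.Ioc_filter_dvd_card_eq_div a g
    rw [← h2, ← h3]
    have h4 : (Ioc 0 b).filter (fun s => g ∣ s) =
        (Ioc 0 a).filter (fun s => g ∣ s) ∪ (Ioc a b).filter (fun s => g ∣ s) := by
      rw [← filter_union, Ioc_union_Ioc_eq_Ioc (Nat.zero_le a) hab]
    rw [h4, card_union_of_disjoint]
    apply disjoint_filter_filter
    rw [disjoint_left]
    intro x hx hx'
    rw [mem_Ioc] at hx hx'
    omega
  have h5 := Nat.div_add_mod b g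
  have h6 := Nat.div_add_mod a g
  have h7 := Nat.mod_lt b (by omega : 0 < g)
  have h8 := Nat.mod_lt a (by omega : 0 < g)
  have hg0 : (0 : ℝ) < g := by exact_mod_cast (by omega : 0 < g)
  have e1 : ((a / g : ℕ) : ℝ) + (((Ioc a b).filter (fun s => g ∣ s)).card : ℝ) =
      ((b / g : ℕ) : ℝ) := by exact_mod_cast h1
  have e2 : (g : ℝ) * ((b / g : ℕ) : ℝ) + ((b % g : ℕ) : ℝ) = b := by exact_mod_cast h5
  have e3 : (g : ℝ) * ((a / g : ℕ) : ℝ) + ((a % g : ℕ) : ℝ) = a := by exact_mod_cast h6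
  have e4 : ((b % g : ℕ) : ℝ) ≤ g := by exact_mod_cast h7.le
  have e5 : ((a % g : ℕ) : ℝ) ≤ g := by exact_mod_cast h8.le
  have e6 : (0 : ℝ) ≤ ((b % g : ℕ) : ℝ) := Nat.cast_nonneg _
  have e7 : (0 : ℝ) ≤ ((a % g : ℕ) : ℝ) := Nat.cast_nonneg _
  have e8 : (((Ioc a b).filter (fun s => g ∣ s)).card : ℝ) - ((b : ℝ) - a) / g =
      (((a % g : ℕ) : ℝ) - ((b % g : ℕ) : ℝ)) / g := by
    rw [eq_div_iff hg0.ne', sub_mul, div_mul_cancel₀ _ hg0.ne']
    linear_combination (g : ℝ) * e1 + e2 - e3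
  rw [e8, abs_div, abs_of_pos hg0, div_le_one hg0, abs_le]
  constructor <;> linarith

private lemma Cop_phi (D : ℕ) (hD : 1 ≤ D) :
    ∑ g ∈ D.divisors, Cop_mu g / g = (D.totient : ℝ) / D := by
  have h := (ArithmeticFunction.sum_eq_iff_sum_mul_moebius_eq (R := ℝ)
    (f := fun n => (n.totient : ℝ)) (g := fun n => (n : ℝ))).mp (by
      intro n _
      rw [← Nat.cast_sum, Nat.sum_totient]) D (by omega)
  rw [← h, Nat.sum_divisorsAntidiagonal
    (f := fun x y => ((ArithmeticFunction.moebius x : ℤ) : ℝ) * (y : ℝ)), Finset.sum_div]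
  refine Finset.sum_congr rfl fun g hg => ?_
  have hgD := Nat.dvd_of_mem_divisors hg
  have hg0 : (g : ℝ) ≠ 0 := by
    have := Nat.pos_of_mem_divisors hg
    exact_mod_cast this.ne'
  have hD0 : (D : ℝ) ≠ 0 := by exact_mod_cast (by omega : D ≠ 0)
  rw [Nat.cast_div hgD hg0]
  unfold Cop_mu
  field_simp

private lemma Cop_sq (D : ℕ) (hD : 1 ≤ D) :
    ∑ g ∈ D.divisors, |Cop_mu g| ≤ (2 : ℝ) ^ om D := by
  have h1 : ∑ g ∈ D.divisors.filter Squarefree, 1 = 2 ^ om D := by
    rw [Nat.sum_divisors_filter_squarefree (by omega)]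
    simp only [sum_const, smul_eq_mul, mul_one, card_powerset]
    rw [Nat.factors_eq]
    rfl
  have h2 : ∑ g ∈ D.divisors, |Cop_mu g| ≤ ∑ g ∈ D.divisors, (if Squarefree g then (1 : ℝ) else 0) := by
    refine Finset.sum_le_sum fun g _ => ?_
    unfold Cop_mu
    by_cases h : Squarefree g
    · rw [if_pos h]
      have h3 : |(ArithmeticFunction.moebius g : ℤ)| ≤ 1 := ArithmeticFunction.abs_moebius_le_one
      exact_mod_cast h3
    · rw [if_neg h, ArithmeticFunction.moebius_eq_zero_of_not_squarefree h]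
      simp
  refine h2.trans ?_
  rw [← Finset.sum_filter]
  have h4 : ((∑ g ∈ D.divisors.filter Squarefree, 1 : ℕ) : ℝ) = ((2 ^ om D : ℕ) : ℝ) := by rw [h1]
  push_cast at h4
  exact h4.le

theorem tCop : S_Cop := by
  intro D a b hD hab
  have h1 : (((Ioc a b).filter (fun s => s.Coprime D)).card : ℝ) =
      ∑ g ∈ D.divisors, Cop_mu g * (((Ioc a b).filter (fun s => g ∣ s)).card : ℝ) := by
    calc (((Ioc a b).filter (fun s => s.Coprime D)).card : ℝ)
        = ∑ s ∈ Ioc a b, (if s.Coprime D then (1 : ℝ) else 0) := by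
          rw [← Finset.sum_filter, Finset.sum_const, nsmul_eq_mul, mul_one]
      _ = ∑ s ∈ Ioc a b, ∑ g ∈ D.divisors, (if g ∣ s then Cop_mu g else 0) :=
          Finset.sum_congr rfl fun s _ => Cop_ind s D hD
      _ = ∑ g ∈ D.divisors, ∑ s ∈ Ioc a b, (if g ∣ s then Cop_mu g else 0) := Finset.sum_comm
      _ = _ := by
          refine Finset.sum_congr rfl fun g _ => ?_
          rw [← Finset.sum_filter, Finset.sum_const, nsmul_eq_mul, mul_comm]
  have h2 : (((Ioc a b).filter (fun s => s.Coprime D)).card : ℝ) -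
      ((b : ℝ) - a) * ((D.totient : ℝ) / D) =
      ∑ g ∈ D.divisors, Cop_mu g *
        ((((Ioc a b).filter (fun s => g ∣ s)).card : ℝ) - ((b : ℝ) - a) / g) := by
    rw [h1, ← Cop_phi D hD, Finset.mul_sum, ← Finset.sum_sub_distrib]
    refine Finset.sum_congr rfl fun g _ => ?_
    ring
  rw [h2]
  refine (Finset.abs_sum_le_sum_abs _ _).trans ?_
  refine le_trans (Finset.sum_le_sum fun g hg => ?_) (Cop_sq D hD)
  rw [abs_mul]
  have h3 := Cop_cnt g a b (Nat.pos_of_mem_divisors hg) hab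
  calc |Cop_mu g| * |(((Ioc a b).filter (fun s => g ∣ s)).card : ℝ) - ((b : ℝ) - a) / g|
      ≤ |Cop_mu g| * 1 := mul_le_mul_of_nonneg_left h3 (abs_nonneg _)
    _ = |Cop_mu g| := mul_one _

end Pool.Agent.Lib.MP_a260de_nt.CN3
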