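import Pool.Agent.Lib.MP_a260de_nt.CN3.SpecE

/-!
MP_a260de_nt, PROJECT CN3, module Aud of part E: the error of the number of the pairs (e, t) in terms of the
characters.
-/

set_option autoImplicit false

namespace Pool.Agent.Lib.MP_a260de_nt.CN3

open Finset
open Pool.Agent.Lib.BV (cls cs prim nrm del SplStmt InjStmt TotStmt BlkStmt SwStmt)

private theorem aud_pt (Y K N : ℕ) (F : ℕ → ℂ) :
    ∑ m ∈ Icc 1 N, bc Y K N m * F m = ∑ t ∈ Tr Y K N, F (pt t) := by
  have hmaps : ∀ t ∈ Tr Y K N, pt t ∈ Icc 1 N := by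
    intro t ht
    unfold Tr at ht
    rw [mem_filter, mem_product, mem_product, mem_Ioc, mem_Ioc, mem_Ioc] at ht
    obtain ⟨⟨⟨h1, _⟩, ⟨h2, _⟩, h3, _⟩, _, h4⟩ := ht
    rw [mem_Icc]
    refine ⟨?_, h4⟩
    unfold pt
    have a1 : 0 < t.1 := by omega
    have a2 : 0 < t.2.1 := by omega
    have a3 : 0 < t.2.2 := by omega
    exact Nat.mul_pos (Nat.mul_pos a1 a2) a3
  rw [← sum_fiberwise_of_maps_to hmaps]
  refine sum_congr rfl fun m _ => ?_
  have : ∑ t ∈ (Tr Y K N).filter (fun t => pt t = m), F (pt t) =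
      ∑ t ∈ (Tr Y K N).filter (fun t => pt t = m), F m := by
    refine sum_congr rfl fun t ht => ?_
    rw [(mem_filter.mp ht).2]
  rw [this, sum_const, nsmul_eq_mul]
  rfl

private theorem aud_ep (E0 E1 : ℕ) (G : ℕ → ℂ) :
    ∑ e ∈ Icc 1 E1, ae E0 E1 e * G e = ∑ e ∈ Ep E0 E1, G e := by
  have hsub : Ep E0 E1 ⊆ Icc 1 E1 := by
    intro e he
    unfold Ep at he
    rw [mem_filter, mem_Ioc] at he
    rw [mem_Icc]
    omega
  rw [← sum_subset hsub (f := fun e => ae E0 E1 e * G e)]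
  · refine sum_congr rfl fun e he => ?_
    unfold ae
    rw [if_pos he, one_mul]
  · intro e _ he
    unfold ae
    rw [if_neg he, zero_mul]

private theorem aud_mod (k n : ℕ) : n ≡ k [MOD k + 1] ↔ k + 1 ∣ n + 1 := by
  rw [← Nat.modEq_zero_iff_dvd]
  constructor
  · intro h
    have h1 : n + 1 ≡ k + 1 [MOD k + 1] := h.add_right 1
    exact h1.trans (Nat.modEq_zero_iff_dvd.mpr dvd_rfl)
  · intro h
    have h1 : n + 1 ≡ k + 1 [MOD k + 1] := h.trans (Nat.modEq_zero_iff_dvd.mpr dvd_rfl).symm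
    exact Nat.ModEq.add_right_cancel' 1 h1

theorem t_Aud (h1 : S_Dsp) : S_Aud := by
  intro E0 E1 Y K N d hd
  have hco : (d - 1).Coprime d := by
    obtain ⟨k, rfl⟩ : ∃ k, d = k + 1 := ⟨d - 1, by omega⟩
    simp
  have key := h1 (ae E0 E1) (bc Y K N) E1 N d (d - 1) hd hco
  have hA : (∑ e ∈ Icc 1 E1, ∑ m ∈ Icc 1 N,
      if e * m ≡ d - 1 [MOD d] then ae E0 E1 e * bc Y K N m else 0) =
      ((AA E0 E1 Y K N d : ℕ) : ℂ) := by
    have h2 : ∀ e m : ℕ, (e * m ≡ d - 1 [MOD d]) ↔ d ∣ e * m + 1 := by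
      intro e m
      obtain ⟨k, rfl⟩ : ∃ k, d = k + 1 := ⟨d - 1, by omega⟩
      exact aud_mod k (e * m)
    have h3 : (∑ e ∈ Icc 1 E1, ∑ m ∈ Icc 1 N,
        if e * m ≡ d - 1 [MOD d] then ae E0 E1 e * bc Y K N m else 0) =
        ∑ e ∈ Icc 1 E1, ae E0 E1 e *
          ∑ m ∈ Icc 1 N, bc Y K N m * (if d ∣ e * m + 1 then (1 : ℂ) else 0) := by
      refine sum_congr rfl fun e _ => ?_
      rw [mul_sum]
      refine sum_congr rfl fun m _ => ?_
      by_cases hc : d ∣ e * m + 1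
      · rw [if_pos hc, if_pos ((h2 e m).mpr hc), mul_one]
      · rw [if_neg hc, if_neg (fun h => hc ((h2 e m).mp h)), mul_zero, mul_zero]
    rw [h3, aud_ep E0 E1 (fun e => ∑ m ∈ Icc 1 N, bc Y K N m *
      (if d ∣ e * m + 1 then (1 : ℂ) else 0))]
    unfold AA
    rw [card_filter, sum_product]
    push_cast
    refine sum_congr rfl fun e _ => ?_
    exact aud_pt Y K N (fun m => if d ∣ e * m + 1 then (1 : ℂ) else 0)
  have hU : (∑ e ∈ (Icc 1 E1).filter (fun e => e.Coprime d), ae E0 E1 e) *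
      (∑ m ∈ (Icc 1 N).filter (fun m => m.Coprime d), bc Y K N m) =
      ((UU E0 E1 Y K N d : ℕ) : ℂ) := by
    have h4 : (∑ e ∈ (Icc 1 E1).filter (fun e => e.Coprime d), ae E0 E1 e) =
        (((Ep E0 E1).filter (fun e => e.Coprime d)).card : ℂ) := by
      rw [sum_filter, card_filter]
      push_cast
      rw [← aud_ep]
      refine sum_congr rfl fun e _ => ?_
      split_ifs
      · rw [mul_one]
      · rw [mul_zero]
    have h5 : (∑ m ∈ (Icc 1 N).filter (fun m => m.Coprime d), bc Y K N m) =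
        (((Tr Y K N).filter (fun t => (pt t).Coprime d)).card : ℂ) := by
      rw [sum_filter, card_filter]
      push_cast
      rw [← aud_pt Y K N (fun m => if m.Coprime d then (1 : ℂ) else 0)]
      refine sum_congr rfl fun m _ => ?_
      split_ifs
      · rw [mul_one]
      · rw [mul_zero]
    rw [h4, h5]
    unfold UU
    push_cast
    rfl
  rw [hA, hU] at key
  refine le_trans (le_of_eq ?_) key
  have h6 : ((AA E0 E1 Y K N d : ℕ) : ℂ) - (1 / ((d.totient : ℕ) : ℂ)) *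
      ((UU E0 E1 Y K N d : ℕ) : ℂ) =
      (((AA E0 E1 Y K N d : ℝ) - (UU E0 E1 Y K N d : ℝ) / (d.totient : ℝ) : ℝ) : ℂ) := by
    push_cast
    ring
  rw [h6, Complex.norm_real, Real.norm_eq_abs]

end Pool.Agent.Lib.MP_a260de_nt.CN3
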