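import Pool.Agent.Lib.MP_a260de_nt.CN3.SpecE

/-!
# MP_a260de_nt, project CN3, part E: `S_Blw` (dyadic blocks with weights)
-/

set_option autoImplicit false

namespace Pool.Agent.Lib.MP_a260de_nt.CN3

open Finset
open Pool.Agent.Lib.BV (cls cs prim nrm del SplStmt InjStmt TotStmt BlkStmt SwStmt)

/-- abstract dyadic summation -/
private theorem Blw_dyadic (F : ℕ → ℝ) (D : ℕ) (B P T U : ℝ) (hB : 0 ≤ B) (hP : 0 ≤ P)
    (hT : 0 ≤ T) (hU : 0 ≤ U)
    (h : ∀ Q1 R1 : ℕ, 1 ≤ Q1 → Q1 < D → R1 ≤ 2 * Q1 → R1 ≤ D →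
      ∑ q ∈ Ioc Q1 R1, F q ≤ B * (2 * P / Real.sqrt Q1 + T + U * R1)) (n : ℕ) :
    ∀ Q0 : ℕ, D - Q0 ≤ n → 1 ≤ Q0 → Q0 < D →
      ∑ q ∈ Ioc Q0 D, F q ≤ B * (8 * P / Real.sqrt Q0 +
        T * (1 + (Real.log D - Real.log Q0) / Real.log 2) + U * (3 * D - 2 * Q0)) := by
  have hl2 : 0 < Real.log 2 := Real.log_pos (by norm_num)
  induction n with
  | zero =>
    intro Q0 h1 _ h3
    omega
  | succ n ih =>
    intro Q0 h1 h2 h3
    have hQ0 : (1 : ℝ) ≤ (Q0 : ℝ) := by exact_mod_cast h2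
    have hR0 : (Q0 : ℝ) < (D : ℝ) := by exact_mod_cast h3
    have hlog : Real.log (Q0 : ℝ) ≤ Real.log (D : ℝ) :=
      Real.log_le_log (by linarith) hR0.le
    have hsq : 1 ≤ Real.sqrt Q0 := by
      rw [Real.one_le_sqrt]
      exact hQ0
    by_cases hc : D ≤ 2 * Q0
    · refine (h Q0 D h2 h3 hc le_rfl).trans ?_
      refine mul_le_mul_of_nonneg_left ?_ hB
      have e1 : 2 * P / Real.sqrt Q0 ≤ 8 * P / Real.sqrt Q0 := by
        refine div_le_div_of_nonneg_right (by linarith) (by linarith)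
      have e2 : 0 ≤ (Real.log (D : ℝ) - Real.log (Q0 : ℝ)) / Real.log 2 :=
        div_nonneg (by linarith) hl2.le
      have e3 : 0 ≤ T * ((Real.log (D : ℝ) - Real.log (Q0 : ℝ)) / Real.log 2) :=
        mul_nonneg hT e2
      have e4 : 0 ≤ U * ((D : ℝ) - Q0) := mul_nonneg hU (by linarith)
      nlinarith [e1, e3, e4]
    · have hc' : 2 * Q0 < D := by omega
      have i1 := ih (2 * Q0) (by omega) (by omega) hc'
      have b1 := h Q0 (2 * Q0) h2 h3 le_rfl hc'.le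
      have hsplit : ∑ q ∈ Ioc Q0 D, F q = ∑ q ∈ Ioc Q0 (2 * Q0), F q + ∑ q ∈ Ioc (2 * Q0) D, F q := by
        rw [← Finset.sum_Ioc_consecutive _ (by omega : Q0 ≤ 2 * Q0) hc'.le]
      rw [hsplit]
      refine (add_le_add b1 i1).trans ?_
      rw [← mul_add]
      refine mul_le_mul_of_nonneg_left ?_ hB
      have hlm : Real.log ((2 * Q0 : ℕ) : ℝ) = Real.log 2 + Real.log (Q0 : ℝ) := by
        push_cast
        rw [Real.log_mul (by norm_num) (by linarith)]
      rw [hlm]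
      have hs2 : Real.sqrt ((2 * Q0 : ℕ) : ℝ) = Real.sqrt 2 * Real.sqrt Q0 := by
        push_cast
        rw [Real.sqrt_mul (by norm_num : (0 : ℝ) ≤ 2)]
      rw [hs2]
      have hr2 : (1.4 : ℝ) ≤ Real.sqrt 2 := by
        rw [Real.le_sqrt' (by norm_num : (0 : ℝ) < 1.4)]
        norm_num
      have f1 : 8 * P / (Real.sqrt 2 * Real.sqrt Q0) ≤ 6 * P / Real.sqrt Q0 := by
        rw [div_le_div_iff₀ (by positivity) (by linarith)]
        have : 0 ≤ P * Real.sqrt Q0 := mul_nonneg hP (by linarith)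
        nlinarith
      have f2 : 2 * P / Real.sqrt Q0 + 6 * P / Real.sqrt Q0 = 8 * P / Real.sqrt Q0 := by ring
      have f3 : T * (1 + (Real.log (D : ℝ) - (Real.log 2 + Real.log (Q0 : ℝ))) / Real.log 2) + T =
          T * (1 + (Real.log (D : ℝ) - Real.log (Q0 : ℝ)) / Real.log 2) := by
        field_simp
        ring
      push_cast
      nlinarith [f1, f2, f3]

/-- Dyadic blocks with weights. -/
theorem t_Blw (h1 : BlkStmt) (h2 : S_Om3) : S_Blw := by
  intro ε hε hε2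
  obtain ⟨C1, hC1, hom⟩ := h2 ε hε
  refine ⟨240 * C1, by positivity, ?_⟩
  intro a b M N e Q0 D hQ0 hD
  have hA : 0 ≤ nrm a M * nrm b N := mul_nonneg (Real.sqrt_nonneg _) (Real.sqrt_nonneg _)
  have hP : 0 ≤ Real.sqrt ((M : ℝ) * N) := Real.sqrt_nonneg _
  have hS : 0 ≤ Real.sqrt M + Real.sqrt N := add_nonneg (Real.sqrt_nonneg _) (Real.sqrt_nonneg _)
  set A := nrm a M * nrm b N with hAdef
  set P := Real.sqrt ((M : ℝ) * N) with hPdef
  set S := Real.sqrt M + Real.sqrt N with hSdef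
  have hD1 : (1 : ℝ) ≤ (D : ℝ) := by exact_mod_cast hD
  have hlD : 0 ≤ Real.log (D : ℝ) := Real.log_nonneg hD1
  set W := (D : ℝ) ^ ε with hWdef
  have hW : 1 ≤ W := Real.one_le_rpow hD1 hε.le
  have hsQ : 0 < Real.sqrt Q0 := Real.sqrt_pos.2 (by exact_mod_cast hQ0)
  have hPQ : 0 ≤ P / Real.sqrt Q0 := div_nonneg hP hsQ.le
  rcases le_or_gt D Q0 with hR | hR
  · rw [Finset.Ioc_eq_empty_of_le hR, Finset.sum_empty]
    positivity
  · have hblk : ∀ Q1 R1 : ℕ, 1 ≤ Q1 → Q1 < D → R1 ≤ 2 * Q1 → R1 ≤ D →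
        ∑ q ∈ Ioc Q1 R1, dd a b M N e q ≤
          (20 * C1 * A) * (2 * P / Real.sqrt Q1 + 4 * W * S + 4 * W * R1) := by
      intro Q1 R1 hQ1 hQ1D hR1 hR1D
      have hQ1r : (1 : ℝ) ≤ (Q1 : ℝ) := by exact_mod_cast hQ1
      have hpow0 : 0 ≤ ((2 * Q1 : ℕ) : ℝ) ^ ε := Real.rpow_nonneg (Nat.cast_nonneg _) _
      have k1 : ∑ q ∈ Ioc Q1 R1, dd a b M N e q ≤ (C1 * ((2 * Q1 : ℕ) : ℝ) ^ ε) *
          ∑ q ∈ Ioc Q1 R1, (1 / (q.totient : ℝ)) * ∑ χ ∈ prim q, ‖cs a M e χ‖ * ‖cs b N e χ‖ := by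
        rw [Finset.mul_sum]
        refine Finset.sum_le_sum fun q hq => ?_
        rw [mem_Ioc] at hq
        have hX : 0 ≤ ∑ χ ∈ prim q, ‖cs a M e χ‖ * ‖cs b N e χ‖ :=
          Finset.sum_nonneg fun χ _ => by positivity
        have hq1 : (3 : ℝ) ^ om q ≤ C1 * ((2 * Q1 : ℕ) : ℝ) ^ ε := by
          refine (hom q (by omega)).trans ?_
          refine mul_le_mul_of_nonneg_left ?_ (by linarith)
          exact Real.rpow_le_rpow (Nat.cast_nonneg _) (by exact_mod_cast (by omega : q ≤ 2 * Q1)) hε.le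
        unfold dd
        have hφ : (0 : ℝ) ≤ 1 / (q.totient : ℝ) := by positivity
        calc (3 : ℝ) ^ om q / (q.totient : ℝ) * ∑ χ ∈ prim q, ‖cs a M e χ‖ * ‖cs b N e χ‖
            = (3 : ℝ) ^ om q * ((1 / (q.totient : ℝ)) *
                ∑ χ ∈ prim q, ‖cs a M e χ‖ * ‖cs b N e χ‖) := by ring
          _ ≤ _ := mul_le_mul_of_nonneg_right hq1 (mul_nonneg hφ hX)
      have k2 := h1 Q1 R1 M N e a b hQ1 hR1
      rw [← hAdef, ← hPdef, ← hSdef] at k2
      refine k1.trans ((mul_le_mul_of_nonneg_left k2 (by positivity)).trans ?_)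
      -- the power
      have p1 : ((2 * Q1 : ℕ) : ℝ) ^ ε ≤ 2 * Real.sqrt Q1 := by
        have q1 : ((2 * Q1 : ℕ) : ℝ) ^ ε ≤ ((2 * Q1 : ℕ) : ℝ) ^ ((1 : ℝ) / 2) := by
          refine Real.rpow_le_rpow_of_exponent_le ?_ (by linarith)
          push_cast
          linarith
        rw [← Real.sqrt_eq_rpow] at q1
        refine q1.trans ?_
        push_cast
        rw [Real.sqrt_mul (by norm_num : (0 : ℝ) ≤ 2)]
        refine mul_le_mul_of_nonneg_right ?_ (Real.sqrt_nonneg _)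
        rw [Real.sqrt_le_left (by norm_num)]
        norm_num
      have p2 : ((2 * Q1 : ℕ) : ℝ) ^ ε ≤ 2 * W := by
        have q1 : ((2 * Q1 : ℕ) : ℝ) ^ ε = (2 : ℝ) ^ ε * (Q1 : ℝ) ^ ε := by
          push_cast
          rw [Real.mul_rpow (by norm_num) (Nat.cast_nonneg _)]
        rw [q1]
        have q2 : (2 : ℝ) ^ ε ≤ 2 := by
          calc (2 : ℝ) ^ ε ≤ (2 : ℝ) ^ (1 : ℝ) :=
                Real.rpow_le_rpow_of_exponent_le (by norm_num) (by linarith)
            _ = 2 := Real.rpow_one 2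
        have q3 : (Q1 : ℝ) ^ ε ≤ W :=
          Real.rpow_le_rpow (Nat.cast_nonneg _) (by exact_mod_cast hQ1D.le) hε.le
        exact mul_le_mul q2 q3 (Real.rpow_nonneg (Nat.cast_nonneg _) _) (by norm_num)
      set V := ((2 * Q1 : ℕ) : ℝ) ^ ε with hV
      have hs1 : 1 ≤ Real.sqrt Q1 := by
        rw [Real.one_le_sqrt]
        exact hQ1r
      have hss : Real.sqrt Q1 * Real.sqrt Q1 = Q1 := Real.mul_self_sqrt (Nat.cast_nonneg _)
      have r1 : V * (P / Q1) ≤ 2 * P / Real.sqrt Q1 := by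
        have : V * (P / Q1) ≤ (2 * Real.sqrt Q1) * (P / Q1) :=
          mul_le_mul_of_nonneg_right p1 (div_nonneg hP (by linarith))
        refine this.trans (le_of_eq ?_)
        rw [mul_div_assoc', div_eq_div_iff (by linarith) (by linarith)]
        calc 2 * Real.sqrt Q1 * P * Real.sqrt Q1 = 2 * P * (Real.sqrt Q1 * Real.sqrt Q1) := by ring
          _ = 2 * P * Q1 := by rw [hss]
      have r2 : V * (2 * S) ≤ 4 * W * S := by nlinarith
      have r3 : V * (2 * R1) ≤ 4 * W * R1 := by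
        have : (0 : ℝ) ≤ R1 := Nat.cast_nonneg _
        nlinarith
      have r4 : C1 * V * (20 * A * (P / Q1 + 2 * S + 2 * R1)) =
          (20 * C1 * A) * (V * (P / Q1) + V * (2 * S) + V * (2 * R1)) := by ring
      rw [r4]
      refine mul_le_mul_of_nonneg_left ?_ (by positivity)
      linarith
    have key := Blw_dyadic (dd a b M N e) D (20 * C1 * A) P (4 * W * S) (4 * W) (by positivity) hP
      (by positivity) (by positivity) hblk (D - Q0) Q0 le_rfl hQ0 hR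
    refine key.trans ?_
    have hl2 : 0 < Real.log 2 := Real.log_pos (by norm_num)
    have hl2' : (0.6931471803 : ℝ) < Real.log 2 := Real.log_two_gt_d9
    have hlq : 0 ≤ Real.log (Q0 : ℝ) := Real.log_natCast_nonneg Q0
    have e1 : (Real.log (D : ℝ) - Real.log (Q0 : ℝ)) / Real.log 2 ≤ 2 * Real.log (D : ℝ) := by
      rw [div_le_iff₀ hl2]
      nlinarith
    have e2 : 4 * W * S * (1 + (Real.log (D : ℝ) - Real.log (Q0 : ℝ)) / Real.log 2) ≤
        8 * (W * ((1 + Real.log D) * S)) := by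
      have : 4 * W * S * (1 + (Real.log (D : ℝ) - Real.log (Q0 : ℝ)) / Real.log 2) ≤
          4 * W * S * (1 + 2 * Real.log D) :=
        mul_le_mul_of_nonneg_left (by linarith) (by positivity)
      have h3 : 0 ≤ W * S := by positivity
      nlinarith
    have e3 : 4 * W * (3 * (D : ℝ) - 2 * Q0) ≤ 12 * (W * D) := by
      have : (0 : ℝ) ≤ W * Q0 := by positivity
      nlinarith
    have e4 : 0 ≤ W * ((1 + Real.log D) * S) := by positivity
    have e5 : 0 ≤ W * (D : ℝ) := by positivity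
    have e6 : 8 * P / Real.sqrt Q0 = 8 * (P / Real.sqrt Q0) := by ring
    have e7 : 8 * P / Real.sqrt Q0 +
        4 * W * S * (1 + (Real.log (D : ℝ) - Real.log (Q0 : ℝ)) / Real.log 2) +
        4 * W * (3 * (D : ℝ) - 2 * Q0) ≤
        12 * (P / Real.sqrt Q0 + W * ((1 + Real.log D) * S + D)) := by
      rw [e6]
      nlinarith
    have e8 := mul_le_mul_of_nonneg_left e7 (by positivity : 0 ≤ 20 * C1 * A)
    refine e8.trans (le_of_eq ?_)
    ring

end Pool.Agent.Lib.MP_a260de_nt.CN3
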