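import Pool.Agent.Lib.MP_a260de_nt.CN3.SpecE

/-!
MP_a260de_nt, PROJECT CN3, part E, module Cnv: the multiplicative convolution.
-/

set_option autoImplicit false

namespace Pool.Agent.Lib.MP_a260de_nt.CN3

open Finset
open Pool.Agent.Lib.BV (cls cs prim nrm del SplStmt InjStmt TotStmt BlkStmt SwStmt)

private theorem cnv_sum (a b g : ℕ → ℂ) (M N : ℕ) :
    ∑ n ∈ Icc 1 (M * N), g n *
      ∑ p ∈ (Icc 1 M ×ˢ Icc 1 N).filter (fun p => p.1 * p.2 = n), a p.1 * b p.2 =
    ∑ e ∈ Icc 1 M, ∑ m ∈ Icc 1 N, g (e * m) * (a e * b m) := by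
  rw [← Finset.sum_product' (s := Icc 1 M) (t := Icc 1 N)
    (f := fun e m => g (e * m) * (a e * b m))]
  have hmaps : ∀ p ∈ Icc 1 M ×ˢ Icc 1 N, p.1 * p.2 ∈ Icc 1 (M * N) := by
    intro p hp
    rw [mem_product, mem_Icc, mem_Icc] at hp
    rw [mem_Icc]
    exact ⟨Nat.mul_pos hp.1.1 hp.2.1, Nat.mul_le_mul hp.1.2 hp.2.2⟩
  rw [← Finset.sum_fiberwise_of_maps_to hmaps]
  refine Finset.sum_congr rfl fun n _ => ?_
  rw [Finset.mul_sum]
  refine Finset.sum_congr rfl fun p hp => ?_
  rw [(mem_filter.1 hp).2]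

theorem t_Cnv : S_Cnv := by
  intro a b M N
  refine ⟨fun n => ∑ p ∈ (Icc 1 M ×ˢ Icc 1 N).filter (fun p => p.1 * p.2 = n), a p.1 * b p.2,
    fun d l => ?_, fun d q χ => ?_, fun d => ?_⟩
  · unfold cls
    rw [Finset.sum_filter]
    have h := cnv_sum a b (fun n => if n ≡ l [MOD d] then 1 else 0) M N
    simp only [ite_mul, one_mul, zero_mul] at h
    exact h
  · unfold cs
    have h := cnv_sum a b (fun n => if n.Coprime d then χ (n : ZMod q) else 0) M N
    rw [Finset.sum_filter]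
    have e1 : ∀ n : ℕ, (if n.Coprime d then
        (∑ p ∈ (Icc 1 M ×ˢ Icc 1 N).filter (fun p => p.1 * p.2 = n), a p.1 * b p.2) *
          χ (n : ZMod q) else 0) =
        (if n.Coprime d then χ (n : ZMod q) else 0) *
          ∑ p ∈ (Icc 1 M ×ˢ Icc 1 N).filter (fun p => p.1 * p.2 = n), a p.1 * b p.2 := by
      intro n
      split_ifs
      · rw [mul_comm]
      · rw [zero_mul]
    rw [Finset.sum_congr rfl fun n _ => e1 n, h, Finset.sum_filter, Finset.sum_filter,
      Finset.sum_mul_sum]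
    refine Finset.sum_congr rfl fun e _ => Finset.sum_congr rfl fun m _ => ?_
    by_cases h1 : e.Coprime d
    · by_cases h2 : m.Coprime d
      · rw [if_pos (Nat.Coprime.mul_left h1 h2), if_pos h1, if_pos h2, Nat.cast_mul, map_mul]
        ring
      · rw [if_neg (fun h3 => h2 (Nat.Coprime.coprime_mul_left h3)), if_neg h2]
        ring
    · rw [if_neg (fun h3 => h1 (Nat.Coprime.coprime_mul_right h3)), if_neg h1]
      ring
  · have h := cnv_sum a b (fun n => if n.Coprime d then 1 else 0) M N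
    simp only [ite_mul, one_mul, zero_mul] at h
    rw [Finset.sum_filter, h, Finset.sum_filter, Finset.sum_filter, Finset.sum_mul_sum]
    refine Finset.sum_congr rfl fun e _ => Finset.sum_congr rfl fun m _ => ?_
    by_cases h1 : e.Coprime d
    · by_cases h2 : m.Coprime d
      · rw [if_pos (Nat.Coprime.mul_left h1 h2), if_pos h1, if_pos h2]
      · rw [if_neg (fun h3 => h2 (Nat.Coprime.coprime_mul_left h3)), if_neg h2, mul_zero]
    · rw [if_neg (fun h3 => h1 (Nat.Coprime.coprime_mul_right h3)), if_neg h1, zero_mul]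

end Pool.Agent.Lib.MP_a260de_nt.CN3
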