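import Pool.Agent.Lib.MP_a260de_nt.CN3.SpecE

/-!
MP_a260de_nt, PROJECT CN3, module Dsp: the dispersion of a convolution over a progression.
-/

set_option autoImplicit false

namespace Pool.Agent.Lib.MP_a260de_nt.CN3

open Finset
open Pool.Agent.Lib.BV (cls cs prim nrm del SplStmt InjStmt TotStmt BlkStmt SwStmt)

theorem t_Dsp (h1 : S_Cnv) (h2 : SplStmt) (h3 : InjStmt) : S_Dsp := by
  intro a b M N d l hd hl
  obtain ⟨f, hf1, hf2, hf3⟩ := h1 a b M N
  rw [← hf1 d l, ← hf3 d]
  have h4 := h2 f (M * N) d l 1 hd hl le_rfl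
  have h5 : del (fun c => 1 < c ∧ c ≤ 1) f (M * N) d l = 0 := by
    unfold del
    have h6 : ∀ χ : DirichletCharacter ℂ d, ¬ (1 < χ.conductor ∧ χ.conductor ≤ 1) := by
      intro χ h
      omega
    simp [h6]
  have h7 : cls f (M * N) d l - (1 / (d.totient : ℂ)) *
      ∑ n ∈ (Icc 1 (M * N)).filter (fun n => n.Coprime d), f n =
      del (fun c => 1 < c) f (M * N) d l := by
    rw [h4, h5]
    ring
  rw [h7]
  refine (h3 (fun c => 1 < c) f (M * N) d l hd).trans (le_of_eq ?_)
  congr 1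
  refine Finset.sum_congr ?_ fun q _ => ?_
  · ext q
    simp
  · refine Finset.sum_congr rfl fun χ _ => ?_
    rw [hf2, norm_mul]

end Pool.Agent.Lib.MP_a260de_nt.CN3
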