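import Pool.Agent.Lib.MP_a260de_nt.CN3.SpecE

/-!
# MP_a260de_nt, project CN3, part E: `S_Erq` (sum over the conductors for one `e`)
-/

set_option autoImplicit false

namespace Pool.Agent.Lib.MP_a260de_nt.CN3

open Finset
open Pool.Agent.Lib.BV (cls cs prim nrm del SplStmt InjStmt TotStmt BlkStmt SwStmt)

private theorem Erq_om (q : ℕ) (hq : 1 ≤ q) : (3 : ℝ) ^ om q ≤ (q : ℝ) ^ 2 := by
  have h1 : 2 ^ om q ≤ q := by
    have h2 : 2 ^ q.primeFactors.card ≤ ∏ p ∈ q.primeFactors, p :=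
      Finset.pow_card_le_prod _ _ _ fun p hp => (Nat.prime_of_mem_primeFactors hp).two_le
    exact h2.trans (Nat.le_of_dvd hq (Nat.prod_primeFactors_dvd q))
  have h3 : ((2 : ℝ) ^ om q) ≤ (q : ℝ) := by exact_mod_cast h1
  calc (3 : ℝ) ^ om q ≤ (4 : ℝ) ^ om q := by
        exact pow_le_pow_left₀ (by norm_num) (by norm_num) _
    _ = ((2 : ℝ) ^ om q) ^ 2 := by
        rw [← pow_mul, mul_comm, pow_mul]
        norm_num
    _ ≤ (q : ℝ) ^ 2 := pow_le_pow_left₀ (by positivity) h3 2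

private theorem Erq_card (q : ℕ) (hq : 1 ≤ q) : ((prim q).card : ℝ) ≤ (q.totient : ℝ) := by
  classical
  have : NeZero q := ⟨by omega⟩
  have h1 : (prim q).card ≤ Fintype.card (DirichletCharacter ℂ q) := Finset.card_le_univ _
  have h2 : Fintype.card (DirichletCharacter ℂ q) = q.totient := by
    rw [← Nat.card_eq_fintype_card]
    exact DirichletCharacter.card_eq_totient_of_hasEnoughRootsOfUnity ℂ q
  rw [h2] at h1
  exact_mod_cast h1

private theorem Erq_dd_nonneg (a b : ℕ → ℂ) (M N e q : ℕ) : 0 ≤ dd a b M N e q := by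
  unfold dd
  exact mul_nonneg (by positivity) (Finset.sum_nonneg fun χ _ => by positivity)

/-- Sum over the conductors for one `e`. -/
theorem t_Erq (h1 : S_Nrb) (h2 : S_Low) (h3 : S_Blw) : S_Erq := by
  intro A ρ hA hρ hρ1
  obtain ⟨hnb, hcsb, hna⟩ := h1
  set B : ℝ := 2 * A + 6 with hB
  set A' : ℝ := A + 2 + 3 * B with hA'
  obtain ⟨C1, n1, hC1, hlow⟩ := h2 A' B ρ (by linarith) (by linarith) hρ hρ1
  obtain ⟨C2, hC2, hblw⟩ := h3 (ρ / 4) (by linarith) (by linarith)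
  -- growth
  obtain ⟨x2, hx2⟩ : ∃ x2 : ℝ, ∀ x : ℝ, x2 ≤ x → Real.log x ^ (A + 4) ≤ x ^ (ρ / 4) := by
    have h := isLittleO_log_rpow_rpow_atTop (A + 4) (by linarith : 0 < ρ / 4)
    have h4 := h.bound (c := 1) one_pos
    obtain ⟨x2, hx2⟩ := (Filter.eventually_atTop.1 (h4.and (Filter.eventually_ge_atTop (1 : ℝ))))
    refine ⟨x2, fun x hx => ?_⟩
    obtain ⟨h5, h6⟩ := hx2 x hx
    have h7 : 0 ≤ Real.log x := Real.log_nonneg h6
    rw [Real.norm_of_nonneg (Real.rpow_nonneg h7 _),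
      Real.norm_of_nonneg (Real.rpow_nonneg (by linarith) _), one_mul] at h5
    exact h5
  refine ⟨4 * C1 / ρ + 48 * C2 / ρ, max (max n1 3) ⌈x2⌉₊, by positivity, ?_⟩
  intro n E0 E1 Y K N D e hn hE01 hE12 hnE0 hE1n hnY hNn hnN hD hDs he hen
  have hn1 : n1 ≤ n := (le_max_left _ _).trans ((le_max_left _ _).trans hn)
  have hn3 : 3 ≤ n := (le_max_right n1 3).trans ((le_max_left _ _).trans hn)
  have hnx : x2 ≤ (n : ℝ) := (Nat.le_ceil x2).trans (by exact_mod_cast (le_max_right _ _).trans hn)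
  have hn3r : (3 : ℝ) ≤ (n : ℝ) := by exact_mod_cast hn3
  have hnpos : (0 : ℝ) < (n : ℝ) := by linarith
  set L : ℝ := Real.log n with hL
  have hL1 : 1 ≤ L := by
    have h4 : Real.exp 1 ≤ (n : ℝ) := by
      have := Real.exp_one_lt_d9
      linarith
    rw [hL, ← Real.log_exp 1]
    exact Real.log_le_log (Real.exp_pos _) h4
  have hL0 : 0 < L := by linarith
  -- sizes
  have hnρ1 : 1 ≤ (n : ℝ) ^ ρ := Real.one_le_rpow (by linarith) hρ.le
  have hE0pos : (0 : ℝ) < (E0 : ℝ) := by linarith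
  have hNpos : (0 : ℝ) < (N : ℝ) := by linarith
  have hN1 : 1 ≤ N := by
    have : (0 : ℝ) < (N : ℝ) := hNpos
    exact_mod_cast Nat.cast_pos.1 this
  set s : ℝ := Real.sqrt E0 * Real.sqrt N with hs
  have hss : s * s = (E0 : ℝ) * N := by
    rw [hs]
    have e1 := Real.mul_self_sqrt hE0pos.le
    have e2 := Real.mul_self_sqrt hNpos.le
    calc Real.sqrt E0 * Real.sqrt N * (Real.sqrt E0 * Real.sqrt N) =
        (Real.sqrt E0 * Real.sqrt E0) * (Real.sqrt N * Real.sqrt N) := by ring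
      _ = _ := by rw [e1, e2]
  have hsqE : 0 < Real.sqrt E0 := Real.sqrt_pos.2 hE0pos
  have hsqN : 0 < Real.sqrt N := Real.sqrt_pos.2 hNpos
  have hs0 : 0 < s := mul_pos hsqE hsqN
  have hnrmb : nrm (bc Y K N) N ≤ (4 / ρ) * Real.sqrt N * L ^ 2 := by
    refine (hnb ρ n Y K N hρ (by omega) hnY hNn hN1).trans ?_
    have e1 : (1 + L) ^ 2 ≤ 4 * L ^ 2 := by nlinarith
    have e2 : 0 ≤ (1 / ρ) * Real.sqrt N := by positivity
    calc (1 / ρ) * Real.sqrt N * (1 + L) ^ 2 ≤ (1 / ρ) * Real.sqrt N * (4 * L ^ 2) :=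
          mul_le_mul_of_nonneg_left e1 e2
      _ = _ := by ring
  have hnrmb0 : 0 ≤ nrm (bc Y K N) N := Real.sqrt_nonneg _
  have hnrma : nrm (ae E0 E1) E1 ≤ Real.sqrt E0 := hna E0 E1 hE12
  have hnrma0 : 0 ≤ nrm (ae E0 E1) E1 := Real.sqrt_nonneg _
  set Q0 : ℕ := ⌊L ^ B⌋₊ with hQ0
  have hLB1 : 1 ≤ L ^ B := Real.one_le_rpow hL1 (by linarith)
  have hQ0le : (Q0 : ℝ) ≤ L ^ B := Nat.floor_le (by linarith)
  have hQ01 : 1 ≤ Q0 := Nat.le_floor (by simpa using hLB1)
  have hQ0ge : L ^ B / 2 ≤ (Q0 : ℝ) := by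
    have e1 : L ^ B < (Q0 : ℝ) + 1 := Nat.lt_floor_add_one _
    have e2 : (1 : ℝ) ≤ (Q0 : ℝ) := by exact_mod_cast hQ01
    linarith
  -- small conductors
  have part1 : ∑ q ∈ Ioc 1 Q0, dd (ae E0 E1) (bc Y K N) E1 N e q ≤
      (4 * C1 / ρ) * ((E0 : ℝ) * N / L ^ A) := by
    have hterm : ∀ q ∈ Ioc 1 Q0, dd (ae E0 E1) (bc Y K N) E1 N e q ≤
        (L ^ B) ^ 2 * ((C1 * ((E0 : ℝ) / L ^ A')) * ((4 / ρ) * N * L ^ 2)) := by
      intro q hq
      rw [mem_Ioc] at hq
      have hqr : (q : ℝ) ≤ L ^ B := le_trans (by exact_mod_cast hq.2) hQ0le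
      have hφ : (0 : ℝ) < (q.totient : ℝ) := by exact_mod_cast Nat.totient_pos.2 (by omega)
      have e1 : ∑ χ ∈ prim q, ‖cs (ae E0 E1) E1 e χ‖ * ‖cs (bc Y K N) N e χ‖ ≤
          (q.totient : ℝ) * ((C1 * ((E0 : ℝ) / L ^ A')) * ((4 / ρ) * N * L ^ 2)) := by
        have e2 : ∀ χ ∈ prim q, ‖cs (ae E0 E1) E1 e χ‖ * ‖cs (bc Y K N) N e χ‖ ≤
            (C1 * ((E0 : ℝ) / L ^ A')) * ((4 / ρ) * N * L ^ 2) := by
          intro χ hχ
          have hprim : χ.IsPrimitive := by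
            classical
            simpa [Pool.Agent.Lib.BV.prim] using hχ
          have e3 := hlow n E0 E1 e q hn1 hE01 hE12 hnE0 hE1n he hen (by omega) hqr χ hprim
          have e4 : ‖cs (bc Y K N) N e χ‖ ≤ (4 / ρ) * N * L ^ 2 := by
            refine (hcsb (bc Y K N) N e q χ).trans ?_
            calc Real.sqrt N * nrm (bc Y K N) N ≤ Real.sqrt N * ((4 / ρ) * Real.sqrt N * L ^ 2) :=
                  mul_le_mul_of_nonneg_left hnrmb (Real.sqrt_nonneg _)
              _ = (4 / ρ) * (Real.sqrt N * Real.sqrt N) * L ^ 2 := by ring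
              _ = _ := by rw [Real.mul_self_sqrt hNpos.le]
          exact mul_le_mul e3 e4 (norm_nonneg _) (by positivity)
        refine (Finset.sum_le_card_nsmul _ _ _ e2).trans ?_
        rw [nsmul_eq_mul]
        exact mul_le_mul_of_nonneg_right (Erq_card q (by omega)) (by positivity)
      unfold dd
      have e5 : (3 : ℝ) ^ om q ≤ (L ^ B) ^ 2 :=
        (Erq_om q (by omega)).trans (pow_le_pow_left₀ (Nat.cast_nonneg _) hqr 2)
      calc (3 : ℝ) ^ om q / (q.totient : ℝ) *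
            ∑ χ ∈ prim q, ‖cs (ae E0 E1) E1 e χ‖ * ‖cs (bc Y K N) N e χ‖
          ≤ (3 : ℝ) ^ om q / (q.totient : ℝ) *
            ((q.totient : ℝ) * ((C1 * ((E0 : ℝ) / L ^ A')) * ((4 / ρ) * N * L ^ 2))) :=
            mul_le_mul_of_nonneg_left e1 (by positivity)
        _ = (3 : ℝ) ^ om q * ((C1 * ((E0 : ℝ) / L ^ A')) * ((4 / ρ) * N * L ^ 2)) := by
            field_simp
        _ ≤ _ := mul_le_mul_of_nonneg_right e5 (by positivity)
    refine (Finset.sum_le_card_nsmul _ _ _ hterm).trans ?_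
    rw [nsmul_eq_mul, Nat.card_Ioc]
    have e6 : ((Q0 - 1 : ℕ) : ℝ) ≤ L ^ B :=
      le_trans (by exact_mod_cast Nat.sub_le _ _) hQ0le
    refine (mul_le_mul_of_nonneg_right e6 (by positivity)).trans (le_of_eq ?_)
    have e7 : L ^ A' = L ^ A * L ^ 2 * (L ^ B * (L ^ B) ^ 2) := by
      rw [hA', Real.rpow_add hL0, Real.rpow_add hL0]
      have e8 : L ^ (3 * B) = L ^ B * (L ^ B) ^ 2 := by
        rw [mul_comm 3 B, Real.rpow_mul hL0.le]
        have : (3 : ℝ) = ((3 : ℕ) : ℝ) := by norm_num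
        rw [this, Real.rpow_natCast]
        ring
      rw [e8]
      have : L ^ (2 : ℝ) = L ^ 2 := by
        have h2 : (2 : ℝ) = ((2 : ℕ) : ℝ) := by norm_num
        rw [h2, Real.rpow_natCast]
      rw [this]
    have hLA : 0 < L ^ A := Real.rpow_pos_of_pos hL0 _
    have hLBp : 0 < L ^ B := Real.rpow_pos_of_pos hL0 _
    rw [e7]
    field_simp
  -- large conductors
  have part2 : ∑ q ∈ Ioc Q0 D, dd (ae E0 E1) (bc Y K N) E1 N e q ≤
      (48 * C2 / ρ) * ((E0 : ℝ) * N / L ^ A) := by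
    have key := hblw (ae E0 E1) (bc Y K N) E1 N e Q0 D hQ01 hD
    refine key.trans ?_
    have hDr : (1 : ℝ) ≤ (D : ℝ) := by exact_mod_cast hD
    have hsqrt : Real.sqrt ((E0 : ℝ) * N) = s := by
      rw [hs, Real.sqrt_mul hE0pos.le]
    rw [hsqrt] at hDs
    set w : ℝ := (n : ℝ) ^ (ρ / 4) with hw
    have hw1 : 1 ≤ w := Real.one_le_rpow (by linarith) (by linarith)
    have hw4 : (n : ℝ) ^ ρ = w ^ 4 := by
      rw [hw, ← Real.rpow_natCast, ← Real.rpow_mul hnpos.le]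
      congr 1
      push_cast
      ring
    have hwL : L ^ (A + 4) ≤ w := hx2 n hnx
    -- square roots
    have hw2E : w ^ 2 ≤ Real.sqrt E0 := by
      rw [Real.le_sqrt' (by positivity)]
      calc (w ^ 2) ^ 2 = w ^ 4 := by ring
        _ = (n : ℝ) ^ ρ := hw4.symm
        _ ≤ E0 := hnE0
    have hw2N : w ^ 2 ≤ Real.sqrt N := by
      rw [Real.le_sqrt' (by positivity)]
      calc (w ^ 2) ^ 2 = w ^ 4 := by ring
        _ = (n : ℝ) ^ ρ := hw4.symm
        _ ≤ N := hnN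
    have hEs : Real.sqrt E0 * w ^ 2 ≤ s := mul_le_mul_of_nonneg_left hw2N hsqE.le
    have hNs : Real.sqrt N * w ^ 2 ≤ s := by
      rw [hs, mul_comm (Real.sqrt E0)]
      exact mul_le_mul_of_nonneg_left hw2E hsqN.le
    have hE1s : Real.sqrt E1 ≤ 2 * Real.sqrt E0 := by
      rw [Real.sqrt_le_left (by positivity)]
      have e1 : (E1 : ℝ) ≤ 2 * E0 := by exact_mod_cast hE12
      have e2 := Real.sq_sqrt hE0pos.le
      have e3 : (2 * Real.sqrt E0) ^ 2 = 4 * Real.sqrt E0 ^ 2 := by ring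
      rw [e3, e2]
      linarith
    have hT1 : Real.sqrt ((E1 : ℝ) * N) / Real.sqrt Q0 ≤ 3 * s / L ^ (A + 3) := by
      have e1 : Real.sqrt ((E1 : ℝ) * N) ≤ Real.sqrt 2 * s := by
        rw [hs, ← Real.sqrt_mul hE0pos.le, ← Real.sqrt_mul (by norm_num : (0 : ℝ) ≤ 2)]
        refine Real.sqrt_le_sqrt ?_
        have e2 : (E1 : ℝ) ≤ 2 * E0 := by exact_mod_cast hE12
        have e3 := mul_le_mul_of_nonneg_right e2 hNpos.le
        linarith
      have e3 : L ^ (A + 3) ≤ Real.sqrt 2 * Real.sqrt Q0 := by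
        rw [← Real.sqrt_mul (by norm_num : (0 : ℝ) ≤ 2), Real.le_sqrt' (by positivity)]
        have e4 : (L ^ (A + 3)) ^ 2 = L ^ B := by
          rw [← Real.rpow_natCast, ← Real.rpow_mul hL0.le, hB]
          congr 1
          push_cast
          ring
        rw [e4]
        linarith
      have hQs : 0 < Real.sqrt Q0 := Real.sqrt_pos.2 (by exact_mod_cast hQ01)
      rw [div_le_div_iff₀ hQs (by positivity)]
      have e5 : Real.sqrt 2 * Real.sqrt 2 = 2 := Real.mul_self_sqrt (by norm_num)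
      calc Real.sqrt ((E1 : ℝ) * N) * L ^ (A + 3) ≤ (Real.sqrt 2 * s) * (Real.sqrt 2 * Real.sqrt Q0) :=
            mul_le_mul e1 e3 (by positivity) (by positivity)
        _ = (Real.sqrt 2 * Real.sqrt 2) * (s * Real.sqrt Q0) := by ring
        _ = 2 * (s * Real.sqrt Q0) := by rw [e5]
        _ ≤ 3 * s * Real.sqrt Q0 := by
            have g1 := mul_pos hs0 hQs
            have g2 : 3 * s * Real.sqrt Q0 = 3 * (s * Real.sqrt Q0) := by ring
            linarith
    have hDn : (D : ℝ) ≤ n := by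
      have e1 : (D : ℝ) ≤ (D : ℝ) * (n : ℝ) ^ ρ := le_mul_of_one_le_right (by linarith) hnρ1
      have e2 : s ≤ n := by
        have e3 : s * s ≤ (n : ℝ) * n := by
          rw [hss]
          have e4 : (E0 : ℝ) ≤ n := by
            exact_mod_cast (hE01.le.trans hE1n)
          have e5 : (N : ℝ) ≤ n := by exact_mod_cast hNn
          exact mul_le_mul e4 e5 hNpos.le hnpos.le
        exact (mul_self_le_mul_self_iff hs0.le hnpos.le).2 e3
      linarith
    have hDw : (D : ℝ) ^ (ρ / 4) ≤ w := Real.rpow_le_rpow (by linarith) hDn (by linarith)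
    have hlogD : Real.log D ≤ L := Real.log_le_log (by linarith) hDn
    have hlogD0 : 0 ≤ Real.log D := Real.log_nonneg hDr
    have hDw0 : 0 ≤ (D : ℝ) ^ (ρ / 4) := Real.rpow_nonneg (by linarith) _
    have hT2 : (D : ℝ) ^ (ρ / 4) * ((1 + Real.log D) * (Real.sqrt E1 + Real.sqrt N) + D) ≤
        9 * L * s / w := by
      rw [le_div_iff₀ (by linarith)]
      rw [hw4] at hDs
      have f1 : (1 + Real.log D) * (Real.sqrt E1 + Real.sqrt N) ≤
          (2 * L) * (2 * Real.sqrt E0 + Real.sqrt N) :=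
        mul_le_mul (by linarith) (by linarith) (by positivity) (by linarith)
      have f2 : (D : ℝ) ^ (ρ / 4) * ((1 + Real.log D) * (Real.sqrt E1 + Real.sqrt N) + D) ≤
          w * ((2 * L) * (2 * Real.sqrt E0 + Real.sqrt N) + D) :=
        mul_le_mul hDw (by linarith) (by positivity) (by linarith)
      have f3 : (D : ℝ) * w ^ 2 ≤ s := by
        have g1 : (D : ℝ) * w ^ 2 ≤ (D : ℝ) * w ^ 4 := by
          refine mul_le_mul_of_nonneg_left ?_ (by linarith)
          exact pow_le_pow_right₀ hw1 (by norm_num)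
        linarith
      calc (D : ℝ) ^ (ρ / 4) * ((1 + Real.log D) * (Real.sqrt E1 + Real.sqrt N) + D) * w
          ≤ w * ((2 * L) * (2 * Real.sqrt E0 + Real.sqrt N) + D) * w :=
            mul_le_mul_of_nonneg_right f2 (by linarith)
        _ = (2 * L) * (2 * (Real.sqrt E0 * w ^ 2) + Real.sqrt N * w ^ 2) + D * w ^ 2 := by ring
        _ ≤ (2 * L) * (2 * s + s) + s := by
            have g2 : 2 * (Real.sqrt E0 * w ^ 2) + Real.sqrt N * w ^ 2 ≤ 2 * s + s := by linarith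
            have := mul_le_mul_of_nonneg_left g2 (by linarith : 0 ≤ 2 * L)
            linarith
        _ ≤ 9 * L * s := by
            have g1 : 1 * s ≤ L * s := mul_le_mul_of_nonneg_right hL1 hs0.le
            have g2 : (2 * L) * (2 * s + s) + s = 6 * (L * s) + s := by ring
            have g3 : 9 * L * s = 9 * (L * s) := by ring
            rw [g2, g3]
            linarith
    have hT3 : 9 * L * s / w ≤ 9 * s / L ^ (A + 3) := by
      have e1 : L ^ (A + 4) = L ^ (A + 3) * L := by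
        rw [← Real.rpow_add_one hL0.ne']
        congr 1
        ring
      rw [div_le_div_iff₀ (by linarith) (by positivity)]
      rw [e1] at hwL
      have : 0 ≤ 9 * s := by linarith
      calc 9 * L * s * L ^ (A + 3) = 9 * s * (L ^ (A + 3) * L) := by ring
        _ ≤ 9 * s * w := mul_le_mul_of_nonneg_left hwL this
    have hLA3 : L ^ (A + 3) = L ^ A * L ^ 3 := by
      rw [Real.rpow_add hL0]
      have : L ^ (3 : ℝ) = L ^ 3 := by
        have h3' : (3 : ℝ) = ((3 : ℕ) : ℝ) := by norm_num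
        rw [h3', Real.rpow_natCast]
      rw [this]
    have hLA : 0 < L ^ A := Real.rpow_pos_of_pos hL0 _
    have hsum : Real.sqrt ((E1 : ℝ) * N) / Real.sqrt Q0 +
        (D : ℝ) ^ (ρ / 4) * ((1 + Real.log D) * (Real.sqrt E1 + Real.sqrt N) + D) ≤
        12 * s / (L ^ A * L ^ 3) := by
      rw [← hLA3]
      have : 12 * s / L ^ (A + 3) = 3 * s / L ^ (A + 3) + 9 * s / L ^ (A + 3) := by ring
      rw [this]
      linarith
    have hnn : nrm (ae E0 E1) E1 * nrm (bc Y K N) N ≤ (4 / ρ) * s * L ^ 2 := by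
      calc nrm (ae E0 E1) E1 * nrm (bc Y K N) N ≤ Real.sqrt E0 * ((4 / ρ) * Real.sqrt N * L ^ 2) :=
            mul_le_mul hnrma hnrmb hnrmb0 hsqE.le
        _ = _ := by rw [hs]; ring
    have hX0 : 0 ≤ Real.sqrt ((E1 : ℝ) * N) / Real.sqrt Q0 +
        (D : ℝ) ^ (ρ / 4) * ((1 + Real.log D) * (Real.sqrt E1 + Real.sqrt N) + D) := by positivity
    calc C2 * (nrm (ae E0 E1) E1 * nrm (bc Y K N) N) *
          (Real.sqrt ((E1 : ℝ) * N) / Real.sqrt Q0 +
            (D : ℝ) ^ (ρ / 4) * ((1 + Real.log D) * (Real.sqrt E1 + Real.sqrt N) + D))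
        ≤ C2 * ((4 / ρ) * s * L ^ 2) * (12 * s / (L ^ A * L ^ 3)) :=
          mul_le_mul (mul_le_mul_of_nonneg_left hnn hC2.le) hsum hX0 (by positivity)
      _ = (48 * C2 / ρ) * (s * s / (L ^ A * L)) := by
          field_simp
          ring
      _ ≤ (48 * C2 / ρ) * ((E0 : ℝ) * N / L ^ A) := by
          refine mul_le_mul_of_nonneg_left ?_ (by positivity)
          rw [hss]
          refine div_le_div_of_nonneg_left (by positivity) hLA ?_
          exact le_mul_of_one_le_right hLA.le hL1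
  -- total
  have hsub : Ioc 1 D ⊆ Ioc 1 Q0 ∪ Ioc Q0 D := by
    intro q hq
    rw [mem_Ioc] at hq
    rw [mem_union, mem_Ioc, mem_Ioc]
    omega
  calc ∑ q ∈ Ioc 1 D, dd (ae E0 E1) (bc Y K N) E1 N e q
      ≤ ∑ q ∈ Ioc 1 Q0 ∪ Ioc Q0 D, dd (ae E0 E1) (bc Y K N) E1 N e q :=
        Finset.sum_le_sum_of_subset_of_nonneg hsub fun q _ _ => Erq_dd_nonneg _ _ _ _ _ _
    _ ≤ ∑ q ∈ Ioc 1 Q0, dd (ae E0 E1) (bc Y K N) E1 N e q +
          ∑ q ∈ Ioc Q0 D, dd (ae E0 E1) (bc Y K N) E1 N e q := by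
        rw [← Finset.sum_union_inter]
        exact le_add_of_nonneg_right (Finset.sum_nonneg fun q _ => Erq_dd_nonneg _ _ _ _ _ _)
    _ ≤ (4 * C1 / ρ) * ((E0 : ℝ) * N / L ^ A) + (48 * C2 / ρ) * ((E0 : ℝ) * N / L ^ A) :=
        add_le_add part1 part2
    _ = _ := by ring

end Pool.Agent.Lib.MP_a260de_nt.CN3
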