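import Pool.Agent.Lib.MP_a260de_nt.CN3.SpecE

/-!
MP_a260de_nt, PROJECT CN3: the error terms on average.
-/

set_option autoImplicit false

namespace Pool.Agent.Lib.MP_a260de_nt.CN3

open Finset
open Pool.Agent.Lib.BV (cls cs prim nrm del SplStmt InjStmt TotStmt BlkStmt SwStmt)

theorem t_Err (h1 : S_Aud) (h2 : S_Wgt) (h3 : S_Twc) (h4 : S_Erq) : S_Err := by
  intro A ρ hA hρ
  by_cases hρ1 : ρ ≤ 1
  · obtain ⟨C4, n4, hC4, hE⟩ := h4 (A + 6) ρ (by linarith) hρ hρ1
    refine ⟨64 * C4, max n4 3, by linarith, ?_⟩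
    intro n E0 E1 Y K N D hn hE0 hE01 hE1 hE1n hY hN hNn hD
    have hn4 : n4 ≤ n := le_trans (le_max_left _ _) hn
    have hn3 : 3 ≤ n := le_trans (le_max_right _ _) hn
    have hnr : (3 : ℝ) ≤ n := by exact_mod_cast hn3
    have hlog : 1 ≤ Real.log n := by
      rw [Real.le_log_iff_exp_le (by linarith)]
      have := Real.exp_one_lt_d9
      linarith
    have hlog0 : 0 < Real.log n := by linarith
    have hLA : 0 < Real.log n ^ A := Real.rpow_pos_of_pos hlog0 A
    have hEN : 0 ≤ (E0 : ℝ) * N := by positivity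
    rcases Nat.eq_zero_or_pos D with hD0 | hD0
    · subst hD0
      have : (Icc 1 0 : Finset ℕ) = ∅ := by decide
      rw [this, Finset.filter_empty, Finset.sum_empty]
      positivity
    · have hDn : D ≤ n := by
        have t1 : (1 : ℝ) ≤ (n : ℝ) ^ ρ := Real.one_le_rpow (by linarith) hρ.le
        have t2 : Real.sqrt ((E0 : ℝ) * N) ≤ n := by
          apply Real.sqrt_le_iff.mpr
          refine ⟨by positivity, ?_⟩
          have hE0n : (E0 : ℝ) ≤ n := by exact_mod_cast (hE01.le.trans hE1n)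
          have hNn' : (N : ℝ) ≤ n := by exact_mod_cast hNn
          rw [sq]
          exact mul_le_mul hE0n hNn' (Nat.cast_nonneg N) (Nat.cast_nonneg n)
        have t3 : (D : ℝ) * 1 ≤ (D : ℝ) * (n : ℝ) ^ ρ :=
          mul_le_mul_of_nonneg_left t1 (Nat.cast_nonneg D)
        have t4 : (D : ℝ) ≤ n := by linarith
        exact_mod_cast t4
      have hD1 : 1 ≤ D := hD0
      -- first step
      have s1 : ∑ d ∈ (Icc 1 D).filter Squarefree,
          (3 : ℝ) ^ om d * |(AA E0 E1 Y K N d : ℝ) - (UU E0 E1 Y K N d : ℝ) / (d.totient : ℝ)| ≤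
          ∑ d ∈ (Icc 1 D).filter Squarefree, (3 : ℝ) ^ om d * ((1 / (d.totient : ℝ)) *
            ∑ q ∈ d.divisors.filter (fun q => 1 < q), ∑ χ ∈ prim q,
              ‖cs (ae E0 E1) E1 d χ‖ * ‖cs (bc Y K N) N d χ‖) := by
        refine Finset.sum_le_sum fun d hd => ?_
        have hd1 : 1 ≤ d := (Finset.mem_Icc.1 (Finset.mem_filter.1 hd).1).1
        exact mul_le_mul_of_nonneg_left (h1 E0 E1 Y K N d hd1) (by positivity)
      have s2 := h2 (ae E0 E1) (bc Y K N) E1 N D
      have s3 : ∑ e ∈ (Icc 1 D).filter Squarefree, (3 : ℝ) ^ om e / (e.totient : ℝ) *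
          ∑ q ∈ Ioc 1 D, dd (ae E0 E1) (bc Y K N) E1 N e q ≤
          ∑ e ∈ (Icc 1 D).filter Squarefree, (3 : ℝ) ^ om e / (e.totient : ℝ) *
            (C4 * ((E0 : ℝ) * N / (Real.log n) ^ (A + 6))) := by
        refine Finset.sum_le_sum fun e he => ?_
        have he1 := Finset.mem_Icc.1 (Finset.mem_filter.1 he).1
        exact mul_le_mul_of_nonneg_left
          (hE n E0 E1 Y K N D e hn4 hE01 hE1 hE0 hE1n hY hNn hN hD1 hD he1.1 (he1.2.trans hDn))
          (by positivity)
      rw [← Finset.sum_mul] at s3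
      have s4 := h3 3 D hD1
      have s4' : ∑ e ∈ (Icc 1 D).filter Squarefree, (3 : ℝ) ^ om e / (e.totient : ℝ) ≤
          (1 + Real.log D) ^ 6 := by
        have e1 : (((3 : ℕ) : ℝ)) = 3 := by norm_num
        rw [e1] at s4
        exact s4
      have hlogD : 0 ≤ Real.log D := Real.log_nonneg (by exact_mod_cast hD1)
      have hlogDn : Real.log D ≤ Real.log n :=
        Real.log_le_log (by exact_mod_cast hD0) (by exact_mod_cast hDn)
      have s5 : (1 + Real.log D) ^ 6 ≤ 64 * Real.log n ^ 6 := by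
        have t1 : 1 + Real.log D ≤ 2 * Real.log n := by linarith
        calc (1 + Real.log D) ^ 6 ≤ (2 * Real.log n) ^ 6 :=
              pow_le_pow_left₀ (by linarith) t1 6
          _ = 64 * Real.log n ^ 6 := by ring
      have hR : 0 ≤ C4 * ((E0 : ℝ) * N / (Real.log n) ^ (A + 6)) := by
        have := Real.rpow_nonneg hlog0.le (A + 6)
        positivity
      have e6 : Real.log n ^ (A + 6) = Real.log n ^ A * Real.log n ^ 6 := by
        rw [Real.rpow_add hlog0]
        have : Real.log n ^ (6 : ℝ) = Real.log n ^ (6 : ℕ) := by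
          rw [← Real.rpow_natCast]
          norm_num
        rw [this]
      calc ∑ d ∈ (Icc 1 D).filter Squarefree,
          (3 : ℝ) ^ om d * |(AA E0 E1 Y K N d : ℝ) - (UU E0 E1 Y K N d : ℝ) / (d.totient : ℝ)|
          ≤ (∑ e ∈ (Icc 1 D).filter Squarefree, (3 : ℝ) ^ om e / (e.totient : ℝ)) *
            (C4 * ((E0 : ℝ) * N / (Real.log n) ^ (A + 6))) := (s1.trans s2).trans s3
        _ ≤ (64 * Real.log n ^ 6) * (C4 * ((E0 : ℝ) * N / (Real.log n) ^ (A + 6))) :=
            mul_le_mul_of_nonneg_right (s4'.trans s5) hR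
        _ = 64 * C4 * ((E0 : ℝ) * N / Real.log n ^ A) := by
            rw [e6]
            field_simp
  · refine ⟨1, 2, one_pos, ?_⟩
    intro n E0 E1 Y K N D hn hE0 hE01 hE1 hE1n
    exfalso
    have hn2 : (1 : ℝ) < n := by
      have : (2 : ℝ) ≤ n := by exact_mod_cast hn
      linarith
    have t1 : (n : ℝ) ^ (1 : ℝ) < (n : ℝ) ^ ρ :=
      Real.rpow_lt_rpow_of_exponent_lt hn2 (lt_of_not_ge hρ1)
    rw [Real.rpow_one] at t1
    have t2 : (E0 : ℝ) < n := by exact_mod_cast (hE01.trans_le hE1n)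
    linarith

end Pool.Agent.Lib.MP_a260de_nt.CN3
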