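import Pool.Agent.Lib.MP_a260de_nt.CN3.SpecE

/-! MP_a260de_nt, PROJECT CN3, part E: the lower bound log Δ ≤ c0 H(Δ) (`S_Hlo`). -/

set_option autoImplicit false

namespace Pool.Agent.Lib.MP_a260de_nt.CN3

open Finset
open Pool.Agent.Lib.BV (cls cs prim nrm del SplStmt InjStmt TotStmt BlkStmt SwStmt)

/-- the radical -/
private def hlo_rad (b : ℕ) : ℕ := ∏ p ∈ b.primeFactors, p

private theorem hlo_rad_pf (b : ℕ) : (hlo_rad b).primeFactors = b.primeFactors :=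
  Nat.primeFactors_prod fun _ hp => Nat.prime_of_mem_primeFactors hp

private theorem hlo_rad_pos (b : ℕ) : 1 ≤ hlo_rad b :=
  Finset.prod_pos fun _ hp => (Nat.prime_of_mem_primeFactors hp).pos

private theorem hlo_rad_le (b : ℕ) (hb : 1 ≤ b) : hlo_rad b ≤ b :=
  Nat.le_of_dvd hb (Nat.prod_primeFactors_dvd b)

private theorem hlo_rad_sq (b : ℕ) : Squarefree (hlo_rad b) := by
  rw [Nat.squarefree_iff_factorization_le_one (Nat.pos_iff_ne_zero.1 (hlo_rad_pos b))]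
  intro p
  by_cases hp : p ∈ b.primeFactors
  · unfold hlo_rad
    have h0 : ∑ q ∈ b.primeFactors.erase p, (q.factorization) p = 0 := by
      refine Finset.sum_eq_zero fun q hq => ?_
      rw [(Nat.prime_of_mem_primeFactors (Finset.mem_of_mem_erase hq)).factorization,
        Finsupp.single_eq_of_ne]
      exact fun h => Finset.ne_of_mem_erase hq h.symm
    rw [Nat.factorization_prod fun q hq => (Nat.prime_of_mem_primeFactors hq).ne_zero,
      Finsupp.finsetSum_apply, ← Finset.add_sum_erase _ _ hp,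
      (Nat.prime_of_mem_primeFactors hp).factorization_self, h0]
  · rw [← hlo_rad_pf b, ← Nat.support_factorization, Finsupp.notMem_support_iff] at hp
    rw [hp]
    exact zero_le_one

private theorem hlo_key (h1 : S_Rad) (F : ℕ → ℝ) (w : ℕ → ℝ) (hF : ∀ p : ℕ, p.Prime → 0 ≤ F p ∧ F p < 1)
    (hw : ∀ d, 0 ≤ w d) (Δ : ℕ) :
    ∑ b ∈ Icc 1 Δ, w (hlo_rad b) * cm F b ≤
      ∑ j ∈ (Icc 1 Δ).filter Squarefree, w j * ∏ p ∈ j.primeFactors, F p / (1 - F p) := by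
  have hm : ∀ b ∈ Icc 1 Δ, hlo_rad b ∈ (Icc 1 Δ).filter Squarefree := by
    intro b hb
    rw [Finset.mem_Icc] at hb
    exact Finset.mem_filter.2 ⟨Finset.mem_Icc.2 ⟨hlo_rad_pos b, (hlo_rad_le b hb.1).trans hb.2⟩,
      hlo_rad_sq b⟩
  rw [← Finset.sum_fiberwise_of_maps_to hm]
  refine Finset.sum_le_sum fun j hj => ?_
  have h2 : ∑ b ∈ (Icc 1 Δ).filter (fun b => hlo_rad b = j), w (hlo_rad b) * cm F b =
      w j * ∑ b ∈ (Icc 1 Δ).filter (fun b => hlo_rad b = j), cm F b := by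
    rw [Finset.mul_sum]
    refine Finset.sum_congr rfl fun b hb => ?_
    rw [(Finset.mem_filter.1 hb).2]
  rw [h2]
  refine mul_le_mul_of_nonneg_left ?_ (hw j)
  refine h1 F j.primeFactors _ hF (fun p hp => Nat.prime_of_mem_primeFactors hp) fun b hb => ?_
  rw [Finset.mem_filter, Finset.mem_Icc] at hb
  refine ⟨by omega, ?_⟩
  rw [← hb.2, hlo_rad_pf]

private theorem hlo_inv (a : ℕ) (ha : 1 ≤ a) : cm (fun p => 1 / (p : ℝ)) a = 1 / (a : ℝ) := by
  unfold cm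
  have h : (∏ p ∈ a.primeFactors, (p : ℝ) ^ a.factorization p) = (a : ℝ) := by
    have h3 := Nat.prod_factorization_pow_eq_self (n := a) (by omega)
    rw [Finsupp.prod, Nat.support_factorization] at h3
    have h4 : ((∏ p ∈ a.primeFactors, p ^ a.factorization p : ℕ) : ℝ) = (a : ℝ) := by rw [h3]
    rw [← h4]
    push_cast
    rfl
  rw [← h, one_div, ← Finset.prod_inv_distrib]
  refine Finset.prod_congr rfl fun p _ => ?_
  show (1 / (p : ℝ)) ^ _ = _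
  rw [one_div, inv_pow]

private theorem hlo_tot (j : ℕ) (hj : Squarefree j) :
    (∏ p ∈ j.primeFactors, (1 / (p : ℝ)) / (1 - 1 / (p : ℝ))) = 1 / (j.totient : ℝ) := by
  have h : ((j.totient : ℕ) : ℝ) = ∏ p ∈ j.primeFactors, ((p : ℝ) - 1) := by
    have h2 : j.totient = ∏ p ∈ j.primeFactors, (p - 1) := by
      have h3 := Nat.totient_mul_prod_primeFactors j
      rw [Nat.prod_primeFactors_of_squarefree hj] at h3
      have hj0 : 0 < j := Nat.pos_of_ne_zero hj.ne_zero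
      rw [mul_comm j] at h3
      exact Nat.eq_of_mul_eq_mul_right hj0 h3
    rw [h2, Nat.cast_prod]
    refine Finset.prod_congr rfl fun p hp => ?_
    rw [Nat.cast_sub (Nat.prime_of_mem_primeFactors hp).one_le, Nat.cast_one]
  rw [h, one_div, ← Finset.prod_inv_distrib]
  refine Finset.prod_congr rfl fun p hp => ?_
  have hp2 : (2 : ℝ) ≤ p := by exact_mod_cast (Nat.prime_of_mem_primeFactors hp).two_le
  have e1 : (p : ℝ) ≠ 0 := by linarith
  have e2 : (p : ℝ) - 1 ≠ 0 := by linarith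
  have e3 : 1 - 1 / (p : ℝ) = ((p : ℝ) - 1) / p := by field_simp
  rw [e3]
  field_simp

private theorem hlo_log (Δ : ℕ) (hΔ : 1 ≤ Δ) : Real.log Δ ≤ ∑ n ∈ Icc 1 Δ, 1 / (n : ℝ) := by
  have h := log_add_one_le_harmonic Δ
  have h2 : Real.log (Δ : ℝ) ≤ Real.log ((Δ + 1 : ℕ) : ℝ) := by
    apply Real.log_le_log
    · exact_mod_cast hΔ
    · exact_mod_cast Nat.le_succ Δ
  refine h2.trans (h.trans (le_of_eq ?_))
  rw [harmonic_eq_sum_Icc, Rat.cast_sum]
  refine Finset.sum_congr rfl fun n _ => ?_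
  rw [Rat.cast_inv, Rat.cast_natCast, one_div]

private theorem hlo_g (p : ℕ) (hp : p.Prime) :
    0 ≤ ((p : ℝ) - 1) / (p : ℝ) ^ 2 ∧ ((p : ℝ) - 1) / (p : ℝ) ^ 2 < 1 := by
  have hp2 : (2 : ℝ) ≤ p := by exact_mod_cast hp.two_le
  refine ⟨div_nonneg (by linarith) (sq_nonneg _), ?_⟩
  rw [div_lt_one (by positivity)]
  nlinarith

private theorem hlo_main (h1 : S_Rad) (h2 : S_Uga) (h3 : CN.A.S_C0s) (Δ : ℕ) (hΔ : 1 ≤ Δ) :
    Real.log Δ ≤ CN.A.c0 * HH Δ := by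
  have hcm : ∀ b, 0 ≤ cm (fun p => ((p : ℝ) - 1) / (p : ℝ) ^ 2) b := by
    intro b
    exact Finset.prod_nonneg fun p hp => pow_nonneg (hlo_g p (Nat.prime_of_mem_primeFactors hp)).1 _
  have hB : ∑ b ∈ Icc 1 Δ, cm (fun p => ((p : ℝ) - 1) / (p : ℝ) ^ 2) b ≤ HH Δ := by
    have h := hlo_key h1 (fun p => ((p : ℝ) - 1) / (p : ℝ) ^ 2) (fun _ => 1) hlo_g
      (fun _ => zero_le_one) Δ
    simp only [one_mul] at h
    refine h.trans (le_of_eq ?_)
    unfold HH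
    refine Finset.sum_congr rfl fun j _ => ?_
    unfold hh
    refine Finset.prod_congr rfl fun p hp => ?_
    have hp2 : (2 : ℝ) ≤ p := by exact_mod_cast (Nat.prime_of_mem_primeFactors hp).two_le
    have e1 : (p : ℝ) ≠ 0 := by linarith
    have e2 : (p : ℝ) ^ 2 - p + 1 ≠ 0 := by nlinarith
    have e3 : 1 - ((p : ℝ) - 1) / (p : ℝ) ^ 2 = ((p : ℝ) ^ 2 - p + 1) / (p : ℝ) ^ 2 := by
      field_simp
      ring
    rw [e3, div_div_div_cancel_right₀ (pow_ne_zero 2 e1)]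
  have hA : ∑ a ∈ Icc 1 Δ, 1 / ((a : ℝ) * ((∏ p ∈ a.primeFactors, p : ℕ) : ℝ)) ≤ CN.A.c0 := by
    have h := hlo_key h1 (fun p => 1 / (p : ℝ)) (fun d => 1 / (d : ℝ)) (fun p hp => by
      have hp2 : (2 : ℝ) ≤ p := by exact_mod_cast hp.two_le
      refine ⟨by positivity, ?_⟩
      rw [div_lt_one (by positivity)]
      linarith) (fun d => by positivity) Δ
    have e1 : ∑ a ∈ Icc 1 Δ, 1 / ((a : ℝ) * ((∏ p ∈ a.primeFactors, p : ℕ) : ℝ)) =
        ∑ a ∈ Icc 1 Δ, 1 / ((hlo_rad a : ℕ) : ℝ) * cm (fun p => 1 / (p : ℝ)) a := by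
      refine Finset.sum_congr rfl fun a ha => ?_
      rw [hlo_inv a (Finset.mem_Icc.1 ha).1]
      show 1 / ((a : ℝ) * ((hlo_rad a : ℕ) : ℝ)) = _
      rw [one_div_mul_one_div, mul_comm]
    have e2 : ∑ j ∈ (Icc 1 Δ).filter Squarefree,
        1 / (j : ℝ) * ∏ p ∈ j.primeFactors, (1 / (p : ℝ)) / (1 - 1 / (p : ℝ)) =
        ∑ j ∈ Icc 1 Δ, (if Squarefree j then 1 / ((j : ℝ) * (j.totient : ℝ)) else 0) := by
      rw [Finset.sum_filter]
      refine Finset.sum_congr rfl fun j _ => ?_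
      by_cases hj : Squarefree j
      · rw [if_pos hj, if_pos hj, hlo_tot j hj, one_div_mul_one_div]
      · rw [if_neg hj, if_neg hj]
    rw [e1]
    refine h.trans ?_
    rw [e2]
    exact h3.1.sum_le_tsum _ fun j _ => by
      split_ifs
      · positivity
      · exact le_rfl
  have hA0 : 0 ≤ ∑ a ∈ Icc 1 Δ, 1 / ((a : ℝ) * ((∏ p ∈ a.primeFactors, p : ℕ) : ℝ)) :=
    Finset.sum_nonneg fun a _ => by positivity
  have hB0 : 0 ≤ ∑ b ∈ Icc 1 Δ, cm (fun p => ((p : ℝ) - 1) / (p : ℝ) ^ 2) b :=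
    Finset.sum_nonneg fun b _ => hcm b
  have hpd : ((Icc 1 Δ : Finset ℕ) : Set ℕ).PairwiseDisjoint Nat.divisorsAntidiagonal := by
    intro m _ n _ hmn
    rw [Function.onFun, Finset.disjoint_left]
    intro w hw hw'
    exact hmn (by rw [← (Nat.mem_divisorsAntidiagonal.1 hw).1,
      ← (Nat.mem_divisorsAntidiagonal.1 hw').1])
  have hS : ∑ n ∈ Icc 1 Δ, 1 / (n : ℝ) ≤
      (∑ a ∈ Icc 1 Δ, 1 / ((a : ℝ) * ((∏ p ∈ a.primeFactors, p : ℕ) : ℝ))) *
        ∑ b ∈ Icc 1 Δ, cm (fun p => ((p : ℝ) - 1) / (p : ℝ) ^ 2) b := by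
    refine (Finset.sum_le_sum fun n hn => h2 n (Finset.mem_Icc.1 hn).1).trans ?_
    rw [← Finset.sum_biUnion hpd, Finset.sum_mul_sum, ← Finset.sum_product']
    refine Finset.sum_le_sum_of_subset_of_nonneg ?_ fun w _ _ => ?_
    · intro w hw
      rw [Finset.mem_biUnion] at hw
      obtain ⟨n, hn, hw⟩ := hw
      rw [Nat.mem_divisorsAntidiagonal] at hw
      rw [Finset.mem_Icc] at hn
      rw [Finset.mem_product, Finset.mem_Icc, Finset.mem_Icc]
      have hne : w.1 * w.2 ≠ 0 := by rw [hw.1]; exact hw.2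
      have p1 : 1 ≤ w.1 := Nat.pos_of_ne_zero (left_ne_zero_of_mul hne)
      have p2 : 1 ≤ w.2 := Nat.pos_of_ne_zero (right_ne_zero_of_mul hne)
      refine ⟨⟨p1, ?_⟩, ⟨p2, ?_⟩⟩
      · exact (Nat.le_mul_of_pos_right _ p2).trans (hw.1.le.trans hn.2)
      · exact (Nat.le_mul_of_pos_left _ p1).trans (hw.1.le.trans hn.2)
    · exact mul_nonneg (by positivity) (hcm _)
  refine (hlo_log Δ hΔ).trans (hS.trans ?_)
  exact mul_le_mul hA hB hB0 (hA0.trans hA)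

theorem t_Hlo (h1 : S_Rad) (h2 : S_Uga) (h3 : CN.A.S_C0s) : S_Hlo := by
  intro ε hε
  refine ⟨1, fun Δ hΔ => ?_⟩
  have h := hlo_main h1 h2 h3 Δ hΔ
  have h0 : 0 ≤ Real.log (Δ : ℝ) := Real.log_natCast_nonneg Δ
  nlinarith

end Pool.Agent.Lib.MP_a260de_nt.CN3
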