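import Pool.Agent.Lib.MP_a260de_nt.CN3.SpecE

/-!
MP_a260de_nt, PROJECT CN3, part E, module Laq: the quadratic form of the Selberg weights for the
density gd (adapted from CN/A/GaQ.lean).
-/

set_option autoImplicit false

namespace Pool.Agent.Lib.MP_a260de_nt.CN3

open Finset

namespace E_Laq

private theorem Slq_mu (m : ℕ) :
    ∑ d ∈ m.divisors, (ArithmeticFunction.moebius d : ℤ) = if m = 1 then 1 else 0 := by
  have h := congrArg (fun f : ArithmeticFunction ℤ => f m)
    ArithmeticFunction.moebius_mul_coe_zeta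
  rw [ArithmeticFunction.coe_mul_zeta_apply, ArithmeticFunction.one_apply] at h
  exact h

/-- the inner sum -/
private theorem Slq_inner (l k : ℕ) (hl : Squarefree l) :
    ∑ e ∈ l.divisors.filter (fun e => k ∣ e), (ArithmeticFunction.moebius e : ℤ) =
      if l = k then ArithmeticFunction.moebius k else 0 := by
  by_cases hk : k ∣ l
  · obtain ⟨m, rfl⟩ := hk
    have hl0 : k * m ≠ 0 := hl.ne_zero
    have hk0 : k ≠ 0 := left_ne_zero_of_mul hl0
    have hm0 : m ≠ 0 := right_ne_zero_of_mul hl0
    have hcop : Nat.Coprime k m := Nat.coprime_of_squarefree_mul hl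
    have h1 : (k * m).divisors.filter (fun e => k ∣ e) = m.divisors.image (fun d => k * d) := by
      ext e
      simp only [mem_filter, Nat.mem_divisors, mem_image]
      constructor
      · rintro ⟨⟨h2, _⟩, ⟨d, rfl⟩⟩
        exact ⟨d, ⟨Nat.dvd_of_mul_dvd_mul_left (Nat.pos_of_ne_zero hk0) h2, hm0⟩, rfl⟩
      · rintro ⟨d, ⟨h2, _⟩, rfl⟩
        exact ⟨⟨Nat.mul_dvd_mul_left k h2, hl0⟩, dvd_mul_right k d⟩
    rw [h1, sum_image (fun a _ b _ hab => Nat.eq_of_mul_eq_mul_left (Nat.pos_of_ne_zero hk0) hab)]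
    have h3 : ∀ d ∈ m.divisors, (ArithmeticFunction.moebius (k * d) : ℤ) =
        ArithmeticFunction.moebius k * ArithmeticFunction.moebius d := by
      intro d hd
      exact ArithmeticFunction.isMultiplicative_moebius.map_mul_of_coprime
        (Nat.Coprime.coprime_dvd_right (Nat.dvd_of_mem_divisors hd) hcop)
    rw [sum_congr rfl h3, ← mul_sum, Slq_mu]
    by_cases hm : m = 1
    · subst hm
      simp
    · have h4 : ¬ k * m = k := by
        intro h5
        apply hm
        have : k * m = k * 1 := by rw [h5, mul_one]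
        exact Nat.eq_of_mul_eq_mul_left (Nat.pos_of_ne_zero hk0) this
      simp [hm, h4]
  · have h1 : l.divisors.filter (fun e => k ∣ e) = ∅ := by
      rw [filter_eq_empty_iff]
      intro e he h2
      exact hk (h2.trans (Nat.dvd_of_mem_divisors he))
    have h2 : ¬ l = k := by
      rintro rfl
      exact hk dvd_rfl
    rw [h1, sum_empty, if_neg h2]


/-! ### the functions gd and hh -/

private noncomputable def G : ArithmeticFunction ℝ := ⟨gd, by simp [gd]⟩

private theorem G_apply (m : ℕ) : G m = gd m := rfl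

private theorem G_mult : G.IsMultiplicative := by
  refine ⟨?_, fun {m n} h => ?_⟩
  · rw [G_apply]
    simp [gd]
  · rw [G_apply, G_apply, G_apply]
    unfold gd
    rw [Nat.totient_mul h]
    push_cast
    rw [mul_pow, mul_div_mul_comm]

private theorem gd_pos {m : ℕ} (hm : 1 ≤ m) : 0 < gd m := by
  unfold gd
  have h1 : 0 < m.totient := Nat.totient_pos.2 (by omega)
  have h2 : (0 : ℝ) < m.totient := by exact_mod_cast h1
  have h3 : (0 : ℝ) < m := by exact_mod_cast hm
  positivity

private theorem den_pos (p : ℕ) (hp : 2 ≤ p) : (0 : ℝ) < (p : ℝ) ^ 2 - p + 1 := by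
  have : (2 : ℝ) ≤ p := by exact_mod_cast hp
  nlinarith

private theorem hh_pos (m : ℕ) : 0 < hh m := by
  unfold hh
  refine prod_pos fun p hp => ?_
  have h2 := (Nat.prime_of_mem_primeFactors hp).two_le
  have h3 : (2 : ℝ) ≤ p := by exact_mod_cast h2
  exact div_pos (by linarith) (den_pos p h2)

private theorem hh_mul {m n : ℕ} (h : Nat.Coprime m n) : hh (m * n) = hh m * hh n := by
  unfold hh
  rw [h.primeFactors_mul, prod_union h.disjoint_primeFactors]

private noncomputable def F : ArithmeticFunction ℝ :=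
  ⟨fun k => if k = 0 then 0 else 1 / hh k, by simp⟩

private theorem F_apply {k : ℕ} (hk : k ≠ 0) : F k = 1 / hh k := by
  change (if k = 0 then 0 else 1 / hh k) = 1 / hh k
  rw [if_neg hk]

private theorem F_mult : F.IsMultiplicative := by
  refine ⟨?_, fun {m n} h => ?_⟩
  · rw [F_apply one_ne_zero]
    simp [hh]
  · rcases Nat.eq_zero_or_pos m with hm | hm
    · subst hm
      simp
    · rcases Nat.eq_zero_or_pos n with hn | hn
      · subst hn
        simp
      · rw [F_apply (by positivity), F_apply (by omega), F_apply (by omega), hh_mul h]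
        have h1 := (hh_pos m).ne'
        have h2 := (hh_pos n).ne'
        field_simp

private theorem gd_inv {m : ℕ} (hm : Squarefree m) : 1 / gd m = ∑ k ∈ m.divisors, 1 / hh k := by
  have h1 : ∑ k ∈ m.divisors, 1 / hh k = ∑ k ∈ m.divisors, F k := by
    refine sum_congr rfl fun k hk => ?_
    rw [F_apply (Nat.pos_of_mem_divisors hk).ne']
  have h2 : gd m = ∏ p ∈ m.primeFactors, gd p := by
    have h3 := G_mult.map_prod_of_prime m.primeFactors
      (fun p hp => Nat.prime_of_mem_primeFactors hp)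
    rw [Nat.prod_primeFactors_of_squarefree hm] at h3
    exact h3
  rw [h1, ← F_mult.prodPrimeFactors_one_add_of_squarefree hm, h2, one_div, ← prod_inv_distrib]
  refine prod_congr rfl fun p hp => ?_
  have hp' := Nat.prime_of_mem_primeFactors hp
  have h3 : (2 : ℝ) ≤ p := by exact_mod_cast hp'.two_le
  have h4 := den_pos p hp'.two_le
  rw [F_apply hp'.ne_zero]
  unfold gd hh
  rw [hp'.primeFactors, prod_singleton, Nat.totient_prime hp', Nat.cast_sub hp'.one_le,
    Nat.cast_one]
  have h5 : (p : ℝ) - 1 ≠ 0 := by linarith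
  have h6 : (p : ℝ) ≠ 0 := by linarith
  have h7 := h4.ne'
  field_simp
  ring

private theorem gd_lcm {e e' : ℕ} (he : 1 ≤ e) (hs : Squarefree e) :
    gd (Nat.lcm e e') = gd e * gd e' * ∑ k ∈ (Nat.gcd e e').divisors, 1 / hh k := by
  have hg : 0 < Nat.gcd e e' := Nat.gcd_pos_of_pos_left _ (by omega)
  have hsg : Squarefree (Nat.gcd e e') := hs.squarefree_of_dvd (Nat.gcd_dvd_left e e')
  have h1 := G_mult.lcm_apply_mul_gcd_apply (x := e) (y := e')
  rw [G_apply, G_apply, G_apply, G_apply] at h1
  have h2 := (gd_pos (show 1 ≤ Nat.gcd e e' from hg)).ne'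
  rw [← gd_inv hsg, ← h1]
  field_simp

/-- `HH` is positive -/
private theorem Slq_pos (E : ℕ) (hE : 1 ≤ E) : 0 < HH E := by
  unfold HH
  refine sum_pos (fun i _ => hh_pos i) ⟨1, ?_⟩
  simp only [mem_filter, mem_Icc]
  exact ⟨⟨le_rfl, hE⟩, squarefree_one⟩

private theorem Slq_div (E e : ℕ) (he : 1 ≤ e) : lam E e * gd e =
    (1 / HH E) * ∑ l ∈ (Icc 1 E).filter Squarefree,
      (if e ∣ l then ((ArithmeticFunction.moebius e : ℤ) : ℝ) else 0) * hh l := by
  unfold lam
  have he0 := (gd_pos he).ne'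
  have h1 : (Icc 1 E).filter (fun k => Squarefree k ∧ e ∣ k) =
      ((Icc 1 E).filter Squarefree).filter (fun k => e ∣ k) := by
    ext k
    simp only [mem_filter, and_assoc]
  rw [h1, sum_filter]
  have h2 : ∀ l ∈ (Icc 1 E).filter Squarefree,
      (if e ∣ l then ((ArithmeticFunction.moebius e : ℤ) : ℝ) else 0) * hh l =
      ((ArithmeticFunction.moebius e : ℤ) : ℝ) * (if e ∣ l then hh l else 0) := by
    intro l _
    by_cases h : e ∣ l
    · simp [h]
    · simp [h]
  rw [sum_congr rfl h2, ← mul_sum]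
  field_simp

/-- the diagonal variables -/
private theorem Slq_z (E k : ℕ) (hk : k ∈ Icc 1 E) :
    ∑ e ∈ Icc 1 E, (if k ∣ e then lam E e * gd e else 0) =
      (1 / HH E) * (if Squarefree k then
        ((ArithmeticFunction.moebius k : ℤ) : ℝ) * hh k else 0) := by
  have h1 : ∀ e ∈ Icc 1 E, (if k ∣ e then lam E e * gd e else 0) =
      (1 / HH E) * ∑ l ∈ (Icc 1 E).filter Squarefree,
        (if k ∣ e ∧ e ∣ l then ((ArithmeticFunction.moebius e : ℤ) : ℝ) else 0) * hh l := by
    intro e he
    rw [mem_Icc] at he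
    by_cases h : k ∣ e
    · rw [if_pos h, Slq_div E e he.1]
      simp only [h, true_and]
    · rw [if_neg h]
      simp [h]
  rw [sum_congr rfl h1, ← mul_sum, sum_comm]
  congr 1
  have h2 : ∀ l ∈ (Icc 1 E).filter Squarefree,
      ∑ e ∈ Icc 1 E, (if k ∣ e ∧ e ∣ l then ((ArithmeticFunction.moebius e : ℤ) : ℝ) else 0) *
          hh l =
        (if l = k then ((ArithmeticFunction.moebius k : ℤ) : ℝ) else 0) * hh l := by
    intro l hl
    rw [← sum_mul]
    congr 1
    rw [mem_filter, mem_Icc] at hl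
    have h3 : (Icc 1 E).filter (fun e => k ∣ e ∧ e ∣ l) = l.divisors.filter (fun e => k ∣ e) := by
      ext e
      simp only [mem_filter, mem_Icc, Nat.mem_divisors]
      constructor
      · rintro ⟨_, h4, h5⟩
        exact ⟨⟨h5, by omega⟩, h4⟩
      · rintro ⟨⟨h4, h5⟩, h6⟩
        have h7 := Nat.le_of_dvd (by omega) h4
        have h8 : e ≠ 0 := by
          rintro rfl
          exact h5 (zero_dvd_iff.1 h4)
        exact ⟨⟨by omega, by omega⟩, h6, h4⟩
    rw [← sum_filter, h3]
    have h9 := Slq_inner l k hl.2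
    have h10 := congrArg (fun z : ℤ => (z : ℝ)) h9
    push_cast at h10
    rw [h10]
  rw [sum_congr rfl h2]
  by_cases hs : Squarefree k
  · rw [if_pos hs, sum_eq_single k]
    · rw [if_pos rfl]
    · intro l _ hne
      rw [if_neg hne, zero_mul]
    · intro h
      exact absurd (mem_filter.2 ⟨hk, hs⟩) h
  · rw [if_neg hs]
    apply sum_eq_zero
    intro l hl
    have : ¬ l = k := by
      rintro rfl
      exact hs (mem_filter.1 hl).2
    rw [if_neg this, zero_mul]

private theorem Slq_gcd (E e e' : ℕ) (he : e ∈ Icc 1 E) (_he' : e' ∈ Icc 1 E) :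
    lam E e * lam E e' * gd (Nat.lcm e e') =
      ∑ k ∈ Icc 1 E, (1 / hh k) * ((if k ∣ e then lam E e * gd e else 0) *
        (if k ∣ e' then lam E e' * gd e' else 0)) := by
  rw [mem_Icc] at he
  have h3 : ∀ k ∈ Icc 1 E, (1 / hh k) * ((if k ∣ e then lam E e * gd e else 0) *
        (if k ∣ e' then lam E e' * gd e' else 0)) =
      (lam E e * lam E e' * (gd e * gd e')) * (if k ∣ e ∧ k ∣ e' then 1 / hh k else 0) := by
    intro k _
    by_cases ha : k ∣ e
    · by_cases hb : k ∣ e'
      · simp only [ha, hb, if_true, and_self]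
        ring
      · simp [ha, hb]
    · simp [ha]
  rw [sum_congr rfl h3, ← mul_sum]
  by_cases hs : Squarefree e
  · have h1 : ∑ k ∈ (Nat.gcd e e').divisors, 1 / hh k =
        ∑ k ∈ Icc 1 E, if k ∣ e ∧ k ∣ e' then 1 / hh k else 0 := by
      have hg : 0 < Nat.gcd e e' := Nat.gcd_pos_of_pos_left _ (by omega)
      rw [← sum_filter]
      apply sum_congr _ (fun _ _ => rfl)
      ext k
      simp only [mem_filter, mem_Icc, Nat.mem_divisors]
      constructor
      · rintro ⟨h2, _⟩
        have h3 := h2.trans (Nat.gcd_dvd_left e e')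
        have h4 := h2.trans (Nat.gcd_dvd_right e e')
        have h5 := Nat.le_of_dvd (by omega) h3
        have h6 : k ≠ 0 := by
          rintro rfl
          have := zero_dvd_iff.1 h3
          omega
        exact ⟨⟨by omega, by omega⟩, h3, h4⟩
      · rintro ⟨_, h3, h4⟩
        exact ⟨Nat.dvd_gcd h3 h4, by omega⟩
    rw [gd_lcm he.1 hs, h1]
    ring
  · have h0 : lam E e = 0 := by
      unfold lam
      rw [ArithmeticFunction.moebius_eq_zero_of_not_squarefree hs]
      simp
    rw [h0]
    ring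

end E_Laq

open E_Laq in
theorem t_Laq : S_Laq := by
  intro E hE
  have hG := Slq_pos E hE
  have h1 : ∑ e ∈ Icc 1 E, ∑ e' ∈ Icc 1 E, lam E e * lam E e' * gd (Nat.lcm e e') =
      ∑ k ∈ Icc 1 E, (1 / hh k) *
        ((∑ e ∈ Icc 1 E, (if k ∣ e then lam E e * gd e else 0)) *
          (∑ e' ∈ Icc 1 E, (if k ∣ e' then lam E e' * gd e' else 0))) := by
    rw [sum_congr rfl fun e he => sum_congr rfl fun e' he' => Slq_gcd E e e' he he']
    have h2 : ∀ e ∈ Icc 1 E, ∑ e' ∈ Icc 1 E, ∑ k ∈ Icc 1 E, (1 / hh k) *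
        ((if k ∣ e then lam E e * gd e else 0) * (if k ∣ e' then lam E e' * gd e' else 0)) =
        ∑ k ∈ Icc 1 E, ∑ e' ∈ Icc 1 E, (1 / hh k) *
        ((if k ∣ e then lam E e * gd e else 0) * (if k ∣ e' then lam E e' * gd e' else 0)) :=
      fun e _ => sum_comm
    rw [sum_congr rfl h2, sum_comm]
    refine sum_congr rfl fun k _ => ?_
    rw [sum_mul_sum, mul_sum]
    refine sum_congr rfl fun e _ => ?_
    rw [mul_sum]
  rw [h1, sum_congr rfl fun k hk => by rw [Slq_z E k hk]]
  have h3 : ∀ k ∈ Icc 1 E, (1 / hh k) *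
      ((1 / HH E) * (if Squarefree k then
        ((ArithmeticFunction.moebius k : ℤ) : ℝ) * hh k else 0) *
      ((1 / HH E) * (if Squarefree k then
        ((ArithmeticFunction.moebius k : ℤ) : ℝ) * hh k else 0))) =
      (1 / HH E) ^ 2 * (if Squarefree k then hh k else 0) := by
    intro k hk
    by_cases hs : Squarefree k
    · simp only [if_pos hs]
      have h4 := (hh_pos k).ne'
      have h5 : ((ArithmeticFunction.moebius k : ℤ) : ℝ) ^ 2 = 1 := by
        have h6 := ArithmeticFunction.moebius_sq_eq_one_of_squarefree hs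
        have h7 := congrArg (fun z : ℤ => (z : ℝ)) h6
        push_cast at h7
        exact h7
      have h6 : (1 / hh k) * (1 / HH E * (((ArithmeticFunction.moebius k : ℤ) : ℝ) *
          hh k) * (1 / HH E * (((ArithmeticFunction.moebius k : ℤ) : ℝ) *
          hh k))) = (1 / HH E) ^ 2 *
          (((ArithmeticFunction.moebius k : ℤ) : ℝ) ^ 2 *
          (hh k * (1 / hh k)) * hh k) := by ring
      rw [h6, h5, mul_one_div_cancel h4]
      ring
    · simp only [if_neg hs]
      ring
  rw [sum_congr rfl h3, ← mul_sum, ← sum_filter]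
  have h4 : ∑ k ∈ (Icc 1 E).filter Squarefree, hh k = HH E := rfl
  rw [h4]
  field_simp

end Pool.Agent.Lib.MP_a260de_nt.CN3
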