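import Pool.Agent.Lib.MP_a260de_nt.CN3.SpecE

/-! Selberg's weights for the density φ(d)/d² are bounded by 1. -/

set_option autoImplicit false

namespace Pool.Agent.Lib.MP_a260de_nt.CN3

open Finset
open Pool.Agent.Lib.BV (cls cs prim nrm del SplStmt InjStmt TotStmt BlkStmt SwStmt)

private lemma Law_nonneg (d : ℕ) : 0 ≤ hh d := by
  unfold hh
  refine prod_nonneg fun p hp => ?_
  have h1 : (1 : ℝ) ≤ p := by exact_mod_cast (Nat.prime_of_mem_primeFactors hp).one_le
  have h2 : (0 : ℝ) < (p : ℝ) ^ 2 - p + 1 := by nlinarith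
  exact div_nonneg (by linarith) h2.le

private lemma Law_hh1 : hh 1 = 1 := by
  unfold hh
  simp

private lemma Law_pos (Δ : ℕ) (hΔ : 1 ≤ Δ) : 0 < HH Δ := by
  have h1 : hh 1 ≤ HH Δ := by
    unfold HH
    exact single_le_sum (f := hh) (fun k _ => Law_nonneg k)
      (mem_filter.2 ⟨mem_Icc.2 ⟨le_rfl, hΔ⟩, squarefree_one⟩)
  rw [Law_hh1] at h1
  linarith

private lemma Law_mul {m n : ℕ} (h : m.Coprime n) : hh (m * n) = hh m * hh n := by
  unfold hh
  rw [h.primeFactors_mul, prod_union h.disjoint_primeFactors]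

private lemma Law_gd (d : ℕ) (hd : 1 ≤ d) : 0 < gd d := by
  unfold gd
  have h1 : (0 : ℝ) < (d.totient : ℝ) := by exact_mod_cast Nat.totient_pos.2 hd
  have h2 : (0 : ℝ) < (d : ℝ) := by exact_mod_cast hd
  positivity

private lemma Law_tot (d : ℕ) (hd : Squarefree d) :
    (d.totient : ℝ) = ∏ p ∈ d.primeFactors, ((p : ℝ) - 1) := by
  have h1 := Nat.totient_mul_prod_primeFactors d
  rw [Nat.prod_primeFactors_of_squarefree hd, mul_comm] at h1
  have h2 := Nat.eq_of_mul_eq_mul_left (Nat.pos_of_ne_zero hd.ne_zero) h1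
  rw [h2, Nat.cast_prod]
  refine prod_congr rfl fun p hp => ?_
  rw [Nat.cast_sub (Nat.prime_of_mem_primeFactors hp).one_le, Nat.cast_one]

private lemma Law_quot (d : ℕ) (hd : Squarefree d) :
    (1 / gd d) * hh d = ∏ p ∈ d.primeFactors, (1 + ((p : ℝ) - 1) / ((p : ℝ) ^ 2 - p + 1)) := by
  have h1 : (d : ℝ) = ∏ p ∈ d.primeFactors, (p : ℝ) := by
    rw [← Nat.cast_prod, Nat.prod_primeFactors_of_squarefree hd]
  unfold gd hh
  rw [Law_tot d hd, h1, ← prod_pow, ← prod_div_distrib, one_div, ← prod_inv_distrib,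
    ← prod_mul_distrib]
  refine prod_congr rfl fun p hp => ?_
  have h2 : (2 : ℝ) ≤ p := by exact_mod_cast (Nat.prime_of_mem_primeFactors hp).two_le
  have h3 : (0 : ℝ) < (p : ℝ) ^ 2 - p + 1 := by nlinarith
  have h4 : (0 : ℝ) < (p : ℝ) - 1 := by linarith
  have h5 : (0 : ℝ) < (p : ℝ) := by linarith
  field_simp
  ring

private lemma Law_divs (d : ℕ) (hd : Squarefree d) :
    ∏ p ∈ d.primeFactors, (1 + ((p : ℝ) - 1) / ((p : ℝ) ^ 2 - p + 1)) =
      ∑ u ∈ d.divisors, hh u := by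
  have h1 := ArithmeticFunction.IsMultiplicative.prodPrimeFactors_one_add_of_squarefree
    (ArithmeticFunction.IsMultiplicative.prodPrimeFactors
      (fun p : ℕ => ((p : ℝ) - 1) / ((p : ℝ) ^ 2 - p + 1))) hd
  have h2 : ∀ u : ℕ, u ≠ 0 → (ArithmeticFunction.prodPrimeFactors
      (fun p : ℕ => ((p : ℝ) - 1) / ((p : ℝ) ^ 2 - p + 1))) u = hh u := by
    intro u hu
    rw [ArithmeticFunction.prodPrimeFactors_apply hu]
    rfl
  have h3 : ∏ p ∈ d.primeFactors, (1 + ((p : ℝ) - 1) / ((p : ℝ) ^ 2 - p + 1)) =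
      ∏ p ∈ d.primeFactors, (1 + (ArithmeticFunction.prodPrimeFactors
        (fun p : ℕ => ((p : ℝ) - 1) / ((p : ℝ) ^ 2 - p + 1))) p) := by
    refine prod_congr rfl fun p hp => ?_
    have hpp := Nat.prime_of_mem_primeFactors hp
    rw [h2 p hpp.ne_zero]
    unfold hh
    rw [hpp.primeFactors, prod_singleton]
  rw [h3, h1]
  refine sum_congr rfl fun u hu => ?_
  exact h2 u (Nat.pos_of_mem_divisors hu).ne'

private lemma Law_key (Δ d : ℕ) (hd : Squarefree d) :
    (1 / gd d) * ∑ k ∈ (Icc 1 Δ).filter (fun k => Squarefree k ∧ d ∣ k), hh k ≤ HH Δ := by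
  classical
  have he0 : 0 < d := Nat.pos_of_ne_zero hd.ne_zero
  set A := (Icc 1 Δ).filter (fun k => Squarefree k ∧ d ∣ k) with hA
  have hAm : ∀ k ∈ A, 1 ≤ k ∧ k ≤ Δ ∧ Squarefree k ∧ d ∣ k := by
    intro k hk
    have h := mem_filter.1 hk
    exact ⟨(mem_Icc.1 h.1).1, (mem_Icc.1 h.1).2, h.2.1, h.2.2⟩
  have hcop : ∀ k ∈ A, d.Coprime (k / d) := by
    intro k hk
    obtain ⟨_, _, hs, j, rfl⟩ := hAm k hk
    rw [Nat.mul_div_cancel_left j he0]
    exact Nat.coprime_of_squarefree_mul hs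
  have hk : ∀ k ∈ A, k = d * (k / d) := fun k hk => (Nat.mul_div_cancel' (hAm k hk).2.2.2).symm
  have hterm : ∀ k ∈ A, (1 / gd d) * hh k = ∑ l ∈ d.divisors, hh (l * (k / d)) := by
    intro k hkA
    have h1 : ∀ l ∈ d.divisors, hh (l * (k / d)) = hh l * hh (k / d) := by
      intro l hl
      exact Law_mul (Nat.Coprime.coprime_dvd_left (Nat.dvd_of_mem_divisors hl) (hcop k hkA))
    rw [sum_congr rfl h1, ← sum_mul, ← Law_divs d hd, ← Law_quot d hd]
    have h2 : hh k = hh d * hh (k / d) := by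
      conv_lhs => rw [hk k hkA]
      exact Law_mul (hcop k hkA)
    rw [h2]
    ring
  rw [mul_sum, sum_congr rfl hterm, ← sum_product']
  have hinj : Set.InjOn (fun x : ℕ × ℕ => x.2 * (x.1 / d)) (A ×ˢ d.divisors : Finset (ℕ × ℕ)) := by
    rintro ⟨k, l⟩ hx ⟨k', l'⟩ hx' heq
    have hx1 := mem_product.1 (mem_coe.1 hx)
    have hx2 := mem_product.1 (mem_coe.1 hx')
    simp only at hx1 hx2 heq
    have g1 : Nat.gcd (l * (k / d)) d = l := by
      rw [Nat.Coprime.gcd_mul_right_cancel l (hcop k hx1.1).symm]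
      exact Nat.gcd_eq_left (Nat.dvd_of_mem_divisors hx1.2)
    have g2 : Nat.gcd (l' * (k' / d)) d = l' := by
      rw [Nat.Coprime.gcd_mul_right_cancel l' (hcop k' hx2.1).symm]
      exact Nat.gcd_eq_left (Nat.dvd_of_mem_divisors hx2.2)
    have hl : l = l' := by rw [← g1, ← g2, heq]
    subst hl
    have hl0 : 0 < l := Nat.pos_of_dvd_of_pos (Nat.dvd_of_mem_divisors hx1.2) he0
    have h3 : k / d = k' / d := Nat.eq_of_mul_eq_mul_left hl0 heq
    have h4 : k = k' := by rw [hk k hx1.1, hk k' hx2.1, h3]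
    rw [h4]
  have himg : ∑ x ∈ A ×ˢ d.divisors, hh (x.2 * (x.1 / d)) =
      ∑ m ∈ (A ×ˢ d.divisors).image (fun x : ℕ × ℕ => x.2 * (x.1 / d)), hh m := by
    rw [sum_image hinj]
  rw [himg]
  unfold HH
  refine sum_le_sum_of_subset_of_nonneg ?_ (fun _ _ _ => Law_nonneg _)
  intro m hm
  obtain ⟨⟨k, l⟩, hx, rfl⟩ := mem_image.1 hm
  have hx1 := mem_product.1 hx
  simp only at hx1 ⊢
  have hld := Nat.dvd_of_mem_divisors hx1.2
  have hdvd : l * (k / d) ∣ k := by
    conv_rhs => rw [hk k hx1.1]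
    exact mul_dvd_mul_right hld _
  obtain ⟨h1, h2, h3, h4⟩ := hAm k hx1.1
  refine mem_filter.2 ⟨mem_Icc.2 ⟨?_, ?_⟩, ?_⟩
  · exact Nat.pos_of_dvd_of_pos hdvd h1
  · exact (Nat.le_of_dvd h1 hdvd).trans h2
  · exact h3.squarefree_of_dvd hdvd

theorem t_Law : S_Law := by
  intro Δ hΔ
  have hG := Law_pos Δ hΔ
  refine ⟨?_, fun d => ?_, fun d hd => ?_⟩
  · have h1 : ∑ k ∈ (Icc 1 Δ).filter (fun k => Squarefree k ∧ 1 ∣ k), hh k = HH Δ := by
      unfold HH
      refine sum_congr ?_ fun _ _ => rfl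
      ext k
      simp
    have h2 : gd 1 = 1 := by
      unfold gd
      simp
    unfold lam
    rw [h1, h2, ArithmeticFunction.moebius_apply_one, Int.cast_one, one_mul]
    field_simp
  · by_cases he : Squarefree d
    · have hkey := Law_key Δ d he
      have hmu : |((ArithmeticFunction.moebius d : ℤ) : ℝ)| = 1 := by
        have h := ArithmeticFunction.abs_moebius_eq_one_of_squarefree he
        exact_mod_cast h
      have hg := Law_gd d (Nat.pos_of_ne_zero he.ne_zero)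
      have hT : 0 ≤ ∑ k ∈ (Icc 1 Δ).filter (fun k => Squarefree k ∧ d ∣ k), hh k :=
        sum_nonneg fun _ _ => Law_nonneg _
      unfold lam
      rw [abs_mul, abs_div, hmu, abs_of_nonneg hT, abs_of_pos (mul_pos hg hG)]
      have h1 : 1 / (gd d * HH Δ) * ∑ k ∈ (Icc 1 Δ).filter (fun k => Squarefree k ∧ d ∣ k), hh k =
          ((1 / gd d) * ∑ k ∈ (Icc 1 Δ).filter (fun k => Squarefree k ∧ d ∣ k), hh k) / HH Δ := by
        field_simp
      rw [h1, div_le_one hG]
      exact hkey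
    · have h0 : ArithmeticFunction.moebius d = 0 :=
        ArithmeticFunction.moebius_eq_zero_of_not_squarefree he
      unfold lam
      rw [h0]
      simp
  · have hsq : Squarefree d := by
      by_contra he
      apply hd
      have h0 : ArithmeticFunction.moebius d = 0 :=
        ArithmeticFunction.moebius_eq_zero_of_not_squarefree he
      unfold lam
      rw [h0]
      simp
    refine ⟨hsq, Nat.pos_of_ne_zero hsq.ne_zero, ?_⟩
    by_contra hc
    apply hd
    unfold lam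
    have h0 : (Icc 1 Δ).filter (fun k => Squarefree k ∧ d ∣ k) = ∅ := by
      refine filter_eq_empty_iff.2 fun k hk hkd => ?_
      have h1 := (mem_Icc.1 hk)
      exact hc ((Nat.le_of_dvd h1.1 hkd.2).trans h1.2)
    rw [h0, sum_empty, mul_zero]

end Pool.Agent.Lib.MP_a260de_nt.CN3
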