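import Pool.Agent.Lib.MP_a260de_nt.CN3.SpecE

/-! Small conductors: primes in (E0, E1] against primitive characters (Siegel-Walfisz). -/

set_option autoImplicit false

namespace Pool.Agent.Lib.MP_a260de_nt.CN3

open Finset
open Pool.Agent.Lib.BV (cls cs prim nrm del SplStmt InjStmt TotStmt BlkStmt SwStmt)

private lemma Low_split (E0 E1 e q : ℕ) (χ : DirichletCharacter ℂ q) (h01 : E0 ≤ E1) :
    cs (ae E0 E1) E1 e χ = ∑ p ∈ (Icc 1 E1).filter Nat.Prime, χ (p : ZMod q) -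
      ∑ p ∈ (Icc 1 E0).filter Nat.Prime, χ (p : ZMod q) -
      ∑ p ∈ (Ep E0 E1).filter (fun p => ¬ p.Coprime e), χ (p : ZMod q) := by
  classical
  have h1 : cs (ae E0 E1) E1 e χ =
      ∑ p ∈ (Ep E0 E1).filter (fun p => p.Coprime e), χ (p : ZMod q) := by
    unfold cs ae
    simp only [ite_mul, one_mul, zero_mul]
    rw [← sum_filter]
    refine sum_congr ?_ fun _ _ => rfl
    ext m
    simp only [mem_filter, mem_Icc, Ep, mem_Ioc]
    constructor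
    · rintro ⟨⟨_, h2⟩, h3⟩
      exact ⟨h3, h2⟩
    · rintro ⟨h3, h2⟩
      exact ⟨⟨⟨h3.2.one_le, h3.1.2⟩, h2⟩, h3⟩
  have h2 := sum_filter_add_sum_filter_not (Ep E0 E1) (fun p => p.Coprime e)
    (fun p => χ (p : ZMod q))
  have h3 : (Icc 1 E1).filter Nat.Prime = (Icc 1 E0).filter Nat.Prime ∪ Ep E0 E1 := by
    ext m
    simp only [mem_filter, mem_Icc, Ep, mem_Ioc, mem_union]
    constructor
    · rintro ⟨⟨h4, h5⟩, h6⟩
      by_cases h7 : m ≤ E0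
      · exact Or.inl ⟨⟨h4, h7⟩, h6⟩
      · exact Or.inr ⟨⟨by omega, h5⟩, h6⟩
    · rintro (⟨⟨h4, h5⟩, h6⟩ | ⟨⟨h4, h5⟩, h6⟩)
      · exact ⟨⟨h4, by omega⟩, h6⟩
      · exact ⟨⟨h6.one_le, h5⟩, h6⟩
  have h4 : Disjoint ((Icc 1 E0).filter Nat.Prime) (Ep E0 E1) := by
    rw [disjoint_left]
    intro m hm hm'
    have h5 := (mem_Icc.1 (mem_filter.1 hm).1).2
    have h6 := (mem_Ioc.1 (mem_filter.1 hm').1).1
    omega
  rw [h1, h3, sum_union h4, ← h2]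
  ring

private lemma Low_card (E0 E1 e n : ℕ) (ρ : ℝ) (hρ : 0 < ρ) (hn : 2 ≤ n)
    (hE : (n : ℝ) ^ ρ ≤ (E0 : ℝ)) (he : 1 ≤ e) (hen : e ≤ n) :
    (((Ep E0 E1).filter (fun p => ¬ p.Coprime e)).card : ℝ) ≤ 1 / ρ := by
  classical
  set T := (Ep E0 E1).filter (fun p => ¬ p.Coprime e) with hT
  have hp : ∀ p ∈ T, p.Prime ∧ E0 < p ∧ p ∣ e := by
    intro p hp
    have h1 := mem_filter.1 hp
    have h2 := mem_filter.1 h1.1
    refine ⟨h2.2, (mem_Ioc.1 h2.1).1, ?_⟩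
    by_contra h3
    exact h1.2 ((Nat.Prime.coprime_iff_not_dvd h2.2).2 h3)
  have h1 : ∏ p ∈ T, p ∣ e :=
    Finset.prod_primes_dvd e (fun p h => (hp p h).1.prime) (fun p h => (hp p h).2.2)
  have h2 : ∏ p ∈ T, p ≤ n := (Nat.le_of_dvd he h1).trans hen
  have h3 : E0 ^ T.card ≤ ∏ p ∈ T, p := by
    rw [← prod_const]
    exact prod_le_prod' fun p h => (hp p h).2.1.le
  have h4 : ((n : ℝ) ^ ρ) ^ T.card ≤ (n : ℝ) ^ (1 : ℝ) := by
    rw [Real.rpow_one]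
    have h5 : ((n : ℝ) ^ ρ) ^ T.card ≤ (E0 : ℝ) ^ T.card :=
      pow_le_pow_left₀ (by positivity) hE _
    have h6 : (E0 : ℝ) ^ T.card ≤ (n : ℝ) := by exact_mod_cast h3.trans h2
    exact h5.trans h6
  have hn1 : (1 : ℝ) < (n : ℝ) := by exact_mod_cast hn
  rw [← Real.rpow_natCast, ← Real.rpow_mul (by linarith),
    Real.rpow_le_rpow_left_iff hn1] at h4
  rw [le_div_iff₀ hρ]
  linarith

theorem t_Low (h1 : SwStmt) : S_Low := by
  intro A B ρ hA hB hρ hρ1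
  obtain ⟨C1, hC1, hSw⟩ := h1 A (B + 1) hA (by linarith)
  have hcast := tendsto_natCast_atTop_atTop (R := ℝ)
  have e1 : ∀ᶠ n : ℕ in Filter.atTop, (3 : ℝ) ≤ (n : ℝ) ^ ρ :=
    ((tendsto_rpow_atTop hρ).comp hcast).eventually_ge_atTop 3
  have e2 : ∀ᶠ n : ℕ in Filter.atTop, 1 / ρ ^ (B + 1) ≤ Real.log n :=
    (Real.tendsto_log_atTop.comp hcast).eventually_ge_atTop _
  have e3 : ∀ᶠ n : ℕ in Filter.atTop, 1 ≤ Real.log n :=
    (Real.tendsto_log_atTop.comp hcast).eventually_ge_atTop _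
  have e4 : ∀ᶠ n : ℕ in Filter.atTop, (Real.log n) ^ A ≤ ρ * (n : ℝ) ^ ρ := by
    have h := hcast.eventually ((isLittleO_log_rpow_rpow_atTop A hρ).def hρ)
    filter_upwards [h, e3] with n hn h3
    rw [Real.norm_of_nonneg (Real.rpow_nonneg (by linarith) _),
      Real.norm_of_nonneg (Real.rpow_nonneg (Nat.cast_nonneg n) _)] at hn
    exact hn
  obtain ⟨n0, hn0⟩ := Filter.eventually_atTop.mp (e1.and (e2.and (e3.and e4)))
  have hρA : 0 < ρ ^ A := Real.rpow_pos_of_pos hρ A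
  refine ⟨3 * C1 / ρ ^ A + 1, n0, by positivity, ?_⟩
  intro n E0 E1 e q hn h01 h10 hρE hE1n he1 hen hq hqB χ hχ
  obtain ⟨f1, f2, f3, f4⟩ := hn0 n hn
  have hE0 : (3 : ℝ) ≤ (E0 : ℝ) := f1.trans hρE
  have h01' : (E0 : ℝ) < (E1 : ℝ) := by exact_mod_cast h01
  have h10' : (E1 : ℝ) ≤ 2 * (E0 : ℝ) := by exact_mod_cast h10
  have hE1 : (3 : ℝ) ≤ (E1 : ℝ) := by linarith
  have hnE : (3 : ℝ) ≤ (n : ℝ) := hE1.trans (by exact_mod_cast hE1n)
  have hn2 : 2 ≤ n := by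
    have h : (2 : ℝ) ≤ (n : ℝ) := by linarith
    exact_mod_cast h
  have hn0' : (0 : ℝ) < (n : ℝ) := by linarith
  set L := Real.log n with hL
  have hL0 : 0 < L := by linarith
  have hρL : 0 < ρ * L := mul_pos hρ hL0
  have hlog0 : ρ * L ≤ Real.log E0 := by
    rw [hL, ← Real.log_rpow hn0']
    exact Real.log_le_log (by positivity) hρE
  have hlog1 : ρ * L ≤ Real.log E1 :=
    hlog0.trans (Real.log_le_log (by linarith) h01'.le)
  have hq' : (q : ℝ) ≤ (ρ * L) ^ (B + 1) := by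
    refine hqB.trans ?_
    rw [Real.mul_rpow hρ.le hL0.le, Real.rpow_add_one hL0.ne']
    have h2 : 0 < ρ ^ (B + 1) := Real.rpow_pos_of_pos hρ _
    have h3 : 1 ≤ L * ρ ^ (B + 1) := by
      rw [div_le_iff₀ h2] at f2
      exact f2
    have h4 : 0 ≤ L ^ B := Real.rpow_nonneg hL0.le _
    calc L ^ B = 1 * L ^ B := (one_mul _).symm
      _ ≤ (L * ρ ^ (B + 1)) * L ^ B := mul_le_mul_of_nonneg_right h3 h4
      _ = ρ ^ (B + 1) * (L ^ B * L) := by ring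
  have hB1 : 0 ≤ B + 1 := by linarith
  have s1 := hSw E1 q χ hE1 hq (hq'.trans (Real.rpow_le_rpow hρL.le hlog1 hB1)) hχ
  have s0 := hSw E0 q χ hE0 hq (hq'.trans (Real.rpow_le_rpow hρL.le hlog0 hB1)) hχ
  rw [Nat.floor_natCast] at s1 s0
  have s2 : ‖∑ p ∈ (Ep E0 E1).filter (fun p => ¬ p.Coprime e), χ (p : ZMod q)‖ ≤ 1 / ρ := by
    refine (norm_sum_le_of_le _ (fun p _ => DirichletCharacter.norm_le_one χ _)).trans ?_
    rw [sum_const, nsmul_eq_mul, mul_one]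
    exact Low_card E0 E1 e n ρ hρ hn2 hρE he1 hen
  have hLA : 0 < L ^ A := Real.rpow_pos_of_pos hL0 A
  have hden : ρ ^ A * L ^ A = (ρ * L) ^ A := (Real.mul_rpow hρ.le hL0.le).symm
  have hbd : ∀ x : ℝ, 3 ≤ x → ρ * L ≤ Real.log x → x / (Real.log x) ^ A ≤ x / (ρ ^ A * L ^ A) := by
    intro x hx hlx
    apply div_le_div_of_nonneg_left (by linarith) (by positivity)
    rw [hden]
    exact Real.rpow_le_rpow hρL.le hlx hA.le
  have b1 : C1 * ((E1 : ℝ) / (Real.log E1) ^ A) ≤ C1 * (2 * (E0 : ℝ) / (ρ ^ A * L ^ A)) := by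
    apply mul_le_mul_of_nonneg_left _ hC1.le
    refine (hbd _ hE1 hlog1).trans ?_
    exact div_le_div_of_nonneg_right h10' (by positivity)
  have b0 : C1 * ((E0 : ℝ) / (Real.log E0) ^ A) ≤ C1 * ((E0 : ℝ) / (ρ ^ A * L ^ A)) :=
    mul_le_mul_of_nonneg_left (hbd _ hE0 hlog0) hC1.le
  have b2 : 1 / ρ ≤ (E0 : ℝ) / L ^ A := by
    rw [le_div_iff₀ hLA, one_div, inv_mul_le_iff₀ hρ]
    exact f4.trans (mul_le_mul_of_nonneg_left hρE hρ.le)
  rw [Low_split E0 E1 e q χ h01.le]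
  refine (norm_sub_le _ _).trans ?_
  have t1 := norm_sub_le (∑ p ∈ (Icc 1 E1).filter Nat.Prime, χ (p : ZMod q))
    (∑ p ∈ (Icc 1 E0).filter Nat.Prime, χ (p : ZMod q))
  have t2 : (3 * C1 / ρ ^ A + 1) * ((E0 : ℝ) / L ^ A) =
      C1 * (2 * (E0 : ℝ) / (ρ ^ A * L ^ A)) + C1 * ((E0 : ℝ) / (ρ ^ A * L ^ A)) +
        (E0 : ℝ) / L ^ A := by
    field_simp
    ring
  rw [t2]
  linarith

end Pool.Agent.Lib.MP_a260de_nt.CN3
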