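import Pool.Agent.Lib.MP_a260de_nt.CN3.SpecE

/-!
MP_a260de_nt, PROJECT CN3, part E, module Nrb: bounds of the norms.
-/

set_option autoImplicit false

namespace Pool.Agent.Lib.MP_a260de_nt.CN3

open Finset
open Pool.Agent.Lib.BV (cls cs prim nrm del SplStmt InjStmt TotStmt BlkStmt SwStmt)

theorem t_Nrb (h1 : S_Tau) (h2 : S_Bmt) : S_Nrb := by
  refine ⟨?_, ?_, ?_⟩
  · intro ρ n Y K N hρ hn hY hNn hN
    have hn1 : (1 : ℝ) ≤ n := by exact_mod_cast (by omega : 1 ≤ n)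
    have hN1 : (1 : ℝ) ≤ N := by exact_mod_cast hN
    have hln : 0 ≤ Real.log n := Real.log_nonneg hn1
    have hlN : 0 ≤ Real.log N := Real.log_nonneg hN1
    have hlNn : Real.log N ≤ Real.log n :=
      Real.log_le_log (by linarith) (by exact_mod_cast hNn)
    rw [nrm]
    apply Real.sqrt_le_iff.2
    refine ⟨by positivity, ?_⟩
    have h3 : ∀ m ∈ Icc 1 N, ‖bc Y K N m‖ ^ 2 ≤
        (1 / ρ) ^ 2 * ((m.divisors.card : ℕ) : ℝ) ^ 2 := by
      intro m hm
      rw [mem_Icc] at hm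
      have h4 : ‖bc Y K N m‖ = (bm Y K N m : ℝ) := by
        rw [bc, Complex.norm_natCast]
      rw [h4, ← mul_pow]
      exact pow_le_pow_left₀ (Nat.cast_nonneg _) (h2 ρ n Y K N m hρ hn hY hNn hm.1 hm.2) 2
    have h5 : (1 + Real.log N) ^ 3 ≤ (1 + Real.log n) ^ 4 := by
      calc (1 + Real.log N) ^ 3 ≤ (1 + Real.log n) ^ 3 :=
            pow_le_pow_left₀ (by linarith) (by linarith) 3
        _ ≤ (1 + Real.log n) ^ 4 := pow_le_pow_right₀ (by linarith) (by norm_num)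
    calc ∑ m ∈ Icc 1 N, ‖bc Y K N m‖ ^ 2 ≤
        ∑ m ∈ Icc 1 N, (1 / ρ) ^ 2 * ((m.divisors.card : ℕ) : ℝ) ^ 2 := sum_le_sum h3
      _ = (1 / ρ) ^ 2 * ∑ m ∈ Icc 1 N, ((m.divisors.card : ℕ) : ℝ) ^ 2 := by rw [mul_sum]
      _ ≤ (1 / ρ) ^ 2 * ((N : ℝ) * (1 + Real.log N) ^ 3) :=
          mul_le_mul_of_nonneg_left (h1 N hN) (by positivity)
      _ ≤ (1 / ρ) ^ 2 * ((N : ℝ) * (1 + Real.log n) ^ 4) :=
          mul_le_mul_of_nonneg_left (mul_le_mul_of_nonneg_left h5 (by positivity)) (by positivity)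
      _ = (1 / ρ * Real.sqrt N * (1 + Real.log n) ^ 2) ^ 2 := by
          rw [mul_pow, mul_pow, Real.sq_sqrt (by positivity)]
          ring
  · intro b N e q χ
    have h3 : ‖cs b N e χ‖ ≤ ∑ m ∈ Icc 1 N, ‖b m‖ := by
      rw [cs]
      refine le_trans (norm_sum_le _ _) ?_
      refine le_trans (sum_le_sum_of_subset_of_nonneg (filter_subset _ _)
        fun m _ _ => norm_nonneg _) ?_
      refine sum_le_sum fun m _ => ?_
      rw [norm_mul]
      exact mul_le_of_le_one_right (norm_nonneg _) (DirichletCharacter.norm_le_one χ _)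
    refine le_trans h3 ?_
    rw [nrm, ← Real.sqrt_mul (Nat.cast_nonneg _)]
    apply Real.le_sqrt_of_sq_le
    have h4 := sq_sum_le_card_mul_sum_sq (s := Icc 1 N) (f := fun m => ‖b m‖)
    rw [Nat.card_Icc, Nat.add_sub_cancel] at h4
    exact h4
  · intro E0 E1 hE
    rw [nrm]
    apply Real.sqrt_le_sqrt
    have h3 : ∀ m ∈ Icc 1 E1, ‖ae E0 E1 m‖ ^ 2 = if m ∈ Ep E0 E1 then (1 : ℝ) else 0 := by
      intro m _
      rw [ae]
      split_ifs
      · rw [norm_one, one_pow]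
      · rw [norm_zero]
        norm_num
    rw [sum_congr rfl h3, sum_boole]
    have h4 : ((Icc 1 E1).filter (fun m => m ∈ Ep E0 E1)).card ≤ E0 := by
      refine le_trans (card_le_card (t := Ioc E0 E1) ?_) ?_
      · intro m hm
        rw [mem_filter, Ep, mem_filter] at hm
        exact hm.2.1
      · rw [Nat.card_Ioc]
        omega
    exact_mod_cast h4

end Pool.Agent.Lib.MP_a260de_nt.CN3
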