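import Pool.Agent.Lib.MP_a260de_nt.CN3.SpecE

/-!
MP_a260de_nt, PROJECT CN, part A strong version: 3^ω(q) ≤ C q^ε.
-/

set_option autoImplicit false

namespace Pool.Agent.Lib.MP_a260de_nt.CN3

open Finset

theorem t_Om3 : S_Om3 := by
  intro ε hε
  set P0 := ⌈(3 : ℝ) ^ (1 / ε)⌉₊ with hP0
  refine ⟨3 ^ P0, one_le_pow₀ (by norm_num), fun q hq => ?_⟩
  have hq0 : q ≠ 0 := by omega
  -- large primes
  have hbig : ∀ p : ℕ, P0 ≤ p → (3 : ℝ) ≤ (p : ℝ) ^ ε := by
    intro p hp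
    have h1 : (3 : ℝ) ^ (1 / ε) ≤ p := (Nat.le_ceil _).trans (by exact_mod_cast hp)
    calc (3 : ℝ) = ((3 : ℝ) ^ (1 / ε)) ^ ε := by
          rw [← Real.rpow_mul (by norm_num), one_div_mul_cancel hε.ne', Real.rpow_one]
      _ ≤ (p : ℝ) ^ ε := Real.rpow_le_rpow (by positivity) h1 hε.le
  have h1 : (3 : ℝ) ^ om q = ∏ _p ∈ q.primeFactors, (3 : ℝ) := by
    rw [prod_const]; rfl
  have h2 : ∏ _p ∈ q.primeFactors, (3 : ℝ) ≤
      ∏ p ∈ q.primeFactors, (if p < P0 then (3 : ℝ) else 1) * (p : ℝ) ^ ε := by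
    apply prod_le_prod (fun _ _ => by norm_num)
    intro p hp
    have hp1 : (1 : ℝ) ≤ p := by exact_mod_cast (Nat.prime_of_mem_primeFactors hp).one_lt.le
    have hpe : 1 ≤ (p : ℝ) ^ ε := Real.one_le_rpow hp1 hε.le
    split_ifs with h
    · linarith
    · rw [one_mul]
      exact hbig p (not_lt.1 h)
  have h3 : ∏ p ∈ q.primeFactors, (if p < P0 then (3 : ℝ) else 1) ≤ 3 ^ P0 := by
    rw [← prod_filter, prod_const]
    apply pow_le_pow_right₀ (by norm_num)
    calc (q.primeFactors.filter (fun p => p < P0)).card ≤ (range P0).card := by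
          apply card_le_card
          intro p hp
          rw [mem_filter] at hp
          exact mem_range.2 hp.2
      _ = P0 := card_range _
  have h4 : ∏ p ∈ q.primeFactors, (p : ℝ) ^ ε ≤ (q : ℝ) ^ ε := by
    rw [Real.finsetProd_rpow _ _ (fun p _ => Nat.cast_nonneg p)]
    apply Real.rpow_le_rpow (prod_nonneg fun p _ => Nat.cast_nonneg p) _ hε.le
    have : ∏ p ∈ q.primeFactors, p ≤ q :=
      Nat.le_of_dvd (by omega) (Nat.prod_primeFactors_dvd q)
    rw [← Nat.cast_prod]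
    exact Nat.cast_le.2 this
  rw [h1]
  refine h2.trans ?_
  rw [prod_mul_distrib]
  exact mul_le_mul h3 h4 (prod_nonneg fun p _ => Real.rpow_nonneg (Nat.cast_nonneg p) _)
    (by positivity)

end Pool.Agent.Lib.MP_a260de_nt.CN3
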