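import Pool.Agent.Lib.MP_a260de_nt.CN3.SpecE

/-!
MP_a260de_nt, PROJECT CN3, part E, module Rad: numbers with given prime factors (helper34).
-/

set_option autoImplicit false

namespace Pool.Agent.Lib.MP_a260de_nt.CN3

open Finset
open Pool.Agent.Lib.BV (cls cs prim nrm del SplStmt InjStmt TotStmt BlkStmt SwStmt)

private lemma rad_geom {q : ℝ} (h0 : 0 ≤ q) (h1 : q < 1) (N : ℕ) :
    ∑ i ∈ Icc 1 N, q ^ i ≤ q / (1 - q) := by
  have e1 : ∑ i ∈ Icc 1 N, q ^ i = q * ∑ i ∈ range N, q ^ i := by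
    rw [mul_sum]
    refine (sum_nbij (fun i => i + 1) ?_ ?_ ?_ ?_).symm
    · intro i hi
      simp only [mem_range] at hi
      simp only [mem_Icc]
      omega
    · intro i _ j _ h
      simpa using h
    · intro j hj
      simp only [coe_Icc, Set.mem_Icc] at hj
      exact ⟨j - 1, by simp only [coe_range, Set.mem_Iio]; omega, by simp only []; omega⟩
    · intro i _
      rw [pow_succ]; ring
  rw [e1, div_eq_mul_inv]
  refine mul_le_mul_of_nonneg_left ?_ h0
  rw [← tsum_geometric_of_lt_one h0 h1]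
  exact (summable_geometric_of_lt_one h0 h1).sum_le_tsum _ fun i _ => pow_nonneg h0 i

theorem t_Rad : S_Rad := by
  intro F P T hF hP hT
  set N : ℕ := T.sup id with hN
  have hFP : ∀ i : {p // p ∈ P}, 0 ≤ F i ∧ F i < 1 := fun i => hF i (hP i i.2)
  set g : ℕ → ({p // p ∈ P} → ℕ) := fun b i => b.factorization i with hg
  set G : ({p // p ∈ P} → ℕ) → ℝ := fun x => ∏ i : {p // p ∈ P}, F i ^ x i with hG
  have hcm : ∀ b ∈ T, cm F b = G (g b) := by
    intro b hb
    rw [cm, (hT b hb).2, hG, hg]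
    exact (prod_coe_sort P fun p => F p ^ b.factorization p).symm
  have hinj : Set.InjOn g T := by
    intro b hb b' hb' h
    refine Nat.eq_of_factorization_eq (hT b hb).1 (hT b' hb').1 fun p => ?_
    by_cases hp : p ∈ P
    · exact congrFun h ⟨p, hp⟩
    · have h1 : p ∉ b.primeFactors := by rw [(hT b hb).2]; exact hp
      have h2 : p ∉ b'.primeFactors := by rw [(hT b' hb').2]; exact hp
      rw [← Nat.support_factorization, Finsupp.notMem_support_iff] at h1 h2
      rw [h1, h2]
  have hsub : T.image g ⊆ Fintype.piFinset fun _ : {p // p ∈ P} => Icc 1 N := by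
    intro x hx
    obtain ⟨b, hb, rfl⟩ := mem_image.1 hx
    rw [Fintype.mem_piFinset]
    intro i
    rw [mem_Icc]
    constructor
    · have h1 : (i : ℕ) ∈ b.factorization.support := by
        rw [Nat.support_factorization, (hT b hb).2]; exact i.2
      exact Nat.one_le_iff_ne_zero.2 (Finsupp.mem_support_iff.1 h1)
    · have h1 : b.factorization i < b := Nat.factorization_lt _ (hT b hb).1
      have h2 : b ≤ N := le_sup (f := id) hb
      exact h1.le.trans h2
  calc ∑ b ∈ T, cm F b = ∑ b ∈ T, G (g b) := sum_congr rfl hcm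
    _ = ∑ x ∈ T.image g, G x := (sum_image hinj).symm
    _ ≤ ∑ x ∈ Fintype.piFinset fun _ : {p // p ∈ P} => Icc 1 N, G x :=
      sum_le_sum_of_subset_of_nonneg hsub fun x _ _ =>
        prod_nonneg fun (i : {p // p ∈ P}) _ => pow_nonneg (hFP i).1 _
    _ = ∏ i : {p // p ∈ P}, ∑ j ∈ Icc 1 N, F i ^ j :=
      (prod_univ_sum (fun _ : {p // p ∈ P} => Icc 1 N) fun i j => F i ^ j).symm
    _ ≤ ∏ i : {p // p ∈ P}, F i / (1 - F i) :=
      prod_le_prod (fun i _ => sum_nonneg fun j _ => pow_nonneg (hFP i).1 _)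
        fun i _ => rad_geom (hFP i).1 (hFP i).2 N
    _ = ∏ p ∈ P, F p / (1 - F p) := prod_coe_sort P fun p => F p / (1 - F p)

end Pool.Agent.Lib.MP_a260de_nt.CN3
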