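import Pool.Agent.Lib.MP_a260de_nt.CN3.SpecE

/-!
# MP_a260de_nt, project CN3, part E: `S_Sel` (Selberg's weights)
-/

set_option autoImplicit false

namespace Pool.Agent.Lib.MP_a260de_nt.CN3

open Finset
open Pool.Agent.Lib.BV (cls cs prim nrm del SplStmt InjStmt TotStmt BlkStmt SwStmt)

/-- Selberg's weights. -/
theorem t_Sel (h1 : S_Law) (h2 : S_Laq) : S_Sel := fun Δ hΔ =>
  ⟨lam Δ, (h1 Δ hΔ).1, (h1 Δ hΔ).2.1, (h1 Δ hΔ).2.2, h2 Δ hΔ⟩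

end Pool.Agent.Lib.MP_a260de_nt.CN3
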