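import Pool.Agent.Lib.MP_a260de_nt.CN3.SpecE

/-!
MP_a260de_nt, PROJECT CN3, part E, module Tau: the mean square of the divisor function.
-/

set_option autoImplicit false

namespace Pool.Agent.Lib.MP_a260de_nt.CN3

open Finset

private theorem E_Tau_sum (F : ℕ → ℕ → ℝ) (N : ℕ) :
    ∑ m ∈ Icc 1 N, ∑ w ∈ m.divisorsAntidiagonal, F w.1 w.2 =
      ∑ a ∈ Icc 1 N, ∑ k ∈ Icc 1 (N / a), F a k := by
  rw [Finset.sum_sigma', Finset.sum_sigma']
  refine Finset.sum_bij' (fun x _ => ⟨x.2.1, x.2.2⟩) (fun y _ => ⟨y.1 * y.2, (y.1, y.2)⟩)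
    ?_ ?_ ?_ ?_ ?_
  · rintro ⟨m, a, k⟩ h
    simp only [Finset.mem_sigma, Finset.mem_Icc, Nat.mem_divisorsAntidiagonal] at h ⊢
    obtain ⟨⟨h1, h2⟩, h3, h4⟩ := h
    subst h3
    have ha : 0 < a := Nat.pos_of_ne_zero fun h => h4 (by rw [h, zero_mul])
    have hk : 0 < k := Nat.pos_of_ne_zero fun h => h4 (by rw [h, mul_zero])
    refine ⟨⟨ha, (Nat.le_mul_of_pos_right a hk).trans h2⟩, hk, ?_⟩
    rw [Nat.le_div_iff_mul_le ha, mul_comm]
    exact h2
  · rintro ⟨a, k⟩ h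
    simp only [Finset.mem_sigma, Finset.mem_Icc, Nat.mem_divisorsAntidiagonal] at h ⊢
    obtain ⟨⟨h1, h2⟩, h3, h4⟩ := h
    rw [Nat.le_div_iff_mul_le h1, mul_comm] at h4
    have : 0 < a * k := Nat.mul_pos h1 h3
    exact ⟨⟨this, h4⟩, trivial, this.ne'⟩
  · rintro ⟨m, a, k⟩ h
    simp only [Finset.mem_sigma, Finset.mem_Icc, Nat.mem_divisorsAntidiagonal] at h
    obtain ⟨_, h3, _⟩ := h
    subst h3
    rfl
  · rintro ⟨a, k⟩ _
    rfl
  · rintro ⟨m, a, k⟩ _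
    rfl

private theorem E_Tau_card (m : ℕ) :
    (m.divisors.card : ℝ) = ∑ _w ∈ m.divisorsAntidiagonal, (1 : ℝ) := by
  rw [Nat.sum_divisorsAntidiagonal (fun _ _ => (1 : ℝ)), Finset.sum_const, nsmul_eq_mul, mul_one]

private theorem E_Tau_harm (N : ℕ) : ∑ a ∈ Icc 1 N, 1 / (a : ℝ) ≤ 1 + Real.log N := by
  have h2 := harmonic_le_one_add_log N
  rw [harmonic_eq_sum_Icc] at h2
  push_cast at h2
  refine le_trans (le_of_eq ?_) h2
  refine Finset.sum_congr rfl fun a _ => ?_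
  rw [one_div]

private theorem E_Tau_one (x : ℕ) :
    ∑ k ∈ Icc 1 x, (k.divisors.card : ℝ) ≤ x * (1 + Real.log x) := by
  have h1 : ∑ k ∈ Icc 1 x, (k.divisors.card : ℝ) =
      ∑ a ∈ Icc 1 x, ∑ _k ∈ Icc 1 (x / a), (1 : ℝ) := by
    rw [← E_Tau_sum (fun _ _ => (1 : ℝ)) x]
    exact Finset.sum_congr rfl fun m _ => E_Tau_card m
  rw [h1]
  refine le_trans (Finset.sum_le_sum (g := fun a : ℕ => (x : ℝ) * (1 / (a : ℝ)))
    fun a _ => ?_) ?_
  · rw [Finset.sum_const, nsmul_eq_mul, mul_one, Nat.card_Icc, Nat.add_sub_cancel, mul_one_div]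
    exact Nat.cast_div_le
  · rw [← Finset.mul_sum]
    exact mul_le_mul_of_nonneg_left (E_Tau_harm x) (Nat.cast_nonneg x)

private theorem E_Tau_inv (N : ℕ) :
    ∑ m ∈ Icc 1 N, (m.divisors.card : ℝ) * (1 / (m : ℝ)) ≤ (1 + Real.log N) ^ 2 := by
  have h1 : ∑ m ∈ Icc 1 N, (m.divisors.card : ℝ) * (1 / (m : ℝ)) =
      ∑ a ∈ Icc 1 N, ∑ k ∈ Icc 1 (N / a), 1 / (a : ℝ) * (1 / (k : ℝ)) := by
    rw [← E_Tau_sum (fun a k => 1 / (a : ℝ) * (1 / (k : ℝ))) N]
    refine Finset.sum_congr rfl fun m _ => ?_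
    rw [E_Tau_card, Finset.sum_mul]
    refine Finset.sum_congr rfl fun w hw => ?_
    rw [Nat.mem_divisorsAntidiagonal] at hw
    rw [← hw.1, one_mul]
    push_cast
    rw [one_div_mul_one_div]
  have h0 : 0 ≤ ∑ a ∈ Icc 1 N, 1 / (a : ℝ) := Finset.sum_nonneg fun a _ => by positivity
  refine le_trans ?_ (pow_le_pow_left₀ h0 (E_Tau_harm N) 2)
  rw [h1, sq, Finset.sum_mul]
  refine Finset.sum_le_sum fun a _ => ?_
  rw [← Finset.mul_sum]
  apply mul_le_mul_of_nonneg_left _ (by positivity)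
  apply Finset.sum_le_sum_of_subset_of_nonneg
  · exact Finset.Icc_subset_Icc_right (Nat.div_le_self N a)
  · intro k _ _
    positivity

private theorem E_Tau_sub (a k : ℕ) :
    (((a * k).divisors.card : ℕ) : ℝ) ≤ (a.divisors.card : ℝ) * (k.divisors.card : ℝ) := by
  rw [Nat.divisors_mul]
  exact_mod_cast Finset.card_mul_le

theorem t_Tau : S_Tau := by
  intro N hN
  have hN0 : (0 : ℝ) < N := by exact_mod_cast hN
  have hlog : 0 ≤ Real.log N := Real.log_nonneg (by exact_mod_cast hN)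
  have h1 : ∑ m ∈ Icc 1 N, ((m.divisors.card : ℕ) : ℝ) ^ 2 ≤
      ∑ a ∈ Icc 1 N, ∑ k ∈ Icc 1 (N / a), (a.divisors.card : ℝ) * (k.divisors.card : ℝ) := by
    rw [← E_Tau_sum (fun a k => (a.divisors.card : ℝ) * (k.divisors.card : ℝ)) N]
    refine Finset.sum_le_sum fun m _ => ?_
    rw [sq]
    nth_rewrite 1 [E_Tau_card m]
    rw [Finset.sum_mul]
    refine Finset.sum_le_sum fun w hw => ?_
    rw [Nat.mem_divisorsAntidiagonal] at hw
    rw [one_mul, ← hw.1]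
    exact E_Tau_sub w.1 w.2
  refine h1.trans ?_
  have h2 : ∀ a ∈ Icc 1 N,
      ∑ k ∈ Icc 1 (N / a), (a.divisors.card : ℝ) * (k.divisors.card : ℝ) ≤
        (N : ℝ) * (1 + Real.log N) * ((a.divisors.card : ℝ) * (1 / (a : ℝ))) := by
    intro a ha
    rw [Finset.mem_Icc] at ha
    have ha0 : (0 : ℝ) < a := by exact_mod_cast ha.1
    rw [← Finset.mul_sum]
    have h3 := E_Tau_one (N / a)
    have h4 : ((N / a : ℕ) : ℝ) ≤ (N : ℝ) / a := Nat.cast_div_le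
    have h5 : Real.log ((N / a : ℕ) : ℝ) ≤ Real.log N := by
      apply Real.log_le_log
      · exact_mod_cast Nat.div_pos ha.2 ha.1
      · exact_mod_cast Nat.div_le_self N a
    have h6 : ∑ k ∈ Icc 1 (N / a), (k.divisors.card : ℝ) ≤ (N : ℝ) / a * (1 + Real.log N) := by
      refine h3.trans ?_
      exact mul_le_mul h4 (by linarith)
        (by have := Real.log_natCast_nonneg (N / a); linarith) (by positivity)
    calc (a.divisors.card : ℝ) * ∑ k ∈ Icc 1 (N / a), (k.divisors.card : ℝ)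
        ≤ (a.divisors.card : ℝ) * ((N : ℝ) / a * (1 + Real.log N)) :=
          mul_le_mul_of_nonneg_left h6 (Nat.cast_nonneg _)
      _ = (N : ℝ) * (1 + Real.log N) * ((a.divisors.card : ℝ) * (1 / (a : ℝ))) := by
          field_simp
  refine (Finset.sum_le_sum h2).trans ?_
  rw [← Finset.mul_sum]
  have h7 := E_Tau_inv N
  calc (N : ℝ) * (1 + Real.log N) * ∑ a ∈ Icc 1 N, (a.divisors.card : ℝ) * (1 / (a : ℝ))
      ≤ (N : ℝ) * (1 + Real.log N) * (1 + Real.log N) ^ 2 :=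
        mul_le_mul_of_nonneg_left h7 (by positivity)
    _ = (N : ℝ) * (1 + Real.log N) ^ 3 := by ring

end Pool.Agent.Lib.MP_a260de_nt.CN3
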