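import Pool.Agent.Lib.MP_a260de_nt.CN3.SpecE

/-!
MP_a260de_nt, PROJECT CN3, part E: module Twc (sums of c^ω(e)/φ(e)).
-/

set_option autoImplicit false

namespace Pool.Agent.Lib.MP_a260de_nt.CN3

open Finset
open Pool.Agent.Lib.BV (cls cs prim nrm del SplStmt InjStmt TotStmt BlkStmt SwStmt)

private theorem twc_fac {e : ℕ} (he : Squarefree e) {t : Finset ℕ} (ht : t ⊆ e.primeFactors) :
    (∏ p ∈ t, p) ∣ e ∧ (∏ p ∈ t, p).primeFactors = t := by
  constructor
  · have h1 := Finset.prod_dvd_prod_of_subset t e.primeFactors (fun p => p) ht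
    rwa [Nat.prod_primeFactors_of_squarefree he] at h1
  · exact Nat.primeFactors_prod fun p hp => Nat.prime_of_mem_primeFactors (ht hp)

private theorem twc_term (c : ℕ) {e : ℕ} (he : Squarefree e) {t : Finset ℕ}
    (ht : t ⊆ e.primeFactors) :
    (c : ℝ) ^ t.card / (e.totient : ℝ) =
      (c : ℝ) ^ om (∏ p ∈ t, p) / ((∏ p ∈ t, p).totient : ℝ) *
        (1 / ((e / ∏ p ∈ t, p).totient : ℝ)) := by
  obtain ⟨h1, h2⟩ := twc_fac he ht
  obtain ⟨w, hw⟩ := h1
  have hu : 0 < ∏ p ∈ t, p := Finset.prod_pos fun p hp =>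
    (Nat.prime_of_mem_primeFactors (ht hp)).pos
  have h3 : e / (∏ p ∈ t, p) = w := by
    rw [hw]
    exact Nat.mul_div_cancel_left w hu
  have h4 : (∏ p ∈ t, p).Coprime w := by
    rw [hw] at he
    exact Nat.coprime_of_squarefree_mul he
  have h5 : e.totient = (∏ p ∈ t, p).totient * w.totient := by
    conv_lhs => rw [hw]
    exact Nat.totient_mul h4
  have h6 : om (∏ p ∈ t, p) = t.card := by
    unfold om
    rw [h2]
  rw [h3, h5, h6]
  push_cast
  rw [div_mul_div_comm, mul_one]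

private noncomputable def twcG (c : ℕ) (y : ℕ × ℕ) : ℝ :=
  (c : ℝ) ^ om y.1 / (y.1.totient : ℝ) * (1 / (y.2.totient : ℝ))

private def twcI (x : (_ : ℕ) × Finset ℕ) : ℕ × ℕ := (∏ p ∈ x.2, p, x.1 / ∏ p ∈ x.2, p)

private theorem twc_step (c D : ℕ) :
    ∑ e ∈ (Icc 1 D).filter Squarefree, ((c + 1 : ℕ) : ℝ) ^ om e / (e.totient : ℝ) ≤
      (∑ e ∈ (Icc 1 D).filter Squarefree, (c : ℝ) ^ om e / (e.totient : ℝ)) *
        ∑ w ∈ Icc 1 D, 1 / (w.totient : ℝ) := by
  have h1 : ∑ e ∈ (Icc 1 D).filter Squarefree, ((c + 1 : ℕ) : ℝ) ^ om e / (e.totient : ℝ) =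
      ∑ x ∈ ((Icc 1 D).filter Squarefree).sigma (fun e => e.primeFactors.powerset),
        (c : ℝ) ^ x.2.card / (x.1.totient : ℝ) := by
    rw [Finset.sum_sigma]
    refine Finset.sum_congr rfl fun e _ => ?_
    have h2 := Finset.sum_pow_mul_eq_add_pow (c : ℝ) 1 e.primeFactors
    unfold om
    push_cast
    rw [← h2, Finset.sum_div]
    refine Finset.sum_congr rfl fun t _ => ?_
    rw [one_pow, mul_one]
  have h2 : ∑ x ∈ ((Icc 1 D).filter Squarefree).sigma (fun e => e.primeFactors.powerset),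
        (c : ℝ) ^ x.2.card / (x.1.totient : ℝ) =
      ∑ x ∈ ((Icc 1 D).filter Squarefree).sigma (fun e => e.primeFactors.powerset),
        twcG c (twcI x) := by
    refine Finset.sum_congr rfl fun x hx => ?_
    rw [Finset.mem_sigma, Finset.mem_filter, Finset.mem_powerset] at hx
    exact twc_term c hx.1.2 hx.2
  have hinj : Set.InjOn twcI
      (((Icc 1 D).filter Squarefree).sigma (fun e => e.primeFactors.powerset) :
        Finset ((_ : ℕ) × Finset ℕ)) := by
    rintro ⟨e, t⟩ hx ⟨e', t'⟩ hx' h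
    rw [Finset.mem_coe, Finset.mem_sigma, Finset.mem_filter, Finset.mem_powerset] at hx hx'
    obtain ⟨a1, a2⟩ := twc_fac hx.1.2 hx.2
    obtain ⟨b1, b2⟩ := twc_fac hx'.1.2 hx'.2
    have k1 : (∏ p ∈ t, p) = ∏ p ∈ t', p := congrArg Prod.fst h
    have k2 : e / (∏ p ∈ t, p) = e' / ∏ p ∈ t', p := congrArg Prod.snd h
    have k3 : t = t' := a2.symm.trans ((congrArg Nat.primeFactors k1).trans b2)
    subst k3
    have k4 : e = e' := by
      have m1 : (∏ p ∈ t, p) * (e / ∏ p ∈ t, p) = e := Nat.mul_div_cancel' a1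
      have m2 : (∏ p ∈ t, p) * (e' / ∏ p ∈ t, p) = e' := Nat.mul_div_cancel' b1
      rw [← m1, ← m2, k2]
    subst k4
    rfl
  have h3 : (∑ e ∈ (Icc 1 D).filter Squarefree, (c : ℝ) ^ om e / (e.totient : ℝ)) *
        ∑ w ∈ Icc 1 D, 1 / (w.totient : ℝ) =
      ∑ y ∈ ((Icc 1 D).filter Squarefree) ×ˢ (Icc 1 D), twcG c y := by
    rw [Finset.sum_mul_sum, ← Finset.sum_product']
    rfl
  rw [h1, h2, ← Finset.sum_image (f := twcG c) hinj, h3]
  refine Finset.sum_le_sum_of_subset_of_nonneg ?_ ?_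
  · intro y hy
    rw [Finset.mem_image] at hy
    obtain ⟨⟨e, t⟩, hx, rfl⟩ := hy
    rw [Finset.mem_sigma, Finset.mem_filter, Finset.mem_powerset, Finset.mem_Icc] at hx
    obtain ⟨a1, a2⟩ := twc_fac hx.1.2 hx.2
    have he1 : 1 ≤ e := hx.1.1.1
    have he2 : e ≤ D := hx.1.1.2
    have hu : 0 < ∏ p ∈ t, p := Nat.pos_of_dvd_of_pos a1 he1
    have hu2 : (∏ p ∈ t, p) ≤ e := Nat.le_of_dvd he1 a1
    rw [Finset.mem_product, Finset.mem_filter, Finset.mem_Icc, Finset.mem_Icc]
    refine ⟨⟨⟨hu, hu2.trans he2⟩, hx.1.2.squarefree_of_dvd a1⟩, ?_, ?_⟩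
    · exact Nat.div_pos hu2 hu
    · exact (Nat.div_le_self _ _).trans he2
  · intro y _ _
    unfold twcG
    positivity

theorem t_Twc (h1 : TotStmt) : S_Twc := by
  intro c D hD
  have hL : 0 ≤ Real.log D := Real.log_natCast_nonneg D
  induction c with
  | zero =>
    rw [mul_zero, pow_zero]
    have h2 : ∑ e ∈ (Icc 1 D).filter Squarefree, ((0 : ℕ) : ℝ) ^ om e / (e.totient : ℝ) ≤
        ∑ e ∈ ({1} : Finset ℕ), ((0 : ℕ) : ℝ) ^ om e / (e.totient : ℝ) := by
      have h3 : ∑ e ∈ (Icc 1 D).filter Squarefree, ((0 : ℕ) : ℝ) ^ om e / (e.totient : ℝ) =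
          ∑ e ∈ ({1} : Finset ℕ), ((0 : ℕ) : ℝ) ^ om e / (e.totient : ℝ) := by
        symm
        refine Finset.sum_subset ?_ ?_
        · intro e he
          rw [Finset.mem_singleton] at he
          subst he
          rw [Finset.mem_filter, Finset.mem_Icc]
          exact ⟨⟨le_refl 1, hD⟩, squarefree_one⟩
        · intro e he hne
          rw [Finset.mem_filter, Finset.mem_Icc] at he
          rw [Finset.mem_singleton] at hne
          have h4 : om e ≠ 0 := by
            unfold om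
            rw [Ne, Finset.card_eq_zero, Nat.primeFactors_eq_empty]
            omega
          rw [Nat.cast_zero, zero_pow h4, zero_div]
      exact h3.le
    refine h2.trans ?_
    rw [Finset.sum_singleton]
    unfold om
    simp
  | succ c ih =>
    refine (twc_step c D).trans ?_
    have h2 : (1 + Real.log D) ^ (2 * (c + 1)) = (1 + Real.log D) ^ (2 * c) * (1 + Real.log D) ^ 2 := by
      ring
    rw [h2]
    refine mul_le_mul ih (h1.1 D hD) ?_ ?_
    · exact Finset.sum_nonneg fun w _ => by positivity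
    · positivity

end Pool.Agent.Lib.MP_a260de_nt.CN3
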