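import Pool.Agent.Lib.MP_a260de_nt.CN3.SpecE

/-!
MP_a260de_nt, PROJECT CN3, module Wgt: the sum over the squarefree moduli d with the weights 3^ω(d), sorted by the
conductor q and the cofactor e = d/q.
-/

set_option autoImplicit false

namespace Pool.Agent.Lib.MP_a260de_nt.CN3

open Finset
open Pool.Agent.Lib.BV (cls cs prim nrm del SplStmt InjStmt TotStmt BlkStmt SwStmt)

/-- a character mod q vanishes outside the n coprime to q -/
private theorem Wgt_cs (f : ℕ → ℂ) (N q e : ℕ) (χ : DirichletCharacter ℂ q) :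
    cs f N (q * e) χ = cs f N e χ := by
  unfold cs
  rw [Finset.sum_filter, Finset.sum_filter]
  apply Finset.sum_congr rfl
  intro n _
  by_cases h : n.Coprime e
  · rw [if_pos h]
    by_cases h' : n.Coprime q
    · rw [if_pos (Nat.Coprime.mul_right h' h)]
    · rw [if_neg (fun h2 => h' (Nat.Coprime.coprime_mul_right_right h2))]
      have h1 : χ ((n : ℤ) : ZMod q) = 0 := by
        rw [χ.apply_eq_zero_iff]
        intro h2
        exact h' (Nat.isCoprime_iff_coprime.mp h2)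
      rw [Int.cast_natCast] at h1
      rw [h1, mul_zero]
  · rw [if_neg h, if_neg (fun h2 => h (Nat.Coprime.coprime_mul_left_right h2))]

/-- the number of prime factors of a product of coprime numbers -/
private theorem Wgt_om (q e : ℕ) (h : q.Coprime e) : om (q * e) = om q + om e := by
  unfold om
  rw [Nat.Coprime.primeFactors_mul h,
    Finset.card_union_of_disjoint (Nat.Coprime.disjoint_primeFactors h)]

/-- the term of the pair (e, q) -/
private noncomputable def Wgt_G (a b : ℕ → ℂ) (M N : ℕ) (w : ℕ × ℕ) : ℝ :=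
  (3 : ℝ) ^ om w.1 / (w.1.totient : ℝ) * dd a b M N w.1 w.2

private theorem Wgt_G_nonneg (a b : ℕ → ℂ) (M N : ℕ) (w : ℕ × ℕ) : 0 ≤ Wgt_G a b M N w := by
  unfold Wgt_G dd
  positivity

private theorem Wgt_term (a b : ℕ → ℂ) (M N d q : ℕ) (hd : Squarefree d) (hq : q ∣ d) :
    (3 : ℝ) ^ om d * ((1 / (d.totient : ℝ)) * ∑ χ ∈ prim q, ‖cs a M d χ‖ * ‖cs b N d χ‖) =
      Wgt_G a b M N (d / q, q) := by
  have hd0 : d ≠ 0 := hd.ne_zero
  obtain ⟨e, rfl⟩ := hq
  have hq0 : 0 < q := Nat.pos_of_ne_zero (by rintro rfl; simp at hd0)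
  have hc : q.Coprime e := Nat.coprime_of_squarefree_mul hd
  rw [Nat.mul_div_cancel_left e hq0]
  unfold Wgt_G dd
  have h1 : ∑ χ ∈ prim q, ‖cs a M (q * e) χ‖ * ‖cs b N (q * e) χ‖ =
      ∑ χ ∈ prim q, ‖cs a M e χ‖ * ‖cs b N e χ‖ :=
    Finset.sum_congr rfl (fun χ _ => by rw [Wgt_cs, Wgt_cs])
  rw [h1, Wgt_om q e hc, Nat.totient_mul hc, pow_add, Nat.cast_mul]
  simp only [mul_inv_rev, div_eq_mul_inv]
  ring

theorem t_Wgt : S_Wgt := by
  classical
  intro a b M N D
  have h1 : ∀ d ∈ (Icc 1 D).filter Squarefree,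
      (3 : ℝ) ^ om d * ((1 / (d.totient : ℝ)) *
        ∑ q ∈ d.divisors.filter (fun q => 1 < q), ∑ χ ∈ prim q, ‖cs a M d χ‖ * ‖cs b N d χ‖) =
      ∑ q ∈ d.divisors.filter (fun q => 1 < q), Wgt_G a b M N (d / q, q) := by
    intro d hd
    rw [Finset.mul_sum, Finset.mul_sum]
    apply Finset.sum_congr rfl
    intro q hq
    exact Wgt_term a b M N d q (Finset.mem_filter.mp hd).2
      (Nat.dvd_of_mem_divisors (Finset.mem_filter.mp hq).1)
  rw [Finset.sum_congr rfl h1, Finset.sum_sigma']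
  have h4 : ∑ e ∈ (Icc 1 D).filter Squarefree, (3 : ℝ) ^ om e / (e.totient : ℝ) *
        ∑ q ∈ Ioc 1 D, dd a b M N e q =
      ∑ w ∈ ((Icc 1 D).filter Squarefree) ×ˢ (Ioc 1 D), Wgt_G a b M N w := by
    rw [Finset.sum_product]
    apply Finset.sum_congr rfl
    intro e _
    rw [Finset.mul_sum]
    rfl
  rw [h4]
  have hinj : Set.InjOn (fun p : (Σ _ : ℕ, ℕ) => (p.1 / p.2, p.2))
      (((Icc 1 D).filter Squarefree).sigma
        (fun d => d.divisors.filter (fun q => 1 < q)) : Finset (Σ _ : ℕ, ℕ)) := by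
    rintro ⟨d, q⟩ hp ⟨d', q'⟩ hp' h
    simp only [Finset.coe_sigma, Set.mem_sigma_iff, Finset.mem_coe, Finset.mem_filter,
      Finset.mem_Icc, Nat.mem_divisors] at hp hp'
    simp only [Prod.mk.injEq] at h
    obtain ⟨h5, rfl⟩ := h
    have h6 : d = d' := by
      rw [← Nat.div_mul_cancel hp.2.1.1, ← Nat.div_mul_cancel hp'.2.1.1, h5]
    rw [h6]
  have h5 : ∑ p ∈ ((Icc 1 D).filter Squarefree).sigma
        (fun d => d.divisors.filter (fun q => 1 < q)), Wgt_G a b M N (p.1 / p.2, p.2) =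
      ∑ w ∈ (((Icc 1 D).filter Squarefree).sigma
        (fun d => d.divisors.filter (fun q => 1 < q))).image
          (fun p : (Σ _ : ℕ, ℕ) => (p.1 / p.2, p.2)), Wgt_G a b M N w :=
    (Finset.sum_image hinj).symm
  rw [h5]
  apply Finset.sum_le_sum_of_subset_of_nonneg
  · intro w hw
    obtain ⟨⟨d, q⟩, hp, rfl⟩ := Finset.mem_image.mp hw
    simp only [Finset.mem_sigma, Finset.mem_Icc, Finset.mem_filter, Nat.mem_divisors] at hp
    obtain ⟨⟨⟨hd1, hd2⟩, hsf⟩, ⟨hqd, hd0⟩, hQ⟩ := hp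
    have hq0 : 0 < q := by omega
    have hqle : q ≤ d := Nat.le_of_dvd hd1 hqd
    have he : 0 < d / q := Nat.div_pos hqle hq0
    simp only [Finset.mem_product, Finset.mem_filter, Finset.mem_Icc, Finset.mem_Ioc]
    refine ⟨⟨⟨he, le_trans (Nat.div_le_self d q) hd2⟩, ?_⟩, hQ, le_trans hqle hd2⟩
    exact hsf.squarefree_of_dvd (Nat.div_dvd_of_dvd hqd)
  · intro w _ _
    exact Wgt_G_nonneg a b M N w

end Pool.Agent.Lib.MP_a260de_nt.CN3
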