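import Pool.Agent.Lib.BV.All
import Pool.Agent.Lib.MP_a260de_nt.CN.A.C0s
import Pool.Agent.Lib.MP_a260de_nt.CN3.E_Cnv
import Pool.Agent.Lib.MP_a260de_nt.CN3.E_Dsp
import Pool.Agent.Lib.MP_a260de_nt.CN3.E_Aud
import Pool.Agent.Lib.MP_a260de_nt.CN3.E_Wgt
import Pool.Agent.Lib.MP_a260de_nt.CN3.E_Twc
import Pool.Agent.Lib.MP_a260de_nt.CN3.E_Om3
import Pool.Agent.Lib.MP_a260de_nt.CN3.E_Tau
import Pool.Agent.Lib.MP_a260de_nt.CN3.E_Bmt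
import Pool.Agent.Lib.MP_a260de_nt.CN3.E_Nrb
import Pool.Agent.Lib.MP_a260de_nt.CN3.E_Low
import Pool.Agent.Lib.MP_a260de_nt.CN3.E_Blw
import Pool.Agent.Lib.MP_a260de_nt.CN3.E_Erq
import Pool.Agent.Lib.MP_a260de_nt.CN3.E_Err
import Pool.Agent.Lib.MP_a260de_nt.CN3.E_Law
import Pool.Agent.Lib.MP_a260de_nt.CN3.E_Laq
import Pool.Agent.Lib.MP_a260de_nt.CN3.E_Sel
import Pool.Agent.Lib.MP_a260de_nt.CN3.E_Rad
import Pool.Agent.Lib.MP_a260de_nt.CN3.E_Uga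
import Pool.Agent.Lib.MP_a260de_nt.CN3.E_Hlo

/-!
# MP_a260de_nt, project CN3, part E: composition
-/

set_option autoImplicit false

namespace Pool.Agent.Lib.MP_a260de_nt.CN3

/-- The error terms on average. -/
theorem e_Err : S_Err :=
  t_Err (t_Aud (t_Dsp t_Cnv BV.aSpl BV.aInj)) t_Wgt (t_Twc BV.aTot)
    (t_Erq (t_Nrb t_Tau t_Bmt) (t_Low BV.aSw) (t_Blw BV.aBlk t_Om3))

/-- Selberg's weights. -/
theorem e_Sel : S_Sel := t_Sel t_Law t_Laq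

/-- The lower bound for `H`. -/
theorem e_Hlo : S_Hlo := t_Hlo t_Rad t_Uga CN.A.tC0s

/-- Sums of `c ^ ω(e) / φ(e)`. -/
theorem e_Twc : S_Twc := t_Twc BV.aTot

end Pool.Agent.Lib.MP_a260de_nt.CN3
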