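import Pool.Agent.Lib.MP_a260de_nt.CN3.SpecM

/-!
MP_a260de_nt, PROJECT CN, part A, strong version, module Ecp: lower bound for the sum of 1/e over the
primes e in (M, (1+κ) M], M = ⌊z^θ⌋.
-/

namespace Pool.Agent.Lib.MP_a260de_nt.CN3

open Finset Pool.Agent.Results.MP_00e23e_nt

namespace Ecp

private theorem inv_log_int {a b : ℝ} (ha : 2 ≤ a) (hb : 2 ≤ b) :
    IntervalIntegrable (fun t : ℝ => (Real.log t)⁻¹) MeasureTheory.volume a b := by
  refine ContinuousOn.intervalIntegrable fun t ht => ?_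
  have h1 : 2 ≤ t := by
    rcases le_total a b with h | h
    · rw [Set.uIcc_of_le h] at ht
      exact ha.trans ht.1
    · rw [Set.uIcc_of_ge h] at ht
      exact hb.trans ht.1
  have h2 : 0 < Real.log t := Real.log_pos (by linarith)
  exact ((Real.continuousAt_log (by linarith)).inv₀ h2.ne').continuousWithinAt

/-- the logarithmic integral between `N` and `N1` -/
private theorem li_sub (N N1 : ℕ) (hN : 2 ≤ N) (hN1 : N ≤ N1) (hN2 : N1 ≤ 2 * N) :
    ((N1 : ℝ) - N) / Real.log (2 * N) ≤ li N1 - li N := by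
  have hN' : (2 : ℝ) ≤ (N : ℝ) := by exact_mod_cast hN
  have hN1' : (N : ℝ) ≤ (N1 : ℝ) := by exact_mod_cast hN1
  have hN2' : (N1 : ℝ) ≤ 2 * (N : ℝ) := by exact_mod_cast hN2
  unfold li
  rw [intervalIntegral.integral_interval_sub_left (inv_log_int le_rfl (by linarith))
    (inv_log_int le_rfl hN')]
  have h1 : ∫ _t in (N : ℝ)..(N1 : ℝ), (Real.log (2 * N))⁻¹ ≤
      ∫ t in (N : ℝ)..(N1 : ℝ), (Real.log t)⁻¹ := by
    refine intervalIntegral.integral_mono_on hN1' intervalIntegrable_const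
      (inv_log_int hN' (by linarith)) ?_
    intro t ht
    have h2 : 0 < Real.log t := Real.log_pos (by linarith [ht.1])
    exact inv_anti₀ h2 (Real.log_le_log (by linarith [ht.1]) (ht.2.trans hN2'))
  rw [intervalIntegral.integral_const, smul_eq_mul] at h1
  exact h1

/-- the number of the primes in `(N, N1]` -/
private theorem card_eq (N N1 : ℕ) (h : N ≤ N1) :
    (((Ioc N N1).filter Nat.Prime).card : ℝ) = BV.npr N1 - BV.npr N := by
  unfold BV.npr
  rw [Nat.floor_natCast, Nat.floor_natCast]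
  have h2 : (Icc 1 N1).filter Nat.Prime =
      (Icc 1 N).filter Nat.Prime ∪ (Ioc N N1).filter Nat.Prime := by
    ext p
    simp only [mem_filter, mem_union, mem_Icc, mem_Ioc]
    constructor
    · rintro ⟨⟨a, b⟩, c⟩
      by_cases h : p ≤ N
      · exact Or.inl ⟨⟨a, h⟩, c⟩
      · exact Or.inr ⟨⟨by omega, b⟩, c⟩
    · rintro (⟨⟨a, b⟩, c⟩ | ⟨⟨a, b⟩, c⟩)
      · exact ⟨⟨a, by omega⟩, c⟩
      · exact ⟨⟨by omega, b⟩, c⟩
  have h3 : Disjoint ((Icc 1 N).filter Nat.Prime) ((Ioc N N1).filter Nat.Prime) := by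
    rw [Finset.disjoint_left]
    intro p hp hp'
    simp only [mem_filter, mem_Icc, mem_Ioc] at hp hp'
    omega
  rw [h2, card_union_of_disjoint h3]
  push_cast
  ring

/-- the lower bound for one `N` -/
private theorem low {C κ : ℝ} (hC : 0 < C) (hκ : 0 < κ) (hκ1 : κ ≤ 1)
    (hpnt : ∀ x : ℝ, 3 ≤ x → |BV.npr x - li x| ≤ C * (x / (Real.log x) ^ (2 : ℝ))) (N : ℕ)
    (hN : 3 ≤ N) (hL : 24 * C ≤ κ * Real.log N) (hL1 : 1 ≤ Real.log N) (hκN : 2 ≤ κ * N) :
    κ / (16 * Real.log N) ≤ ∑ e ∈ (Ioc N ⌊(1 + κ) * (N : ℝ)⌋₊).filter Nat.Prime, 1 / (e : ℝ) := by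
  have hN' : (3 : ℝ) ≤ (N : ℝ) := by exact_mod_cast hN
  have hN0 : (0 : ℝ) < (N : ℝ) := by linarith
  obtain ⟨N1, hN1⟩ : ∃ N1 : ℕ, N1 = ⌊(1 + κ) * (N : ℝ)⌋₊ := ⟨_, rfl⟩
  rw [← hN1]
  have hlt : (1 + κ) * (N : ℝ) < (N1 : ℝ) + 1 := by
    rw [hN1]
    exact Nat.lt_floor_add_one _
  have hle : (N1 : ℝ) ≤ (1 + κ) * (N : ℝ) := by
    rw [hN1]
    exact Nat.floor_le (by positivity)
  have hle2 : (N1 : ℝ) ≤ 2 * N := by nlinarith
  have hge : (N : ℝ) + κ * N / 2 ≤ (N1 : ℝ) := by nlinarith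
  have hNN1 : N ≤ N1 := by
    have : (N : ℝ) ≤ (N1 : ℝ) := by nlinarith
    exact_mod_cast this
  have hN12 : N1 ≤ 2 * N := by exact_mod_cast hle2
  set L : ℝ := Real.log N with hLdef
  have hL0 : 0 < L := by linarith
  have hlog2 : Real.log (2 * N) = Real.log 2 + L := by
    rw [Real.log_mul (by norm_num) hN0.ne']
  have hl2 : Real.log 2 ≤ 1 := by
    have := Real.log_two_lt_d9
    linarith
  have hl20 : 0 < Real.log 2 := Real.log_pos (by norm_num)
  have hLN1 : L ≤ Real.log N1 := Real.log_le_log hN0 (by exact_mod_cast hNN1)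
  have hN13 : (3 : ℝ) ≤ (N1 : ℝ) := by
    have : (N : ℝ) ≤ (N1 : ℝ) := by exact_mod_cast hNN1
    linarith
  have h1 := hpnt N1 hN13
  have h2 := hpnt N hN'
  rw [Real.rpow_two] at h1 h2
  have h3 := li_sub N N1 (by omega) hNN1 hN12
  have h4 := abs_le.1 h1
  have h5 := abs_le.1 h2
  have h6 : (N1 : ℝ) / (Real.log N1) ^ 2 ≤ 2 * N / L ^ 2 := by
    refine div_le_div₀ (by positivity) hle2 (by positivity) ?_
    exact pow_le_pow_left₀ hL0.le hLN1 2
  have h7 : κ * N / (4 * L) ≤ ((N1 : ℝ) - N) / Real.log (2 * N) := by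
    rw [div_le_div_iff₀ (by positivity) (by rw [hlog2]; positivity), hlog2]
    have e1 : κ * N / 2 ≤ (N1 : ℝ) - N := by linarith
    have e2 : Real.log 2 + L ≤ 2 * L := by linarith
    calc κ * N * (Real.log 2 + L) ≤ κ * N * (2 * L) :=
          mul_le_mul_of_nonneg_left e2 (by positivity)
      _ = κ * N / 2 * (4 * L) := by ring
      _ ≤ ((N1 : ℝ) - N) * (4 * L) := mul_le_mul_of_nonneg_right e1 (by positivity)
  have h8 : C * ((3 * N) / L ^ 2) ≤ κ * (N : ℝ) / (8 * L) := by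
    rw [← mul_div_assoc, div_le_div_iff₀ (by positivity) (by positivity)]
    have : 24 * C * (N * L) ≤ κ * L * (N * L) := mul_le_mul_of_nonneg_right hL (by positivity)
    nlinarith
  have h9 : κ * (N : ℝ) / (8 * L) ≤ (((Ioc N N1).filter Nat.Prime).card : ℝ) := by
    rw [card_eq N N1 hNN1]
    have h10 : C * (N1 / (Real.log N1) ^ 2) ≤ C * (2 * N / L ^ 2) :=
      mul_le_mul_of_nonneg_left h6 hC.le
    have h11 : C * (2 * N / L ^ 2) + C * (N / L ^ 2) = C * ((3 * N) / L ^ 2) := by ring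
    have h12 : κ * (N : ℝ) / (4 * L) = κ * N / (8 * L) + κ * N / (8 * L) := by
      field_simp
      norm_num
    linarith [h4.1, h5.2]
  have h13 : (((Ioc N N1).filter Nat.Prime).card : ℝ) * (1 / (2 * N)) ≤
      ∑ e ∈ (Ioc N N1).filter Nat.Prime, 1 / (e : ℝ) := by
    rw [← nsmul_eq_mul]
    refine Finset.card_nsmul_le_sum _ _ _ ?_
    intro e he
    simp only [mem_filter, mem_Ioc] at he
    have he0 : (0 : ℝ) < (e : ℝ) := by
      have : 0 < e := by omega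
      exact_mod_cast this
    have he1 : (e : ℝ) ≤ 2 * N := by
      have : (e : ℝ) ≤ (N1 : ℝ) := by exact_mod_cast he.1.2
      linarith
    exact one_div_le_one_div_of_le he0 he1
  refine le_trans ?_ h13
  have h14 : κ * (N : ℝ) / (8 * L) * (1 / (2 * N)) = κ / (16 * L) := by
    field_simp
    norm_num
  rw [← h14]
  exact mul_le_mul_of_nonneg_right h9 (by positivity)

end Ecp

theorem tEcp (h : Pool.Agent.Lib.BV.PntStmt) : S_Ecp := by
  intro θ κ hθ hθ1 hκ hκ1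
  obtain ⟨C, hC, hpnt⟩ := h 2 (by norm_num)
  have t1 : Filter.Tendsto (fun z : ℝ => ⌊z ^ θ⌋₊) Filter.atTop Filter.atTop :=
    tendsto_nat_floor_atTop.comp (tendsto_rpow_atTop hθ)
  have t3 : Filter.Tendsto (fun z : ℝ => ((⌊z ^ θ⌋₊ : ℕ) : ℝ)) Filter.atTop Filter.atTop :=
    tendsto_natCast_atTop_atTop.comp t1
  have t2 : Filter.Tendsto (fun z : ℝ => Real.log ((⌊z ^ θ⌋₊ : ℕ) : ℝ)) Filter.atTop Filter.atTop :=
    Real.tendsto_log_atTop.comp t3
  have e1 := t1.eventually_ge_atTop 3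
  have e2 := t2.eventually_ge_atTop (24 * C / κ)
  have e3 := t2.eventually_ge_atTop 1
  have e4 := Real.tendsto_log_atTop.eventually_ge_atTop (16 / κ)
  have e5 := Filter.eventually_ge_atTop (1 : ℝ)
  have e6 := t3.eventually_ge_atTop (2 / κ)
  obtain ⟨z0, hz0⟩ := Filter.eventually_atTop.1
    (e1.and (e2.and (e3.and (e4.and (e5.and e6)))))
  refine ⟨z0, fun z hz => ?_⟩
  obtain ⟨a1, a2, a3, a4, a5, a6⟩ := hz0 z hz
  have b2 : 24 * C ≤ κ * Real.log ((⌊z ^ θ⌋₊ : ℕ) : ℝ) := by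
    rw [div_le_iff₀ hκ] at a2
    linarith
  have b6 : 2 ≤ κ * ((⌊z ^ θ⌋₊ : ℕ) : ℝ) := by
    rw [div_le_iff₀ hκ] at a6
    linarith
  refine le_trans ?_ (Ecp.low hC hκ hκ1 hpnt _ a1 b2 a3 b6)
  have hN0 : (0 : ℝ) < ((⌊z ^ θ⌋₊ : ℕ) : ℝ) := by
    have : 0 < ⌊z ^ θ⌋₊ := by omega
    exact_mod_cast this
  have hle : Real.log ((⌊z ^ θ⌋₊ : ℕ) : ℝ) ≤ Real.log z := by
    refine Real.log_le_log hN0 ?_
    refine (Nat.floor_le (Real.rpow_nonneg (by linarith) _)).trans ?_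
    calc z ^ θ ≤ z ^ (1 : ℝ) := Real.rpow_le_rpow_of_exponent_le a5 hθ1
      _ = z := Real.rpow_one z
  have hz1 : 1 ≤ Real.log z := a3.trans hle
  rw [div_le_iff₀ hκ] at a4
  rw [div_le_div_iff₀ (by positivity) (by positivity)]
  nlinarith

end Pool.Agent.Lib.MP_a260de_nt.CN3
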