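import Pool.Agent.Lib.MP_a260de_nt.CN3.SpecM

/-!
MP_a260de_nt, PROJECT CN, part A, strong version, module Inb: the combinatorial part for large k.
-/

namespace Pool.Agent.Lib.MP_a260de_nt.CN3

open Finset Pool.Agent.Lib.MP_a260de_nt.CN.A

private theorem Inb_one (z β δ : ℝ) (E0 E1 e : ℕ) (hz : 1 ≤ z) (hE : 1 ≤ E0)
    (he : e ∈ Ep E0 E1) :
    ((bad3 z β e).filter (fun t => z ^ δ < (t.2.1 : ℝ))).card ≤
      ((Tr ⌊z ^ β⌋₊ ⌊z ^ δ⌋₊ (⌊z⌋₊ / E0)).filter (fun t => (e * pt t + 1).Prime)).card := by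
  rw [Ep, mem_filter, mem_Ioc] at he
  have hz0 : 0 ≤ z := by linarith
  have hzb : 0 ≤ z ^ β := Real.rpow_nonneg hz0 _
  have hzd : 0 ≤ z ^ δ := Real.rpow_nonneg hz0 _
  apply card_le_card_of_injOn (fun t => (t.1, t.2.2, t.2.1))
  · rintro ⟨s, k, l⟩ ht
    rw [mem_coe, mem_filter, bad3, mem_filter, mem_product, mem_product, mem_Icc, mem_Icc,
      mem_Icc] at ht
    obtain ⟨⟨⟨hs1, hk1, hl1⟩, hs, hlp, hlz, hpr, hle⟩, hk⟩ := ht
    simp only at hs1 hk1 hl1 hs hlp hlz hpr hle hk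
    have h1 : e * k * l * s + 1 ≤ ⌊z⌋₊ := Nat.le_floor hle
    have h2 : s * l * k ≤ ⌊z⌋₊ / E0 := by
      rw [Nat.le_div_iff_mul_le (by omega)]
      have h3 : s * l * k * E0 ≤ s * l * k * e := Nat.mul_le_mul_left _ he.1.1.le
      have h4 : s * l * k * e = e * k * l * s := by ring
      omega
    have h5 : 1 ≤ s * l := Nat.one_le_iff_ne_zero.2 (Nat.mul_ne_zero (by omega) (by omega))
    have h6 : l ≤ s * l * k := by
      calc l = 1 * l * 1 := by ring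
        _ ≤ s * l * k := Nat.mul_le_mul (Nat.mul_le_mul hs1.1 le_rfl) hk1.1
    have h7 : k ≤ s * l * k := by
      calc k = 1 * k := by ring
        _ ≤ s * l * k := Nat.mul_le_mul h5 le_rfl
    rw [mem_coe, mem_filter, Tr, mem_filter, mem_product, mem_product, mem_Ioc, mem_Ioc, mem_Ioc]
    rw [Sr, mem_Ioc] at hs
    refine ⟨⟨⟨hs, ⟨?_, h6.trans h2⟩, ⟨?_, h7.trans h2⟩⟩, hlp, h2⟩, ?_⟩
    · exact (Nat.floor_lt hzb).2 hlz
    · exact (Nat.floor_lt hzd).2 hk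
    · show (e * (s * l * k) + 1).Prime
      have h8 : e * (s * l * k) + 1 = e * k * l * s + 1 := by ring
      rw [h8]
      exact hpr
  · rintro ⟨s, k, l⟩ _ ⟨s', k', l'⟩ _ h
    simp only [Prod.mk.injEq] at h
    obtain ⟨h1, h2, h3⟩ := h
    rw [h1, h2, h3]

theorem tInb : S_Inb := by
  intro z β δ E0 E1 hz hβ hδ hE
  have h1 : ((Ep E0 E1 ×ˢ Tr ⌊z ^ β⌋₊ ⌊z ^ δ⌋₊ (⌊z⌋₊ / E0)).filter
      (fun w => (w.1 * pt w.2 + 1).Prime)).card =
      ∑ e ∈ Ep E0 E1, ((Tr ⌊z ^ β⌋₊ ⌊z ^ δ⌋₊ (⌊z⌋₊ / E0)).filter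
        (fun t => (e * pt t + 1).Prime)).card := by
    rw [card_filter, sum_product]
    refine sum_congr rfl fun e _ => ?_
    rw [card_filter]
  rw [h1]
  push_cast
  refine sum_le_sum fun e he => ?_
  exact_mod_cast Inb_one z β δ E0 E1 e hz hE he

end Pool.Agent.Lib.MP_a260de_nt.CN3
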