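import Pool.Agent.Lib.MP_a260de_nt.CN3.SpecM

/-!
# MP_a260de_nt, project CN, part A: pairs with given lcm
-/

set_option autoImplicit false

namespace Pool.Agent.Lib.MP_a260de_nt.CN3

open Finset Pool.Agent.Lib.MP_a260de_nt.CN.A

theorem Lcm_sqf {a b : ℕ} (ha : Squarefree a) (hb : Squarefree b) (ha0 : a ≠ 0) (hb0 : b ≠ 0) :
    Squarefree (Nat.lcm a b) := by
  rw [Nat.squarefree_iff_factorization_le_one (Nat.lcm_ne_zero ha0 hb0)]
  intro p
  rw [Nat.factorization_lcm ha0 hb0]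
  rw [Nat.squarefree_iff_factorization_le_one ha0] at ha
  rw [Nat.squarefree_iff_factorization_le_one hb0] at hb
  rw [Finsupp.sup_apply]
  exact sup_le (ha p) (hb p)

theorem Lcm_card {D : ℕ} (hD : Squarefree D) (P : Finset (ℕ × ℕ)) :
    ((P.filter fun p => Nat.lcm p.1 p.2 = D).card : ℝ) ≤ 3 ^ om D := by
  have h := Nat.card_pair_lcm_eq hD
  have h1 : (P.filter fun p => Nat.lcm p.1 p.2 = D) ⊆
      ((D.divisors ×ˢ D.divisors).filter fun p => p.1.lcm p.2 = D) := by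
    intro p hp
    rw [Finset.mem_filter] at hp ⊢
    refine ⟨?_, hp.2⟩
    rw [Finset.mem_product, Nat.mem_divisors, Nat.mem_divisors]
    have h2 := Nat.dvd_lcm_left p.1 p.2
    have h3 := Nat.dvd_lcm_right p.1 p.2
    rw [hp.2] at h2 h3
    exact ⟨⟨h2, hD.ne_zero⟩, ⟨h3, hD.ne_zero⟩⟩
  have h2 := Finset.card_le_card h1
  rw [h] at h2
  have h3 : ArithmeticFunction.cardDistinctFactors D = om D := by
    rw [ArithmeticFunction.cardDistinctFactors_apply]
    rfl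
  rw [h3] at h2
  exact_mod_cast h2

theorem tLcm : S_Lcm := by
  intro Δ lam G hl hs hG
  set P : Finset (ℕ × ℕ) := (Icc 1 Δ ×ˢ Icc 1 Δ).filter fun p => lam p.1 ≠ 0 ∧ lam p.2 ≠ 0
    with hP
  have hmaps : ∀ p ∈ P, Nat.lcm p.1 p.2 ∈ (Icc 1 (Δ ^ 2)).filter Squarefree := by
    intro p hp
    rw [hP, Finset.mem_filter] at hp
    obtain ⟨s1, a1, b1⟩ := hs _ hp.2.1
    obtain ⟨s2, a2, b2⟩ := hs _ hp.2.2
    rw [Finset.mem_filter, Finset.mem_Icc]
    refine ⟨⟨Nat.pos_of_ne_zero (Nat.lcm_ne_zero (by omega) (by omega)), ?_⟩,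
      Lcm_sqf s1 s2 (by omega) (by omega)⟩
    calc Nat.lcm p.1 p.2 ≤ p.1 * p.2 :=
          Nat.le_of_dvd (Nat.mul_pos (by omega) (by omega)) (Nat.lcm_dvd_mul _ _)
      _ ≤ Δ * Δ := Nat.mul_le_mul b1 b2
      _ = Δ ^ 2 := by ring
  have h1 : ∑ d ∈ Icc 1 Δ, ∑ d' ∈ Icc 1 Δ, |lam d * lam d'| * G (Nat.lcm d d') =
      ∑ p ∈ P, |lam p.1 * lam p.2| * G (Nat.lcm p.1 p.2) := by
    rw [← Finset.sum_product' (Icc 1 Δ) (Icc 1 Δ)
      (fun d d' => |lam d * lam d'| * G (Nat.lcm d d')), hP, Finset.sum_filter]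
    refine Finset.sum_congr rfl fun p _ => ?_
    split_ifs with h
    · rfl
    · have h2 : lam p.1 * lam p.2 = 0 := by
        by_contra h3
        exact h ⟨left_ne_zero_of_mul h3, right_ne_zero_of_mul h3⟩
      rw [h2, abs_zero, zero_mul]
  rw [h1]
  calc ∑ p ∈ P, |lam p.1 * lam p.2| * G (Nat.lcm p.1 p.2)
      ≤ ∑ p ∈ P, G (Nat.lcm p.1 p.2) := by
        refine Finset.sum_le_sum fun p _ => ?_
        have h2 : |lam p.1 * lam p.2| ≤ 1 := by
          rw [abs_mul]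
          exact mul_le_one₀ (hl _) (abs_nonneg _) (hl _)
        have h3 := mul_le_mul_of_nonneg_right h2 (hG (Nat.lcm p.1 p.2))
        linarith
    _ = ∑ D ∈ (Icc 1 (Δ ^ 2)).filter Squarefree,
          ∑ p ∈ P.filter (fun p => Nat.lcm p.1 p.2 = D), G (Nat.lcm p.1 p.2) :=
        (Finset.sum_fiberwise_of_maps_to hmaps _).symm
    _ ≤ ∑ D ∈ (Icc 1 (Δ ^ 2)).filter Squarefree, 3 ^ om D * G D := by
        refine Finset.sum_le_sum fun D hD => ?_
        have h4 : ∑ p ∈ P.filter (fun p => Nat.lcm p.1 p.2 = D), G (Nat.lcm p.1 p.2) =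
            ((P.filter fun p => Nat.lcm p.1 p.2 = D).card : ℝ) * G D := by
          rw [← nsmul_eq_mul, ← Finset.sum_const]
          refine Finset.sum_congr rfl fun p hp => ?_
          rw [(Finset.mem_filter.1 hp).2]
        rw [h4]
        exact mul_le_mul_of_nonneg_right (Lcm_card (Finset.mem_filter.1 hD).2 P) (hG D)

end Pool.Agent.Lib.MP_a260de_nt.CN3
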