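import Pool.Agent.Lib.MP_a260de_nt.CN3.SpecM

/-!
MP_a260de_nt, PROJECT CN, part A, strong version: the final statement in general form.
-/

namespace Pool.Agent.Lib.MP_a260de_nt.CN3

open Finset Filter Topology Pool.Agent.Lib.MP_a260de_nt.CN.A

/-- choice of the small parameter -/
private lemma Sec3_choose (β : ℝ) (hβ : 1 / 4 < β) (hβ2 : β < 1 / 2)
    (hlog : 4 * Real.log (1 / (2 * β)) < 1) :
    ∃ x : ℝ, 0 < x ∧ x < 1 / 8 ∧ β + x < 1 / 2 ∧
      (1 + x) * (4 / (1 - 4 * x)) * Real.log ((1 / 2 + x) / β) + (1 + x) * (2 * x / β ^ 2) + x +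
        3 * x < 1 := by
  have hβ0 : 0 < β := by linarith
  have hc : ContinuousAt (fun x : ℝ => (1 + x) * (4 / (1 - 4 * x)) * Real.log ((1 / 2 + x) / β) +
      (1 + x) * (2 * x / β ^ 2) + x + 3 * x) 0 := by
    have h1 : ContinuousAt (fun x : ℝ => 4 / (1 - 4 * x)) 0 := by
      refine ContinuousAt.div (by fun_prop) (by fun_prop) (by norm_num)
    have h2 : ContinuousAt (fun x : ℝ => Real.log ((1 / 2 + x) / β)) 0 := by
      refine ContinuousAt.log (by fun_prop) ?_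
      have : (0 : ℝ) < (1 / 2 + 0) / β := by positivity
      exact this.ne'
    have h3 : ContinuousAt (fun x : ℝ => (1 + x) * (2 * x / β ^ 2)) 0 := by fun_prop
    have h4 : ContinuousAt (fun x : ℝ => (1 + x)) 0 := by fun_prop
    exact (((h4.mul h1).mul h2).add h3).add continuousAt_id |>.add (by fun_prop)
  have h0 : (fun x : ℝ => (1 + x) * (4 / (1 - 4 * x)) * Real.log ((1 / 2 + x) / β) +
      (1 + x) * (2 * x / β ^ 2) + x + 3 * x) 0 < 1 := by
    have : (1 / 2 + 0) / β = 1 / (2 * β) := by field_simp; ring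
    simp only [this]
    norm_num at hlog ⊢
    linarith
  have he : ∀ᶠ x : ℝ in 𝓝 0, (1 + x) * (4 / (1 - 4 * x)) * Real.log ((1 / 2 + x) / β) +
      (1 + x) * (2 * x / β ^ 2) + x + 3 * x < 1 := hc.eventually_lt continuousAt_const h0
  obtain ⟨r, hr, hball⟩ := Metric.eventually_nhds_iff.mp he
  refine ⟨min (r / 2) (min (1 / 16) ((1 / 2 - β) / 2)), ?_, ?_, ?_, ?_⟩
  · refine lt_min (by linarith) (lt_min (by norm_num) (by linarith))
  · have := (min_le_right (r / 2) (min (1 / 16) ((1 / 2 - β) / 2))).trans (min_le_left _ _)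
    linarith
  · have := (min_le_right (r / 2) (min (1 / 16) ((1 / 2 - β) / 2))).trans (min_le_right _ _)
    linarith
  · apply hball
    have hpos : 0 < min (r / 2) (min (1 / 16) ((1 / 2 - β) / 2)) :=
      lt_min (by linarith) (lt_min (by norm_num) (by linarith))
    rw [Real.dist_eq, sub_zero, abs_of_pos hpos]
    have := min_le_left (r / 2) (min (1 / 16) ((1 / 2 - β) / 2))
    linarith

private lemma Sec3_pow (C ε : ℝ) (hε : 0 < ε) :
    ∃ z0 : ℝ, ∀ z : ℝ, z0 ≤ z → C * Real.log z ^ 4 ≤ z ^ ε := by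
  have h1 : (fun z : ℝ => C * Real.log z ^ (4 : ℝ)) =o[atTop] fun z : ℝ => z ^ ε :=
    (isLittleO_log_rpow_rpow_atTop 4 hε).const_mul_left C
  have h2 := h1.bound (by norm_num : (0 : ℝ) < 1)
  rw [eventually_atTop] at h2
  obtain ⟨z0, hz0⟩ := h2
  refine ⟨max z0 1, fun z hz => ?_⟩
  have h3 := hz0 z (le_trans (le_max_left _ _) hz)
  have hz1 : 1 ≤ z := le_trans (le_max_right _ _) hz
  rw [one_mul, Real.norm_eq_abs, Real.norm_eq_abs,
    abs_of_nonneg (Real.rpow_nonneg (by linarith : (0 : ℝ) ≤ z) ε)] at h3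
  have h4 := (le_abs_self _).trans h3
  have h5 : Real.log z ^ (4 : ℝ) = Real.log z ^ 4 := by
    rw [← Real.rpow_natCast]; norm_num
  rw [h5] at h4
  exact h4

private lemma Sec3_large (a T : ℝ) (ha : 0 < a) :
    ∃ z0 : ℝ, ∀ z : ℝ, z0 ≤ z → T ≤ z ^ a :=
  eventually_atTop.mp ((tendsto_rpow_atTop ha).eventually_ge_atTop T)

private lemma Sec3_log (T : ℝ) : ∃ z0 : ℝ, ∀ z : ℝ, z0 ≤ z → T ≤ Real.log z :=
  eventually_atTop.mp (Real.tendsto_log_atTop.eventually_ge_atTop T)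

private lemma Sec3_split (z β δ : ℝ) (e : ℕ) :
    ((bad3 z β e).card : ℝ) =
      (((bad3 z β e).filter (fun t => (t.2.1 : ℝ) ≤ z ^ δ)).card : ℝ) +
      (((bad3 z β e).filter (fun t => z ^ δ < (t.2.1 : ℝ))).card : ℝ) := by
  rw [← Nat.cast_add]
  congr 1
  rw [← Finset.card_filter_add_card_filter_not (s := bad3 z β e)
    (fun t : ℕ × ℕ × ℕ => (t.2.1 : ℝ) ≤ z ^ δ)]
  congr 2
  ext t
  simp only [mem_filter, not_le]

/-- The final statement in general form. -/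
theorem tSec3 (h1 : CN.A.S_C0s) (h2 : CN.A.S_N1) (h3 : CN.A.S_Cmb) (h4 : S_Ecp) (h5 : S_Sml)
    (h6 : S_Big) : S_Sec3 := by
  classical
  intro β hβ hβ2 hlog ε0 hε0
  have hβ0 : 0 < β := by linarith
  obtain ⟨x, hx0, hx8, hβx, hF⟩ := Sec3_choose β hβ hβ2 hlog
  have hc0 : 1 ≤ c0 := h1.2
  obtain ⟨zN, hN⟩ := h2 β x x 4 hβ0 hx0 hβx hx0 (by norm_num)
  obtain ⟨C, hC, hCmb⟩ := h3 β (ε0 / 2) hβ0 (by linarith)
  obtain ⟨zE, hE⟩ := h4 (1 / 2 - β - x) x (by linarith) (by linarith) hx0 (by linarith)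
  obtain ⟨zS, hS⟩ := h5 β x x x hβ0 hx0 hβx hx0 hx0
  obtain ⟨zB, hB⟩ := h6 β x x x x hβ hx0 hβx hx0 (by linarith) hx0 hx0
  obtain ⟨zP, hP⟩ := Sec3_pow C (ε0 / 2) (by linarith)
  obtain ⟨zL, hL⟩ := Sec3_large (β - (1 / 2 - β - x)) 2 (by linarith)
  obtain ⟨zG, hG⟩ := Sec3_log (3 / x)
  refine ⟨max 2 (max zN (max zE (max zS (max zB (max zP (max zL zG)))))), fun z hz => ?_⟩
  simp only [max_le_iff] at hz
  obtain ⟨hz2, hzN, hzE, hzS, hzB, hzP, hzL, hzG⟩ := hz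
  have hz0 : 0 < z := by linarith
  replace hN := hN z hzN
  replace hE := hE z hzE
  replace hS := hS z hzS
  replace hB := hB z hzB
  replace hP := hP z hzP
  replace hL := hL z hzL
  replace hG := hG z hzG
  set θ : ℝ := 1 / 2 - β - x with hθ
  set E0 : ℕ := ⌊z ^ θ⌋₊ with hE0
  set E1 : ℕ := ⌊(1 + x) * (E0 : ℝ)⌋₊ with hE1
  have hE12 : E1 ≤ 2 * E0 := by
    rw [hE1]
    have : (1 + x) * (E0 : ℝ) ≤ ((2 * E0 : ℕ) : ℝ) := by
      push_cast
      have : (0 : ℝ) ≤ E0 := Nat.cast_nonneg _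
      nlinarith
    exact (Nat.floor_le_floor this).trans (by rw [Nat.floor_natCast])
  have hmem : ∀ e ∈ Ep E0 E1, e.Prime ∧ E0 < e ∧ e ≤ 2 * E0 := by
    intro e he
    rw [Ep, mem_filter, mem_Ioc] at he
    exact ⟨he.2, he.1.1, he.1.2.trans hE12⟩
  have hzθ : (0 : ℝ) ≤ z ^ θ := Real.rpow_nonneg hz0.le _
  have hgt : ∀ e ∈ Ep E0 E1, z ^ θ < (e : ℝ) := fun e he =>
    (Nat.floor_lt hzθ).mp (hmem e he).2.1
  have hle : ∀ e ∈ Ep E0 E1, (e : ℝ) ≤ z ^ β := by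
    intro e he
    have h7 : (e : ℝ) ≤ 2 * (E0 : ℝ) := by exact_mod_cast (hmem e he).2.2
    have h8 : (E0 : ℝ) ≤ z ^ θ := Nat.floor_le hzθ
    have h9 : z ^ β = z ^ (β - θ) * z ^ θ := by
      rw [← Real.rpow_add hz0]; congr 1; ring
    rw [h9]
    nlinarith
  set L : ℝ := Real.log z with hLdef
  have hLpos : 0 < L := Real.log_pos (by linarith)
  set S : ℝ := ∑ e ∈ Ep E0 E1, 1 / (e : ℝ) with hSdef
  have hN' := hN (Ep E0 E1) (fun e he => hmem e he)
  have hCm := hCmb z hz2 (Ep E0 E1) (fun e he => ⟨(hmem e he).1, hle e he⟩)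
  set G : ℝ := (((Icc 1 ⌊z⌋₊).filter (fun p : ℕ => p.Prime ∧
      ∀ q ∈ (p - 1).primeFactors, (q : ℝ) ≤ z ^ β)).card : ℝ) with hGdef
  set M : ℝ := c0 * Real.log 2 * (z / L) * S with hM
  have hsmall : ∑ e ∈ Ep E0 E1,
      (((bad3 z β e).filter (fun t => (t.2.1 : ℝ) ≤ z ^ x)).card : ℝ) ≤
      (1 + x) * (2 * x / β ^ 2) * M := by
    calc ∑ e ∈ Ep E0 E1, (((bad3 z β e).filter (fun t => (t.2.1 : ℝ) ≤ z ^ x)).card : ℝ)
        ≤ ∑ e ∈ Ep E0 E1, (1 + x) * (2 * x / β ^ 2) * c0 * Real.log 2 * (z / L) / (e : ℝ) :=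
          sum_le_sum fun e he => hS e (hmem e he).1 (hgt e he) (hmem e he).2.2
      _ = (1 + x) * (2 * x / β ^ 2) * M := by
          rw [hM, hSdef]
          simp only [mul_sum]
          refine sum_congr rfl fun e _ => ?_
          ring
  have hbad : ∑ e ∈ Ep E0 E1, ((bad3 z β e).card : ℝ) ≤
      (1 + x) * (2 * x / β ^ 2) * M +
        (((1 + x) * (4 / (1 - 4 * x)) * Real.log ((1 / 2 + x) / β) + x) * M + z / L ^ 4) := by
    have h7 : ∑ e ∈ Ep E0 E1, ((bad3 z β e).card : ℝ) =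
        ∑ e ∈ Ep E0 E1, (((bad3 z β e).filter (fun t => (t.2.1 : ℝ) ≤ z ^ x)).card : ℝ) +
        ∑ e ∈ Ep E0 E1, (((bad3 z β e).filter (fun t => z ^ x < (t.2.1 : ℝ))).card : ℝ) := by
      rw [← sum_add_distrib]
      exact sum_congr rfl fun e _ => Sec3_split z β x e
    rw [h7]
    refine add_le_add hsmall (hB.trans (le_of_eq ?_))
    rw [hM]
    ring
  have hlog2 : (1 / 2 : ℝ) ≤ Real.log 2 := by
    have := Real.log_two_gt_d9
    linarith
  have hMlow : z / L / (2 * L ^ 2) ≤ M := by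
    have h7 : (1 / 2 : ℝ) ≤ c0 * Real.log 2 := by nlinarith
    have h8 : 0 < z / L := by positivity
    have h9 : (1 / 2 : ℝ) * (z / L) ≤ c0 * Real.log 2 * (z / L) := by
      exact mul_le_mul_of_nonneg_right h7 h8.le
    calc z / L / (2 * L ^ 2) = (1 / 2 : ℝ) * (z / L) * (1 / L ^ 2) := by field_simp
      _ ≤ c0 * Real.log 2 * (z / L) * S := by
          refine mul_le_mul h9 hE (by positivity) (by positivity)
      _ = M := rfl
  have hM0 : 0 ≤ M := le_trans (by positivity) hMlow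
  have hr4 : L ^ (4 : ℝ) = L ^ 4 := by
    rw [← Real.rpow_natCast]; norm_num
  rw [hr4] at hN'
  have hkey : 2 * x * M - 2 * (z / L ^ 4) ≤ C * z ^ (ε0 / 2) * G := by
    have h7 : ((1 + x) * (4 / (1 - 4 * x)) * Real.log ((1 / 2 + x) / β) +
        (1 + x) * (2 * x / β ^ 2) + x + 3 * x) * M ≤ 1 * M :=
      mul_le_mul_of_nonneg_right hF.le hM0
    have h8 : (1 - x) * c0 * Real.log 2 * (z / L) * S = (1 - x) * M := by rw [hM]; ring
    rw [h8] at hN'
    linarith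
  have hkey2 : z / L ^ 4 ≤ C * z ^ (ε0 / 2) * G := by
    have h7 : 3 * (z / L ^ 4) ≤ 2 * x * M := by
      have h8 : 3 ≤ x * L := by
        have := (div_le_iff₀ hx0).mp hG
        linarith
      calc 3 * (z / L ^ 4) ≤ (x * L) * (z / L ^ 4) := by
            refine mul_le_mul_of_nonneg_right h8 (by positivity)
        _ = 2 * x * (z / L / (2 * L ^ 2)) := by field_simp
        _ ≤ 2 * x * M := by
            refine mul_le_mul_of_nonneg_left hMlow (by positivity)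
    linarith
  have hzp : 0 < z ^ (ε0 / 2) := Real.rpow_pos_of_pos hz0 _
  have hfin : z ^ (1 - ε0) * (C * z ^ (ε0 / 2)) ≤ G * (C * z ^ (ε0 / 2)) := by
    have h7 : z ^ (1 - ε0) * (z ^ (ε0 / 2) * z ^ (ε0 / 2)) = z := by
      rw [← Real.rpow_add hz0, ← Real.rpow_add hz0]
      have : 1 - ε0 + (ε0 / 2 + ε0 / 2) = 1 := by ring
      rw [this, Real.rpow_one]
    have h8 : z ^ (1 - ε0) * (C * z ^ (ε0 / 2)) * L ^ 4 ≤ z := by
      have h9 : 0 < z ^ (1 - ε0) * z ^ (ε0 / 2) :=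
        mul_pos (Real.rpow_pos_of_pos hz0 _) hzp
      calc z ^ (1 - ε0) * (C * z ^ (ε0 / 2)) * L ^ 4
          = z ^ (1 - ε0) * z ^ (ε0 / 2) * (C * L ^ 4) := by ring
        _ ≤ z ^ (1 - ε0) * z ^ (ε0 / 2) * z ^ (ε0 / 2) :=
            mul_le_mul_of_nonneg_left hP h9.le
        _ = z := by rw [mul_assoc, h7]
    have h10 : z ^ (1 - ε0) * (C * z ^ (ε0 / 2)) ≤ z / L ^ 4 := by
      rw [le_div_iff₀ (by positivity)]
      exact h8
    linarith
  exact le_of_mul_le_mul_right hfin (by positivity)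

end Pool.Agent.Lib.MP_a260de_nt.CN3
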