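import Pool.Agent.Lib.MP_a260de_nt.CN3.SpecM

/-!
MP_a260de_nt, PROJECT CN, part A, strong version, module Sml: bound of the bad triples with small k
(adapted from CN/A/N2.lean).
-/

namespace Pool.Agent.Lib.MP_a260de_nt.CN3

open Finset Pool.Agent.Lib.MP_a260de_nt.CN.A

/-- the number of the pairs with bounded product -/
private theorem Sml_pairs (K : ℕ) (X : ℝ) (hX : 0 ≤ X) (L : Finset ℕ)
    (hL : ∀ l ∈ L, 1 ≤ l) :
    (((Icc 1 K ×ˢ L).filter (fun t => ((t.1 * t.2 : ℕ) : ℝ) ≤ X)).card : ℝ) ≤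
      X * (1 + Real.log K) := by
  have h1 : (((Icc 1 K ×ˢ L).filter (fun t => ((t.1 * t.2 : ℕ) : ℝ) ≤ X)).card : ℝ) =
      ∑ k ∈ Icc 1 K, ((L.filter (fun l => ((k * l : ℕ) : ℝ) ≤ X)).card : ℝ) := by
    rw [card_filter, sum_product]
    push_cast
    refine sum_congr rfl fun k _ => ?_
    rw [card_filter]
    push_cast
    rfl
  rw [h1]
  have h2 : ∀ k ∈ Icc 1 K, ((L.filter (fun l => ((k * l : ℕ) : ℝ) ≤ X)).card : ℝ) ≤
      X * ((k : ℝ))⁻¹ := by
    intro k hk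
    rw [mem_Icc] at hk
    have hk0 : (0 : ℝ) < k := by exact_mod_cast hk.1
    have h3 : L.filter (fun l => ((k * l : ℕ) : ℝ) ≤ X) ⊆ Icc 1 ⌊X * ((k : ℝ))⁻¹⌋₊ := by
      intro l hl
      rw [mem_filter] at hl
      rw [mem_Icc]
      refine ⟨hL l hl.1, Nat.le_floor ?_⟩
      rw [← div_eq_mul_inv, le_div_iff₀ hk0]
      have := hl.2
      push_cast at this
      linarith
    have h4 := card_le_card h3
    rw [Nat.card_Icc, Nat.add_sub_cancel] at h4
    calc ((L.filter (fun l => ((k * l : ℕ) : ℝ) ≤ X)).card : ℝ) ≤ (⌊X * ((k : ℝ))⁻¹⌋₊ : ℝ) := by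
          exact_mod_cast h4
      _ ≤ X * ((k : ℝ))⁻¹ := Nat.floor_le (by positivity)
  refine le_trans (sum_le_sum h2) ?_
  rw [← mul_sum]
  refine mul_le_mul_of_nonneg_left ?_ hX
  have h5 := harmonic_le_one_add_log K
  rw [harmonic_eq_sum_Icc] at h5
  push_cast at h5
  exact h5

theorem tSml (h1 : S_C0s) (h2 : S_PhU) (h3 : S_N2a) (h4 : S_N2b) : S_Sml := by
  intro β η κ ε hβ hη hβη hκ0 hε
  have hc0 : 0 < c0 := lt_of_lt_of_le one_pos h1.2
  have hl2 : 0 < Real.log 2 := Real.log_pos (by norm_num)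
  obtain ⟨W, hW⟩ : ∃ W : ℝ, W = 2 * κ / β ^ 2 * c0 * Real.log 2 := ⟨_, rfl⟩
  have hW0 : 0 < W := by rw [hW]; positivity
  obtain ⟨δ, hδ⟩ : ∃ δ : ℝ, δ = min 1 (ε * W / (7 * W + 1)) := ⟨_, rfl⟩
  have hδ0 : 0 < δ := by rw [hδ]; exact lt_min one_pos (by positivity)
  have hδ1 : δ ≤ 1 := by rw [hδ]; exact min_le_left _ _
  have hδW : 7 * δ * W + δ ≤ ε * W := by
    have h5 : δ ≤ ε * W / (7 * W + 1) := by rw [hδ]; exact min_le_right _ _
    rw [le_div_iff₀ (by positivity)] at h5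
    linarith
  have hθ : 0 < 1 / 2 - β - η := by linarith
  obtain ⟨za, hza⟩ := h3 β (1 / 2 - β - η) δ hβ hθ hδ0 hδ1
  obtain ⟨zb, hzb⟩ := h4 β δ hβ hδ0
  have hr : 0 < β * δ / 4 := by positivity
  have hcc : 0 < δ / (2 * (1 + δ) * κ) := by positivity
  have ev : ∀ᶠ z : ℝ in Filter.atTop, za ≤ z ∧ zb ≤ z ∧ 2 ≤ z ∧
      (1 + Real.log 2) / (δ * κ) ≤ Real.log z ∧
      ‖Real.log z ^ (2 : ℝ)‖ ≤ δ / (2 * (1 + δ) * κ) * ‖z ^ (β * δ / 4)‖ := by
    filter_upwards [Filter.eventually_ge_atTop za, Filter.eventually_ge_atTop zb,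
      Filter.eventually_ge_atTop 2,
      Real.tendsto_log_atTop.eventually_ge_atTop ((1 + Real.log 2) / (δ * κ)),
      (isLittleO_log_rpow_rpow_atTop 2 hr).bound hcc] with z a b c d f
    exact ⟨a, b, c, d, f⟩
  obtain ⟨z0, hz0⟩ := Filter.eventually_atTop.1 ev
  refine ⟨z0, fun z hz e he hez _ => ?_⟩
  obtain ⟨hz1, hz2, hz3, hz4, hz5⟩ := hz0 z hz
  have hzp : 0 < z := by linarith
  have hL : 0 < Real.log z := Real.log_pos (by linarith)
  have he0 : (0 : ℝ) < e := by exact_mod_cast he.pos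
  -- the range of k
  obtain ⟨X0, hX0⟩ : ∃ X0 : ℝ, X0 = 2 * z ^ κ := ⟨_, rfl⟩
  have hzk : 1 ≤ z ^ κ := Real.one_le_rpow (by linarith) hκ0.le
  obtain ⟨K, hK⟩ : ∃ K : ℕ, K = ⌊X0⌋₊ := ⟨_, rfl⟩
  have hK1 : 1 ≤ K := by
    rw [hK]
    apply Nat.le_floor
    rw [hX0]
    push_cast
    linarith
  have hKX : (K : ℝ) ≤ X0 := by rw [hK]; exact Nat.floor_le (by rw [hX0]; positivity)
  have hlK : 1 + Real.log K ≤ (1 + δ) * κ * Real.log z := by
    have h5 : Real.log K ≤ Real.log X0 :=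
      Real.log_le_log (by exact_mod_cast hK1) hKX
    rw [hX0, Real.log_mul (by norm_num) (by positivity), Real.log_rpow hzp] at h5
    rw [div_le_iff₀ (by positivity)] at hz4
    nlinarith
  obtain ⟨X, hX⟩ : ∃ X : ℝ, X = 2 * z ^ (1 - β) / e := ⟨_, rfl⟩
  have hXp : 0 ≤ X := by rw [hX]; positivity
  set L : Finset ℕ := (Icc 1 ⌊z⌋₊).filter (fun l : ℕ => l.Prime ∧ z ^ β < (l : ℝ)) with hLdef
  set P : Finset (ℕ × ℕ) := (Icc 1 K ×ˢ L).filter (fun t => ((t.1 * t.2 : ℕ) : ℝ) ≤ X) with hP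
  -- the triples lie over P
  set B : Finset (ℕ × ℕ × ℕ) := (bad3 z β e).filter (fun t => (t.2.1 : ℝ) ≤ z ^ κ) with hB
  have hmem : ∀ t ∈ B, t.2 ∈ P := by
    rintro ⟨s, k, l⟩ ht
    rw [hB, mem_filter, bad3, mem_filter, mem_product, mem_product, mem_Icc, mem_Icc,
      mem_Icc] at ht
    obtain ⟨⟨⟨hs1, hk1, hl1⟩, hs, hlp, hlz, hpr, hle⟩, hkz⟩ := ht
    simp only at hs1 hk1 hl1 hs hlp hlz hpr hle hkz
    rw [Sr, mem_Ioc] at hs
    have h5 : ⌊z ^ β⌋₊ < 2 * s := by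
      have := hs.1
      omega
    have h6 : z ^ β < 2 * (s : ℝ) := by
      have h7 : (⌊z ^ β⌋₊ : ℝ) + 1 ≤ 2 * s := by exact_mod_cast h5
      have h8 := Nat.lt_floor_add_one (z ^ β)
      linarith
    have hzb0 : 0 < z ^ β := Real.rpow_pos_of_pos hzp _
    have hk0 : (0 : ℝ) < k := by exact_mod_cast hk1.1
    have hl0 : (0 : ℝ) < l := by exact_mod_cast hl1.1
    have hs0 : (0 : ℝ) < s := by exact_mod_cast hs1.1
    have h7 : (e : ℝ) * k * l * s ≤ z := by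
      push_cast at hle
      linarith
    have h8 : (e : ℝ) * (k * l) * z ^ β ≤ 2 * z := by
      have : (e : ℝ) * (k * l) * z ^ β ≤ (e : ℝ) * (k * l) * (2 * s) :=
        mul_le_mul_of_nonneg_left h6.le (by positivity)
      nlinarith
    rw [hP, mem_filter, mem_product, mem_Icc, hLdef, mem_filter, mem_Icc]
    refine ⟨⟨⟨hk1.1, ?_⟩, hl1, hlp, hlz⟩, ?_⟩
    · show k ≤ K
      rw [hK]
      apply Nat.le_floor
      rw [hX0]
      have h9 : 0 < z ^ κ := Real.rpow_pos_of_pos hzp _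
      linarith
    · show ((k * l : ℕ) : ℝ) ≤ X
      rw [hX, le_div_iff₀ he0]
      push_cast
      have h9 : z ^ (1 - β) * z ^ β = z := by
        rw [← Real.rpow_add hzp]
        have : 1 - β + β = 1 := by ring
        rw [this, Real.rpow_one]
      have h10 : (k : ℝ) * l * e * z ^ β ≤ 2 * z ^ (1 - β) * z ^ β := by
        calc (k : ℝ) * l * e * z ^ β = (e : ℝ) * (k * l) * z ^ β := by ring
          _ ≤ 2 * z := h8
          _ = 2 * z ^ (1 - β) * z ^ β := by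
            rw [mul_assoc, h9]
      exact le_of_mul_le_mul_right h10 hzb0
  have hcard : (B.card : ℝ) ≤ ∑ t ∈ P, (ct z β e t.1 t.2 : ℝ) := by
    rw [card_eq_sum_card_fiberwise (s := B) (f := fun t : ℕ × ℕ × ℕ => t.2) (t := P)
      (fun t ht => mem_coe.2 (hmem t (mem_coe.1 ht)))]
    push_cast
    refine sum_le_sum fun t _ => ?_
    have h5 : (B.filter (fun a => a.2 = t)).card ≤ ct z β e t.1 t.2 := by
      rw [ct]
      apply card_le_card_of_injOn (fun a => a.1)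
      · intro a ha
        rw [mem_coe, mem_filter] at ha
        obtain ⟨ha1, ha2⟩ := ha
        rw [hB, mem_filter, bad3, mem_filter] at ha1
        rw [mem_coe, mem_filter, ← ha2]
        exact ⟨ha1.1.2.1, ha1.1.2.2.2.2.1, ha1.1.2.2.2.2.2⟩
      · intro a ha a' ha' haa
        rw [mem_coe, mem_filter] at ha ha'
        exact Prod.ext haa (ha.2.trans ha'.2.symm)
    exact_mod_cast h5
  -- the bound for each pair
  obtain ⟨Q, hQ⟩ : ∃ Q : ℝ, Q = z ^ (β * (1 - δ / 4)) := ⟨_, rfl⟩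
  have hQ0 : 0 ≤ Q := by rw [hQ]; positivity
  have hsum1 : ∑ t ∈ P, (ct z β e t.1 t.2 : ℝ) ≤
      ∑ t ∈ P, ((1 + δ) * (2 / (β * Real.log z)) * ((t.1 : ℝ) / (t.1.totient : ℝ)) *
        (CN.A.hh z β e t.1 t.2 : ℝ) + Q) := by
    refine sum_le_sum fun t ht => ?_
    rw [hP, mem_filter, mem_product, mem_Icc, hLdef, mem_filter] at ht
    rw [hQ]
    exact hza z hz1 e t.1 t.2 he hez ht.1.1.1 ht.1.2.2.1 ht.1.2.2.2
  rw [sum_add_distrib, sum_const, nsmul_eq_mul] at hsum1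
  have hPc : (P.card : ℝ) ≤ X * (1 + Real.log K) := by
    apply Sml_pairs K X hXp L
    intro l hl
    rw [hLdef, mem_filter, mem_Icc] at hl
    exact hl.1.1
  have hmain : ∑ t ∈ P, (1 + δ) * (2 / (β * Real.log z)) * ((t.1 : ℝ) / (t.1.totient : ℝ)) *
        (CN.A.hh z β e t.1 t.2 : ℝ) ≤ ∑ k ∈ Icc 1 K, (1 + δ) * (2 / (β * Real.log z)) *
        ((k : ℝ) / (k.totient : ℝ)) * ((1 + δ) * Real.log 2 * z / ((e : ℝ) * k * β * Real.log z)) := by
    calc ∑ t ∈ P, (1 + δ) * (2 / (β * Real.log z)) * ((t.1 : ℝ) / (t.1.totient : ℝ)) *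
        (CN.A.hh z β e t.1 t.2 : ℝ) ≤ ∑ t ∈ Icc 1 K ×ˢ L, (1 + δ) * (2 / (β * Real.log z)) *
        ((t.1 : ℝ) / (t.1.totient : ℝ)) * (CN.A.hh z β e t.1 t.2 : ℝ) :=
          sum_le_sum_of_subset_of_nonneg (filter_subset _ _) fun t _ _ => by positivity
      _ = ∑ k ∈ Icc 1 K, ∑ l ∈ L, (1 + δ) * (2 / (β * Real.log z)) *
        ((k : ℝ) / (k.totient : ℝ)) * (CN.A.hh z β e k l : ℝ) := sum_product _ _ _
      _ ≤ _ := by
        refine sum_le_sum fun k hk => ?_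
        rw [mem_Icc] at hk
        rw [← mul_sum]
        exact mul_le_mul_of_nonneg_left (hzb z hz2 e k he.one_lt.le hk.1) (by positivity)
  have hmain2 : ∑ k ∈ Icc 1 K, (1 + δ) * (2 / (β * Real.log z)) *
        ((k : ℝ) / (k.totient : ℝ)) * ((1 + δ) * Real.log 2 * z / ((e : ℝ) * k * β * Real.log z)) =
      (1 + δ) ^ 2 * (2 / β ^ 2) * Real.log 2 * (z / Real.log z) / e / Real.log z *
        ∑ k ∈ Icc 1 K, 1 / (k.totient : ℝ) := by
    rw [mul_sum]
    refine sum_congr rfl fun k hk => ?_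
    rw [mem_Icc] at hk
    have hk0 : (k : ℝ) ≠ 0 := by
      have : (0 : ℝ) < k := by exact_mod_cast hk.1
      exact this.ne'
    have hk1 : (k.totient : ℝ) ≠ 0 := by
      have : (0 : ℝ) < k.totient := by exact_mod_cast Nat.totient_pos.2 hk.1
      exact this.ne'
    have hL0 := hL.ne'
    have he1 := he0.ne'
    have hβ0 := hβ.ne'
    field_simp
  have hphu := h2 K hK1
  have hphu2 : ∑ k ∈ Icc 1 K, 1 / (k.totient : ℝ) ≤ c0 * ((1 + δ) * κ * Real.log z) :=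
    le_trans hphu (mul_le_mul_of_nonneg_left hlK hc0.le)
  obtain ⟨M, hM⟩ : ∃ M : ℝ, M = (z / Real.log z) / e := ⟨_, rfl⟩
  have hM0 : 0 < M := by rw [hM]; positivity
  have hmain3 : (1 + δ) ^ 2 * (2 / β ^ 2) * Real.log 2 * (z / Real.log z) / e / Real.log z *
        ∑ k ∈ Icc 1 K, 1 / (k.totient : ℝ) ≤ (1 + δ) ^ 3 * W * M := by
    calc (1 + δ) ^ 2 * (2 / β ^ 2) * Real.log 2 * (z / Real.log z) / e / Real.log z *
        ∑ k ∈ Icc 1 K, 1 / (k.totient : ℝ) ≤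
        (1 + δ) ^ 2 * (2 / β ^ 2) * Real.log 2 * (z / Real.log z) / e / Real.log z *
        (c0 * ((1 + δ) * κ * Real.log z)) := mul_le_mul_of_nonneg_left hphu2 (by positivity)
      _ = (1 + δ) ^ 3 * W * M := by
        rw [hW, hM]
        have hL0 := hL.ne'
        have he1 := he0.ne'
        have hβ0 := hβ.ne'
        field_simp
  -- the remainder
  have hrem : (P.card : ℝ) * Q ≤ δ * M := by
    have h5 : (P.card : ℝ) * Q ≤ X * ((1 + δ) * κ * Real.log z) * Q :=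
      mul_le_mul_of_nonneg_right (le_trans hPc (mul_le_mul_of_nonneg_left hlK hXp)) hQ0
    refine le_trans h5 ?_
    rw [Real.rpow_two, Real.norm_of_nonneg (by positivity),
      Real.norm_of_nonneg (by positivity)] at hz5
    have h6 : z ^ (1 - β) * Q * z ^ (β * δ / 4) = z := by
      rw [hQ, ← Real.rpow_add hzp, ← Real.rpow_add hzp]
      have : 1 - β + β * (1 - δ / 4) + β * δ / 4 = 1 := by ring
      rw [this, Real.rpow_one]
    have h7 : 2 * (1 + δ) * κ * Real.log z ^ 2 ≤ δ * z ^ (β * δ / 4) := by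
      have h8 := mul_le_mul_of_nonneg_left hz5 (show (0 : ℝ) ≤ 2 * (1 + δ) * κ by positivity)
      have h9 : 2 * (1 + δ) * κ * (δ / (2 * (1 + δ) * κ) * z ^ (β * δ / 4)) =
          δ * z ^ (β * δ / 4) := by
        have : (2 * (1 + δ) * κ) ≠ 0 := by positivity
        field_simp
      linarith
    rw [hM, hX, div_div, mul_div_assoc', le_div_iff₀ (by positivity)]
    have h8 : 2 * z ^ (1 - β) / ↑e * ((1 + δ) * κ * Real.log z) * Q * (Real.log z * ↑e) =
        (z ^ (1 - β) * Q) * (2 * (1 + δ) * κ * Real.log z ^ 2) := by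
      have he1 := he0.ne'
      field_simp
    rw [h8]
    calc (z ^ (1 - β) * Q) * (2 * (1 + δ) * κ * Real.log z ^ 2) ≤
        (z ^ (1 - β) * Q) * (δ * z ^ (β * δ / 4)) :=
          mul_le_mul_of_nonneg_left h7 (by positivity)
      _ = δ * (z ^ (1 - β) * Q * z ^ (β * δ / 4)) := by ring
      _ = δ * z := by rw [h6]
  have hcub : (1 + δ) ^ 3 ≤ 1 + 7 * δ := by
    have h5 : δ * δ ≤ δ := by nlinarith
    have h6 : δ * (δ * δ) ≤ δ := by nlinarith
    have h7 : (1 + δ) ^ 3 = 1 + 3 * δ + 3 * (δ * δ) + δ * (δ * δ) := by ring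
    linarith
  have hfin : (1 + ε) * (2 * κ / β ^ 2) * c0 * Real.log 2 * (z / Real.log z) / e =
      (1 + ε) * W * M := by
    rw [hW, hM]
    ring
  rw [hfin]
  have h5 : (1 + δ) ^ 3 * W * M ≤ (1 + 7 * δ) * W * M :=
    mul_le_mul_of_nonneg_right (mul_le_mul_of_nonneg_right hcub hW0.le) hM0.le
  have h6 : (7 * δ * W + δ) * M ≤ ε * W * M := mul_le_mul_of_nonneg_right hδW hM0.le
  have h7 : (1 + 7 * δ) * W * M + δ * M = W * M + (7 * δ * W + δ) * M := by ring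
  have h8 : (1 + ε) * W * M = W * M + ε * W * M := by ring
  linarith

end Pool.Agent.Lib.MP_a260de_nt.CN3
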