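import Pool.Agent.Lib.MP_a260de_nt.CN3.SpecM

/-!
MP_a260de_nt, PROJECT CN, part A, strong version: Selberg's inequality.
-/

set_option autoImplicit false

namespace Pool.Agent.Lib.MP_a260de_nt.CN3

open Finset

private theorem Svi_sq (Δ m : ℕ) (lam : ℕ → ℝ) :
    ∑ d ∈ Icc 1 Δ, ∑ d' ∈ Icc 1 Δ, lam d * lam d' * (if Nat.lcm d d' ∣ m then (1 : ℝ) else 0) =
      (∑ d ∈ Icc 1 Δ, if d ∣ m then lam d else 0) ^ 2 := by
  rw [sq, Finset.sum_mul_sum]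
  refine Finset.sum_congr rfl fun d _ => Finset.sum_congr rfl fun d' _ => ?_
  by_cases h1 : d ∣ m <;> by_cases h2 : d' ∣ m <;> simp [Nat.lcm_dvd_iff, h1, h2]

private theorem Svi_one (Δ m : ℕ) (lam : ℕ → ℝ) (h1 : lam 1 = 1) (hΔ : 1 ≤ Δ) (hm : Δ < m)
    (hp : m.Prime) : (∑ d ∈ Icc 1 Δ, if d ∣ m then lam d else 0) = 1 := by
  rw [Finset.sum_eq_single 1]
  · simp [h1]
  · intro d hd hd1
    rw [if_neg]
    intro hdm
    rcases (Nat.dvd_prime hp).1 hdm with h | h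
    · exact hd1 h
    · have := (Finset.mem_Icc.1 hd).2
      omega
  · intro h
    exact absurd (Finset.mem_Icc.2 ⟨le_rfl, hΔ⟩) h

private theorem Svi_big (E0 E1 Y K N Δ : ℕ) (hY : Δ ≤ Y) (w : ℕ × ℕ × ℕ × ℕ)
    (hw : w ∈ Ep E0 E1 ×ˢ Tr Y K N) : Δ < w.1 * pt w.2 + 1 := by
  obtain ⟨e, s, l, k⟩ := w
  obtain ⟨he, ht⟩ := Finset.mem_product.1 hw
  simp only [Tr, Finset.mem_filter, Finset.mem_product, Finset.mem_Ioc] at ht
  have he1 : 0 < e := ((Finset.mem_filter.1 he).2).pos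
  have hs : 0 < s := by omega
  have hk : 0 < k := by omega
  have hl : Y < l := by omega
  have h : l ≤ e * pt (s, l, k) := by
    have h2 : l * 1 ≤ l * (e * s * k) :=
      Nat.mul_le_mul_left l (Nat.mul_pos (Nat.mul_pos he1 hs) hk)
    calc l = l * 1 := (mul_one l).symm
      _ ≤ l * (e * s * k) := h2
      _ = e * pt (s, l, k) := by simp only [pt]; ring
  show Δ < e * pt (s, l, k) + 1
  omega

theorem tSvi : S_Svi := by
  intro E0 E1 Y K N Δ lam h1 hΔ hY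
  have hA : ∀ D : ℕ, (AA E0 E1 Y K N D : ℝ) =
      ∑ w ∈ Ep E0 E1 ×ˢ Tr Y K N, if D ∣ w.1 * pt w.2 + 1 then (1 : ℝ) else 0 := by
    intro D
    rw [AA, Finset.card_filter]
    push_cast
    rfl
  have hR : ∑ d ∈ Icc 1 Δ, ∑ d' ∈ Icc 1 Δ, lam d * lam d' * (AA E0 E1 Y K N (Nat.lcm d d') : ℝ) =
      ∑ w ∈ Ep E0 E1 ×ˢ Tr Y K N,
        (∑ d ∈ Icc 1 Δ, if d ∣ w.1 * pt w.2 + 1 then lam d else 0) ^ 2 := by
    calc ∑ d ∈ Icc 1 Δ, ∑ d' ∈ Icc 1 Δ, lam d * lam d' * (AA E0 E1 Y K N (Nat.lcm d d') : ℝ)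
        = ∑ d ∈ Icc 1 Δ, ∑ d' ∈ Icc 1 Δ, ∑ w ∈ Ep E0 E1 ×ˢ Tr Y K N,
            lam d * lam d' * (if Nat.lcm d d' ∣ w.1 * pt w.2 + 1 then (1 : ℝ) else 0) := by
          refine Finset.sum_congr rfl fun d _ => Finset.sum_congr rfl fun d' _ => ?_
          rw [hA, Finset.mul_sum]
      _ = ∑ d ∈ Icc 1 Δ, ∑ w ∈ Ep E0 E1 ×ˢ Tr Y K N, ∑ d' ∈ Icc 1 Δ,
            lam d * lam d' * (if Nat.lcm d d' ∣ w.1 * pt w.2 + 1 then (1 : ℝ) else 0) :=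
          Finset.sum_congr rfl fun d _ => Finset.sum_comm
      _ = ∑ w ∈ Ep E0 E1 ×ˢ Tr Y K N, ∑ d ∈ Icc 1 Δ, ∑ d' ∈ Icc 1 Δ,
            lam d * lam d' * (if Nat.lcm d d' ∣ w.1 * pt w.2 + 1 then (1 : ℝ) else 0) :=
          Finset.sum_comm
      _ = _ := Finset.sum_congr rfl fun w _ => Svi_sq Δ (w.1 * pt w.2 + 1) lam
  rw [hR, Finset.card_filter]
  push_cast
  refine Finset.sum_le_sum fun w hw => ?_
  by_cases hp : (w.1 * pt w.2 + 1).Prime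
  · rw [if_pos hp, Svi_one Δ _ lam h1 hΔ (Svi_big E0 E1 Y K N Δ hY w hw) hp]
    norm_num
  · rw [if_neg hp]
    exact sq_nonneg _

end Pool.Agent.Lib.MP_a260de_nt.CN3
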