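import Pool.Agent.Lib.MP_a260de_nt.CN3.SpecM

/-!
MP_a260de_nt, PROJECT CN, part A, strong version: module Trc (triples coprime to D)
-/

set_option autoImplicit false

namespace Pool.Agent.Lib.MP_a260de_nt.CN3

open Finset

/-- the indicator of the numbers coprime to `D` -/
private noncomputable def Trc_ci (D x : ℕ) : ℝ := if x.Coprime D then 1 else 0

/-- the indicator of the triples -/
private noncomputable def Trc_J (N s l k : ℕ) : ℝ := if l.Prime ∧ s * l * k ≤ N then 1 else 0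

private theorem Trc_ci_nonneg (D x : ℕ) : 0 ≤ Trc_ci D x := by
  unfold Trc_ci
  split_ifs <;> norm_num

private theorem Trc_ci_le (D x : ℕ) : Trc_ci D x ≤ 1 := by
  unfold Trc_ci
  split_ifs <;> norm_num

private theorem Trc_cnt (M c a b : ℕ) (hc : 1 ≤ c) :
    ∑ x ∈ Ioc a b, (if x * c ≤ M then (1 : ℝ) else 0) ≤ (M : ℝ) / c := by
  rw [← Finset.sum_filter]
  simp only [sum_const, nsmul_eq_mul, mul_one]
  have h : (Ioc a b).filter (fun x => x * c ≤ M) ⊆ Ioc 0 (M / c) := by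
    intro x hx
    simp only [mem_filter, mem_Ioc] at hx ⊢
    exact ⟨by omega, (Nat.le_div_iff_mul_le hc).2 hx.2⟩
  calc (((Ioc a b).filter (fun x => x * c ≤ M)).card : ℝ) ≤ ((Ioc 0 (M / c)).card : ℝ) := by
        exact_mod_cast card_le_card h
    _ = ((M / c : ℕ) : ℝ) := by simp
    _ ≤ (M : ℝ) / c := Nat.cast_div_le

private theorem Trc_one (hCop : S_Cop) (D : ℕ) (hD : 1 ≤ D) (M c a b : ℕ) (hc : 1 ≤ c) :
    |∑ x ∈ Ioc a b, (if x * c ≤ M then (Trc_ci D x - (D.totient : ℝ) / D) else 0)| ≤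
      2 ^ om D * (if (a + 1) * c ≤ M then 1 else 0) := by
  by_cases h : (a + 1) * c ≤ M
  · rw [if_pos h, mul_one]
    rcases le_total b a with hab | hab
    · rw [Ioc_eq_empty_of_le hab, sum_empty, abs_zero]
      positivity
    · rw [← Finset.sum_filter]
      have h1 : (Ioc a b).filter (fun x => x * c ≤ M) = Ioc a (min b (M / c)) := by
        ext x
        simp only [mem_filter, mem_Ioc, le_min_iff, Nat.le_div_iff_mul_le hc]
        tauto
      have hle : a ≤ min b (M / c) := le_min hab (by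
        have := (Nat.le_div_iff_mul_le hc).2 h
        omega)
      have h2 := hCop D a (min b (M / c)) hD hle
      have e1 : ∑ x ∈ Ioc a (min b (M / c)), Trc_ci D x =
          (((Ioc a (min b (M / c))).filter (fun s => s.Coprime D)).card : ℝ) := by
        unfold Trc_ci
        rw [← sum_filter]
        simp
      rw [h1, sum_sub_distrib, e1, sum_const, nsmul_eq_mul, Nat.card_Ioc, Nat.cast_sub hle]
      exact h2
  · rw [if_neg h, mul_zero, sum_eq_zero, abs_zero]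
    intro x hx
    rw [if_neg]
    intro h'
    rw [mem_Ioc] at hx
    exact h (le_trans (Nat.mul_le_mul_right c (by omega)) h')

private theorem Trc_card (Y K N D : ℕ) :
    (((Tr Y K N).filter (fun t => (pt t).Coprime D)).card : ℝ) =
      ∑ s ∈ Ioc (Y / 2) Y, ∑ l ∈ Ioc Y N, ∑ k ∈ Ioc K N,
        Trc_J N s l k * (Trc_ci D s * Trc_ci D l * Trc_ci D k) := by
  rw [Tr, Finset.filter_filter, Finset.card_filter, Finset.sum_product, Nat.cast_sum]
  refine Finset.sum_congr rfl fun s _ => ?_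
  rw [Finset.sum_product, Nat.cast_sum]
  refine Finset.sum_congr rfl fun l _ => ?_
  rw [Nat.cast_sum]
  refine Finset.sum_congr rfl fun k _ => ?_
  unfold Trc_J Trc_ci pt
  simp only [Nat.coprime_mul_iff_left]
  split_ifs <;> first | (exfalso; tauto) | simp

private theorem Trc_all (Y K N : ℕ) :
    ((Tr Y K N).card : ℝ) =
      ∑ s ∈ Ioc (Y / 2) Y, ∑ l ∈ Ioc Y N, ∑ k ∈ Ioc K N, Trc_J N s l k := by
  rw [Tr, Finset.card_filter, Finset.sum_product, Nat.cast_sum]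
  refine Finset.sum_congr rfl fun s _ => ?_
  rw [Finset.sum_product, Nat.cast_sum]
  refine Finset.sum_congr rfl fun l _ => ?_
  rw [Nat.cast_sum]
  refine Finset.sum_congr rfl fun k _ => ?_
  unfold Trc_J
  split_ifs <;> simp

/-- the sum of `1 / s`, `Y / 2 < s ≤ Y` -/
private theorem Trc_half (Y : ℕ) : ∑ s ∈ Ioc (Y / 2) Y, 1 / (s : ℝ) ≤ 1 := by
  have h1 : ∀ s ∈ Ioc (Y / 2) Y, 1 / (s : ℝ) ≤ 1 / ((Y / 2 + 1 : ℕ) : ℝ) := by
    intro s hs
    rw [mem_Ioc] at hs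
    refine one_div_le_one_div_of_le (by positivity) ?_
    exact_mod_cast hs.1
  calc ∑ s ∈ Ioc (Y / 2) Y, 1 / (s : ℝ) ≤ ∑ s ∈ Ioc (Y / 2) Y, 1 / ((Y / 2 + 1 : ℕ) : ℝ) := sum_le_sum h1
    _ = ((Y - Y / 2 : ℕ) : ℝ) * (1 / ((Y / 2 + 1 : ℕ) : ℝ)) := by
        rw [sum_const, nsmul_eq_mul, Nat.card_Ioc]
    _ ≤ ((Y / 2 + 1 : ℕ) : ℝ) * (1 / ((Y / 2 + 1 : ℕ) : ℝ)) := by
        refine mul_le_mul_of_nonneg_right ?_ (by positivity)
        exact_mod_cast (by omega : Y - Y / 2 ≤ Y / 2 + 1)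
    _ = 1 := by
        rw [mul_one_div, div_self]
        positivity

/-- the sum of `1 / l`, `Y < l ≤ N` -/
private theorem Trc_harm (Y N : ℕ) : ∑ l ∈ Ioc Y N, 1 / (l : ℝ) ≤ 1 + Real.log N := by
  have h1 := harmonic_le_one_add_log N
  have h2 : ((harmonic N : ℚ) : ℝ) = ∑ l ∈ Icc 1 N, 1 / (l : ℝ) := by
    rw [harmonic_eq_sum_Icc]
    push_cast
    refine sum_congr rfl fun l _ => ?_
    rw [one_div]
  rw [h2] at h1
  refine le_trans (sum_le_sum_of_subset_of_nonneg ?_ fun l _ _ => by positivity) h1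
  intro l hl
  rw [mem_Ioc] at hl
  rw [mem_Icc]
  omega

/-- the coordinate `s` -/
private theorem Trc_A1 (hCop : S_Cop) (Y K N D : ℕ) (hY : 2 ≤ Y) (hD : 1 ≤ D) :
    |∑ l ∈ Ioc Y N, ∑ k ∈ Ioc K N, Trc_ci D l * Trc_ci D k *
      ∑ s ∈ Ioc (Y / 2) Y, Trc_J N s l k * (Trc_ci D s - (D.totient : ℝ) / D)| ≤
      2 ^ om D * ((N : ℝ) * (1 + Real.log N) * (2 / (Y : ℝ))) := by
  have hJ : ∀ l ∈ Ioc Y N, ∀ k ∈ Ioc K N, |Trc_ci D l * Trc_ci D k *
      ∑ s ∈ Ioc (Y / 2) Y, Trc_J N s l k * (Trc_ci D s - (D.totient : ℝ) / D)| ≤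
      2 ^ om D * (if k * ((Y / 2 + 1) * l) ≤ N then 1 else 0) := by
    intro l hl k hk
    rw [mem_Ioc] at hl hk
    rw [abs_mul]
    have h1 : |Trc_ci D l * Trc_ci D k| ≤ 1 := by
      rw [abs_of_nonneg (mul_nonneg (Trc_ci_nonneg _ _) (Trc_ci_nonneg _ _))]
      exact mul_le_one₀ (Trc_ci_le _ _) (Trc_ci_nonneg _ _) (Trc_ci_le _ _)
    have h2 : |∑ s ∈ Ioc (Y / 2) Y, Trc_J N s l k * (Trc_ci D s - (D.totient : ℝ) / D)| ≤
        2 ^ om D * (if k * ((Y / 2 + 1) * l) ≤ N then 1 else 0) := by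
      by_cases hp : l.Prime
      · have h3 := Trc_one hCop D hD N (l * k) (Y / 2) Y (Nat.mul_pos (by omega) (by omega))
        have e1 : ∀ s, Trc_J N s l k * (Trc_ci D s - (D.totient : ℝ) / D) =
            (if s * (l * k) ≤ N then (Trc_ci D s - (D.totient : ℝ) / D) else 0) := by
          intro s
          unfold Trc_J
          rw [← mul_assoc]
          by_cases h : s * l * k ≤ N
          · rw [if_pos ⟨hp, h⟩, if_pos h, one_mul]
          · rw [if_neg (fun hh => h hh.2), if_neg h, zero_mul]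
        have e2 : k * ((Y / 2 + 1) * l) = (Y / 2 + 1) * (l * k) := by ring
        rw [e2]
        simp only [e1]
        exact h3
      · have e1 : ∀ s, Trc_J N s l k * (Trc_ci D s - (D.totient : ℝ) / D) = 0 := by
          intro s
          unfold Trc_J
          rw [if_neg (fun hh => hp hh.1), zero_mul]
        simp only [e1, sum_const_zero, abs_zero]
        split_ifs <;> positivity
    calc |Trc_ci D l * Trc_ci D k| *
          |∑ s ∈ Ioc (Y / 2) Y, Trc_J N s l k * (Trc_ci D s - (D.totient : ℝ) / D)|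
        ≤ 1 * |∑ s ∈ Ioc (Y / 2) Y, Trc_J N s l k * (Trc_ci D s - (D.totient : ℝ) / D)| :=
          mul_le_mul_of_nonneg_right h1 (abs_nonneg _)
      _ ≤ _ := by rw [one_mul]; exact h2
  have hYp : (0 : ℝ) < Y := by exact_mod_cast (by omega : 0 < Y)
  calc |∑ l ∈ Ioc Y N, ∑ k ∈ Ioc K N, Trc_ci D l * Trc_ci D k *
        ∑ s ∈ Ioc (Y / 2) Y, Trc_J N s l k * (Trc_ci D s - (D.totient : ℝ) / D)|
      ≤ ∑ l ∈ Ioc Y N, ∑ k ∈ Ioc K N, |Trc_ci D l * Trc_ci D k *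
        ∑ s ∈ Ioc (Y / 2) Y, Trc_J N s l k * (Trc_ci D s - (D.totient : ℝ) / D)| :=
        (abs_sum_le_sum_abs _ _).trans (sum_le_sum fun l _ => abs_sum_le_sum_abs _ _)
    _ ≤ ∑ l ∈ Ioc Y N, ∑ k ∈ Ioc K N, 2 ^ om D * (if k * ((Y / 2 + 1) * l) ≤ N then (1 : ℝ) else 0) :=
        sum_le_sum fun l hl => sum_le_sum fun k hk => hJ l hl k hk
    _ = 2 ^ om D * ∑ l ∈ Ioc Y N, ∑ k ∈ Ioc K N, (if k * ((Y / 2 + 1) * l) ≤ N then (1 : ℝ) else 0) := by
        rw [mul_sum]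
        exact sum_congr rfl fun l _ => (mul_sum _ _ _).symm
    _ ≤ 2 ^ om D * ∑ l ∈ Ioc Y N, (N : ℝ) * (2 / (Y : ℝ)) * (1 / (l : ℝ)) := by
        refine mul_le_mul_of_nonneg_left (sum_le_sum fun l hl => ?_) (by positivity)
        rw [mem_Ioc] at hl
        refine (Trc_cnt N ((Y / 2 + 1) * l) K N (Nat.mul_pos (by omega) (by omega))).trans ?_
        have hl0 : (0 : ℝ) < l := by exact_mod_cast (by omega : 0 < l)
        have h5 : (Y : ℝ) ≤ 2 * ((Y / 2 + 1 : ℕ) : ℝ) := by exact_mod_cast (by omega : Y ≤ 2 * (Y / 2 + 1))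
        have h6 : (0 : ℝ) < ((Y / 2 + 1 : ℕ) : ℝ) := by positivity
        have e3 : (N : ℝ) * (2 / (Y : ℝ)) * (1 / (l : ℝ)) = (N : ℝ) / ((Y : ℝ) / 2 * l) := by
          field_simp
        rw [e3, Nat.cast_mul]
        refine div_le_div_of_nonneg_left (Nat.cast_nonneg N) (by positivity) ?_
        exact mul_le_mul_of_nonneg_right (by linarith) hl0.le
    _ = 2 ^ om D * ((N : ℝ) * (2 / (Y : ℝ)) * ∑ l ∈ Ioc Y N, 1 / (l : ℝ)) := by rw [← mul_sum]
    _ ≤ 2 ^ om D * ((N : ℝ) * (2 / (Y : ℝ)) * (1 + Real.log N)) :=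
        mul_le_mul_of_nonneg_left (mul_le_mul_of_nonneg_left (Trc_harm Y N) (by positivity)) (by positivity)
    _ = _ := by ring

/-- the coordinate `k` -/
private theorem Trc_A2 (hCop : S_Cop) (Y K N D : ℕ) (hD : 1 ≤ D) :
    |∑ s ∈ Ioc (Y / 2) Y, ∑ l ∈ Ioc Y N, Trc_ci D l *
      ∑ k ∈ Ioc K N, Trc_J N s l k * (Trc_ci D k - (D.totient : ℝ) / D)| ≤
      2 ^ om D * ((N : ℝ) * (1 / ((K : ℝ) + 1))) := by
  have hJ : ∀ s ∈ Ioc (Y / 2) Y, ∀ l ∈ Ioc Y N, |Trc_ci D l *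
      ∑ k ∈ Ioc K N, Trc_J N s l k * (Trc_ci D k - (D.totient : ℝ) / D)| ≤
      2 ^ om D * (if l * ((K + 1) * s) ≤ N then 1 else 0) := by
    intro s hs l hl
    rw [mem_Ioc] at hl hs
    rw [abs_mul]
    have h1 : |Trc_ci D l| ≤ 1 := by
      rw [abs_of_nonneg (Trc_ci_nonneg _ _)]
      exact Trc_ci_le _ _
    have h2 : |∑ k ∈ Ioc K N, Trc_J N s l k * (Trc_ci D k - (D.totient : ℝ) / D)| ≤
        2 ^ om D * (if l * ((K + 1) * s) ≤ N then 1 else 0) := by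
      by_cases hp : l.Prime
      · have h3 := Trc_one hCop D hD N (s * l) K N (Nat.mul_pos (by omega) (by omega))
        have e1 : ∀ k, Trc_J N s l k * (Trc_ci D k - (D.totient : ℝ) / D) =
            (if k * (s * l) ≤ N then (Trc_ci D k - (D.totient : ℝ) / D) else 0) := by
          intro k
          unfold Trc_J
          rw [mul_comm k (s * l)]
          by_cases h : s * l * k ≤ N
          · rw [if_pos ⟨hp, h⟩, if_pos h, one_mul]
          · rw [if_neg (fun hh => h hh.2), if_neg h, zero_mul]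
        have e2 : l * ((K + 1) * s) = (K + 1) * (s * l) := by ring
        rw [e2]
        simp only [e1]
        exact h3
      · have e1 : ∀ k, Trc_J N s l k * (Trc_ci D k - (D.totient : ℝ) / D) = 0 := by
          intro k
          unfold Trc_J
          rw [if_neg (fun hh => hp hh.1), zero_mul]
        simp only [e1, sum_const_zero, abs_zero]
        split_ifs <;> positivity
    calc |Trc_ci D l| *
          |∑ k ∈ Ioc K N, Trc_J N s l k * (Trc_ci D k - (D.totient : ℝ) / D)|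
        ≤ 1 * |∑ k ∈ Ioc K N, Trc_J N s l k * (Trc_ci D k - (D.totient : ℝ) / D)| :=
          mul_le_mul_of_nonneg_right h1 (abs_nonneg _)
      _ ≤ _ := by rw [one_mul]; exact h2
  calc |∑ s ∈ Ioc (Y / 2) Y, ∑ l ∈ Ioc Y N, Trc_ci D l *
        ∑ k ∈ Ioc K N, Trc_J N s l k * (Trc_ci D k - (D.totient : ℝ) / D)|
      ≤ ∑ s ∈ Ioc (Y / 2) Y, ∑ l ∈ Ioc Y N, |Trc_ci D l *
        ∑ k ∈ Ioc K N, Trc_J N s l k * (Trc_ci D k - (D.totient : ℝ) / D)| :=
        (abs_sum_le_sum_abs _ _).trans (sum_le_sum fun l _ => abs_sum_le_sum_abs _ _)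
    _ ≤ ∑ s ∈ Ioc (Y / 2) Y, ∑ l ∈ Ioc Y N, 2 ^ om D * (if l * ((K + 1) * s) ≤ N then (1 : ℝ) else 0) :=
        sum_le_sum fun s hs => sum_le_sum fun l hl => hJ s hs l hl
    _ = 2 ^ om D * ∑ s ∈ Ioc (Y / 2) Y, ∑ l ∈ Ioc Y N, (if l * ((K + 1) * s) ≤ N then (1 : ℝ) else 0) := by
        rw [mul_sum]
        exact sum_congr rfl fun l _ => (mul_sum _ _ _).symm
    _ ≤ 2 ^ om D * ∑ s ∈ Ioc (Y / 2) Y, (N : ℝ) * (1 / ((K : ℝ) + 1)) * (1 / (s : ℝ)) := by
        refine mul_le_mul_of_nonneg_left (sum_le_sum fun s hs => ?_) (by positivity)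
        rw [mem_Ioc] at hs
        refine (Trc_cnt N ((K + 1) * s) Y N (Nat.mul_pos (by omega) (by omega))).trans (le_of_eq ?_)
        have hs0 : (s : ℝ) ≠ 0 := by
          have : (0 : ℝ) < s := by exact_mod_cast (by omega : 0 < s)
          exact this.ne'
        push_cast
        field_simp
    _ = 2 ^ om D * ((N : ℝ) * (1 / ((K : ℝ) + 1)) * ∑ s ∈ Ioc (Y / 2) Y, 1 / (s : ℝ)) := by rw [← mul_sum]
    _ ≤ 2 ^ om D * ((N : ℝ) * (1 / ((K : ℝ) + 1)) * 1) :=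
        mul_le_mul_of_nonneg_left (mul_le_mul_of_nonneg_left (Trc_half Y) (by positivity)) (by positivity)
    _ = _ := by ring

/-- the coordinate `l` -/
private theorem Trc_A3 (Y K N D : ℕ) (hY : 2 ≤ Y) (hD : 1 ≤ D) :
    ∑ s ∈ Ioc (Y / 2) Y, ∑ l ∈ Ioc Y N, ∑ k ∈ Ioc K N, Trc_J N s l k * (1 - Trc_ci D l) ≤
      2 ^ om D * ((N : ℝ) * (1 / (Y : ℝ))) := by
  have hYp : (0 : ℝ) < Y := by exact_mod_cast (by omega : 0 < Y)
  have hJ : ∀ s ∈ Ioc (Y / 2) Y, ∀ l ∈ Ioc Y N, ∑ k ∈ Ioc K N, Trc_J N s l k * (1 - Trc_ci D l) ≤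
      (if l ∈ D.primeFactors then (N : ℝ) * (1 / (Y : ℝ)) * (1 / (s : ℝ)) else 0) := by
    intro s hs l hl
    rw [mem_Ioc] at hl hs
    have hl0 : (0 : ℝ) < l := by exact_mod_cast (by omega : 0 < l)
    have hs0 : (0 : ℝ) < s := by exact_mod_cast (by omega : 0 < s)
    by_cases hp : l.Prime
    · by_cases hc : l.Coprime D
      · have e1 : Trc_ci D l = 1 := if_pos hc
        rw [e1]
        simp only [sub_self, mul_zero, sum_const_zero]
        split_ifs <;> positivity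
      · have hm : l ∈ D.primeFactors := by
          rw [Nat.mem_primeFactors]
          exact ⟨hp, by rwa [hp.coprime_iff_not_dvd, not_not] at hc, by omega⟩
        have e1 : Trc_ci D l = 0 := if_neg hc
        rw [e1, if_pos hm]
        have e2 : ∀ k, Trc_J N s l k * (1 - 0) = (if k * (s * l) ≤ N then (1 : ℝ) else 0) := by
          intro k
          unfold Trc_J
          rw [mul_comm k (s * l), sub_zero, mul_one]
          by_cases h : s * l * k ≤ N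
          · rw [if_pos ⟨hp, h⟩, if_pos h]
          · rw [if_neg (fun hh => h hh.2), if_neg h]
        simp only [e2]
        refine (Trc_cnt N (s * l) K N (Nat.mul_pos (by omega) (by omega))).trans ?_
        have e3 : (N : ℝ) * (1 / (Y : ℝ)) * (1 / (s : ℝ)) = (N : ℝ) / (s * Y) := by
          field_simp
        rw [e3, Nat.cast_mul]
        refine div_le_div_of_nonneg_left (Nat.cast_nonneg N) (by positivity) ?_
        refine mul_le_mul_of_nonneg_left ?_ hs0.le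
        exact_mod_cast hl.1.le
    · have e1 : ∀ k, Trc_J N s l k * (1 - Trc_ci D l) = 0 := by
        intro k
        unfold Trc_J
        rw [if_neg (fun hh => hp hh.1), zero_mul]
      simp only [e1, sum_const_zero]
      split_ifs <;> positivity
  calc ∑ s ∈ Ioc (Y / 2) Y, ∑ l ∈ Ioc Y N, ∑ k ∈ Ioc K N, Trc_J N s l k * (1 - Trc_ci D l)
      ≤ ∑ s ∈ Ioc (Y / 2) Y, ∑ l ∈ Ioc Y N,
        (if l ∈ D.primeFactors then (N : ℝ) * (1 / (Y : ℝ)) * (1 / (s : ℝ)) else 0) :=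
        sum_le_sum fun s hs => sum_le_sum fun l hl => hJ s hs l hl
    _ ≤ ∑ s ∈ Ioc (Y / 2) Y, (om D : ℝ) * ((N : ℝ) * (1 / (Y : ℝ)) * (1 / (s : ℝ))) := by
        refine sum_le_sum fun s _ => ?_
        rw [← Finset.sum_filter, sum_const, nsmul_eq_mul]
        refine mul_le_mul_of_nonneg_right ?_ (by positivity)
        unfold om
        have : ((Ioc Y N).filter (fun l => l ∈ D.primeFactors)) ⊆ D.primeFactors := by
          intro l hl
          exact (mem_filter.1 hl).2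
        exact_mod_cast card_le_card this
    _ = (om D : ℝ) * ((N : ℝ) * (1 / (Y : ℝ)) * ∑ s ∈ Ioc (Y / 2) Y, 1 / (s : ℝ)) := by
        rw [mul_sum, mul_sum]
    _ ≤ (om D : ℝ) * ((N : ℝ) * (1 / (Y : ℝ)) * 1) :=
        mul_le_mul_of_nonneg_left (mul_le_mul_of_nonneg_left (Trc_half Y) (by positivity)) (by positivity)
    _ ≤ 2 ^ om D * ((N : ℝ) * (1 / (Y : ℝ))) := by
        rw [mul_one]
        refine mul_le_mul_of_nonneg_right ?_ (by positivity)
        exact_mod_cast (Nat.lt_two_pow_self (n := om D)).le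

theorem tTrc (h1 : S_Cop) : S_Trc := by
  intro Y K N D hY hN hD
  set φ : ℝ := (D.totient : ℝ) / D with hφ
  have hD0 : (0 : ℝ) < D := by exact_mod_cast hD
  have hφ0 : 0 ≤ φ := by positivity
  have hφ1 : φ ≤ 1 := by
    rw [hφ, div_le_one hD0]
    exact_mod_cast Nat.totient_le D
  have key : (((Tr Y K N).filter (fun t => (pt t).Coprime D)).card : ℝ) - φ ^ 2 * ((Tr Y K N).card : ℝ) =
      (∑ l ∈ Ioc Y N, ∑ k ∈ Ioc K N, Trc_ci D l * Trc_ci D k *
        ∑ s ∈ Ioc (Y / 2) Y, Trc_J N s l k * (Trc_ci D s - φ)) +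
      φ * (∑ s ∈ Ioc (Y / 2) Y, ∑ l ∈ Ioc Y N, Trc_ci D l *
        ∑ k ∈ Ioc K N, Trc_J N s l k * (Trc_ci D k - φ)) -
      φ ^ 2 * ∑ s ∈ Ioc (Y / 2) Y, ∑ l ∈ Ioc Y N, ∑ k ∈ Ioc K N, Trc_J N s l k * (1 - Trc_ci D l) := by
    have e1 : (∑ l ∈ Ioc Y N, ∑ k ∈ Ioc K N, Trc_ci D l * Trc_ci D k *
        ∑ s ∈ Ioc (Y / 2) Y, Trc_J N s l k * (Trc_ci D s - φ)) =
        ∑ s ∈ Ioc (Y / 2) Y, ∑ l ∈ Ioc Y N, ∑ k ∈ Ioc K N,
          Trc_ci D l * Trc_ci D k * (Trc_J N s l k * (Trc_ci D s - φ)) := by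
      calc (∑ l ∈ Ioc Y N, ∑ k ∈ Ioc K N, Trc_ci D l * Trc_ci D k *
            ∑ s ∈ Ioc (Y / 2) Y, Trc_J N s l k * (Trc_ci D s - φ))
          = ∑ l ∈ Ioc Y N, ∑ k ∈ Ioc K N, ∑ s ∈ Ioc (Y / 2) Y,
            Trc_ci D l * Trc_ci D k * (Trc_J N s l k * (Trc_ci D s - φ)) :=
            sum_congr rfl fun l _ => sum_congr rfl fun k _ => mul_sum _ _ _
        _ = ∑ l ∈ Ioc Y N, ∑ s ∈ Ioc (Y / 2) Y, ∑ k ∈ Ioc K N,
            Trc_ci D l * Trc_ci D k * (Trc_J N s l k * (Trc_ci D s - φ)) :=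
            sum_congr rfl fun l _ => sum_comm
        _ = _ := sum_comm
    rw [Trc_card, Trc_all, e1]
    simp only [mul_sum]
    simp only [← sum_add_distrib, ← sum_sub_distrib]
    refine sum_congr rfl fun s _ => sum_congr rfl fun l _ => sum_congr rfl fun k _ => ?_
    ring
  rw [key]
  have a1 := Trc_A1 h1 Y K N D hY hD
  have a2 := Trc_A2 h1 Y K N D hD
  have a3 := Trc_A3 Y K N D hY hD
  rw [← hφ] at a1 a2
  set A1 := ∑ l ∈ Ioc Y N, ∑ k ∈ Ioc K N, Trc_ci D l * Trc_ci D k *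
    ∑ s ∈ Ioc (Y / 2) Y, Trc_J N s l k * (Trc_ci D s - φ)
  set A2 := ∑ s ∈ Ioc (Y / 2) Y, ∑ l ∈ Ioc Y N, Trc_ci D l *
    ∑ k ∈ Ioc K N, Trc_J N s l k * (Trc_ci D k - φ)
  have a4 : 0 ≤ ∑ s ∈ Ioc (Y / 2) Y, ∑ l ∈ Ioc Y N, ∑ k ∈ Ioc K N, Trc_J N s l k * (1 - Trc_ci D l) := by
    refine sum_nonneg fun s _ => sum_nonneg fun l _ => sum_nonneg fun k _ => mul_nonneg ?_ ?_
    · unfold Trc_J
      split_ifs <;> norm_num
    · linarith [Trc_ci_le D l]
  set A3 := ∑ s ∈ Ioc (Y / 2) Y, ∑ l ∈ Ioc Y N, ∑ k ∈ Ioc K N, Trc_J N s l k * (1 - Trc_ci D l)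
  have hL : 0 ≤ Real.log N := Real.log_natCast_nonneg N
  have b1 : |A1 + φ * A2 - φ ^ 2 * A3| ≤ |A1| + |A2| + A3 := by
    have c1 : |φ * A2| ≤ |A2| := by
      rw [abs_mul, abs_of_nonneg hφ0]
      exact mul_le_of_le_one_left (abs_nonneg _) hφ1
    have c2 : |φ ^ 2 * A3| ≤ A3 := by
      rw [abs_of_nonneg (by positivity)]
      exact mul_le_of_le_one_left a4 (pow_le_one₀ hφ0 hφ1)
    calc |A1 + φ * A2 - φ ^ 2 * A3| ≤ |A1 + φ * A2| + |φ ^ 2 * A3| := abs_sub _ _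
      _ ≤ |A1| + |φ * A2| + |φ ^ 2 * A3| := by linarith [abs_add_le A1 (φ * A2)]
      _ ≤ |A1| + |A2| + A3 := by linarith
  have hc : (0 : ℝ) ≤ 2 ^ om D * N := by positivity
  have ha : (0 : ℝ) ≤ 1 / (Y : ℝ) := by positivity
  have hb : (0 : ℝ) ≤ 1 / ((K : ℝ) + 1) := by positivity
  have e2 : (2 : ℝ) / (Y : ℝ) = 2 * (1 / (Y : ℝ)) := by ring
  have e3 : (3 : ℝ) / (Y : ℝ) = 3 * (1 / (Y : ℝ)) := by ring
  rw [e2] at a1
  rw [e3]
  have d1 : 0 ≤ 2 ^ om D * N * (Real.log N * (1 / (Y : ℝ) + 1 / ((K : ℝ) + 1))) := by positivity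
  nlinarith [b1, a1, a2, a3, d1]

end Pool.Agent.Lib.MP_a260de_nt.CN3
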