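import Pool.Agent.Lib.MP_a260de_nt.CN3.SpecM

/-!
MP_a260de_nt, PROJECT CN, part A, strong version, module Two: the sieve bound.
-/

namespace Pool.Agent.Lib.MP_a260de_nt.CN3

open Finset

private lemma Two_large (A ρ : ℝ) (hρ : 0 < ρ) :
    ∃ n0 : ℕ, ∀ n : ℕ, n0 ≤ n → 1 ≤ Real.log (n : ℝ) ∧
      9 * (1 + Real.log (n : ℝ)) ^ (13 : ℕ) * Real.log (n : ℝ) ^ A ≤ (n : ℝ) ^ ρ := by
  have h1 := isLittleO_log_rpow_rpow_atTop (13 + A) hρ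
  have h2 := h1.def (show (0 : ℝ) < 1 / (9 * 2 ^ (13 : ℕ)) by positivity)
  have h3 : ∀ᶠ x : ℝ in Filter.atTop, Real.exp 1 ≤ x := Filter.eventually_ge_atTop _
  have h4 := (h2.and h3)
  have h5 : ∀ᶠ n : ℕ in Filter.atTop,
      ‖Real.log (n : ℝ) ^ (13 + A)‖ ≤ 1 / (9 * 2 ^ (13 : ℕ)) * ‖((n : ℕ) : ℝ) ^ ρ‖ ∧
        Real.exp 1 ≤ (n : ℝ) := tendsto_natCast_atTop_atTop.eventually h4
  obtain ⟨n0, hn0⟩ := Filter.eventually_atTop.mp h5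
  refine ⟨n0, fun n hn => ?_⟩
  obtain ⟨ha, hb⟩ := hn0 n hn
  have hnpos : (0 : ℝ) < (n : ℝ) := lt_of_lt_of_le (Real.exp_pos 1) hb
  have hL : 1 ≤ Real.log (n : ℝ) := by
    rw [Real.le_log_iff_exp_le hnpos]
    exact hb
  refine ⟨hL, ?_⟩
  have hLpos : 0 < Real.log (n : ℝ) := by linarith
  have hpos1 : 0 ≤ Real.log (n : ℝ) ^ (13 + A) := Real.rpow_nonneg hLpos.le _
  have hpos2 : 0 ≤ (n : ℝ) ^ ρ := Real.rpow_nonneg hnpos.le _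
  rw [Real.norm_of_nonneg hpos1, Real.norm_of_nonneg hpos2] at ha
  have hsplit : Real.log (n : ℝ) ^ (13 + A) =
      Real.log (n : ℝ) ^ (13 : ℕ) * Real.log (n : ℝ) ^ A := by
    rw [Real.rpow_add hLpos, ← Real.rpow_natCast]
    norm_num
  have hp : (1 + Real.log (n : ℝ)) ^ (13 : ℕ) ≤ (2 * Real.log (n : ℝ)) ^ (13 : ℕ) :=
    pow_le_pow_left₀ (by linarith) (by linarith) 13
  rw [mul_pow] at hp
  have hApos : 0 ≤ Real.log (n : ℝ) ^ A := Real.rpow_nonneg hLpos.le _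
  calc 9 * (1 + Real.log (n : ℝ)) ^ (13 : ℕ) * Real.log (n : ℝ) ^ A
      ≤ 9 * (2 ^ (13 : ℕ) * Real.log (n : ℝ) ^ (13 : ℕ)) * Real.log (n : ℝ) ^ A := by
        gcongr
    _ = (9 * 2 ^ (13 : ℕ)) * Real.log (n : ℝ) ^ (13 + A) := by rw [hsplit]; ring
    _ ≤ (9 * 2 ^ (13 : ℕ)) * (1 / (9 * 2 ^ (13 : ℕ)) * (n : ℝ) ^ ρ) := by gcongr
    _ = (n : ℝ) ^ ρ := by field_simp

private lemma Two_split (Δ : ℕ) (lam g V a : ℕ → ℝ) (X : ℝ) :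
    ∑ d ∈ Icc 1 Δ, ∑ d' ∈ Icc 1 Δ, lam d * lam d' * a (Nat.lcm d d') ≤
      X * (∑ d ∈ Icc 1 Δ, ∑ d' ∈ Icc 1 Δ, lam d * lam d' * g (Nat.lcm d d')) +
      ∑ d ∈ Icc 1 Δ, ∑ d' ∈ Icc 1 Δ, |lam d * lam d'| *
        (|V (Nat.lcm d d') - g (Nat.lcm d d') * X| + |a (Nat.lcm d d') - V (Nat.lcm d d')|) := by
  rw [Finset.mul_sum, ← Finset.sum_add_distrib]
  refine Finset.sum_le_sum fun d _ => ?_
  rw [Finset.mul_sum, ← Finset.sum_add_distrib]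
  refine Finset.sum_le_sum fun d' _ => ?_
  set D := Nat.lcm d d'
  set c := lam d * lam d'
  have e1 : c * a D = X * (c * g D) + (c * (V D - g D * X) + c * (a D - V D)) := by ring
  have e2 : c * (V D - g D * X) ≤ |c| * |V D - g D * X| := by
    rw [← abs_mul]; exact le_abs_self _
  have e3 : c * (a D - V D) ≤ |c| * |a D - V D| := by
    rw [← abs_mul]; exact le_abs_self _
  rw [e1, mul_add]
  linarith

/-- the sieve bound -/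
theorem tTwo (hErr : S_Err) (hSel : S_Sel) (hTwc : S_Twc) (hSvi : S_Svi) (hLcm : S_Lcm)
    (hUum : S_Uum) : S_Two := by
  intro A ρ hA hρ
  obtain ⟨C1, n1, hC1, h1⟩ := hErr A ρ hA hρ
  obtain ⟨n2, h2⟩ := Two_large A ρ hρ
  refine ⟨C1 + 1, max n1 n2, by linarith, ?_⟩
  intro n E0 E1 Y K N Δ hn hE0 hE01 hE12 hE1n hY hK hN hNn hΔ hΔY hΔρ
  have hn1 : n1 ≤ n := le_trans (le_max_left _ _) hn
  have hn2 : n2 ≤ n := le_trans (le_max_right _ _) hn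
  obtain ⟨hL, hbig⟩ := h2 n hn2
  obtain ⟨lam, hlam1, hlamb, hlams, hlamq⟩ := hSel Δ hΔ
  have hLpos : 0 < Real.log (n : ℝ) := by linarith
  have hLA : 1 ≤ Real.log (n : ℝ) ^ A := Real.one_le_rpow hL hA.le
  have hLApos : 0 < Real.log (n : ℝ) ^ A := by linarith
  have hP : (9 : ℝ) ≤ (n : ℝ) ^ ρ := by
    have h13 : (1 : ℝ) ≤ (1 + Real.log (n : ℝ)) ^ (13 : ℕ) := one_le_pow₀ (by linarith)
    calc (9 : ℝ) = 9 * 1 * 1 := by norm_num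
      _ ≤ 9 * (1 + Real.log (n : ℝ)) ^ (13 : ℕ) * Real.log (n : ℝ) ^ A := by gcongr
      _ ≤ _ := hbig
  have hPpos : 0 < (n : ℝ) ^ ρ := by linarith
  have hY2 : 2 ≤ Y := by
    have : (2 : ℝ) ≤ (Y : ℝ) := by linarith
    exact_mod_cast this
  have hN1 : 1 ≤ N := by
    have : (1 : ℝ) ≤ (N : ℝ) := by linarith
    exact_mod_cast this
  have hnR : (1 : ℝ) ≤ (n : ℝ) := by
    have : (N : ℝ) ≤ (n : ℝ) := by exact_mod_cast hNn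
    linarith
  have hE0R : (E0 : ℝ) ≤ (n : ℝ) := by
    have : E0 ≤ n := by omega
    exact_mod_cast this
  have hNR : (N : ℝ) ≤ (n : ℝ) := by exact_mod_cast hNn
  set X : ℝ := ((Ep E0 E1).card : ℝ) * ((Tr Y K N).card : ℝ) with hX
  set Q : ℝ := (N : ℝ) * (1 + Real.log N) *
      (3 * (E1 : ℝ) / Y + (E1 : ℝ) / ((K : ℝ) + 1) + 1) with hQ
  have hA0 := hSvi E0 E1 Y K N Δ lam hlam1 hΔ hΔY
  have hA1 := Two_split Δ lam gd (fun d => (UU E0 E1 Y K N d : ℝ) / (d.totient : ℝ))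
    (fun d => (AA E0 E1 Y K N d : ℝ)) X
  rw [hlamq] at hA1
  have hA2 := hLcm Δ lam
    (fun D => |(UU E0 E1 Y K N D : ℝ) / (D.totient : ℝ) - gd D * X| +
      |(AA E0 E1 Y K N D : ℝ) - (UU E0 E1 Y K N D : ℝ) / (D.totient : ℝ)|) hlamb hlams
    (fun D => by positivity)
  -- the error terms
  have hD : ((Δ ^ 2 : ℕ) : ℝ) * (n : ℝ) ^ ρ ≤ Real.sqrt ((E0 : ℝ) * N) := by
    push_cast
    exact hΔρ
  have hB1 := h1 n E0 E1 Y K N (Δ ^ 2) hn1 hE0 hE01 hE12 hE1n hY hN hNn hD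
  have hΔ2n : ((Δ ^ 2 : ℕ) : ℝ) ≤ (n : ℝ) := by
    have hs : Real.sqrt ((E0 : ℝ) * N) ≤ (n : ℝ) := by
      rw [Real.sqrt_le_left (by linarith)]
      nlinarith
    have h0 : (0 : ℝ) ≤ ((Δ ^ 2 : ℕ) : ℝ) := by positivity
    nlinarith
  have hΔ21 : 1 ≤ Δ ^ 2 := Nat.one_le_pow _ _ hΔ
  have hB2 := hTwc 6 (Δ ^ 2) hΔ21
  -- the main terms
  have hQ0 : 0 ≤ Q := by
    have : 0 ≤ Real.log (N : ℝ) := Real.log_nonneg (by exact_mod_cast hN1)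
    positivity
  have hB3 : ∑ D ∈ (Icc 1 (Δ ^ 2)).filter Squarefree,
      (3 : ℝ) ^ om D * |(UU E0 E1 Y K N D : ℝ) / (D.totient : ℝ) - gd D * X| ≤
      (1 + Real.log (n : ℝ)) ^ (12 : ℕ) * Q := by
    have hstep : ∀ D ∈ (Icc 1 (Δ ^ 2)).filter Squarefree,
        (3 : ℝ) ^ om D * |(UU E0 E1 Y K N D : ℝ) / (D.totient : ℝ) - gd D * X| ≤
          ((6 : ℕ) : ℝ) ^ om D / (D.totient : ℝ) * Q := by
      intro D hDm
      have hD1 : 1 ≤ D := (Finset.mem_Icc.mp (Finset.mem_filter.mp hDm).1).1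
      have := hUum E0 E1 Y K N D hY2 hN1 hD1
      calc (3 : ℝ) ^ om D * |(UU E0 E1 Y K N D : ℝ) / (D.totient : ℝ) - gd D * X|
          ≤ (3 : ℝ) ^ om D * (2 ^ om D / (D.totient : ℝ) * Q) := by
            gcongr
        _ = ((6 : ℕ) : ℝ) ^ om D / (D.totient : ℝ) * Q := by
            have : ((6 : ℕ) : ℝ) ^ om D = 3 ^ om D * 2 ^ om D := by
              rw [← mul_pow]; norm_num
            rw [this]; ring
    refine (Finset.sum_le_sum hstep).trans ?_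
    rw [← Finset.sum_mul]
    refine mul_le_mul_of_nonneg_right (hB2.trans ?_) hQ0
    have hl0 : 0 ≤ Real.log ((Δ ^ 2 : ℕ) : ℝ) := Real.log_nonneg (by exact_mod_cast hΔ21)
    have hl1 : Real.log ((Δ ^ 2 : ℕ) : ℝ) ≤ Real.log (n : ℝ) :=
      Real.log_le_log (by exact_mod_cast hΔ21) hΔ2n
    exact pow_le_pow_left₀ (by linarith) (by linarith) 12
  have hB4 : Q ≤ (N : ℝ) * (1 + Real.log (n : ℝ)) * (9 * ((E0 : ℝ) / (n : ℝ) ^ ρ)) := by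
    have hlN : Real.log (N : ℝ) ≤ Real.log (n : ℝ) :=
      Real.log_le_log (by exact_mod_cast hN1) hNR
    have hlN0 : 0 ≤ Real.log (N : ℝ) := Real.log_nonneg (by exact_mod_cast hN1)
    have hE1R : (E1 : ℝ) ≤ 2 * (E0 : ℝ) := by exact_mod_cast hE12
    have hE00 : (0 : ℝ) ≤ (E0 : ℝ) := Nat.cast_nonneg _
    have q1 : 3 * (E1 : ℝ) / Y ≤ 6 * ((E0 : ℝ) / (n : ℝ) ^ ρ) := by
      calc 3 * (E1 : ℝ) / Y ≤ 3 * (2 * (E0 : ℝ)) / (n : ℝ) ^ ρ := by gcongr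
        _ = 6 * ((E0 : ℝ) / (n : ℝ) ^ ρ) := by ring
    have q2 : (E1 : ℝ) / ((K : ℝ) + 1) ≤ 2 * ((E0 : ℝ) / (n : ℝ) ^ ρ) := by
      calc (E1 : ℝ) / ((K : ℝ) + 1) ≤ (2 * (E0 : ℝ)) / (n : ℝ) ^ ρ := by
            gcongr
            linarith
        _ = 2 * ((E0 : ℝ) / (n : ℝ) ^ ρ) := by ring
    have q3 : (1 : ℝ) ≤ (E0 : ℝ) / (n : ℝ) ^ ρ := by
      rw [le_div_iff₀ hPpos]; linarith
    rw [hQ]
    have q4 : 3 * (E1 : ℝ) / Y + (E1 : ℝ) / ((K : ℝ) + 1) + 1 ≤ 9 * ((E0 : ℝ) / (n : ℝ) ^ ρ) := by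
      linarith
    gcongr
  have hB5 : (1 + Real.log (n : ℝ)) ^ (12 : ℕ) * Q ≤ (E0 : ℝ) * N / Real.log (n : ℝ) ^ A := by
    have hE00 : (0 : ℝ) ≤ (E0 : ℝ) := Nat.cast_nonneg _
    calc (1 + Real.log (n : ℝ)) ^ (12 : ℕ) * Q
        ≤ (1 + Real.log (n : ℝ)) ^ (12 : ℕ) *
          ((N : ℝ) * (1 + Real.log (n : ℝ)) * (9 * ((E0 : ℝ) / (n : ℝ) ^ ρ))) := by gcongr
      _ = (9 * (1 + Real.log (n : ℝ)) ^ (13 : ℕ)) * ((E0 : ℝ) * N) / (n : ℝ) ^ ρ := by ring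
      _ ≤ (E0 : ℝ) * N / Real.log (n : ℝ) ^ A := by
        rw [div_le_div_iff₀ hPpos hLApos]
        calc 9 * (1 + Real.log (n : ℝ)) ^ (13 : ℕ) * ((E0 : ℝ) * N) * Real.log (n : ℝ) ^ A
            = (9 * (1 + Real.log (n : ℝ)) ^ (13 : ℕ) * Real.log (n : ℝ) ^ A) *
              ((E0 : ℝ) * N) := by ring
          _ ≤ (n : ℝ) ^ ρ * ((E0 : ℝ) * N) := by gcongr
          _ = (E0 : ℝ) * N * (n : ℝ) ^ ρ := by ring
  have hA3 : ∑ D ∈ (Icc 1 (Δ ^ 2)).filter Squarefree, (3 : ℝ) ^ om D *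
      (|(UU E0 E1 Y K N D : ℝ) / (D.totient : ℝ) - gd D * X| +
        |(AA E0 E1 Y K N D : ℝ) - (UU E0 E1 Y K N D : ℝ) / (D.totient : ℝ)|) ≤
      (C1 + 1) * ((E0 : ℝ) * N / Real.log (n : ℝ) ^ A) := by
    simp_rw [mul_add]
    rw [Finset.sum_add_distrib]
    linarith [hB3, hB5, hB1]
  have hfin : X * (1 / HH Δ) = X / HH Δ := by ring
  rw [hfin] at hA1
  linarith [hA0, hA1, hA2, hA3]

end Pool.Agent.Lib.MP_a260de_nt.CN3
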