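import Pool.Agent.Lib.MP_a260de_nt.CN3.SpecM

/-!
MP_a260de_nt, PROJECT CN, part A, strong version: the main term UU (module Uum).
-/

namespace Pool.Agent.Lib.MP_a260de_nt.CN3

open Finset Pool.Agent.Lib.MP_a260de_nt.CN.A

/-- the sum over s -/
private lemma Uum_s (Y : ℕ) : ∑ s ∈ Ioc (Y / 2) Y, 1 / (s : ℝ) ≤ 1 := by
  have h1 : ∀ s ∈ Ioc (Y / 2) Y, 1 / (s : ℝ) ≤ 1 / ((Y / 2 : ℕ) + 1 : ℝ) := by
    intro s hs
    have h2 : Y / 2 + 1 ≤ s := (mem_Ioc.1 hs).1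
    have h3 : ((Y / 2 : ℕ) : ℝ) + 1 ≤ (s : ℝ) := by exact_mod_cast h2
    exact one_div_le_one_div_of_le (by positivity) h3
  refine (sum_le_card_nsmul _ _ _ h1).trans ?_
  rw [nsmul_eq_mul, Nat.card_Ioc, mul_one_div, div_le_one (by positivity)]
  have h4 : Y - Y / 2 ≤ Y / 2 + 1 := by omega
  exact_mod_cast h4

/-- the sum over l -/
private lemma Uum_l (Y N : ℕ) (hY : 2 ≤ Y) :
    ∑ l ∈ (Ioc Y (2 * N / Y)).filter Nat.Prime, 1 / (l : ℝ) ≤ 1 + Real.log N := by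
  have h1 : (Ioc Y (2 * N / Y)).filter Nat.Prime ⊆ Icc 1 N := by
    intro l hl
    rw [mem_filter, mem_Ioc] at hl
    have h2 : 2 * N / Y ≤ N := by
      refine Nat.div_le_of_le_mul ?_
      nlinarith
    rw [mem_Icc]
    omega
  have h3 : ∑ l ∈ Icc 1 N, 1 / (l : ℝ) = ((harmonic N : ℚ) : ℝ) := by
    rw [harmonic_eq_sum_Icc]
    push_cast
    exact sum_congr rfl fun i _ => one_div _
  calc ∑ l ∈ (Ioc Y (2 * N / Y)).filter Nat.Prime, 1 / (l : ℝ)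
      ≤ ∑ l ∈ Icc 1 N, 1 / (l : ℝ) :=
        sum_le_sum_of_subset_of_nonneg h1 fun i _ _ => by positivity
    _ = ((harmonic N : ℚ) : ℝ) := h3
    _ ≤ 1 + Real.log N := harmonic_le_one_add_log N

/-- the number of the triples -/
private lemma Uum_tr (h2 : S_Wup) (Y K N : ℕ) (hY : 2 ≤ Y) :
    ((Tr Y K N).card : ℝ) ≤ (N : ℝ) * (1 + Real.log N) := by
  refine (h2 Y K N hY).trans (mul_le_mul_of_nonneg_left ?_ (Nat.cast_nonneg N))
  have h3 := Uum_s Y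
  have h4 := Uum_l Y N hY
  have h5 : 0 ≤ ∑ l ∈ (Ioc Y (2 * N / Y)).filter Nat.Prime, 1 / (l : ℝ) :=
    sum_nonneg fun i _ => by positivity
  calc (∑ s ∈ Ioc (Y / 2) Y, 1 / (s : ℝ)) * ∑ l ∈ (Ioc Y (2 * N / Y)).filter Nat.Prime, 1 / (l : ℝ)
      ≤ 1 * ∑ l ∈ (Ioc Y (2 * N / Y)).filter Nat.Prime, 1 / (l : ℝ) :=
        mul_le_mul_of_nonneg_right h3 h5
    _ ≤ 1 + Real.log N := by rw [one_mul]; exact h4

/-- the primes `e` which divide `D` -/
private lemma Uum_ep (E0 E1 D : ℕ) (hD : 1 ≤ D) :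
    (Ep E0 E1).card ≤ ((Ep E0 E1).filter (fun e => e.Coprime D)).card + 2 ^ om D := by
  rw [← card_filter_add_card_filter_not (s := Ep E0 E1) (fun e => e.Coprime D)]
  refine Nat.add_le_add_left ?_ _
  have h1 : (Ep E0 E1).filter (fun e => ¬ e.Coprime D) ⊆ D.primeFactors := by
    intro e he
    rw [mem_filter] at he
    have h2 : e.Prime := (mem_filter.1 he.1).2
    rw [Nat.mem_primeFactors]
    exact ⟨h2, by_contra fun h3 => he.2 ((Nat.Prime.coprime_iff_not_dvd h2).2 h3), by omega⟩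
  exact (card_le_card h1).trans Nat.lt_two_pow_self.le

/-- **Uum.** The main term. -/
theorem tUum (h1 : S_Trc) (h2 : S_Wup) : S_Uum := by
  intro E0 E1 Y K N D hY hN hD
  have hφ : (0 : ℝ) < (D.totient : ℝ) := by
    exact_mod_cast Nat.totient_pos.2 hD
  have hD' : (0 : ℝ) < (D : ℝ) := by exact_mod_cast hD
  set P : ℝ := (((Ep E0 E1).filter (fun e => e.Coprime D)).card : ℝ) with hP
  set T : ℝ := (((Tr Y K N).filter (fun t => (pt t).Coprime D)).card : ℝ) with hT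
  set E : ℝ := ((Ep E0 E1).card : ℝ) with hE
  set R : ℝ := ((Tr Y K N).card : ℝ) with hR
  set r : ℝ := (D.totient : ℝ) / D with hr
  set L : ℝ := (N : ℝ) * (1 + Real.log N) with hL
  have hr0 : 0 ≤ r := by positivity
  have hr1 : r ≤ 1 := by
    rw [hr, div_le_one hD']
    exact_mod_cast Nat.totient_le D
  have hUU : (UU E0 E1 Y K N D : ℝ) = P * T := by
    rw [hP, hT]
    unfold UU
    push_cast
    ring
  have hgd : gd D = r ^ 2 / (D.totient : ℝ) := by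
    unfold gd
    rw [hr]
    field_simp
  have hP0 : 0 ≤ P := Nat.cast_nonneg _
  have hR0 : 0 ≤ R := Nat.cast_nonneg _
  have hPE : P ≤ E := by
    rw [hP, hE]
    exact_mod_cast card_filter_le _ _
  have hE1 : E ≤ (E1 : ℝ) := by
    have h3 : (Ep E0 E1).card ≤ E1 := by
      refine (card_filter_le _ _).trans ?_
      rw [Nat.card_Ioc]
      omega
    rw [hE]
    exact_mod_cast h3
  have hEP : E - P ≤ 2 ^ om D := by
    have h3 := Uum_ep E0 E1 D hD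
    have h4 : E ≤ P + 2 ^ om D := by
      rw [hE, hP]
      exact_mod_cast h3
    linarith
  have hT1 : |T - r ^ 2 * R| ≤ 2 ^ om D * (L * (3 / (Y : ℝ) + 1 / ((K : ℝ) + 1))) :=
    h1 Y K N D hY hN hD
  have hRL : R ≤ L := Uum_tr h2 Y K N hY
  have h2o : (0 : ℝ) ≤ 2 ^ om D := by positivity
  have hr2 : r ^ 2 ≤ 1 := pow_le_one₀ hr0 hr1
  have hL0 : 0 ≤ L := hR0.trans hRL
  have key : |P * T - r ^ 2 * (E * R)| ≤
      2 ^ om D * (L * (3 * (E1 : ℝ) / Y + (E1 : ℝ) / ((K : ℝ) + 1) + 1)) := by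
    have h5 : P * T - r ^ 2 * (E * R) = P * (T - r ^ 2 * R) - (E - P) * (r ^ 2 * R) := by ring
    rw [h5]
    refine (abs_sub _ _).trans ?_
    rw [abs_mul, abs_mul, abs_of_nonneg hP0, abs_of_nonneg (sub_nonneg.2 hPE),
      abs_of_nonneg (by positivity : 0 ≤ r ^ 2 * R)]
    have h6 : P * |T - r ^ 2 * R| ≤
        (E1 : ℝ) * (2 ^ om D * (L * (3 / (Y : ℝ) + 1 / ((K : ℝ) + 1)))) :=
      mul_le_mul (hPE.trans hE1) hT1 (abs_nonneg _) (Nat.cast_nonneg _)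
    have h7 : (E - P) * (r ^ 2 * R) ≤ 2 ^ om D * L := by
      refine mul_le_mul hEP ?_ (by positivity) h2o
      calc r ^ 2 * R ≤ 1 * R := mul_le_mul_of_nonneg_right hr2 hR0
        _ ≤ L := by rw [one_mul]; exact hRL
    calc P * |T - r ^ 2 * R| + (E - P) * (r ^ 2 * R)
        ≤ (E1 : ℝ) * (2 ^ om D * (L * (3 / (Y : ℝ) + 1 / ((K : ℝ) + 1)))) + 2 ^ om D * L :=
          add_le_add h6 h7
      _ = 2 ^ om D * (L * (3 * (E1 : ℝ) / Y + (E1 : ℝ) / ((K : ℝ) + 1) + 1)) := by ring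
  have h8 : (UU E0 E1 Y K N D : ℝ) / (D.totient : ℝ) - gd D * (E * R) =
      (P * T - r ^ 2 * (E * R)) / (D.totient : ℝ) := by
    rw [hUU, hgd]
    ring
  rw [h8, abs_div, abs_of_pos hφ, div_mul_eq_mul_div]
  exact div_le_div_of_nonneg_right key hφ.le

end Pool.Agent.Lib.MP_a260de_nt.CN3
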