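import Pool.Agent.Lib.MP_a260de_nt.CN3.SpecM

/-!
MP_a260de_nt, PROJECT CN, part A, strong version: module Wup (upper bound for the number of triples)
-/

set_option autoImplicit false

namespace Pool.Agent.Lib.MP_a260de_nt.CN3

open Finset

private theorem Wup_fib (Y K N s l : ℕ) (hs : 1 ≤ s) (hl : 1 ≤ l) :
    ((((Tr Y K N).filter (fun t => (t.1, t.2.1) = (s, l))).card : ℕ) : ℝ) ≤
      (N : ℝ) * (1 / (s : ℝ) * (1 / (l : ℝ))) := by
  have h1 : ((Tr Y K N).filter (fun t => (t.1, t.2.1) = (s, l))).card ≤ (Ioc 0 (N / (s * l))).card := by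
    refine Finset.card_le_card_of_injOn (fun t => t.2.2) ?_ ?_
    · intro t ht
      rw [Finset.mem_coe, Finset.mem_filter, Tr, Finset.mem_filter, Finset.mem_product, Finset.mem_product,
        Finset.mem_Ioc, Finset.mem_Ioc, Finset.mem_Ioc] at ht
      obtain ⟨⟨⟨_, _, hk⟩, _, hN⟩, he⟩ := ht
      rw [Prod.mk.injEq] at he
      rw [he.1, he.2] at hN
      simp only [Finset.coe_Ioc, Set.mem_Ioc]
      refine ⟨by omega, (Nat.le_div_iff_mul_le (Nat.mul_pos hs hl)).2 ?_⟩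
      linarith [Nat.mul_comm t.2.2 (s * l)]
    · intro t ht t' ht' h
      rw [Finset.mem_coe, Finset.mem_filter, Prod.mk.injEq] at ht ht'
      refine Prod.ext (ht.2.1.trans ht'.2.1.symm) (Prod.ext (ht.2.2.trans ht'.2.2.symm) h)
  rw [Nat.card_Ioc, Nat.sub_zero] at h1
  calc ((((Tr Y K N).filter (fun t => (t.1, t.2.1) = (s, l))).card : ℕ) : ℝ)
      ≤ ((N / (s * l) : ℕ) : ℝ) := by exact_mod_cast h1
    _ ≤ (N : ℝ) / ((s * l : ℕ) : ℝ) := Nat.cast_div_le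
    _ = (N : ℝ) * (1 / (s : ℝ) * (1 / (l : ℝ))) := by
        push_cast
        rw [div_mul_div_comm, one_mul, mul_one_div]

theorem tWup : S_Wup := by
  intro Y K N hY
  have hmap : ∀ t ∈ Tr Y K N, (t.1, t.2.1) ∈ (Ioc (Y / 2) Y) ×ˢ ((Ioc Y (2 * N / Y)).filter Nat.Prime) := by
    intro t ht
    rw [Tr, Finset.mem_filter, Finset.mem_product, Finset.mem_product,
        Finset.mem_Ioc, Finset.mem_Ioc, Finset.mem_Ioc] at ht
    obtain ⟨⟨hs, hl, hk⟩, hp, hN⟩ := ht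
    rw [Finset.mem_product, Finset.mem_filter, Finset.mem_Ioc, Finset.mem_Ioc]
    refine ⟨hs, ⟨hl.1, (Nat.le_div_iff_mul_le (by omega)).2 ?_⟩, hp⟩
    have h1 : Y ≤ 2 * t.1 := by omega
    have h2 : 1 ≤ t.2.2 := by omega
    show t.2.1 * Y ≤ 2 * N
    calc t.2.1 * Y ≤ t.2.1 * (2 * t.1) := Nat.mul_le_mul_left _ h1
      _ = 2 * (t.1 * t.2.1 * 1) := by ring
      _ ≤ 2 * (t.1 * t.2.1 * t.2.2) := Nat.mul_le_mul_left _ (Nat.mul_le_mul_left _ h2)
      _ ≤ 2 * N := Nat.mul_le_mul_left _ hN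
  rw [Finset.card_eq_sum_card_fiberwise hmap, Nat.cast_sum]
  calc ∑ x ∈ (Ioc (Y / 2) Y) ×ˢ ((Ioc Y (2 * N / Y)).filter Nat.Prime),
        ((((Tr Y K N).filter (fun t => (t.1, t.2.1) = x)).card : ℕ) : ℝ)
      ≤ ∑ x ∈ (Ioc (Y / 2) Y) ×ˢ ((Ioc Y (2 * N / Y)).filter Nat.Prime),
        (N : ℝ) * (1 / (x.1 : ℝ) * (1 / (x.2 : ℝ))) := by
        refine Finset.sum_le_sum fun x hx => ?_
        rw [Finset.mem_product, Finset.mem_filter, Finset.mem_Ioc, Finset.mem_Ioc] at hx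
        exact Wup_fib Y K N x.1 x.2 (by omega) (by omega)
    _ = _ := by
        rw [← Finset.mul_sum, Finset.sum_product, Finset.sum_mul_sum]

end Pool.Agent.Lib.MP_a260de_nt.CN3
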