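import Pool.Agent.Lib.BV.All
import Pool.Agent.Lib.SG.Mrt
import Pool.Agent.Lib.MP_a260de_nt.CN.A.All
import Pool.Agent.Lib.MP_a260de_nt.CN3.E_All
import Pool.Agent.Lib.MP_a260de_nt.CN3.Cop
import Pool.Agent.Lib.MP_a260de_nt.CN3.Trc
import Pool.Agent.Lib.MP_a260de_nt.CN3.Wup
import Pool.Agent.Lib.MP_a260de_nt.CN3.Uum
import Pool.Agent.Lib.MP_a260de_nt.CN3.Svi
import Pool.Agent.Lib.MP_a260de_nt.CN3.Lcm
import Pool.Agent.Lib.MP_a260de_nt.CN3.Two
import Pool.Agent.Lib.MP_a260de_nt.CN3.Mrz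
import Pool.Agent.Lib.MP_a260de_nt.CN3.Ecp
import Pool.Agent.Lib.MP_a260de_nt.CN3.Sml
import Pool.Agent.Lib.MP_a260de_nt.CN3.Inb
import Pool.Agent.Lib.MP_a260de_nt.CN3.Big
import Pool.Agent.Lib.MP_a260de_nt.CN3.Sec3
import Pool.Agent.Lib.MP_a260de_nt.CN3.A3

/-!
# MP_a260de_nt, project CN3: assembly, `S_Sec3` and `S_A3` without hypotheses
-/

set_option autoImplicit false

namespace Pool.Agent.Lib.MP_a260de_nt.CN3

/-- The number of the triples is a count of the triples coprime to `D`. -/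
theorem aTrc : S_Trc := tTrc tCop

/-- The main term of the dimension two sieve. -/
theorem aUum : S_Uum := tUum aTrc tWup

/-- Selberg's upper bound on average over the multiplier. -/
theorem aTwo : S_Two := tTwo e_Err e_Sel e_Twc tSvi tLcm aUum

/-- Mertens' theorem between two powers of `z`. -/
theorem aMrz : S_Mrz := tMrz Pool.Agent.Lib.SG.tMrt

/-- Primes in a short range. -/
theorem aEcp : S_Ecp := tEcp BV.aPnt

/-- The triples with small `k`. -/
theorem aSml : S_Sml := tSml CN.A.aC0s CN.A.aPhU CN.A.aN2a CN.A.aN2b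

/-- The triples with large `k`. -/
theorem aBig : S_Big := tBig CN.A.aC0s CN.A.tIn2 e_Hlo tWup aTwo aMrz tInb

/-- For every `β` with `1/4 < β < 1/2` and `4 log (1/(2β)) < 1` there are many primes `p ≤ z`
such that `p - 1` is `z^β`-smooth and has a divisor of the required kind. -/
theorem aSec3 : S_Sec3 := tSec3 CN.A.aC0s CN.A.aN1 CN.A.aCmb aEcp aSml aBig

/-- The case `β = 39/100`. -/
theorem aA3 : S_A3 := tA3 aSec3

end Pool.Agent.Lib.MP_a260de_nt.CN3
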