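import Pool.Agent.Lib.MP_a260de_nt.CN.SpecA

/-!
MP_a260de_nt, PROJECT CN, part A, strong version (helper72, helper76): smooth shifted primes with
β = 0.39. Common definitions; c0, Sr, bad3, primeCount and the statements S_C0s, S_PhU, S_PhL, S_In2,
S_N1, S_N2a, S_N2b, S_Cmb are those of the base version (CN/SpecA.lean, helper58).

Parameters: z real, E0 = ⌊z^(1/2-β-η)⌋, E1 = ⌊(1+κ) E0⌋, Y = ⌊z^β⌋, N = ⌊z⌋/E0, K = ⌊z^δ⌋. Primes p ≤ z,
p ≡ 1 mod e s with e in Ep E0 E1, s in (Y/2, Y]; bad if p - 1 = e s l k with a prime l > Y.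
-/

namespace Pool.Agent.Lib.MP_a260de_nt.CN3

open Finset

/-- the primes e in (E0, E1] -/
noncomputable def Ep (E0 E1 : ℕ) : Finset ℕ := (Ioc E0 E1).filter Nat.Prime

/-- the number of prime factors -/
def om (d : ℕ) : ℕ := d.primeFactors.card

/-- the triples (s, l, k): Y/2 < s ≤ Y, l prime, Y < l, K < k, s l k ≤ N -/
noncomputable def Tr (Y K N : ℕ) : Finset (ℕ × ℕ × ℕ) :=
  ((Ioc (Y / 2) Y) ×ˢ (Ioc Y N) ×ˢ (Ioc K N)).filter
    (fun t => t.2.1.Prime ∧ t.1 * t.2.1 * t.2.2 ≤ N)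

/-- the product s l k -/
def pt (t : ℕ × ℕ × ℕ) : ℕ := t.1 * t.2.1 * t.2.2

/-- the multiplicity of m -/
noncomputable def bm (Y K N m : ℕ) : ℕ := ((Tr Y K N).filter (fun t => pt t = m)).card

/-- the number of (e, t) with e s l k ≡ -1 mod d -/
noncomputable def AA (E0 E1 Y K N d : ℕ) : ℕ :=
  ((Ep E0 E1 ×ˢ Tr Y K N).filter (fun w => d ∣ w.1 * pt w.2 + 1)).card

/-- the number of (e, t) coprime to d -/
noncomputable def UU (E0 E1 Y K N d : ℕ) : ℕ :=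
  ((Ep E0 E1).filter (fun e => e.Coprime d)).card *
    ((Tr Y K N).filter (fun t => (pt t).Coprime d)).card

/-- the density of the sieve -/
noncomputable def gd (d : ℕ) : ℝ := (d.totient : ℝ) / (d : ℝ) ^ 2

/-- the Selberg terms: h(p) = (p-1)/(p²-p+1) -/
noncomputable def hh (d : ℕ) : ℝ :=
  ∏ p ∈ d.primeFactors, ((p : ℝ) - 1) / ((p : ℝ) ^ 2 - p + 1)

/-- H(Δ) = ∑_{j ≤ Δ squarefree} h(j) -/
noncomputable def HH (Δ : ℕ) : ℝ := ∑ j ∈ (Icc 1 Δ).filter Squarefree, hh j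

end Pool.Agent.Lib.MP_a260de_nt.CN3
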