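import Pool.Agent.Lib.MP_a260de_nt.CN3.SpecE

set_option autoImplicit false

namespace Pool.Agent.Lib.MP_a260de_nt.CN3

open Finset
open Pool.Agent.Lib.BV (cls cs prim nrm del SplStmt InjStmt TotStmt BlkStmt SwStmt)

/-- the number of large prime factors -/
private lemma bmt_card (ρ : ℝ) (n Y m : ℕ) (hn : 2 ≤ n)
    (hY : (n : ℝ) ^ ρ ≤ (Y : ℝ)) (hm : 1 ≤ m) (hmn : m ≤ n) :
    ρ * ((m.primeFactors.filter (fun p => Y < p)).card : ℝ) ≤ 1 := by
  set P := m.primeFactors.filter (fun p => Y < p) with hP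
  have hn1 : (1 : ℝ) < (n : ℝ) := by exact_mod_cast hn
  have hn0 : (0 : ℝ) ≤ (n : ℝ) := by positivity
  have h1 : (∏ p ∈ P, p) ∣ m := by
    refine dvd_trans (Finset.prod_dvd_prod_of_subset P m.primeFactors (fun p => p)
      (Finset.filter_subset _ _)) (Nat.prod_primeFactors_dvd m)
  have h2 : (∏ p ∈ P, p) ≤ m := Nat.le_of_dvd hm h1
  have h3 : ((n : ℝ) ^ ρ) ^ P.card ≤ ((∏ p ∈ P, p : ℕ) : ℝ) := by
    rw [Nat.cast_prod, ← Finset.prod_const]
    refine Finset.prod_le_prod (fun i _ => Real.rpow_nonneg hn0 _) (fun i hi => ?_)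
    have : Y < i := (Finset.mem_filter.mp hi).2
    refine le_trans hY ?_
    exact_mod_cast this.le
  have h4 : ((∏ p ∈ P, p : ℕ) : ℝ) ≤ (n : ℝ) := by exact_mod_cast h2.trans hmn
  have h5 : (n : ℝ) ^ (ρ * (P.card : ℝ)) ≤ (n : ℝ) ^ (1 : ℝ) := by
    rw [Real.rpow_mul hn0, Real.rpow_natCast, Real.rpow_one]
    exact h3.trans h4
  exact (Real.rpow_le_rpow_left_iff hn1).mp h5

theorem t_Bmt : S_Bmt := by
  intro ρ n Y K N m hρ hn hY hNn hm hmN
  have hc := bmt_card ρ n Y m hn hY hm (hmN.trans hNn)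
  set P := m.primeFactors.filter (fun p => Y < p) with hP
  have hcard : bm Y K N m ≤ (P ×ˢ m.divisors).card := by
    unfold bm
    refine Finset.card_le_card_of_injOn (fun t => (t.2.1, t.1)) ?_ ?_
    · rintro ⟨s, l, k⟩ ht
      simp only [Finset.coe_filter, Set.mem_ofPred_eq, Tr, Finset.mem_filter, Finset.mem_product,
        Finset.mem_Ioc, pt] at ht
      obtain ⟨⟨⟨hs, hl, hk⟩, hlp, hle⟩, hpt⟩ := ht
      simp only [Finset.coe_product, Set.mem_prod, Finset.mem_coe, hP, Finset.mem_filter,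
        Nat.mem_primeFactors, Nat.mem_divisors]
      have hlm : l ∣ m := ⟨s * k, by rw [← hpt]; ring⟩
      have hsm : s ∣ m := ⟨l * k, by rw [← hpt]; ring⟩
      exact ⟨⟨⟨hlp, hlm, by omega⟩, hl.1⟩, hsm, by omega⟩
    · rintro ⟨s, l, k⟩ ht ⟨s', l', k'⟩ ht' h
      simp only [Finset.coe_filter, Set.mem_ofPred_eq, Tr, Finset.mem_filter, Finset.mem_product,
        Finset.mem_Ioc, pt] at ht ht'
      simp only [Prod.mk.injEq] at h
      obtain ⟨hl, hs⟩ := h
      subst hl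
      subst hs
      have hs0 : 0 < s := by omega
      have hl0 : 0 < l := by omega
      have : s * l * k = s * l * k' := by rw [ht.2, ht'.2]
      have hk : k = k' := Nat.eq_of_mul_eq_mul_left (Nat.mul_pos hs0 hl0) this
      rw [hk]
  have h1 : (bm Y K N m : ℝ) ≤ (P.card : ℝ) * (m.divisors.card : ℝ) := by
    rw [Finset.card_product] at hcard
    exact_mod_cast hcard
  refine h1.trans ?_
  refine mul_le_mul_of_nonneg_right ?_ (by positivity)
  rw [le_div_iff₀ hρ]
  linarith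

end Pool.Agent.Lib.MP_a260de_nt.CN3
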