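import Pool.Agent.Lib.MP_a260de_nt.CN3.SpecE

set_option autoImplicit false

namespace Pool.Agent.Lib.MP_a260de_nt.CN3

open Finset
open Pool.Agent.Lib.BV (cls cs prim nrm del SplStmt InjStmt TotStmt BlkStmt SwStmt)

private noncomputable def gUga (p : ℕ) : ℝ := ((p : ℝ) - 1) / (p : ℝ) ^ 2

private noncomputable def uUga : ArithmeticFunction ℝ :=
  ⟨fun a => if a = 0 then 0 else 1 / ((a : ℝ) * ((∏ p ∈ a.primeFactors, p : ℕ) : ℝ)), if_pos rfl⟩

private noncomputable def vUga : ArithmeticFunction ℝ :=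
  ⟨fun a => if a = 0 then 0 else cm gUga a, if_pos rfl⟩

private noncomputable def wUga : ArithmeticFunction ℝ :=
  ⟨fun a => if a = 0 then 0 else 1 / (a : ℝ), if_pos rfl⟩

private lemma uUga_apply {a : ℕ} (h : a ≠ 0) :
    uUga a = 1 / ((a : ℝ) * ((∏ p ∈ a.primeFactors, p : ℕ) : ℝ)) := if_neg h

private lemma vUga_apply {a : ℕ} (h : a ≠ 0) : vUga a = cm gUga a := if_neg h

private lemma wUga_apply {a : ℕ} (h : a ≠ 0) : wUga a = 1 / (a : ℝ) := if_neg h

private lemma uUga_mult : uUga.IsMultiplicative := by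
  rw [ArithmeticFunction.IsMultiplicative.iff_ne_zero]
  refine ⟨?_, fun {m n} hm hn hc => ?_⟩
  · rw [uUga_apply one_ne_zero]
    simp
  · rw [uUga_apply hm, uUga_apply hn, uUga_apply (mul_ne_zero hm hn), hc.primeFactors_mul,
      Finset.prod_union hc.disjoint_primeFactors]
    push_cast
    rw [div_mul_div_comm, one_mul]
    congr 1
    ring

private lemma cmUga_mul (F : ℕ → ℝ) {m n : ℕ} (hc : m.Coprime n) :
    cm F (m * n) = cm F m * cm F n := by
  unfold cm
  rw [hc.primeFactors_mul, Finset.prod_union hc.disjoint_primeFactors]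
  congr 1
  · refine Finset.prod_congr rfl fun p hp => ?_
    rw [Nat.factorization_eq_of_coprime_left hc
      (by rw [← Nat.mem_primeFactors_iff_mem_primeFactorsList]; exact hp)]
  · refine Finset.prod_congr rfl fun p hp => ?_
    rw [Nat.factorization_eq_of_coprime_right hc
      (by rw [← Nat.mem_primeFactors_iff_mem_primeFactorsList]; exact hp)]

private lemma vUga_mult : vUga.IsMultiplicative := by
  rw [ArithmeticFunction.IsMultiplicative.iff_ne_zero]
  refine ⟨?_, fun {m n} hm hn hc => ?_⟩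
  · rw [vUga_apply one_ne_zero]
    simp [cm]
  · rw [vUga_apply hm, vUga_apply hn, vUga_apply (mul_ne_zero hm hn), cmUga_mul _ hc]

private lemma wUga_mult : wUga.IsMultiplicative := by
  rw [ArithmeticFunction.IsMultiplicative.iff_ne_zero]
  refine ⟨?_, fun {m n} hm hn hc => ?_⟩
  · rw [wUga_apply one_ne_zero]
    simp
  · rw [wUga_apply hm, wUga_apply hn, wUga_apply (mul_ne_zero hm hn)]
    push_cast
    rw [div_mul_div_comm, one_mul]

private lemma vUga_pow {p : ℕ} (hp : p.Prime) (j : ℕ) : vUga (p ^ j) = gUga p ^ j := by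
  rw [vUga_apply (pow_ne_zero _ hp.ne_zero)]
  unfold cm
  rcases Nat.eq_zero_or_pos j with h | h
  · subst h
    simp
  · rw [Nat.primeFactors_prime_pow (by omega) hp, Finset.prod_singleton, hp.factorization_pow,
      Finsupp.single_eq_same]

private lemma uUga_pow {p : ℕ} (hp : p.Prime) (j : ℕ) :
    uUga (p ^ (j + 1)) = 1 / (p : ℝ) ^ (j + 2) := by
  rw [uUga_apply (pow_ne_zero _ hp.ne_zero), Nat.primeFactors_prime_pow (by omega) hp,
    Finset.prod_singleton]
  push_cast
  ring

private lemma uvUga_pow {p : ℕ} (hp : p.Prime) (k : ℕ) :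
    (uUga * vUga) (p ^ k) = ∑ i ∈ range (k + 1), uUga (p ^ i) * vUga (p ^ (k - i)) := by
  rw [ArithmeticFunction.mul_apply,
    Nat.sum_divisorsAntidiagonal (f := fun a b => uUga a * vUga b),
    Nat.sum_divisors_prime_pow hp]
  refine Finset.sum_congr rfl fun i hi => ?_
  rw [Nat.pow_div (by have := mem_range.mp hi; omega) hp.pos]

private lemma uvUga_eq {p : ℕ} (hp : p.Prime) (k : ℕ) :
    (uUga * vUga) (p ^ k) = 1 / (p : ℝ) ^ k := by
  have hp0 : (p : ℝ) ≠ 0 := by exact_mod_cast hp.ne_zero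
  induction k with
  | zero =>
    rw [uvUga_pow hp]
    have h1 : uUga (p ^ 0) = 1 := by
      rw [pow_zero]
      exact uUga_mult.1
    have h2 := vUga_pow hp 0
    simp [h1, h2] at *
    simp [h1, h2]
  | succ k ih =>
    rw [uvUga_pow hp, Finset.sum_range_succ]
    have h1 : ∑ i ∈ range (k + 1), uUga (p ^ i) * vUga (p ^ (k + 1 - i)) =
        gUga p * (1 / (p : ℝ) ^ k) := by
      rw [← ih, uvUga_pow hp, Finset.mul_sum]
      refine Finset.sum_congr rfl fun i hi => ?_
      have hi' := mem_range.mp hi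
      have h3 : k + 1 - i = (k - i) + 1 := by omega
      rw [vUga_pow hp, vUga_pow hp, h3, pow_succ]
      ring
    rw [h1, vUga_pow hp, uUga_pow hp, Nat.sub_self, pow_zero, mul_one]
    unfold gUga
    field_simp
    ring

theorem t_Uga : S_Uga := by
  intro n hn
  have hn0 : n ≠ 0 := by omega
  have h1 : uUga * vUga = wUga := by
    rw [ArithmeticFunction.IsMultiplicative.eq_iff_eq_on_prime_powers _
      (uUga_mult.mul vUga_mult) _ wUga_mult]
    intro p k hp
    rw [uvUga_eq hp, wUga_apply (pow_ne_zero _ hp.ne_zero)]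
    push_cast
    rfl
  have h2 : (uUga * vUga) n = 1 / (n : ℝ) := by rw [h1, wUga_apply hn0]
  rw [← h2, ArithmeticFunction.mul_apply]
  refine le_of_eq (Finset.sum_congr rfl fun w hw => ?_)
  have hw' := Nat.mem_divisorsAntidiagonal.mp hw
  have hw1 : w.1 ≠ 0 := by
    intro h
    apply hw'.2
    rw [← hw'.1, h, zero_mul]
  have hw2 : w.2 ≠ 0 := by
    intro h
    apply hw'.2
    rw [← hw'.1, h, mul_zero]
  rw [uUga_apply hw1, vUga_apply hw2]
  rfl

end Pool.Agent.Lib.MP_a260de_nt.CN3
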