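import Pool.Agent.Lib.MP_a260de_nt.CN3.Defs

/-!
MP_a260de_nt, PROJECT CN, part A, strong version: interface between the analytic half (SpecE, helper76) and
the sieve and main term half (SpecM, helper72).
-/

namespace Pool.Agent.Lib.MP_a260de_nt.CN3

open Finset

/-- the error terms on average (helper76) -/
def S_Err : Prop := ∀ A ρ : ℝ, 0 < A → 0 < ρ → ∃ (C : ℝ) (n0 : ℕ), 0 < C ∧
  ∀ n E0 E1 Y K N D : ℕ, n0 ≤ n → (n : ℝ) ^ ρ ≤ (E0 : ℝ) → E0 < E1 → E1 ≤ 2 * E0 → E1 ≤ n →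
    (n : ℝ) ^ ρ ≤ (Y : ℝ) → (n : ℝ) ^ ρ ≤ (N : ℝ) → N ≤ n →
    (D : ℝ) * (n : ℝ) ^ ρ ≤ Real.sqrt ((E0 : ℝ) * N) →
    ∑ d ∈ (Icc 1 D).filter Squarefree,
      3 ^ om d * |(AA E0 E1 Y K N d : ℝ) - (UU E0 E1 Y K N d : ℝ) / (d.totient : ℝ)| ≤
        C * ((E0 : ℝ) * N / Real.log n ^ A)

/-- Selberg's weights for the density gd (helper76) -/
def S_Sel : Prop := ∀ Δ : ℕ, 1 ≤ Δ → ∃ lam : ℕ → ℝ, lam 1 = 1 ∧ (∀ d, |lam d| ≤ 1) ∧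
  (∀ d, lam d ≠ 0 → Squarefree d ∧ 1 ≤ d ∧ d ≤ Δ) ∧
  ∑ d ∈ Icc 1 Δ, ∑ d' ∈ Icc 1 Δ, lam d * lam d' * gd (Nat.lcm d d') = 1 / HH Δ

/-- the lower bound for H(Δ) (helper76) -/
def S_Hlo : Prop := ∀ ε : ℝ, 0 < ε → ∃ Δ0 : ℕ, ∀ Δ : ℕ, Δ0 ≤ Δ →
  (1 - ε) * Real.log Δ ≤ CN.A.c0 * HH Δ

/-- sums of c^ω(e)/φ(e) (helper76) -/
def S_Twc : Prop := ∀ c D : ℕ, 1 ≤ D →
  ∑ e ∈ (Icc 1 D).filter Squarefree, (c : ℝ) ^ om e / (e.totient : ℝ) ≤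
    (1 + Real.log D) ^ (2 * c)

end Pool.Agent.Lib.MP_a260de_nt.CN3
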