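import Pool.Agent.Lib.MP_a260de_nt.CN3.SpecM

/-!
MP_a260de_nt, PROJECT CN, part A, strong version, module Mrz (helper23): Mertens for the range of l.
-/

namespace Pool.Agent.Lib.MP_a260de_nt.CN3

open Finset Pool.Agent.Lib.MP_a260de_nt.CN.A

private lemma Mrz_floor {a : ℝ} (ha : 1 ≤ a) : a / 2 ≤ (⌊a⌋₊ : ℝ) := by
  have h1 : a < (⌊a⌋₊ : ℝ) + 1 := Nat.lt_floor_add_one a
  have h2 : (1 : ℝ) ≤ (⌊a⌋₊ : ℝ) := by
    exact_mod_cast (Nat.one_le_floor_iff a).2 ha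
  linarith

private lemma Mrz_top {β η z : ℝ} (hβ : 0 < β) (hβη : β + η < 1 / 2) (hz : 1 ≤ z) :
    ((2 * (⌊z⌋₊ / ⌊z ^ (1 / 2 - β - η)⌋₊) / ⌊z ^ β⌋₊ : ℕ) : ℝ) ≤ 8 * z ^ (1 / 2 + η) := by
  have hz0 : 0 < z := by linarith
  have h1 : (1 : ℝ) ≤ z ^ (1 / 2 - β - η) := Real.one_le_rpow hz (by linarith)
  have h2 : (1 : ℝ) ≤ z ^ β := Real.one_le_rpow hz hβ.le
  have h3 := Mrz_floor h1
  have h4 := Mrz_floor h2
  have hE0 : 0 < z ^ (1 / 2 - β - η) := by linarith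
  have hB0 : 0 < z ^ β := by linarith
  have h5 : ((⌊z⌋₊ / ⌊z ^ (1 / 2 - β - η)⌋₊ : ℕ) : ℝ) ≤ z / (z ^ (1 / 2 - β - η) / 2) := by
    refine (Nat.cast_div_le).trans ?_
    apply div_le_div₀ hz0.le (Nat.floor_le hz0.le) (by positivity) h3
  have h6 : ((2 * (⌊z⌋₊ / ⌊z ^ (1 / 2 - β - η)⌋₊) / ⌊z ^ β⌋₊ : ℕ) : ℝ) ≤
      2 * (z / (z ^ (1 / 2 - β - η) / 2)) / (z ^ β / 2) := by
    refine (Nat.cast_div_le).trans ?_
    apply div_le_div₀ (by positivity) ?_ (by positivity) h4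
    push_cast
    linarith
  refine h6.trans (le_of_eq ?_)
  have h7 : z ^ (1 / 2 + η) * z ^ β * z ^ (1 / 2 - β - η) = z := by
    rw [← Real.rpow_add hz0, ← Real.rpow_add hz0]
    have : 1 / 2 + η + β + (1 / 2 - β - η) = (1 : ℝ) := by ring
    rw [this, Real.rpow_one]
  rw [div_eq_iff (by positivity)]
  rw [div_div_eq_mul_div]
  rw [mul_div_assoc', div_eq_iff (by positivity)]
  linear_combination (-4 : ℝ) * h7

theorem tMrz (h : Pool.Agent.Lib.SG.MrtStmt) : S_Mrz := by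
  obtain ⟨C, hC, hM⟩ := h
  intro β η ε hβ hη hβη hε
  have hl8 : 0 < Real.log 8 := Real.log_pos (by norm_num)
  refine ⟨Real.exp (max (max 0 (1 / β)) ((Real.log 8 + C) / (β * ε))), fun z hz => ?_⟩
  have hz0 : 0 < z := lt_of_lt_of_le (Real.exp_pos _) hz
  have hL : max (max 0 (1 / β)) ((Real.log 8 + C) / (β * ε)) ≤ Real.log z := by
    rw [Real.le_log_iff_exp_le hz0]
    exact hz
  have hL1 : 1 / β ≤ Real.log z := (le_max_right _ _).trans ((le_max_left _ _).trans hL)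
  have hL2 : (Real.log 8 + C) / (β * ε) ≤ Real.log z := (le_max_right _ _).trans hL
  have hLpos : 0 < Real.log z := lt_of_lt_of_le (by positivity) hL1
  have hz1 : 1 ≤ z := by
    have := Real.add_one_le_exp (Real.log z)
    rw [Real.exp_log hz0] at this
    linarith
  have hβL : 1 ≤ β * Real.log z := by
    rw [div_le_iff₀ hβ] at hL1
    linarith
  have hx2 : (2 : ℝ) ≤ z ^ β := by
    rw [Real.rpow_def_of_pos hz0]
    have := Real.add_one_le_exp (Real.log z * β)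
    linarith
  have hxy : z ^ β ≤ 8 * z ^ (1 / 2 + η) := by
    have h1 : z ^ β ≤ z ^ (1 / 2 + η) := Real.rpow_le_rpow_of_exponent_le hz1 (by linarith)
    have h2 : 0 < z ^ (1 / 2 + η) := Real.rpow_pos_of_pos hz0 _
    linarith
  have h1 := hM (z ^ β) (8 * z ^ (1 / 2 + η)) hx2 hxy
  rw [Real.log_mul (by norm_num) (Real.rpow_pos_of_pos hz0 _).ne', Real.log_rpow hz0,
    Real.log_rpow hz0] at h1
  have h2 : ∑ l ∈ (Ioc ⌊z ^ β⌋₊ (2 * (⌊z⌋₊ / ⌊z ^ (1 / 2 - β - η)⌋₊) / ⌊z ^ β⌋₊)).filter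
      Nat.Prime, 1 / (l : ℝ) ≤
      ∑ l ∈ (Ioc ⌊z ^ β⌋₊ ⌊8 * z ^ (1 / 2 + η)⌋₊).filter Nat.Prime, 1 / (l : ℝ) := by
    apply Finset.sum_le_sum_of_subset_of_nonneg
    · apply Finset.filter_subset_filter
      apply Finset.Ioc_subset_Ioc_right
      exact Nat.le_floor (Mrz_top hβ hβη hz1)
    · intro i _ _
      positivity
  refine h2.trans ?_
  have h3 := (abs_le.1 h1).2
  have ha : 1 ≤ (1 / 2 + η) / β := by
    rw [le_div_iff₀ hβ]
    linarith
  have ha0 : 0 < (1 / 2 + η) / β := by linarith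
  have hbL : 0 < β * Real.log z := by linarith
  have h4 : (Real.log 8 + (1 / 2 + η) * Real.log z) / (β * Real.log z) =
      (1 / 2 + η) / β * (1 + Real.log 8 / (β * Real.log z) / ((1 / 2 + η) / β)) := by
    have h5 : (1 / 2 + η) ≠ 0 := by
      have : 0 < 1 / 2 + η := by linarith
      exact this.ne'
    field_simp
    ring
  have h5 : Real.log ((Real.log 8 + (1 / 2 + η) * Real.log z) / (β * Real.log z)) ≤
      Real.log ((1 / 2 + η) / β) + Real.log 8 / (β * Real.log z) := by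
    rw [h4, Real.log_mul ha0.ne' (by positivity)]
    have h6 : Real.log (1 + Real.log 8 / (β * Real.log z) / ((1 / 2 + η) / β)) ≤
        Real.log 8 / (β * Real.log z) / ((1 / 2 + η) / β) := by
      have h7 := Real.log_le_sub_one_of_pos
        (show 0 < 1 + Real.log 8 / (β * Real.log z) / ((1 / 2 + η) / β) by positivity)
      linarith
    have h8 : Real.log 8 / (β * Real.log z) / ((1 / 2 + η) / β) ≤ Real.log 8 / (β * Real.log z) :=
      div_le_self (by positivity) ha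
    linarith
  have h6 : Real.log 8 / (β * Real.log z) + C / (β * Real.log z) ≤ ε := by
    rw [← add_div, div_le_iff₀ hbL]
    rw [div_le_iff₀ (by positivity)] at hL2
    nlinarith
  linarith

end Pool.Agent.Lib.MP_a260de_nt.CN3
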