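import Pool.Agent.Lib.MP_a260de_nt.CN3.Iface
import Pool.Agent.Lib.BV.SpecD

/-!
MP_a260de_nt, PROJECT CN3 (smooth shifted primes with β = 0.39), part E (helper76): the error terms of the
bilinear Bombieri-Vinogradov theorem (`S_Err`), Selberg's weights for the density φ(d)/d² (`S_Sel`), the
lower bound log Δ ≤ c0 H(Δ) (`S_Hlo`) and `S_Twc`. These four statements are in Iface.lean.

RULES. Module Xyz: file Pool/Agent/Lib/MP_a260de_nt/CN3/E_Xyz.lean, first line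
`import Pool.Agent.Lib.MP_a260de_nt.CN3.SpecE` (plus the library files named in the docstring), namespace
`Pool.Agent.Lib.MP_a260de_nt.CN3`, opens as in this file, final theorem `theorem t_Xyz (h1 : S_...) ... : S_Xyz`, the statements
listed under Uses being the hypotheses in this order (BV.X means the statement XStmt of Lib/BV). Auxiliary lemmas private. Do not
import other modules E_... . No sorry, no congr!, module below 60 s. The docstrings contain complete proofs.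
-/

set_option autoImplicit false

namespace Pool.Agent.Lib.MP_a260de_nt.CN3

open Finset
open Pool.Agent.Lib.BV (cls cs prim nrm del SplStmt InjStmt TotStmt BlkStmt SwStmt)

/-- the indicator of the primes in (E0, E1] -/
noncomputable def ae (E0 E1 m : ℕ) : ℂ := if m ∈ Ep E0 E1 then 1 else 0

/-- the multiplicity `bm` as a complex number -/
noncomputable def bc (Y K N m : ℕ) : ℂ := (bm Y K N m : ℂ)

/-- the contribution of the primitive characters mod q -/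
noncomputable def dd (a b : ℕ → ℂ) (M N e q : ℕ) : ℝ :=
  (3 : ℝ) ^ om q / (q.totient : ℝ) * ∑ χ ∈ prim q, ‖cs a M e χ‖ * ‖cs b N e χ‖

/-! ### Part 1: characters -/

/-- **Cnv** (60 lines). Uses: nothing.
Proof. f n = sum of a e * b m over the pairs (e, m) ∈ Icc 1 M ×ˢ Icc 1 N with e m = n. All three: sort the pairs by n = e m, which
is in Icc 1 (M N) (Finset.sum_fiberwise_of_maps_to); χ(e m) = χ(e) χ(m); (e m, d) = 1 iff (e, d) = (m, d) = 1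
(Nat.coprime_mul_iff_left). -/
def S_Cnv : Prop := ∀ (a b : ℕ → ℂ) (M N : ℕ), ∃ f : ℕ → ℂ,
  (∀ d l : ℕ, cls f (M * N) d l =
    ∑ e ∈ Icc 1 M, ∑ m ∈ Icc 1 N, if e * m ≡ l [MOD d] then a e * b m else 0) ∧
  (∀ (d q : ℕ) (χ : DirichletCharacter ℂ q), cs f (M * N) d χ = cs a M d χ * cs b N d χ) ∧
  ∀ d : ℕ, ∑ n ∈ (Icc 1 (M * N)).filter (fun n => n.Coprime d), f n =
    (∑ e ∈ (Icc 1 M).filter (fun e => e.Coprime d), a e) *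
      ∑ m ∈ (Icc 1 N).filter (fun m => m.Coprime d), b m

/-- **Dsp** (50 lines). Uses: Cnv, BV.Spl, BV.Inj.
Proof. f from Cnv. Spl with Q = 1: the term del (1 < · ≤ 1) is an empty sum, so 0. Inj with c = (1 < ·) for the term del (1 < ·), and
‖cs f‖ = ‖cs a‖ ‖cs b‖. -/
def S_Dsp : Prop := ∀ (a b : ℕ → ℂ) (M N d l : ℕ), 1 ≤ d → l.Coprime d →
  ‖(∑ e ∈ Icc 1 M, ∑ m ∈ Icc 1 N, if e * m ≡ l [MOD d] then a e * b m else 0) -
      (1 / (d.totient : ℂ)) * ((∑ e ∈ (Icc 1 M).filter (fun e => e.Coprime d), a e) *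
        ∑ m ∈ (Icc 1 N).filter (fun m => m.Coprime d), b m)‖ ≤
    (1 / (d.totient : ℝ)) * ∑ q ∈ d.divisors.filter (fun q => 1 < q),
      ∑ χ ∈ prim q, ‖cs a M d χ‖ * ‖cs b N d χ‖

/-- **Aud** (80 lines). Uses: Dsp.
Proof. Dsp with a = ae E0 E1, M = E1, b = bc Y K N, l = d - 1 (coprime to d; for d = 1 l = 0). e m + 1 ≡ 0 mod d iff
e m ≡ d - 1 mod d. The double sum is AA: count the pairs (e, t) of AA according to m = pt t (1 ≤ pt t ≤ N for t ∈ Tr: all three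
components are ≥ 1; Finset.card_filter, card_eq_sum_card_fiberwise). The sums over the m coprime to d give the two factors of UU. -/
def S_Aud : Prop := ∀ E0 E1 Y K N d : ℕ, 1 ≤ d →
  |(AA E0 E1 Y K N d : ℝ) - (UU E0 E1 Y K N d : ℝ) / (d.totient : ℝ)| ≤
    (1 / (d.totient : ℝ)) * ∑ q ∈ d.divisors.filter (fun q => 1 < q),
      ∑ χ ∈ prim q, ‖cs (ae E0 E1) E1 d χ‖ * ‖cs (bc Y K N) N d χ‖

/-- **Wgt** (120 lines; compare Lib/BV/Pr2.lean, Pr2Stmt in Lib/BV/SpecC.lean). Uses: nothing.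
Proof. Let d ≤ D be squarefree, q | d, e = d/q: then q and e are squarefree and coprime, om d = om q + om e,
φ(d) = φ(q) φ(e), and cs a M d χ = cs a M e χ for a character χ mod q (χ(n) = 0 if n is not coprime to q; (n, q e) = 1 iff (n, q) = (n, e) = 1).
The map (d, q) ↦ (e, q) is injective; e ≤ D, 1 < q ≤ D. All terms are ≥ 0. -/
def S_Wgt : Prop := ∀ (a b : ℕ → ℂ) (M N D : ℕ),
  ∑ d ∈ (Icc 1 D).filter Squarefree, (3 : ℝ) ^ om d * ((1 / (d.totient : ℝ)) *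
      ∑ q ∈ d.divisors.filter (fun q => 1 < q), ∑ χ ∈ prim q, ‖cs a M d χ‖ * ‖cs b N d χ‖) ≤
    ∑ e ∈ (Icc 1 D).filter Squarefree, (3 : ℝ) ^ om e / (e.totient : ℝ) *
      ∑ q ∈ Ioc 1 D, dd a b M N e q

/-! ### Part 2: elementary estimates -/

/-! **Twc** (90 lines; `theorem t_Twc (h1 : TotStmt) : S_Twc`, the statement S_Twc is in Iface.lean). Uses: BV.Tot.
Proof. Induction on c. c = 0: only e = 1 has a nonzero term (0^0 = 1), and 1 ≤ 1. Step: for squarefree e,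
(c + 1)^(om e) = ∑_{u | e} c^(om u) (subsets of the prime factors: Finset.sum_pow_mul_eq_add_pow or prod_add_one,
Nat.sum_divisors_filter_squarefree) and φ(e) = φ(u) φ(e/u), so
∑_{e ≤ D sf} (c + 1)^(om e)/φ(e) ≤ (∑_{u ≤ D sf} c^(om u)/φ(u)) (∑_{w ≤ D} 1/φ(w)) (the map (e, u) ↦ (u, e/u) is injective), and the second
factor is ≤ (1 + log D)² by Tot. -/

/-- **Om3** (60 lines). Uses: nothing.
Proof. P0 = ⌈3^(1/ε)⌉₊: a prime p ≥ P0 satisfies 3 ≤ p^ε. 3^(om q) = ∏_{p | q} 3 ≤ 3^(number of p | q, p < P0) ∏_{p | q, p ≥ P0} p^ε ≤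
3^P0 (∏_{p | q} p)^ε ≤ 3^P0 q^ε. C = 3^P0. -/
def S_Om3 : Prop := ∀ ε : ℝ, 0 < ε → ∃ C : ℝ, 1 ≤ C ∧ ∀ q : ℕ, 1 ≤ q → (3 : ℝ) ^ om q ≤ C * (q : ℝ) ^ ε

/-- **Tau** (60 lines). Uses: nothing. (Perhaps already somewhere in Pool/Agent/Lib.)
Proof. τ(m)² = ∑_{a | m} τ(m) and τ(a k) ≤ τ(a) τ(k) (every divisor of a k is a product of divisors of a and of k), so the sum is
≤ ∑_{a ≤ N} τ(a) ∑_{k ≤ N/a} τ(k), ∑_{k ≤ x} τ(k) = ∑_{b ≤ x} ⌊x/b⌋ ≤ x (1 + log x), so ≤ N (1 + log N) ∑_{a ≤ N} τ(a)/a ≤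
N (1 + log N) (∑_{c ≤ N} 1/c)² ≤ N (1 + log N)³ (harmonic_le_one_add_log). -/
def S_Tau : Prop := ∀ N : ℕ, 1 ≤ N →
  ∑ m ∈ Icc 1 N, ((m.divisors.card : ℕ) : ℝ) ^ 2 ≤ (N : ℝ) * (1 + Real.log N) ^ 3

/-- **Bmt** (80 lines). Uses: nothing.
Proof. A triple t = (s, l, k) of Tr with pt t = m is determined by l and s, l is a prime factor of m with l > Y ≥ n^ρ and s | m. The
product of the different primes l | m, l > n^ρ, divides m ≤ N ≤ n, so (n^ρ)^j ≤ n for their number j, j ≤ 1/ρ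
(n ≥ 2). So there are ≤ (1/ρ) τ(m) such triples. -/
def S_Bmt : Prop := ∀ (ρ : ℝ) (n Y K N m : ℕ), 0 < ρ → 2 ≤ n → (n : ℝ) ^ ρ ≤ (Y : ℝ) → N ≤ n → 1 ≤ m →
  m ≤ N → (bm Y K N m : ℝ) ≤ (1 / ρ) * (m.divisors.card : ℝ)

/-- **Nrb** (50 lines). Uses: Tau, Bmt.
Proof. nrm² = ∑ bm² ≤ (1/ρ)² ∑_{m ≤ N} τ(m)² ≤ (1/ρ)² N (1 + log N)³, square roots, (1 + log N)^(3/2) ≤ (1 + log n)². Second part:
‖cs b‖ ≤ ∑_{m ≤ N} bm m ≤ √N nrm b (Cauchy-Schwarz; ‖χ‖ ≤ 1). Third part: nrm² is the number of the primes in (E0, E1]. -/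
def S_Nrb : Prop := (∀ (ρ : ℝ) (n Y K N : ℕ), 0 < ρ → 2 ≤ n → (n : ℝ) ^ ρ ≤ (Y : ℝ) → N ≤ n → 1 ≤ N →
    nrm (bc Y K N) N ≤ (1 / ρ) * Real.sqrt N * (1 + Real.log n) ^ 2) ∧
  (∀ (b : ℕ → ℂ) (N e q : ℕ) (χ : DirichletCharacter ℂ q), ‖cs b N e χ‖ ≤ Real.sqrt N * nrm b N) ∧
  ∀ E0 E1 : ℕ, E1 ≤ 2 * E0 → nrm (ae E0 E1) E1 ≤ Real.sqrt E0

/-! ### Part 3: small conductors -/

/-- **Low** (120 lines). Uses: BV.Sw.
Proof. cs (ae E0 E1) E1 e χ = ∑_{p ≤ E1} χ(p) - ∑_{p ≤ E0} χ(p) - ∑_{E0 < p ≤ E1, p | e} χ(p). The last sum has at most 1/ρ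
terms (the primes p | e with p > n^ρ, e ≤ n, as in Bmt). For n large E0 ≥ n^ρ ≥ 3, log E0 ≥ ρ log n, and
q ≤ (log n)^B ≤ (ρ log n)^(B+1) ≤ (log x)^(B+1) for x = E0, E1 as soon as ρ^(B+1) log n ≥ 1. Sw with A, B + 1:
each of the two sums is ≤ C1 x/(log x)^A ≤ C1 2 E0/(ρ log n)^A. And 1/ρ ≤ E0/(log n)^A for n large (E0 ≥ n^ρ). -/
def S_Low : Prop := ∀ A B ρ : ℝ, 0 < A → 0 < B → 0 < ρ → ρ ≤ 1 → ∃ (C : ℝ) (n0 : ℕ), 0 < C ∧
  ∀ n E0 E1 e q : ℕ, n0 ≤ n → E0 < E1 → E1 ≤ 2 * E0 → (n : ℝ) ^ ρ ≤ (E0 : ℝ) → E1 ≤ n → 1 ≤ e → e ≤ n →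
    2 ≤ q → (q : ℝ) ≤ (Real.log n) ^ B → ∀ χ : DirichletCharacter ℂ q, χ.IsPrimitive →
    ‖cs (ae E0 E1) E1 e χ‖ ≤ C * ((E0 : ℝ) / (Real.log n) ^ A)

/-! ### Part 4: large conductors -/

/-- **Blw** (150 lines; compare Lib/BV/Bil.lean). Uses: BV.Blk, Om3.
Proof. C1 from Om3 for ε. Q_i = Q0 2^i; Ioc Q0 D is the disjoint union of Ioc Q_i (min (2 Q_i) D) over the i with Q_i < D
(at most 1 + log D/log 2 ≤ 2 (1 + log D) of them). On one block 3^(om q) ≤ C1 q^ε ≤ C1 (2 Q_i)^ε, so with Blk the block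
is ≤ C1 (2 Q_i)^ε 20 nrm nrm (√(MN)/Q_i + 2 (√M + √N) + 2 min(2 Q_i, D)). (2 Q_i)^ε ≤ 2 Q_i^(1/2), so
∑_i (2 Q_i)^ε/Q_i ≤ 2 ∑_i Q_i^(-1/2) ≤ 2 Q0^(-1/2) ∑ 2^(-i/2) ≤ 8 Q0^(-1/2). For Q_i < D, (2 Q_i)^ε ≤ 2 D^ε: the second
terms sum up to ≤ 8 D^ε (1 + log D) (√M + √N), the third to ≤ 2 D^ε ∑_{Q_i < D} 4 Q_i ≤ 16 D^ε D. (Induction on the number of blocks as in
Bil.lean, or strong induction on D - Q0.) -/
def S_Blw : Prop := ∀ ε : ℝ, 0 < ε → ε ≤ 1 / 2 → ∃ C : ℝ, 0 < C ∧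
  ∀ (a b : ℕ → ℂ) (M N e Q0 D : ℕ), 1 ≤ Q0 → 1 ≤ D →
    ∑ q ∈ Ioc Q0 D, dd a b M N e q ≤ C * (nrm a M * nrm b N) *
      (Real.sqrt ((M : ℝ) * N) / Real.sqrt Q0 +
        (D : ℝ) ^ ε * ((1 + Real.log D) * (Real.sqrt M + Real.sqrt N) + D))

/-! ### Part 5: the error term -/

/-- **Erq** (150 lines). Uses: Nrb, Low, Blw.
Proof. A given. B = 2 A + 6, Q0 = ⌊(log n)^B⌋₊ (≥ 1 for n ≥ 3). D ≤ n: D ≤ √(E0 N) ≤ n.
(1) 1 < q ≤ Q0: at most φ(q) primitive characters; Low with A' = A + 2 + 3 B and ‖cs b‖ ≤ √N nrm b ≤ (1/ρ) N (1 + log n)²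
(Nrb) and 3^(om q) ≤ q² ≤ Q0² (3^(om q) ≤ 4^(om q) = (2^om q)² ≤ q²): the sum is ≤ Q0³ C (E0/(log n)^A') (1/ρ) N (1 + log n)²
≤ C' E0 N/(log n)^A.
(2) q > Q0: Blw with ε = ρ/4, M = E1 ≤ 2 E0, nrm nrm ≤ √E0 (1/ρ) √N (1 + log n)² (Nrb), √(E1 N) ≤ 2 √(E0 N),
Q0 ≥ (log n)^B/2, D^ε ≤ n^(ρ/4), D ≤ √(E0 N) n^(-ρ), √(E0 N) (√E1 + √N) ≤ 2 E0 N (1/√N + 1/√E0) ≤ 4 E0 N n^(-ρ/2):
the sum is ≤ C E0 N (1 + log n)³ (3 (log n)^(-B/2) + 4 n^(-ρ/4) + n^(-3ρ/4)) ≤ C' E0 N/(log n)^A for n large.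
(If D ≤ Q0 the second sum is empty and the first one is a part of the sum in (1).) -/
def S_Erq : Prop := ∀ A ρ : ℝ, 0 < A → 0 < ρ → ρ ≤ 1 → ∃ (C : ℝ) (n0 : ℕ), 0 < C ∧
  ∀ n E0 E1 Y K N D e : ℕ, n0 ≤ n → E0 < E1 → E1 ≤ 2 * E0 → (n : ℝ) ^ ρ ≤ (E0 : ℝ) → E1 ≤ n →
    (n : ℝ) ^ ρ ≤ (Y : ℝ) → N ≤ n → (n : ℝ) ^ ρ ≤ (N : ℝ) → 1 ≤ D →
    (D : ℝ) * (n : ℝ) ^ ρ ≤ Real.sqrt ((E0 : ℝ) * N) → 1 ≤ e → e ≤ n →
    ∑ q ∈ Ioc 1 D, dd (ae E0 E1) (bc Y K N) E1 N e q ≤ C * ((E0 : ℝ) * N / (Real.log n) ^ A)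

/-! **Err** (OUTPUT, 80 lines; `theorem t_Err (h1 : S_Aud) (h2 : S_Wgt) (h3 : S_Twc) (h4 : S_Erq) : S_Err`, the statement S_Err is in
Iface.lean). Uses: Aud, Wgt, Twc, Erq.
Proof. If ρ > 1 the hypotheses n^ρ ≤ E0 < E1 ≤ n are contradictory for n ≥ 2. Let ρ ≤ 1. D = 0: empty sum. D ≥ 1: D ≤ n (as in Erq). Aud
for every d, Wgt, Erq with A + 6 for every e ≤ D (1 ≤ e ≤ n), Twc with c = 3: (1 + log D)^6 ≤ (2 log n)^6 for n ≥ 3. -/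

/-! ### Part 6: Selberg's weights -/

/-- Selberg's weights for the density gd -/
noncomputable def lam (Δ d : ℕ) : ℝ :=
  ((ArithmeticFunction.moebius d : ℤ) : ℝ) / (gd d * HH Δ) *
    ∑ k ∈ (Icc 1 Δ).filter (fun k => Squarefree k ∧ d ∣ k), hh k

/-- **Law** (OUTPUT, 150 lines). Uses: nothing. Adapt Lib/TP/Sla.lean or CN/A/GaW.lean (density 1/d, terms 1/φ(d)).
Proof. HH Δ ≥ hh 1 = 1 > 0. lam Δ 1 = HH/HH = 1. d not squarefree: μ(d) = 0; d = 0 or d > Δ: no k (for d = 0 also μ = 0). Let d be squarefree and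
S = ∑_{j ≤ Δ/d, squarefree, coprime to d} hh j ≥ 0. The k of the sum are the k = d j, hh k = hh d * hh j, so
|lam Δ d| = (hh d/gd d) S/HH. hh p/gd p = p²/(p²-p+1) = 1 + hh p for primes p, so hh d/gd d = ∏_{p | d} (1 + hh p) = ∑_{u | d} hh u. The numbers
k = u j, u | d, j as in S (u j ≤ Δ) are squarefree, gcd(k, d) = u and (u, j) ↦ u j is injective, so
HH ≥ ∑_{u | d} hh u S. -/
def S_Law : Prop := ∀ Δ : ℕ, 1 ≤ Δ →
  lam Δ 1 = 1 ∧ (∀ d, |lam Δ d| ≤ 1) ∧ ∀ d, lam Δ d ≠ 0 → Squarefree d ∧ 1 ≤ d ∧ d ≤ Δ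

/-- **Laq** (OUTPUT, 170 lines). Uses: nothing. Adapt Lib/TP/Slq.lean or CN/A/GaQ.lean.
Proof. Only squarefree d, d' matter (otherwise lam = 0). For squarefree m, 1/gd m = ∑_{k | m} 1/hh k (1/gd p = p²/(p-1) = 1 + 1/hh p,
multiplicative on squarefree numbers), and gd (lcm d d') = gd d * gd d'/gd (gcd d d') =
gd d * gd d' ∑_{k | d, k | d'} 1/hh k. So the left side is ∑_{k ≤ Δ squarefree} (1/hh k) z_k², z_k = ∑_{d ≤ Δ, k | d} lam Δ d * gd d =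
(1/HH) ∑_{l ≤ Δ squarefree, k | l} hh l ∑_{d : k | d | l} μ(d), and the inner sum is μ(k) if l = k and 0 otherwise. So
z_k = μ(k) hh k/HH and the sum is (1/HH²) ∑ hh k = 1/HH. (hh k > 0.) -/
def S_Laq : Prop := ∀ Δ : ℕ, 1 ≤ Δ →
  ∑ d ∈ Icc 1 Δ, ∑ d' ∈ Icc 1 Δ, lam Δ d * lam Δ d' * gd (Nat.lcm d d') = 1 / HH Δ

/-! **Sel** (15 lines, helper76; S_Sel is in Iface.lean). Uses: Law, Laq. -/

/-! ### Part 7: the lower bound for H -/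

/-- the completely multiplicative function with the values F p -/
noncomputable def cm (F : ℕ → ℝ) (b : ℕ) : ℝ := ∏ p ∈ b.primeFactors, F p ^ b.factorization p

/-- **Rad** (100 lines; compare Sga_part in Lib/TP/Sga.lean, EulerProduct.summable_and_hasSum_factoredNumbers_prod_filter_prime_geometric).
Uses: nothing.
Proof. Induction on the set P of primes for the sum over the b ∈ T with b ≠ 0 and b.primeFactors = P: b = p^i b', i = v_p(b) ≥ 1, b' with the set of prime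
factors P \ {p}, the map b ↦ (i, b') is injective, cm F b = F p^i cm F b', ∑_{i ≥ 1} (F p)^i = F p/(1 - F p) (finite sums are smaller). -/
def S_Rad : Prop := ∀ (F : ℕ → ℝ) (P T : Finset ℕ), (∀ p : ℕ, p.Prime → 0 ≤ F p ∧ F p < 1) →
  (∀ p ∈ P, p.Prime) → (∀ b ∈ T, b ≠ 0 ∧ b.primeFactors = P) →
  ∑ b ∈ T, cm F b ≤ ∏ p ∈ P, F p / (1 - F p)

/-- **Uga** (100 lines). Uses: nothing.
Proof. Both sides are multiplicative functions of n (Dirichlet convolution: ArithmeticFunction.IsMultiplicative.mul,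
eq_iff_eq_on_prime_powers; or Nat.recOnPosPrimePosCoprime). For n = p^k, with g = (p-1)/p²: R_k = ∑_{i ≤ k} u(p^i) g^(k-i), u(p^i) = p^(-i-1) for i ≥ 1,
u(1) = 1; R_0 = 1 and R_k = g R_(k-1) + p^(-k-1) = p^(-k) (p g + 1/p) = p^(-k) by induction. (Only ≤ is needed.) -/
def S_Uga : Prop := ∀ n : ℕ, 1 ≤ n → 1 / (n : ℝ) ≤
  ∑ w ∈ n.divisorsAntidiagonal, 1 / ((w.1 : ℝ) * ((∏ p ∈ w.1.primeFactors, p : ℕ) : ℝ)) *
    cm (fun p => ((p : ℝ) - 1) / (p : ℝ) ^ 2) w.2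

/-! **Hlo** (OUTPUT, 130 lines; `theorem t_Hlo (h1 : S_Rad) (h2 : S_Uga) (h3 : CN.A.S_C0s) : S_Hlo`, the statement S_Hlo is in
Iface.lean). Uses: Rad, Uga, CN.A.S_C0s.
Proof. In fact log Δ ≤ c0 HH Δ for all Δ ≥ 1 (Δ0 = 1; (1 - ε) log Δ ≤ log Δ). log Δ ≤ ∑_{n ≤ Δ} 1/n (log_add_one_le_harmonic) ≤ (Uga,
w ∈ Icc 1 Δ × Icc 1 Δ) (∑_{a ≤ Δ} 1/(a rad a)) (∑_{b ≤ Δ} cm g b), g p = (p-1)/p². Sort the b by j = rad b = ∏ of the prime factors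
(squarefree, ≤ Δ, j.primeFactors = b.primeFactors): Rad gives ∑_{rad b = j} cm g b ≤ ∏ g p/(1 - g p) = hh j, so the second factor is ≤ HH Δ.
Sort the a by d = rad a: 1/(a d) = (1/d) cm (1/p) a, Rad with F p = 1/p: ≤ (1/d) ∏_{p | d} 1/(p-1) = 1/(d φ(d)), so the first factor is
≤ ∑_{d ≤ Δ squarefree} 1/(d φ(d)) ≤ c0 (h3 and Summable.sum_le_tsum). HH Δ ≥ 0. -/

end Pool.Agent.Lib.MP_a260de_nt.CN3
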