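import Pool.Agent.Lib.MP_a260de_nt.CN3.Iface
import Pool.Agent.Lib.SG.SpecA

/-!
MP_a260de_nt, PROJECT CN, part A, strong version (helper72): sieve and main terms,
ShiftedSmooth (39/100).

RULES. Module Xyz: file Pool/Agent/Lib/MP_a260de_nt/CN3/Xyz.lean, first line
`import Pool.Agent.Lib.MP_a260de_nt.CN3.SpecM` (plus the library files named in the docstring), then
`namespace Pool.Agent.Lib.MP_a260de_nt.CN3`, auxiliary lemmas private (or in a namespace of your own), final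
theorem `theorem tXyz (h1 : S_...) ... : S_Xyz`; the statements listed under Uses are hypotheses of your
theorem, in this order. Do not import other modules of this directory. No sorry, no congr!, module below 60 s.

PLAN. Es = Ep E0 E1. The triples (s,k,l) of bad3 z β e with k ≤ z^δ are few (Sml). Those with k > z^δ: ONE
Selberg sieve for the numbers e s l k + 1 (e in Ep, (s,l,k) in Tr Y K N), of level z^(1/2-2η), density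
gd(D) = φ(D)/D² (Uum: s and k are equidistributed, 1/φ(D) comes from the class -1 mod D). The number of the triples is
≤ N log 2 · ∑ 1/l, and 1/H(Δ) ≤ c0/log Δ, log Δ = (1/4-η) log z. So N2/N1 → 4 log(1/(2β)) = 0.9938 for β = 0.39.
-/

namespace Pool.Agent.Lib.MP_a260de_nt.CN3

open Finset Pool.Agent.Lib.MP_a260de_nt.CN.A

/-! ### Counting -/

/-- Module Cop (90 lines). Uses: nothing.
Proof. The indicator of (s, D) = 1 is ∑_{g | D, g | s} μ(g) (ArithmeticFunction.sum_moebius..., coe_mul_zeta; or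
∑_{g | gcd(s,D)} μ(g) = [gcd = 1]). Exchange the sums: the number is ∑_{g | D} μ(g) (⌊b/g⌋ - ⌊a/g⌋) (the number of the multiples of g
in (a, b]), and ⌊b/g⌋ - ⌊a/g⌋ differs from (b-a)/g by at most 1. ∑_{g | D} μ(g)/g = φ(D)/D (Möbius inversion of
∑_{g | D} φ(g) = D, Nat.sum_totient; or expand φ(D)/D = ∏ (1 - 1/p), Nat.totient_eq_mul_prod_factors, over the subsets of the set of
primes). The number of g | D with μ(g) ≠ 0 is 2^ω(D) (Nat.sum_divisors_filter_squarefree, card_powerset). -/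
def S_Cop : Prop := ∀ D a b : ℕ, 1 ≤ D → a ≤ b →
  |(((Ioc a b).filter (fun s => s.Coprime D)).card : ℝ) - ((b : ℝ) - a) * ((D.totient : ℝ) / D)| ≤
    2 ^ om D

/-- Module Trc (170 lines). Uses: Cop.
Proof. h = Y/2 (natural division), h + 1 ≥ Y/2. pt t is coprime to D iff s, k are coprime to D and l does not divide D.
(1) For fixed (l,k) the s with (s,l,k) in Tr are the s in (h, min Y (N/(lk))], so by Cop the number of those coprime to D is φ(D)/D times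
their number, up to 2^ω(D); there are such s only if l k (h+1) ≤ N, and the number of the pairs (l,k) with l k ≤ X = N/(h+1) ≤ 2N/Y is
≤ X (1 + log X) ≤ (2N/Y)(1 + log N) (∑_k ⌊X/k⌋, harmonic sum; 0 if X < 1). Hence T = (φ(D)/D) T' + error, T' = #{t in Tr: (k,D) = 1, l ∤ D}, |error|
≤ 2^ω(D) (2N/Y)(1 + log N). (2) For fixed (s,l) the k are those of (K, N/(sl)]: T' = (φ(D)/D) T'' + error, T'' = #{t in Tr : l ∤ D}, |error| ≤ 2^ω(D)·(number of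
the pairs (s,l) with s l (K+1) ≤ N) ≤ 2^ω(D) ∑_{h<s≤Y} N/(s(K+1)) ≤ 2^ω(D) N/(K+1) (∑_{h<s≤Y} 1/s ≤ (Y-h)/(h+1) ≤ 1). (3) |Tr| - T'' = the number of t with l | D:
for each of the ≤ ω(D) ≤ 2^ω(D) primes l | D, l > Y, it is ≤ ∑_s N/(sl) ≤ N/l ≤ N/Y. Total ≤ 2^ω(D) ((2N/Y)(1+log N) + N/(K+1) + N/Y). -/
def S_Trc : Prop := ∀ Y K N D : ℕ, 2 ≤ Y → 1 ≤ N → 1 ≤ D →
  |(((Tr Y K N).filter (fun t => (pt t).Coprime D)).card : ℝ) -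
      ((D.totient : ℝ) / D) ^ 2 * ((Tr Y K N).card : ℝ)| ≤
    2 ^ om D * ((N : ℝ) * (1 + Real.log N) * (3 / (Y : ℝ) + 1 / ((K : ℝ) + 1)))

/-- Module Wup (80 lines). Uses: nothing.
Proof. For fixed (s,l) the number of k ≥ 1 with s l k ≤ N is ≤ N/(s l); l Y ≤ l (2s) ≤ 2N (2s ≥ Y + 1 because s > Y/2; k ≥ 1), so l ≤ 2N/Y
(natural division). -/
def S_Wup : Prop := ∀ Y K N : ℕ, 2 ≤ Y →
  ((Tr Y K N).card : ℝ) ≤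
    (N : ℝ) * ((∑ s ∈ Ioc (Y / 2) Y, 1 / (s : ℝ)) * ∑ l ∈ (Ioc Y (2 * N / Y)).filter Nat.Prime, 1 / (l : ℝ))

/-- Module Uum (120 lines). Uses: Trc, Wup.
Proof. P = number of e in Ep coprime to D, T = number of t coprime to D, UU = P T. 0 ≤ |Ep| - P ≤ number of primes e | D ≤ ω(D) ≤ 2^ω(D) and P ≤ |Ep| ≤ E1.
gd D = (φ(D)/D)²/φ(D). So φ(D)·|UU/φ(D) - gd D |Ep| |Tr|| = |P T - (φ(D)/D)² |Ep| |Tr|| ≤ P |T - (φ(D)/D)² |Tr|| + (|Ep| - P)(φ(D)/D)² |Tr| ≤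
E1 2^ω(D) N (1+log N)(3/Y + 1/(K+1)) + 2^ω(D) |Tr| by Trc, and |Tr| ≤ N (1 + log N) by Wup (∑_{Y/2<s≤Y} 1/s ≤ 1: at most Y/2 + 1 terms, each ≤ 1/(Y/2+1);
∑_{l ≤ 2N/Y} 1/l ≤ 1 + log(2N/Y) ≤ 1 + log N because Y ≥ 2; the sum is 0 if 2N/Y = 0). -/
def S_Uum : Prop := ∀ E0 E1 Y K N D : ℕ, 2 ≤ Y → 1 ≤ N → 1 ≤ D →
  |(UU E0 E1 Y K N D : ℝ) / (D.totient : ℝ) -
      gd D * (((Ep E0 E1).card : ℝ) * ((Tr Y K N).card : ℝ))| ≤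
    2 ^ om D / (D.totient : ℝ) * ((N : ℝ) * (1 + Real.log N) *
      (3 * (E1 : ℝ) / Y + (E1 : ℝ) / ((K : ℝ) + 1) + 1))

/-! ### The sieve -/

/-- Module Svi (80 lines). Uses: nothing.
Proof. For w = (e,t) let m = e pt(t) + 1 and W(w) = (∑_{d in Icc 1 Δ, d | m} lam d)² ≥ 0. If m is prime then m > Δ (pt t ≥ l > Y ≥ Δ, e ≥ 1), so
d = 1 is the only d ≤ Δ dividing m and W = (lam 1)² = 1. So the left side is ≤ ∑_w W(w); expand the square and exchange the sums: d | m and d' | m iff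
lcm(d,d') | m. -/
def S_Svi : Prop := ∀ (E0 E1 Y K N Δ : ℕ) (lam : ℕ → ℝ), lam 1 = 1 → 1 ≤ Δ → Δ ≤ Y →
  (((Ep E0 E1 ×ˢ Tr Y K N).filter (fun w => (w.1 * pt w.2 + 1).Prime)).card : ℝ) ≤
    ∑ d ∈ Icc 1 Δ, ∑ d' ∈ Icc 1 Δ, lam d * lam d' * (AA E0 E1 Y K N (Nat.lcm d d') : ℝ)

/-- Module Lcm (80 lines). Uses: nothing.
Proof. Only pairs with lam d lam d' ≠ 0 contribute: d, d' squarefree, 1 ≤ d, d' ≤ Δ, and D = lcm(d,d') is squarefree, 1 ≤ D ≤ d d' ≤ Δ². |lam d lam d'| ≤ 1. For a given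
D there are at most 3^ω(D) pairs (Nat.card_pair_lcm_eq for D.divisors ×ˢ D.divisors; ω = cardDistinctFactors = primeFactors.card). Group the pairs by D
(Finset.sum_fiberwise_of_maps_to or card_eq_sum). -/
def S_Lcm : Prop := ∀ (Δ : ℕ) (lam G : ℕ → ℝ), (∀ d, |lam d| ≤ 1) →
  (∀ d, lam d ≠ 0 → Squarefree d ∧ 1 ≤ d ∧ d ≤ Δ) → (∀ D, 0 ≤ G D) →
  ∑ d ∈ Icc 1 Δ, ∑ d' ∈ Icc 1 Δ, |lam d * lam d'| * G (Nat.lcm d d') ≤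
    ∑ D ∈ (Icc 1 (Δ ^ 2)).filter Squarefree, 3 ^ om D * G D

/-- Module Two (150 lines). Uses: Err, Sel, Twc, Svi, Lcm, Uum.
Proof. lam from Sel, X = |Ep| |Tr|. Svi, and AA(D) = gd(D) X + (UU(D)/φ(D) - gd(D) X) + (AA(D) - UU(D)/φ(D)). The first part gives X ∑ lam lam' gd(lcm) = X/HH Δ. The
absolute values of the other two, by Lcm, are ≤ ∑_{D ≤ Δ² squarefree} 3^ω(D) |AA - UU/φ(D)| ≤ C E0 N/(log n)^A (Err with D = Δ²) and, by Uum,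
≤ ∑_{D ≤ Δ² squarefree} 6^ω(D)/φ(D) · N (1+log N)(3 E1/Y + E1/(K+1) + 1) ≤ (1 + log Δ²)^12 N (1+log n) · 9 E0/n^ρ (Twc with c = 6; E1 ≤ 2 E0, Y, K, E0 ≥ n^ρ; Δ² ≤ n), which
is ≤ E0 N/(log n)^A for large n (isLittleO_log_rpow_atTop). -/
def S_Two : Prop := ∀ A ρ : ℝ, 0 < A → 0 < ρ → ∃ (C : ℝ) (n0 : ℕ), 0 < C ∧
  ∀ n E0 E1 Y K N Δ : ℕ, n0 ≤ n → (n : ℝ) ^ ρ ≤ (E0 : ℝ) → E0 < E1 → E1 ≤ 2 * E0 → E1 ≤ n →
    (n : ℝ) ^ ρ ≤ (Y : ℝ) → (n : ℝ) ^ ρ ≤ (K : ℝ) → (n : ℝ) ^ ρ ≤ (N : ℝ) → N ≤ n → 1 ≤ Δ → Δ ≤ Y →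
    (Δ : ℝ) ^ 2 * (n : ℝ) ^ ρ ≤ Real.sqrt ((E0 : ℝ) * N) →
    (((Ep E0 E1 ×ˢ Tr Y K N).filter (fun w => (w.1 * pt w.2 + 1).Prime)).card : ℝ) ≤
      ((Ep E0 E1).card : ℝ) * ((Tr Y K N).card : ℝ) / HH Δ + C * ((E0 : ℝ) * N / Real.log n ^ A)

/-! ### Primes -/

/-- Module Mrz (100 lines). Uses: SG.MrtStmt (Mertens, landed: Pool.Agent.Lib.SG.tMrt).
Proof. x = ⌊z^β⌋ ≥ z^β/2, E0 ≥ z^(1/2-β-η)/2, y = 2(⌊z⌋/E0)/⌊z^β⌋ ≤ 2z/(E0 ⌊z^β⌋) ≤ 8 z^(1/2+η). If y < x the sum is empty (and the right side is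
> 0 because (1/2+η)/β > 1). Otherwise Mrt: the sum is ≤ log(log y/log x) + C/log x, log y ≤ (1/2+η) log z + log 8, log x ≥ β log z - log 2; the quotient tends to (1/2+η)/β and
C/log x to 0. -/
def S_Mrz : Prop := ∀ β η ε : ℝ, 0 < β → 0 < η → β + η < 1 / 2 → 0 < ε → ∃ z0 : ℝ, ∀ z : ℝ, z0 ≤ z →
  ∑ l ∈ (Ioc ⌊z ^ β⌋₊ (2 * (⌊z⌋₊ / ⌊z ^ (1 / 2 - β - η)⌋₊) / ⌊z ^ β⌋₊)).filter Nat.Prime, 1 / (l : ℝ) ≤
    Real.log ((1 / 2 + η) / β) + ε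

/-- Module Ecp (100 lines). Uses: BV.PntStmt. (As CN.A.S_Ech, with 1 + κ in place of 2.)
Proof. M = ⌊z^θ⌋₊, M1 = ⌊(1+κ) M⌋₊ ≥ (1+κ) M - 1. Pnt with A = 2 at M1 and M: the number of primes in (M, M1] is ≥ li(M1) - li(M) - 2C(2M)/(log M)² ≥
(κ M - 1)/log(2M) - 4CM/(log M)² ≥ κ M/(2 log M) for large M, and every term is ≥ 1/(2M), so the sum is ≥ κ/(4 log M) ≥ κ/(4 log z) ≥ 1/(log z)²
(θ ≤ 1). (li(M1) - li(M) ≥ (M1 - M)/log(M1): the integrand is ≥ 1/log(2M) on [M, M1].) -/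
def S_Ecp : Prop := ∀ θ κ : ℝ, 0 < θ → θ ≤ 1 → 0 < κ → κ ≤ 1 → ∃ z0 : ℝ, ∀ z : ℝ, z0 ≤ z →
  1 / (Real.log z) ^ 2 ≤
    ∑ e ∈ Ep ⌊z ^ θ⌋₊ ⌊(1 + κ) * (⌊z ^ θ⌋₊ : ℝ)⌋₊, 1 / (e : ℝ)

/-! ### The two ranges of k -/

/-- Module Sml (150 lines). Uses: C0s, PhU, N2a, N2b (of CN/SpecA). (As CN.A.S_N2, with k ≤ z^δ.)
Proof. ε' small against ε and δ, β. If (s,k,l) is counted, then s > z^β/2 - 1 ≥ z^β/3, so k l ≤ X := 3 z^(1-β)/e, and k ≤ K = ⌊z^δ⌋₊. So the number is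
≤ ∑_{k ≤ K} ∑_l ct z β e k l over the pairs with k l ≤ X, l ≤ z prime, l > z^β. With N2a (θ = 1/2-β-η) and N2b it is ≤ (1+ε')² (2/(β log z)) (log 2 z/(e β log z)) ∑_{k ≤ K} 1/φ(k) +
P z^(β(1-ε'/4)), P = #{(k,l) : k l ≤ X} ≤ X (1 + log X) ≤ (3 z^(1-β)/e)(1 + log z) (if X < 1 there are no pairs); the last term is
≤ (z/e) z^(-βε'/4) 3(1 + log z) ≤ ε' (z/log z)/e for large z. PhU: ∑ 1/φ(k) ≤ c0 (1 + log K) ≤ c0 (1+ε') δ log z. The sum is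
≤ (1+ε')³ (2δ/β²) c0 log 2 (z/log z)/e + ε' (z/log z)/e; c0 ≥ 1 (C0s), log 2 ≥ 1/2. -/
def S_Sml : Prop := ∀ β η δ ε : ℝ, 0 < β → 0 < η → β + η < 1 / 2 → 0 < δ → 0 < ε →
  ∃ z0 : ℝ, ∀ z : ℝ, z0 ≤ z →
  ∀ e : ℕ, e.Prime → z ^ (1 / 2 - β - η) < (e : ℝ) → e ≤ 2 * ⌊z ^ (1 / 2 - β - η)⌋₊ →
    (((bad3 z β e).filter (fun t => (t.2.1 : ℝ) ≤ z ^ δ)).card : ℝ) ≤
      (1 + ε) * (2 * δ / β ^ 2) * c0 * Real.log 2 * (z / Real.log z) / e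

/-- Module Inb (90 lines). The combinatorial part for large k. Uses: nothing.
Proof. E0 = ⌊z^(1/2-β-η)⌋₊ (any natural E0 ≥ 1 works). For e in Ep E0 E1 the map (s,k,l) ↦ (s,l,k) is injective and maps the triples of bad3 z β e with z^δ < k into
{t in Tr Y K N : e pt(t) + 1 prime}, Y = ⌊z^β⌋₊, K = ⌊z^δ⌋₊, N = ⌊z⌋₊/E0: s in Sr z β = Ioc (Y/2) Y, l > z^β gives l > Y, k > z^δ gives k > K, and e k l s + 1 ≤ z gives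
E0 (s l k) ≤ e k l s ≤ ⌊z⌋₊, so s l k ≤ N (Nat.le_div_iff_mul_le), l ≤ N, k ≤ N (s, k, l ≥ 1). Sum over e (card of a filtered product = sum of cards: card_filter,
sum_product). -/
def S_Inb : Prop := ∀ (z β δ : ℝ) (E0 E1 : ℕ), 1 ≤ z → 0 < β → 0 < δ → 1 ≤ E0 →
  ∑ e ∈ Ep E0 E1, (((bad3 z β e).filter (fun t => z ^ δ < (t.2.1 : ℝ))).card : ℝ) ≤
    (((Ep E0 E1 ×ˢ Tr ⌊z ^ β⌋₊ ⌊z ^ δ⌋₊ (⌊z⌋₊ / E0)).filter (fun w => (w.1 * pt w.2 + 1).Prime)).card : ℝ)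

/-- Module Big (170 lines). Uses: C0s, In2 (of CN/SpecA), Hlo, Wup, Two, Mrz, Inb.
Proof. n = ⌊z⌋₊, E0 = ⌊z^(1/2-β-η)⌋₊, E1 = ⌊(1+κ)E0⌋₊ ≤ 2E0, Y = ⌊z^β⌋₊, K = ⌊z^δ⌋₊, N = n/E0, Δ = ⌊z^(1/4-η)⌋₊ ≤ Y, ρ = min(η, δ, 1/2-β-η, β)/2. E0 N ≤ n ≤ z and E0 N ≥ n - E0 ≥ z/4, so
Δ² n^ρ ≤ z^(1/2-2η+ρ) ≤ √z/2 ≤ √(E0 N) for large z; n^ρ ≤ E0, Y, K, N for large z; E0 < E1 for large z. Inb and Two (A = 5): the left side is ≤ |Ep| |Tr|/HH Δ + C z/(log n)^5, and C/(log n)^5 ≤ 1/(log z)^4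
for large z. |Ep| ≤ E1 ∑ 1/e ≤ (1+κ) E0 ∑ 1/e. |Tr| ≤ N (1+ε') log 2 (L + ε'), L = log((1/2+η)/β), by Wup, In2, Mrz. 1/HH Δ ≤ c0/((1-ε') log Δ) by Hlo (c0 ≥ 1 > 0), log Δ ≥ (1/4-η) log z - log 2
≥ (1-ε')(1/4-η) log z. So the first term is ≤ (1+κ)(1+ε')(L+ε')/((1-ε')²(1/4-η)) c0 log 2 (z/log z) ∑ 1/e, and 1/(1/4-η) = 4/(1-4η); choose ε' small. -/
def S_Big : Prop := ∀ β η κ δ ε : ℝ, 1 / 4 < β → 0 < η → β + η < 1 / 2 → 0 < κ → κ ≤ 1 → 0 < δ → 0 < ε →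
  ∃ z0 : ℝ, ∀ z : ℝ, z0 ≤ z →
    ∑ e ∈ Ep ⌊z ^ (1 / 2 - β - η)⌋₊ ⌊(1 + κ) * (⌊z ^ (1 / 2 - β - η)⌋₊ : ℝ)⌋₊,
        (((bad3 z β e).filter (fun t => z ^ δ < (t.2.1 : ℝ))).card : ℝ) ≤
      ((1 + κ) * (4 / (1 - 4 * η)) * Real.log ((1 / 2 + η) / β) + ε) * c0 * Real.log 2 *
        (z / Real.log z) *
        (∑ e ∈ Ep ⌊z ^ (1 / 2 - β - η)⌋₊ ⌊(1 + κ) * (⌊z ^ (1 / 2 - β - η)⌋₊ : ℝ)⌋₊, 1 / (e : ℝ)) +
      z / (Real.log z) ^ 4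

/-- Module Sec3 (150 lines; final statement in general form). Uses: C0s, N1, Cmb (of CN/SpecA), Ecp, Sml, Big.
Proof. The function (1+κ)(4/(1-4η)) log((1/2+η)/β) + 2δ(1+ε)/β² + ε tends to 4 log(1/(2β)) < 1 as η, κ, δ, ε → 0: choose them > 0 with value < 1 - 3ε, β + η < 1/2, η < 1/8, κ ≤ 1 (choose them one after another).
θ = 1/2-β-η < 1/4 < β. Es = Ep E0 E1, E0 = ⌊z^θ⌋₊, E1 = ⌊(1+κ)E0⌋₊: primes e with z^θ < e ≤ 2 E0 ≤ 2 z^θ ≤ z^β for large z. N1 (A = 4, this ε), Sml for each e and Big: with M = c0 log 2 (z/log z) ∑ 1/e the left side of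
Cmb minus the first sum on the right is ≥ (1-ε) M - z/(log z)^4 - (1-3ε) M - z/(log z)^4 ≥ 2ε M - 2z/(log z)^4 ≥ z/(log z)^4 for large z, since ∑ 1/e ≥ 1/(log z)² (Ecp), c0 ≥ 1, log 2 ≥ 1/2. (card(bad3) is the sum of the two
filtered cards.) So the number of good primes is ≥ z^(1-ε0/2)/(C (log z)^4) ≥ z^(1-ε0) (Cmb with ε0/2). -/
def S_Sec3 : Prop := ∀ β : ℝ, 1 / 4 < β → β < 1 / 2 → 4 * Real.log (1 / (2 * β)) < 1 → CN.ShiftedSmooth β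

/-- Module A3 (30 lines). Uses: Sec3. Proof. 1/0.78 < 1.2821 < 1 + 1/4 + 1/32 + 1/384 ≤ exp(1/4) (Real.sum_le_exp_of_nonneg or Real.add_one_le_exp for a power:
(1 + 1/64)^16 ≤ exp(1/4), 1.2819...: not enough, use the Taylor polynomial). -/
def S_A3 : Prop := CN.ShiftedSmooth ((39 : ℝ) / 100)

end Pool.Agent.Lib.MP_a260de_nt.CN3
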